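import Mathlib.Topology.Algebra.Category.ProfiniteGrp.Completion
import Mathlib.Topology.Algebra.ClopenNhdofOne
import Mathlib.GroupTheory.Finiteness
import Mathlib.Tactic

/-! Finitely generated groups with the same finite quotients have the same profinite completion. -/

set_option autoImplicit false

namespace Pool.Agent.Work.MP_f81df4_al.H80

/-- The universal property of the profinite completion. -/
def IsProfCompl {Λ K : Type} [Group Λ] [TopologicalSpace K] [Group K] (i : Λ →* K) : Prop :=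
  ∀ (M : Type) [TopologicalSpace M] [Group M] [IsTopologicalGroup M] [CompactSpace M]
    [T2Space M] [TotallyDisconnectedSpace M] (f : Λ →* M),
    ∃! h : K →* M, Continuous h ∧ h.comp i = f

theorem finite_hom (Λ Q : Type) [Group Λ] [Group Q] [Finite Q] (h : Group.FG Λ) :
    Finite (Λ →* Q) := by
  obtain ⟨S, hS, hfin⟩ := Group.fg_iff.1 h
  have : Finite S := hfin
  refine Finite.of_injective (fun (f : Λ →* Q) (s : S) => f s) fun f g hfg => ?_
  exact MonoidHom.eq_of_eqOn_dense hS fun s hs => congrFun hfg ⟨s, hs⟩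

theorem exists_profCompl (Λ : Type) [Group Λ] :
    ∃ (K : Type) (_ : TopologicalSpace K) (_ : Group K) (_ : IsTopologicalGroup K)
      (_ : CompactSpace K) (_ : T2Space K) (_ : TotallyDisconnectedSpace K) (i : Λ →* K),
      DenseRange i ∧ IsProfCompl i := by
  open ProfiniteGrp.ProfiniteCompletion in
  refine ⟨completion (GrpCat.of Λ), inferInstance, inferInstance, inferInstance, inferInstance,
    inferInstance, inferInstance, (eta (GrpCat.of Λ)).hom, denseRange (GrpCat.of Λ), ?_⟩
  intro M _ _ _ _ _ _ f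
  let h := lift (G := GrpCat.of Λ) (P := ProfiniteGrp.of M) (GrpCat.ofHom f)
  have hh : (h.hom.toMonoidHom).comp (eta (GrpCat.of Λ)).hom = f :=
    congrArg GrpCat.Hom.hom (lift_eta (G := GrpCat.of Λ) (P := ProfiniteGrp.of M) (GrpCat.ofHom f))
  refine ⟨h.hom.toMonoidHom, ⟨h.hom.continuous_toFun, hh⟩, ?_⟩
  rintro h' ⟨h1, h2⟩
  ext x
  refine congrFun ((denseRange (GrpCat.of Λ)).equalizer h1 h.hom.continuous_toFun ?_) x
  funext y
  exact (DFunLike.congr_fun h2 y).trans (DFunLike.congr_fun hh y).symm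

section

variable {K : Type} [TopologicalSpace K] [Group K] [IsTopologicalGroup K] [CompactSpace K]
  [T2Space K] [TotallyDisconnectedSpace K]

theorem eq_of_forall_quot {a b : K}
    (h : ∀ U : OpenNormalSubgroup K, (a : K ⧸ U.toSubgroup) = b) : a = b := by
  by_contra hne
  have h1 : a⁻¹ * b ≠ 1 := fun h => hne (inv_mul_eq_one.1 h)
  obtain ⟨U, hU⟩ := ProfiniteGrp.exist_openNormalSubgroup_sub_open_nhds_of_one
    (G := K) (U := {a⁻¹ * b}ᶜ) isOpen_compl_singleton h1.symm
  exact hU (QuotientGroup.eq.1 (h U)) rfl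

omit [T2Space K] [TotallyDisconnectedSpace K] in
theorem finite_quot (U : OpenNormalSubgroup K) : Finite (K ⧸ U.toSubgroup) :=
  Subgroup.quotient_finite_of_isOpen _ U.isOpen

omit [T2Space K] [TotallyDisconnectedSpace K] [CompactSpace K] in
theorem surj_quot_of_dense {Λ : Type} [Group Λ] {i : Λ →* K} (hi : DenseRange i)
    (U : OpenNormalSubgroup K) : Function.Surjective ((QuotientGroup.mk' U.toSubgroup).comp i) := by
  intro q
  have : DiscreteTopology (K ⧸ U.toSubgroup) := QuotientGroup.discreteTopology U.isOpen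
  obtain ⟨k, rfl⟩ := QuotientGroup.mk_surjective q
  obtain ⟨x, hx⟩ := hi.exists_mem_open
    ((isOpen_discrete {(k : K ⧸ U.toSubgroup)}).preimage QuotientGroup.continuous_mk) ⟨k, rfl⟩
  exact ⟨x, hx⟩

/-- A compactness argument: compatible choices modulo all open normal subgroups. -/
theorem exists_of_forall_quot {ι : Type} (S : OpenNormalSubgroup K → Set (ι → K))
    (hcl : ∀ U, IsClosed (S U)) (hne : ∀ U, (S U).Nonempty)
    (hmono : ∀ U V, U ≤ V → S U ⊆ S V) : ∃ f, ∀ U, f ∈ S U := by
  have : Nonempty (OpenNormalSubgroup K) := ⟨{ toOpenSubgroup := ⊤, isNormal' := Subgroup.normal_top }⟩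
  obtain ⟨f, hf⟩ := IsCompact.nonempty_iInter_of_directed_nonempty_isCompact_isClosed S
    (fun U V => ⟨U ⊓ V, hmono _ _ inf_le_left, hmono _ _ inf_le_right⟩) hne
    (fun U => (hcl U).isCompact) hcl
  exact ⟨f, Set.mem_iInter.1 hf⟩

omit [CompactSpace K] [T2Space K] [TotallyDisconnectedSpace K] in
theorem isClosed_lifts {ι : Type} (U : OpenNormalSubgroup K) (φ : ι → K ⧸ U.toSubgroup) :
    IsClosed {f : ι → K | ∀ x, (f x : K ⧸ U.toSubgroup) = φ x} := by
  have : DiscreteTopology (K ⧸ U.toSubgroup) := QuotientGroup.discreteTopology U.isOpen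
  simp only [Set.ofPred_forall]
  exact isClosed_iInter fun x => isClosed_eq
    (QuotientGroup.continuous_mk.comp (continuous_apply x)) continuous_const

theorem exists_dense_hom {Γ : Type} [Group Γ] (hΓ : Group.FG Γ)
    (h : ∀ U : OpenNormalSubgroup K, ∃ φ : Γ →* K ⧸ U.toSubgroup, Function.Surjective φ) :
    ∃ j : Γ →* K, DenseRange j := by
  obtain ⟨f, hf⟩ := exists_of_forall_quot (ι := Γ)
    (fun U : OpenNormalSubgroup K => ⋃ φ ∈ {φ : Γ →* K ⧸ U.toSubgroup | Function.Surjective φ},
      {f : Γ → K | ∀ x, (f x : K ⧸ U.toSubgroup) = φ x})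
    (fun U => by
      have := finite_quot U
      have := finite_hom Γ (K ⧸ U.toSubgroup) hΓ
      exact (Set.toFinite _).isClosed_biUnion fun φ _ => isClosed_lifts U φ)
    (fun U => by
      obtain ⟨φ, hφ⟩ := h U
      exact ⟨fun x => (φ x).out, Set.mem_biUnion hφ fun x => QuotientGroup.out_eq' _⟩)
    (fun U V hUV f hf => by
      obtain ⟨φ, hφ, hf⟩ := Set.mem_iUnion₂.1 hf
      let π : K ⧸ U.toSubgroup →* K ⧸ V.toSubgroup :=
        QuotientGroup.map _ _ (MonoidHom.id K) hUV
      refine Set.mem_biUnion (x := π.comp φ) ?_ fun x => ?_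
      · refine Function.Surjective.comp (g := π) (f := φ) (fun q => ?_) hφ
        obtain ⟨k, rfl⟩ := QuotientGroup.mk_surjective q
        exact ⟨k, rfl⟩
      · rw [MonoidHom.comp_apply, ← hf x]
        rfl)
  have hf' : ∀ U : OpenNormalSubgroup K, ∃ φ : Γ →* K ⧸ U.toSubgroup, Function.Surjective φ ∧
      ∀ x, (f x : K ⧸ U.toSubgroup) = φ x := fun U => by
    obtain ⟨φ, hφ, hf⟩ := Set.mem_iUnion₂.1 (hf U)
    exact ⟨φ, hφ, hf⟩
  refine ⟨MonoidHom.mk' f fun a b => eq_of_forall_quot fun U => ?_, ?_⟩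
  · obtain ⟨φ, -, hφ⟩ := hf' U
    rw [QuotientGroup.mk_mul, hφ, hφ, hφ, map_mul]
  · refine dense_iff_inter_open.2 ?_
    rintro W hW ⟨k, hk⟩
    obtain ⟨U, hU⟩ := ProfiniteGrp.exist_openNormalSubgroup_sub_open_nhds_of_one
      (G := K) (U := (fun x => k * x) ⁻¹' W) (hW.preimage (continuous_const_mul k)) (by simpa)
    obtain ⟨φ, h1, h2⟩ := hf' U
    obtain ⟨x, hx⟩ := h1 k
    refine ⟨f x, ?_, x, rfl⟩
    have : k⁻¹ * f x ∈ U := QuotientGroup.eq.1 (by rw [h2, hx])
    simpa using hU this

theorem isProfCompl_of_finite {Γ : Type} [Group Γ] {j : Γ →* K} (hj : DenseRange j)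
    (h : ∀ (Q : Type) [Group Q] [Finite Q] [TopologicalSpace Q] [DiscreteTopology Q] (f : Γ →* Q),
      ∃ h : K →* Q, Continuous h ∧ h.comp j = f) : IsProfCompl j := by
  intro M _ _ _ _ _ _ f
  have huniq : ∀ {M : Type} [TopologicalSpace M] [Group M] [T2Space M] (h h' : K →* M),
      Continuous h → Continuous h' → h.comp j = h'.comp j → h = h' := by
    intro M _ _ _ h h' h1 h2 h3
    ext x
    exact congrFun (hj.equalizer h1 h2 (funext fun y => DFunLike.congr_fun h3 y)) x
  have hq : ∀ V : OpenNormalSubgroup M, ∃ h : K →* M ⧸ V.toSubgroup, Continuous h ∧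
      h.comp j = (QuotientGroup.mk' V.toSubgroup).comp f := fun V => by
    have := finite_quot V
    have : DiscreteTopology (M ⧸ V.toSubgroup) := QuotientGroup.discreteTopology V.isOpen
    exact h _ _
  choose hV hV1 hV2 using hq
  obtain ⟨g, hg⟩ := exists_of_forall_quot (ι := K)
    (fun V : OpenNormalSubgroup M => {g : K → M | ∀ x, (g x : M ⧸ V.toSubgroup) = hV V x})
    (fun V => isClosed_lifts V _)
    (fun V => ⟨fun x => (hV V x).out, fun x => QuotientGroup.out_eq' _⟩)
    (fun U V hUV g hg x => by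
      have : DiscreteTopology (M ⧸ U.toSubgroup) := QuotientGroup.discreteTopology U.isOpen
      have : DiscreteTopology (M ⧸ V.toSubgroup) := QuotientGroup.discreteTopology V.isOpen
      let π : M ⧸ U.toSubgroup →* M ⧸ V.toSubgroup :=
        QuotientGroup.map _ _ (MonoidHom.id M) hUV
      have := huniq (π.comp (hV U)) (hV V) 
        ((continuous_of_discreteTopology (f := π)).comp (hV1 U)) (hV1 V)
        (by rw [MonoidHom.comp_assoc, hV2, hV2]; rfl)
      rw [← this, MonoidHom.comp_apply, ← hg x]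
      rfl)
  let g' : K →* M := MonoidHom.mk' g fun a b => eq_of_forall_quot fun V => by
    rw [QuotientGroup.mk_mul, hg, hg, hg, map_mul]
  have hcont : Continuous g' := by
    refine continuous_of_continuousAt_one g' ?_
    rw [ContinuousAt, map_one, Filter.tendsto_def]
    intro W hW
    obtain ⟨W', h1, h2, h3⟩ := mem_nhds_iff.1 hW
    obtain ⟨V, hV'⟩ := ProfiniteGrp.exist_openNormalSubgroup_sub_open_nhds_of_one h2 h3
    have : DiscreteTopology (M ⧸ V.toSubgroup) := QuotientGroup.discreteTopology V.isOpen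
    refine Filter.mem_of_superset (((isOpen_discrete {1}).preimage (hV1 V)).mem_nhds
      (by simp)) fun x hx => h1 (hV' ?_)
    exact (QuotientGroup.eq_one_iff _).1 ((hg V x).trans hx)
  have hcomp : g'.comp j = f := by
    ext x
    exact eq_of_forall_quot fun V => (hg V _).trans (DFunLike.congr_fun (hV2 V) x)
  exact ⟨g', ⟨hcont, hcomp⟩, fun h' hh => huniq _ _ hh.1 hcont (hh.2.trans hcomp.symm)⟩

omit [IsTopologicalGroup K] [CompactSpace K] [T2Space K] [TotallyDisconnectedSpace K] in
theorem card_hom_le {Λ Γ : Type} [Group Λ] [Group Γ] {i : Λ →* K} (hi : IsProfCompl i)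
    {j : Γ →* K} (hj : DenseRange j) (Q : Type) [Group Q] [Finite Q] [TopologicalSpace Q]
    [DiscreteTopology Q] :
    ∃ F : (Λ →* Q) → (Γ →* Q), Function.Injective F ∧
      ∀ f, ∃ h : K →* Q, Continuous h ∧ h.comp j = F f := by
  choose h hh using fun f => (hi Q f).exists
  refine ⟨fun f => (h f).comp j, fun f f' hff => ?_, fun f => ⟨h f, (hh f).1, rfl⟩⟩
  have : h f = h f' := by
    ext x
    exact congrFun (hj.equalizer (hh f).1 (hh f').1
      (funext fun y => DFunLike.congr_fun hff y)) x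
  rw [← (hh f).2, ← (hh f').2, this]

end

/-- Finitely generated groups with the same finite quotients have a common profinite
completion. -/
theorem exists_common_profCompl {Λ Γ : Type} [Group Λ] [Group Γ] (hΛ : Group.FG Λ)
    (hΓ : Group.FG Γ)
    (h1 : ∀ (Q : Type) [Group Q] [Finite Q] (f : Λ →* Q), Function.Surjective f →
      ∃ g : Γ →* Q, Function.Surjective g)
    (h2 : ∀ (Q : Type) [Group Q] [Finite Q] (f : Γ →* Q), Function.Surjective f →
      ∃ g : Λ →* Q, Function.Surjective g) :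
    ∃ (K : Type) (_ : TopologicalSpace K) (_ : Group K) (_ : IsTopologicalGroup K)
      (_ : CompactSpace K) (_ : T2Space K) (_ : TotallyDisconnectedSpace K) (i : Λ →* K)
      (j : Γ →* K), IsProfCompl i ∧ IsProfCompl j := by
  obtain ⟨K, _, _, _, _, _, _, i, hi1, hi2⟩ := exists_profCompl Λ
  obtain ⟨K', _, _, _, _, _, _, i', hi1', hi2'⟩ := exists_profCompl Γ
  obtain ⟨j, hj⟩ := exists_dense_hom (K := K) hΓ fun U => by
    have := finite_quot U
    exact h1 _ _ (surj_quot_of_dense hi1 U)
  obtain ⟨j', hj'⟩ := exists_dense_hom (K := K') hΛ fun U => by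
    have := finite_quot U
    exact h2 _ _ (surj_quot_of_dense hi1' U)
  refine ⟨K, _, _, ‹_›, ‹_›, ‹_›, ‹_›, i, j, hi2, isProfCompl_of_finite hj ?_⟩
  intro Q _ _ _ _ f
  obtain ⟨F, hF1, hF2⟩ := card_hom_le hi2 hj Q
  obtain ⟨F', hF1', -⟩ := card_hom_le hi2' hj' Q
  have := finite_hom Γ Q hΓ
  have hsurj : Function.Surjective (F ∘ F') := Finite.surjective_of_injective (hF1.comp hF1')
  obtain ⟨g, rfl⟩ := hsurj f
  exact hF2 _

end Pool.Agent.Work.MP_f81df4_al.H80
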