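import Pool.Agent.Work.MP_f81df4_al.H80Lam
import Pool.Agent.Work.MP_f81df4_al.H80Profinite

/-! A surjection onto the triangle group from a group with the same finite quotients as `Λ_k`. -/

set_option autoImplicit false

namespace Pool.Agent.Work.MP_f81df4_al.H80

section fin

variable {L G : Type} [Group L] [Group G] (E : BohrEquiv L G)

/-- The correspondence for homomorphisms to a finite group. -/
def fe (Q : Type) [Group Q] [Finite Q] : (L →* Q) ≃ (G →* Q) :=
  letI : TopologicalSpace Q := ⊥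
  haveI : DiscreteTopology Q := ⟨rfl⟩
  E.e Q

theorem fe_eq (Q : Type) [Group Q] [Finite Q] [t : TopologicalSpace Q] [d : DiscreteTopology Q]
    [IsTopologicalGroup Q] [CompactSpace Q] [T2Space Q] : E.e Q = fe E Q := by
  obtain ⟨rfl⟩ := d
  rfl

variable {Q Q' : Type} [Group Q] [Finite Q] [Group Q'] [Finite Q']

theorem fe_nat (u : Q →* Q') (h : L →* Q) : fe E Q' (u.comp h) = u.comp (fe E Q h) := by
  let _ : TopologicalSpace Q := ⊥
  have : DiscreteTopology Q := ⟨rfl⟩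
  let _ : TopologicalSpace Q' := ⊥
  have : DiscreteTopology Q' := ⟨rfl⟩
  exact E.nat Q Q' u continuous_of_discreteTopology h

theorem fe_range (h : L →* Q) : Set.range (fe E Q h) = Set.range h := by
  let _ : TopologicalSpace Q := ⊥
  have : DiscreteTopology Q := ⟨rfl⟩
  exact E.range_eq h

theorem fe_symm_nat (u : Q →* Q') (h : G →* Q) :
    (fe E Q').symm (u.comp h) = u.comp ((fe E Q).symm h) := by
  rw [Equiv.symm_apply_eq, fe_nat, Equiv.apply_symm_apply]

theorem fe_symm_range (h : G →* Q) : Set.range ((fe E Q).symm h) = Set.range h := by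
  rw [← fe_range E, Equiv.apply_symm_apply]

end fin

theorem eq_one_of_coprime {H : Type} [Group H] {x : H} {a b : ℕ} (h : a.Coprime b) (ha : x ^ a = 1)
    (hb : x ^ b = 1) : x = 1 := by
  have := Nat.dvd_gcd (orderOf_dvd_of_pow_eq_one ha) (orderOf_dvd_of_pow_eq_one hb)
  rwa [h, Nat.dvd_one, orderOf_eq_one_iff] at this

theorem tri_fg {Δ : Type} [Group Δ] (T : TriData Δ) : Group.FG Δ :=
  Group.fg_iff.2 ⟨_, T.gen, Set.finite_range _⟩

section hopf

variable {L G Δ : Type} [Group L] [Group G] [Group Δ] (E : BohrEquiv L G) {k : ℕ}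
  (A : LamData L k) (T : TriData Δ) (hp0 : T.p 0 = 2) (hp1 : T.p 1 = 5) (hp2 : T.p 2 = 5)
  {q : G →* Δ} (hq : Function.Surjective q)

theorem torsion_image {Q : Type} [Group Q] [Finite Q] (ψ : Δ →* Q) {e : L} {ℓ : ℕ} (hℓ : ℓ.Prime)
    (he : e ^ ℓ = 1) : (fe E Q).symm (ψ.comp q) e = 1 ∨
      ∃ j y, (fe E Q).symm (ψ.comp q) e ∈ Subgroup.zpowers (ψ (y⁻¹ * T.g j * y)) := by
  by_contra hcon
  push Not at hcon
  obtain ⟨Q', _, _, ψ', hψ'⟩ := T.torsion_lemma ψ hℓ (by rw [← map_pow, he, map_one]) hcon.1 hcon.2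
  have h1 := fe_symm_nat E (MonoidHom.fst Q Q') ((ψ.prod ψ').comp q)
  obtain ⟨γ, hγ⟩ : (fe E (Q × Q')).symm ((ψ.prod ψ').comp q) e ∈
      Set.range ((ψ.prod ψ').comp q) := by
    rw [← fe_symm_range E]
    exact Set.mem_range_self e
  refine hψ' (q γ) ?_ ?_
  · exact (congrArg Prod.fst hγ).trans (DFunLike.congr_fun h1 e).symm
  · have h2 : ((ψ.prod ψ').comp q γ) ^ ℓ = 1 := by rw [hγ, ← map_pow, he, map_one]
    exact congrArg Prod.snd h2

theorem conj_g_pow {Q : Type} [Group Q] (ψ : Δ →* Q) (j : Fin 3) (y : Δ) {u : Q}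
    (hu : u ∈ Subgroup.zpowers (ψ (y⁻¹ * T.g j * y))) : u ^ T.p j = 1 := by
  obtain ⟨n, rfl⟩ := hu
  have := conj_pow (a := y⁻¹) (b := T.g j) (i := T.p j)
  rw [inv_inv, T.pow] at this
  simp only
  rw [← zpow_natCast, ← zpow_mul, mul_comm, zpow_mul, zpow_natCast, ← map_pow, this]
  simp

include hp0 hp1 hp2 hq in
theorem kills_of_factor {Q : Type} [Group Q] [Finite Q] (ψ : Δ →* Q) :
    (fe E Q).symm (ψ.comp q) A.f = 1 ∧ (fe E Q).symm (ψ.comp q) ((A.y * A.z) ^ 2) = 1 := by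
  set h := (fe E Q).symm (ψ.comp q) with hh
  constructor
  · rcases torsion_image E T ψ (by norm_num : Nat.Prime 11) A.rel.hf (q := q) with h1 | ⟨j, y, h1⟩
    · exact h1
    · have h2 := conj_g_pow T ψ j y h1
      refine eq_one_of_coprime ?_ h2 (by rw [← map_pow, A.rel.hf, map_one])
      fin_cases j <;> simp [hp0, hp1, hp2] <;> norm_num
  · have hc2 : h ((A.y * A.z) ^ 2) ^ 2 = 1 := by rw [← map_pow, rel_c2 A.rel, map_one]
    rcases torsion_image E T ψ Nat.prime_two (rel_c2 A.rel) (q := q) with h1 | ⟨j, y, h1⟩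
    · exact h1
    · have h2 := conj_g_pow T ψ j y h1
      rw [← hh] at h1 h2
      by_cases hj : j = 0
      · subst hj
        have hcen : ∀ δ, Commute (h ((A.y * A.z) ^ 2)) (ψ δ) := by
          intro δ
          obtain ⟨γ, rfl⟩ := hq δ
          obtain ⟨l, hl⟩ : ψ.comp q γ ∈ Set.range h := by
            rw [hh, fe_symm_range]
            exact Set.mem_range_self γ
          rw [← MonoidHom.comp_apply, ← hl]
          exact (lam_c_comm A l).map h
        generalize h ((A.y * A.z) ^ 2) = u at *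
        obtain ⟨n, hn⟩ := h1
        have h3 := conj_g_pow T ψ 0 y (Subgroup.mem_zpowers _)
        rw [hp0] at h3
        simp only at hn
        rcases Int.even_or_odd' n with ⟨m, rfl | rfl⟩
        · rw [← hn, zpow_mul, zpow_ofNat, h3, one_zpow]
        · rw [zpow_add, zpow_mul, zpow_ofNat, h3, one_zpow, one_mul, zpow_one] at hn
          have h4 : ψ (T.g 0) = u := by
            have : ψ (T.g 0) = ψ y * u * (ψ y)⁻¹ := by rw [← hn]; simp [mul_assoc]
            rw [this, ← (hcen y).eq, mul_inv_cancel_right]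
          have h5 : (ψ (T.g 2))⁻¹ = u * ψ (T.g 1) := by
            rw [inv_eq_iff_mul_eq_one, mul_eq_one_comm, ← h4, ← map_mul, ← map_mul, T.prod, map_one]
          have h6 : (u * ψ (T.g 1)) ^ 5 = 1 := by
            rw [← h5, inv_pow, ← map_pow, ← hp2, T.pow, map_one, inv_one]
          rw [(hcen _).mul_pow, ← map_pow, ← hp1, T.pow, map_one, mul_one, hp1] at h6
          exact eq_one_of_coprime (by norm_num) hc2 h6
      · refine eq_one_of_coprime ?_ h2 hc2
        fin_cases j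
        · exact absurd rfl hj
        · simp [hp1]; norm_num
        · simp [hp2]; norm_num

include hp0 hp1 hp2 hq in
theorem factor_of_kills {Q : Type} [Group Q] [Finite Q] (h : L →* Q) (h1 : h A.f = 1)
    (h2 : h ((A.y * A.z) ^ 2) = 1) : ∃ ψ : Δ →* Q, fe E Q h = ψ.comp q := by
  obtain ⟨π, hπ1, hπ2, hπ3⟩ := lam_exists_proj A T hp0 hp1 hp2
  choose F hF using fun ψ : Δ →* Q => lam_exists_factor A T hp0 hp1 hp2 hπ1 hπ2 hπ3
    ((fe E Q).symm (ψ.comp q)) (kills_of_factor E A T hp0 hp1 hp2 hq ψ).1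
    (kills_of_factor E A T hp0 hp1 hp2 hq ψ).2
  have := finite_hom Δ Q (tri_fg T)
  have hinj : Function.Injective F := by
    intro ψ ψ' hψ
    have h3 := hF ψ
    rw [hψ, hF ψ', Equiv.apply_eq_iff_eq] at h3
    exact ((MonoidHom.cancel_right hq).1 h3).symm
  obtain ⟨ψ0, hψ0⟩ := lam_exists_factor A T hp0 hp1 hp2 hπ1 hπ2 hπ3 h h1 h2
  obtain ⟨ψ, rfl⟩ := Finite.surjective_of_injective hinj ψ0
  exact ⟨ψ, by rw [← hψ0, hF, Equiv.apply_symm_apply]⟩

include hp0 hp1 hp2 hq in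
theorem map_ker_eq {π : L →* Δ} (hπ1 : π A.f = 1) (hπ2 : π A.y = T.g 1) (hπ3 : π A.z = T.g 2)
    {Q : Type} [Group Q] [Finite Q] (h : L →* Q) : q.ker.map (fe E Q h) = π.ker.map h := by
  have hc : π ((A.y * A.z) ^ 2) = 1 := by rw [map_pow, map_mul, hπ2, hπ3, tri_sq T hp0]
  have key : ∀ {Q : Type} [Group Q] [Finite Q] (h : L →* Q), Function.Surjective h →
      q.ker.map (fe E Q h) = π.ker.map h := by
    intro Q _ _ h hh
    have hh' : Function.Surjective (fe E Q h) := by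
      rw [← Set.range_eq_univ, fe_range, Set.range_eq_univ]
      exact hh
    apply le_antisymm
    · have := (MonoidHom.normal_ker π).map h hh
      obtain ⟨ψ, hψ⟩ := factor_of_kills E A T hp0 hp1 hp2 hq
        ((QuotientGroup.mk' (π.ker.map h)).comp h)
        ((QuotientGroup.eq_one_iff _).2 ⟨_, hπ1, rfl⟩)
        ((QuotientGroup.eq_one_iff _).2 ⟨_, hc, rfl⟩)
      rw [fe_nat] at hψ
      rintro _ ⟨γ, hγ, rfl⟩
      have h3 := DFunLike.congr_fun hψ γ
      rw [MonoidHom.comp_apply, MonoidHom.comp_apply, show q γ = 1 from hγ, map_one] at h3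
      exact (QuotientGroup.eq_one_iff _).1 h3
    · have := (MonoidHom.normal_ker q).map _ hh'
      let ψ := q.liftOfSurjective hq ⟨(QuotientGroup.mk' (q.ker.map (fe E Q h))).comp (fe E Q h),
        fun γ hγ => (QuotientGroup.eq_one_iff _).2 ⟨γ, hγ, rfl⟩⟩
      have hψ : ψ.comp q = (QuotientGroup.mk' (q.ker.map (fe E Q h))).comp (fe E Q h) :=
        q.liftOfRightInverse_comp _ _ _
      obtain ⟨h1, h2⟩ := kills_of_factor E A T hp0 hp1 hp2 hq ψ
      rw [hψ, fe_symm_nat, Equiv.symm_apply_apply] at h1 h2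
      rintro _ ⟨l, hl, rfl⟩
      obtain ⟨a, b, rfl⟩ := lam_ker_proj A T hp0 hp1 hp2 hπ1 hπ2 hπ3 l hl
      rw [map_mul, map_zpow, map_zpow]
      exact Subgroup.mul_mem _ (Subgroup.zpow_mem _ ((QuotientGroup.eq_one_iff _).1 h1) _)
        (Subgroup.zpow_mem _ ((QuotientGroup.eq_one_iff _).1 h2) _)
  have h1 := key h.rangeRestrict h.rangeRestrict_surjective
  have h2 : h = h.range.subtype.comp h.rangeRestrict := rfl
  rw [h2, fe_nat, ← Subgroup.map_map, h1, Subgroup.map_map]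

end hopf

section cor

variable {L G : Type} [Group L] [Group G] (E : BohrEquiv L G) {k m : ℕ} (A : LamData L k)
  (B : LamData G m) {Q : Type} [Group Q] [Finite Q] [TopologicalSpace Q] [DiscreteTopology Q]
  [IsTopologicalGroup Q] [CompactSpace Q] [T2Space Q]

theorem kills_both (h : L →* Q) (h1 : h A.f = 1) (h2 : h ((A.y * A.z) ^ 2) = 1) :
    E.e Q h B.f = 1 ∧ E.e Q h ((B.y * B.z) ^ 2) = 1 := by
  obtain ⟨Δ, _, T, hp0, hp1, hp2⟩ := exists_triData
  obtain ⟨q, hq1, hq2, hq3⟩ := lam_exists_proj B T hp0 hp1 hp2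
  obtain ⟨ψ, hψ⟩ := factor_of_kills E A T hp0 hp1 hp2 (lam_proj_surjective B T hq2 hq3) h h1 h2
  rw [fe_eq, hψ]
  have hc : q ((B.y * B.z) ^ 2) = 1 := by rw [map_pow, map_mul, hq2, hq3, tri_sq T hp0]
  rw [MonoidHom.comp_apply, MonoidHom.comp_apply, hq1, hc, map_one]
  exact ⟨rfl, rfl⟩

theorem kills_f (h : L →* Q) (h1 : h A.f = 1) : E.e Q h B.f = 1 := by
  obtain ⟨Δ, _, T, hp0, hp1, hp2⟩ := exists_triData
  obtain ⟨q, hq1, hq2, hq3⟩ := lam_exists_proj B T hp0 hp1 hp2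
  obtain ⟨π, hπ1, hπ2, hπ3⟩ := lam_exists_proj A T hp0 hp1 hp2
  have h2 := map_ker_eq E A T hp0 hp1 hp2 (lam_proj_surjective B T hq2 hq3) hπ1 hπ2 hπ3 h
  have h3 : fe E Q h B.f ∈ π.ker.map h := h2 ▸ ⟨_, hq1, rfl⟩
  obtain ⟨l, hl, h4⟩ := h3
  obtain ⟨a, b, rfl⟩ := lam_ker_proj A T hp0 hp1 hp2 hπ1 hπ2 hπ3 l hl
  rw [fe_eq]
  refine eq_one_of_coprime (a := 2) (b := 11) (by norm_num) ?_
    (by rw [← map_pow, B.rel.hf, map_one])
  rw [← h4, map_mul, map_zpow, h1, one_zpow, one_mul, ← map_pow, ← zpow_natCast, ← zpow_mul,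
    mul_comm, zpow_mul, zpow_natCast, rel_c2 A.rel, one_zpow, map_one]

end cor

end Pool.Agent.Work.MP_f81df4_al.H80
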