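import Mathlib.Algebra.QuadraticAlgebra.Basic
import Mathlib.NumberTheory.Real.GoldenRatio
import Mathlib.RingTheory.PrincipalIdealDomain
import Mathlib.Algebra.Order.Round
import Mathlib.Tactic

/-! The ring `ℤ[φ]` of golden integers. -/

set_option autoImplicit false

namespace Pool.Agent.Work.MP_f81df4_al.H80

open QuadraticAlgebra Real

/-- The golden integers `ℤ[φ]`, `φ * φ = 1 + φ`. -/
abbrev Zp := QuadraticAlgebra ℤ 1 1

/-- The golden ratio as an element of `Zp`. -/
def ph : Zp := ⟨0, 1⟩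

/-- The square root of five, `2 φ - 1`. -/
def r5 : Zp := ⟨-1, 2⟩

@[simp] theorem ph_re : ph.re = 0 := rfl
@[simp] theorem ph_im : ph.im = 1 := rfl
@[simp] theorem r5_re : r5.re = -1 := rfl
@[simp] theorem r5_im : r5.im = 2 := rfl

theorem ph_sq : ph * ph = 1 + ph := by decide

/-- The ring homomorphism sending `φ` to a root of `X ^ 2 - X - 1`. -/
def emb {K : Type*} [CommRing K] (u : K) (hu : u * u = 1 + u) : Zp →+* K where
  toFun z := z.re + z.im * u
  map_one' := by simp
  map_mul' z w := by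
    simp only [re_mul, im_mul]
    push_cast
    linear_combination (-(z.im : K) * w.im) * hu
  map_zero' := by simp
  map_add' z w := by
    simp only [re_add, im_add]
    push_cast
    ring

theorem emb_apply {K : Type*} [CommRing K] (u : K) (hu : u * u = 1 + u) (z : Zp) :
    emb u hu z = z.re + z.im * u := rfl

theorem emb_ph {K : Type*} [CommRing K] (u : K) (hu : u * u = 1 + u) : emb u hu ph = u := by
  simp [emb_apply]

theorem eq_re_add_im (z : Zp) : z = (z.re : Zp) + (z.im : Zp) * ph := by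
  ext <;> simp

theorem ringHom_eq_emb {K : Type*} [CommRing K] (f : Zp →+* K) (z : Zp) :
    f z = z.re + z.im * f ph := by
  conv_lhs => rw [eq_re_add_im z]
  simp

/-- The embedding with `φ ↦ 1.618..`. -/
noncomputable def s1 : Zp →+* ℝ := emb goldenRatio (by rw [← sq, goldenRatio_sq, add_comm])

/-- The embedding with `φ ↦ -0.618..`. -/
noncomputable def s2 : Zp →+* ℝ := emb goldenConj (by rw [← sq, goldenConj_sq, add_comm])

theorem s1_apply (z : Zp) : s1 z = z.re + z.im * goldenRatio := rfl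
theorem s2_apply (z : Zp) : s2 z = z.re + z.im * goldenConj := rfl
theorem s1_ph : s1 ph = goldenRatio := emb_ph _ _
theorem s2_ph : s2 ph = goldenConj := emb_ph _ _

theorem norm_eq (z : Zp) : z.norm = z.re ^ 2 + z.re * z.im - z.im ^ 2 := by
  rw [norm_def]; ring

theorem s1_mul_s2 (z : Zp) : s1 z * s2 z = z.norm := by
  rw [s1_apply, s2_apply, norm_eq]
  push_cast
  have h1 := goldenRatio_add_goldenConj
  have h2 := goldenRatio_mul_goldenConj
  linear_combination ((z.re : ℝ) * z.im) * h1 + (z.im : ℝ) ^ 2 * h2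

theorem s1_star (z : Zp) : s1 (star z) = s2 z := by
  rw [s1_apply, s2_apply, re_star, im_star]
  push_cast
  have h1 := goldenRatio_add_goldenConj
  linear_combination (-(z.im : ℝ)) * h1

theorem s2_star (z : Zp) : s2 (star z) = s1 z := by
  rw [← s1_star, star_star]

theorem s1_sub_s2 (z : Zp) : s1 z - s2 z = z.im * √5 := by
  rw [s1_apply, s2_apply, ← goldenRatio_sub_goldenConj]; ring

theorem s1_add_s2 (z : Zp) : s1 z + s2 z = 2 * z.re + z.im := by
  rw [s1_apply, s2_apply]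
  have h1 := goldenRatio_add_goldenConj
  linear_combination (z.im : ℝ) * h1

theorem s1_eq_zero {z : Zp} (h : s1 z = 0) : z = 0 := by
  rw [s1_apply] at h
  have him : z.im = 0 := by
    by_contra hne
    have := (goldenRatio_irrational.intCast_mul hne).intCast_add z.re
    rw [h] at this
    exact not_irrational_zero this
  rw [him] at h
  have : z.re = 0 := by exact_mod_cast (by simpa using h : (z.re : ℝ) = 0)
  ext <;> simp [*]

theorem s1_injective : Function.Injective s1 := (injective_iff_map_eq_zero _).2 fun _ => s1_eq_zero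

theorem s2_eq_zero {z : Zp} (h : s2 z = 0) : z = 0 := by
  rw [← s1_star] at h
  simpa using s1_eq_zero h

theorem s2_injective : Function.Injective s2 := (injective_iff_map_eq_zero _).2 fun _ => s2_eq_zero

instance : IsDomain Zp := s1_injective.isDomain _

instance : CharZero Zp := s1.charZero

theorem norm_eq_zero' {z : Zp} (h : z.norm = 0) : z = 0 := by
  have := s1_mul_s2 z
  rw [h] at this
  rcases mul_eq_zero.1 (this.trans Int.cast_zero) with h | h
  · exact s1_eq_zero h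
  · exact s2_eq_zero h

theorem mul_star_self (z : Zp) : z * star z = (z.norm : Zp) := by
  rw [← algebraMap_norm_eq_mul_star]; rfl

theorem exists_quot (a b : Zp) (hb : b ≠ 0) : ∃ q : Zp, |(a - b * q).norm| < |b.norm| := by
  have hN : b.norm ≠ 0 := fun h => hb (norm_eq_zero' h)
  set c := a * star b with hc
  set n := b.norm with hn
  have hnq : (n : ℚ) ≠ 0 := by exact_mod_cast hN
  let q : Zp := ⟨round ((c.re : ℚ) / n), round ((c.im : ℚ) / n)⟩
  refine ⟨q, ?_⟩
  have h1 : (a - b * q) * star b = c - (n : Zp) * q := by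
    rw [hc, hn, ← mul_star_self]; ring
  have h2 : (a - b * q).norm * n = (c - (n : Zp) * q).norm := by
    rw [← h1, map_mul, QuadraticAlgebra.norm_star]
  have e1 := abs_sub_round ((c.re : ℚ) / n)
  have e2 := abs_sub_round ((c.im : ℚ) / n)
  set x := (c.re : ℚ) / n - round ((c.re : ℚ) / n) with hx
  set y := (c.im : ℚ) / n - round ((c.im : ℚ) / n) with hy
  have h3 : (((c - (n : Zp) * q).norm : ℤ) : ℚ) = (n : ℚ) ^ 2 * (x ^ 2 + x * y - y ^ 2) := by
    rw [norm_eq, hx, hy]
    simp only [re_sub, im_sub, re_mul, im_mul, re_intCast, im_intCast, q]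
    push_cast
    field_simp
    ring
  have h4 : (((a - b * q).norm : ℤ) : ℚ) = n * (x ^ 2 + x * y - y ^ 2) := by
    have : (((a - b * q).norm : ℤ) : ℚ) * n = (n : ℚ) ^ 2 * (x ^ 2 + x * y - y ^ 2) := by
      rw [← h3, ← h2]; push_cast; ring
    apply mul_right_cancel₀ hnq
    rw [this]; ring
  have h5 : |x ^ 2 + x * y - y ^ 2| < 1 := by
    rw [abs_le] at e1 e2
    rw [abs_lt]
    constructor <;> nlinarith [e1.1, e1.2, e2.1, e2.2]
  have : |(((a - b * q).norm : ℤ) : ℚ)| < |(n : ℚ)| := by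
    rw [h4, abs_mul]
    exact mul_lt_of_lt_one_right (abs_pos.2 hnq) h5
  exact_mod_cast this

instance : IsPrincipalIdealRing Zp where
  principal I := by
    classical
    by_cases h : I = ⊥
    · rw [h]; exact bot_isPrincipal
    · have hex : ∃ n : ℕ, ∃ b ∈ I, b ≠ 0 ∧ b.norm.natAbs = n := by
        obtain ⟨b, hb1, hb2⟩ := Submodule.exists_mem_ne_zero_of_ne_bot h
        exact ⟨_, b, hb1, hb2, rfl⟩
      obtain ⟨b, hb1, hb2, hb3⟩ := Nat.find_spec hex
      refine ⟨b, le_antisymm (fun a ha => ?_) ((Submodule.span_singleton_le_iff_mem _ _).2 hb1)⟩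
      obtain ⟨q, hq⟩ := exists_quot a b hb2
      have : a - b * q = 0 := by
        by_contra hne
        have := Nat.find_min' hex ⟨_, I.sub_mem ha (I.mul_mem_right q hb1), hne, rfl⟩
        rw [← hb3] at this
        rw [Int.abs_eq_natAbs, Int.abs_eq_natAbs] at hq
        omega
      exact Ideal.mem_span_singleton'.2 ⟨q, by linear_combination -this⟩

theorem isUnit_iff_abs {z : Zp} : IsUnit z ↔ |z.norm| = 1 := by
  rw [isUnit_iff_norm_isUnit, Int.isUnit_iff_abs_eq]

/-- The golden ratio as a unit. -/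
def phU : Zpˣ := ⟨ph, ph - 1, by decide, by decide⟩

theorem sqrt5_bounds : (2.236 : ℝ) < √5 ∧ √5 < 2.2361 := by
  constructor
  · exact Real.lt_sqrt_of_sq_lt (by norm_num)
  · exact (Real.sqrt_lt' (by norm_num)).2 (by norm_num)

theorem gold_bounds : (1.618 : ℝ) < goldenRatio ∧ goldenRatio < 1.61805 := by
  have := sqrt5_bounds
  unfold goldenRatio
  constructor <;> linarith [this.1, this.2]

theorem goldc_bounds : (-0.61805 : ℝ) < goldenConj ∧ goldenConj < -0.618 := by
  have := gold_bounds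
  have h := goldenRatio_add_goldenConj
  constructor <;> linarith [this.1, this.2]

theorem unit_pos (u : Zpˣ) (hu : 0 < s1 u) : ∃ k : ℤ, u = phU ^ k := by
  obtain ⟨k, hk1, hk2⟩ := exists_mem_Ico_zpow hu one_lt_goldenRatio
  refine ⟨k, ?_⟩
  set v : Zpˣ := u * phU ^ (-k) with hv
  have hpow : s1 ((phU ^ (-k) : Zpˣ) : Zp) = goldenRatio ^ (-k) := by
    have := map_zpow (Units.map (s1 : Zp →* ℝ)) phU (-k)
    have h2 := congrArg Units.val this
    rw [Units.val_zpow_eq_zpow_val] at h2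
    rw [← s1_ph]
    exact h2
  have hp : 0 < goldenRatio ^ k := zpow_pos goldenRatio_pos k
  have hv1 : s1 v = s1 u / goldenRatio ^ k := by
    rw [hv, Units.val_mul, map_mul, hpow, zpow_neg, div_eq_mul_inv]
  have h1 : 1 ≤ s1 v := by rw [hv1, le_div_iff₀ hp]; simpa using hk1
  have h2 : s1 v < goldenRatio := by
    rw [hv1, div_lt_iff₀ hp, mul_comm, ← zpow_add_one₀ goldenRatio_pos.ne']; exact hk2
  have h3 : |s1 v * s2 v| = 1 := by
    rw [s1_mul_s2]
    exact_mod_cast isUnit_iff_abs.1 v.isUnit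
  have h4 : |s2 v| ≤ 1 := by
    rw [abs_mul, abs_of_pos (by linarith)] at h3
    nlinarith [abs_nonneg (s2 v)]
  have h5 := s1_sub_s2 v
  have h6 := s1_apply v
  obtain ⟨g1, g2⟩ := gold_bounds
  obtain ⟨q1, q2⟩ := sqrt5_bounds
  rw [abs_le] at h4
  have him1 : (-1 : ℝ) < (v : Zp).im := by nlinarith
  have him2 : ((v : Zp).im : ℝ) < 2 := by nlinarith
  have him1' : -1 < (v : Zp).im := by exact_mod_cast him1
  have him2' : (v : Zp).im < 2 := by exact_mod_cast him2
  have hv2 : (v : Zp) = 1 := by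
    have : (v : Zp).im = 0 ∨ (v : Zp).im = 1 := by omega
    rcases this with h | h
    · rw [h] at h6
      have a1 : (0 : ℝ) < (v : Zp).re := by push_cast at h6; linarith
      have a2 : ((v : Zp).re : ℝ) < 2 := by push_cast at h6; linarith
      have a1' : 0 < (v : Zp).re := by exact_mod_cast a1
      have a2' : (v : Zp).re < 2 := by exact_mod_cast a2
      ext
      · simp; omega
      · simp [h]
    · rw [h] at h6
      have a1 : (-1 : ℝ) < (v : Zp).re := by push_cast at h6; linarith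
      have a2 : ((v : Zp).re : ℝ) < 0 := by push_cast at h6; linarith
      have a1' : -1 < (v : Zp).re := by exact_mod_cast a1
      have a2' : (v : Zp).re < 0 := by exact_mod_cast a2
      omega
  have : v = 1 := Units.ext hv2
  rw [hv, zpow_neg, mul_inv_eq_one] at this
  exact this

/-- A unit which is positive at the second embedding is a power of `-φ`. -/
theorem unit_s2_pos (u : Zpˣ) (hu : 0 < s2 u) : ∃ k : ℤ, u = (-phU) ^ k := by
  obtain ⟨k, hk⟩ := unit_pos (star u) (by rw [Units.coe_star, s1_star]; exact hu)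
  refine ⟨-k, ?_⟩
  have h1 : star phU = (-phU)⁻¹ := Units.ext (by decide)
  rw [← star_star u, hk, star_zpow, h1, inv_zpow']

theorem two_dvd_of_norm {z : Zp} (h : 2 ∣ z.norm) : 2 ∣ z := by
  rw [norm_eq] at h
  have h1 : z.re % 2 = 0 ∧ z.im % 2 = 0 := by
    have a := Int.emod_two_eq_zero_or_one z.re
    have b := Int.emod_two_eq_zero_or_one z.im
    have := Int.emod_eq_zero_of_dvd h
    rcases a with a | a <;> rcases b with b | b <;>
      simp [sq, Int.add_emod, Int.sub_emod, Int.mul_emod, a, b] at this ⊢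
  refine ⟨⟨z.re / 2, z.im / 2⟩, ?_⟩
  ext <;> simp <;> omega

theorem three_dvd_of_norm {z : Zp} (h : 3 ∣ z.norm) : 3 ∣ z := by
  rw [norm_eq] at h
  have h1 : z.re % 3 = 0 ∧ z.im % 3 = 0 := by
    have a : z.re % 3 = 0 ∨ z.re % 3 = 1 ∨ z.re % 3 = 2 := by omega
    have b : z.im % 3 = 0 ∨ z.im % 3 = 1 ∨ z.im % 3 = 2 := by omega
    have := Int.emod_eq_zero_of_dvd h
    rcases a with a | a | a <;> rcases b with b | b | b <;>
      simp [sq, Int.add_emod, Int.sub_emod, Int.mul_emod, a, b] at this ⊢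
  refine ⟨⟨z.re / 3, z.im / 3⟩, ?_⟩
  ext <;> simp <;> omega

theorem seven_dvd_of_norm {z : Zp} (h : 7 ∣ z.norm) : 7 ∣ z := by
  rw [norm_eq] at h
  have h1 : z.re % 7 = 0 ∧ z.im % 7 = 0 := by
    have a : z.re % 7 = 0 ∨ z.re % 7 = 1 ∨ z.re % 7 = 2 ∨ z.re % 7 = 3 ∨ z.re % 7 = 4 ∨
      z.re % 7 = 5 ∨ z.re % 7 = 6 := by omega
    have b : z.im % 7 = 0 ∨ z.im % 7 = 1 ∨ z.im % 7 = 2 ∨ z.im % 7 = 3 ∨ z.im % 7 = 4 ∨
      z.im % 7 = 5 ∨ z.im % 7 = 6 := by omega
    have := Int.emod_eq_zero_of_dvd h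
    rcases a with a | a | a | a | a | a | a <;> rcases b with b | b | b | b | b | b | b <;>
      simp [sq, Int.add_emod, Int.sub_emod, Int.mul_emod, a, b] at this ⊢
  refine ⟨⟨z.re / 7, z.im / 7⟩, ?_⟩
  ext <;> simp <;> omega

theorem r5_dvd_of_norm {z : Zp} (h : 5 ∣ z.norm) : r5 ∣ z := by
  rw [norm_eq] at h
  have h1 : (z.re + 3 * z.im) % 5 = 0 := by
    have a : z.re % 5 = 0 ∨ z.re % 5 = 1 ∨ z.re % 5 = 2 ∨ z.re % 5 = 3 ∨ z.re % 5 = 4 := by omega
    have b : z.im % 5 = 0 ∨ z.im % 5 = 1 ∨ z.im % 5 = 2 ∨ z.im % 5 = 3 ∨ z.im % 5 = 4 := by omega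
    have := Int.emod_eq_zero_of_dvd h
    rcases a with a | a | a | a | a <;> rcases b with b | b | b | b | b <;>
      simp [sq, Int.add_emod, Int.sub_emod, Int.mul_emod, a, b] at this ⊢
  refine ⟨⟨(2 * z.im - z.re) / 5, (2 * z.re + z.im) / 5⟩, ?_⟩
  ext <;> simp <;> omega

theorem norm_two : (2 : Zp).norm = 4 := by decide
theorem norm_three : (3 : Zp).norm = 9 := by decide
theorem norm_seven : (7 : Zp).norm = 49 := by decide
theorem norm_r5 : r5.norm = -5 := by decide

/-- Elements of small norm. -/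
theorem small_norm {z : Zp} (h0 : z ≠ 0) (h : |z.norm| ≤ 10) :
    ∃ u : Zpˣ, z = u ∨ z = 2 * u ∨ z = r5 * u ∨ (z = 3 * u ∧ |z.norm| = 9) := by
  have hN : z.norm ≠ 0 := fun h => h0 (norm_eq_zero' h)
  have hpos : ∀ w : Zp, w ≠ 0 → 1 ≤ |w.norm| := fun w hw =>
    Int.one_le_abs (fun h => hw (norm_eq_zero' h))
  by_cases h2 : 2 ∣ z.norm
  · obtain ⟨w, rfl⟩ := two_dvd_of_norm h2
    rw [map_mul, norm_two, abs_mul] at h
    have hw : w ≠ 0 := right_ne_zero_of_mul h0
    have h3 := hpos w hw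
    have h4 : |w.norm| ≠ 2 := by
      intro h5
      obtain ⟨v, rfl⟩ := two_dvd_of_norm (z := w) ((dvd_abs _ _).1 (by rw [h5]))
      rw [map_mul, norm_two, abs_mul] at h5
      norm_num at h5
      omega
    obtain ⟨u, rfl⟩ := (isUnit_iff_abs (z := w)).2 (by norm_num at h; omega)
    exact ⟨u, Or.inr (Or.inl rfl)⟩
  by_cases h5 : 5 ∣ z.norm
  · obtain ⟨w, rfl⟩ := r5_dvd_of_norm h5
    rw [map_mul, norm_r5] at h h2
    rw [abs_mul] at h
    have hw : w ≠ 0 := right_ne_zero_of_mul h0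
    have h3 := hpos w hw
    have h4 : |w.norm| ≠ 2 := by
      intro h5
      exact h2 (Dvd.dvd.mul_left ((dvd_abs _ _).1 (by rw [h5])) _)
    obtain ⟨u, rfl⟩ := (isUnit_iff_abs (z := w)).2 (by norm_num at h; omega)
    exact ⟨u, Or.inr (Or.inr (Or.inl rfl))⟩
  by_cases h3 : 3 ∣ z.norm
  · obtain ⟨w, rfl⟩ := three_dvd_of_norm h3
    have hw : w ≠ 0 := right_ne_zero_of_mul h0
    have h3 := hpos w hw
    have h6 : |w.norm| = 1 := by
      rw [map_mul, norm_three, abs_mul] at h
      norm_num at h; omega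
    obtain ⟨u, rfl⟩ := (isUnit_iff_abs (z := w)).2 h6
    exact ⟨u, Or.inr (Or.inr (Or.inr ⟨rfl, by rw [map_mul, norm_three, abs_mul, h6]; rfl⟩))⟩
  by_cases h7 : 7 ∣ z.norm
  · obtain ⟨w, rfl⟩ := seven_dvd_of_norm h7
    have hw : w ≠ 0 := right_ne_zero_of_mul h0
    have h3 := hpos w hw
    rw [map_mul, norm_seven, abs_mul] at h
    norm_num at h; omega
  have : |z.norm| = 1 := by
    rw [abs_le] at h
    obtain ⟨h8, h9⟩ := h
    generalize z.norm = n at *
    interval_cases n <;> simp_all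
  obtain ⟨u, rfl⟩ := isUnit_iff_abs.2 this
  exact ⟨u, Or.inl rfl⟩

theorem finite_bounded (C : ℝ) : {z : Zp | |s1 z| ≤ C ∧ |s2 z| ≤ C}.Finite := by
  obtain ⟨n, hn⟩ := exists_nat_ge C
  refine ((((Set.finite_Icc (-(2 * n : ℤ)) (2 * n)).prod
    (Set.finite_Icc (-(2 * n : ℤ)) (2 * n))).image fun p => (⟨p.1, p.2⟩ : Zp))).subset ?_
  rintro z ⟨h1, h2⟩
  refine ⟨(z.re, z.im), ?_, rfl⟩
  have e1 := s1_sub_s2 z
  have e2 := s1_add_s2 z
  obtain ⟨q1, q2⟩ := sqrt5_bounds
  rw [abs_le] at h1 h2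
  have hn0 : (0 : ℝ) ≤ n := Nat.cast_nonneg n
  have a1 : (z.im : ℝ) ≤ n := by nlinarith
  have a2 : -(n : ℝ) ≤ z.im := by nlinarith
  have a3 : (z.re : ℝ) ≤ 2 * n := by linarith
  have a4 : -(2 * n : ℝ) ≤ z.re := by linarith
  have a1' : z.im ≤ n := by exact_mod_cast a1
  have a2' : -(n : ℤ) ≤ z.im := by exact_mod_cast a2
  have a3' : z.re ≤ 2 * n := by exact_mod_cast a3
  have a4' : -(2 * n : ℤ) ≤ z.re := by exact_mod_cast a4
  simp only [Set.mem_prod, Set.mem_Icc]
  omega

end Pool.Agent.Work.MP_f81df4_al.H80
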