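import Mathlib.NumberTheory.Padics.RingHoms
import Pool.Agent.Work.MP_f81df4_al.H80Ring

/-! The completion of `Z[φ]` at a rational prime. -/

set_option autoImplicit false

namespace Pool.Agent.Work.MP_f81df4_al.H80

/-- The ring `Z_p[X] / (X ^ 2 - X - 1)`. -/
abbrev Zq (p : ℕ) [Fact p.Prime] := QuadraticAlgebra ℤ_[p] 1 1

/-- The natural map from `Z[φ]`. -/
noncomputable def natq (p : ℕ) [Fact p.Prime] : Zp →+* Zq p :=
  emb ⟨0, 1⟩ (by ext <;> simp [QuadraticAlgebra.re_one, QuadraticAlgebra.im_one])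

@[simp] theorem natq_re (p : ℕ) [Fact p.Prime] (z : Zp) : (natq p z).re = z.re := by
  simp [natq, emb_apply]

@[simp] theorem natq_im (p : ℕ) [Fact p.Prime] (z : Zp) : (natq p z).im = z.im := by
  simp [natq, emb_apply]

theorem natq_star (p : ℕ) [Fact p.Prime] (z : Zp) : natq p (star z) = star (natq p z) := by
  ext <;> simp [QuadraticAlgebra.re_star, QuadraticAlgebra.im_star]

theorem natq_norm (p : ℕ) [Fact p.Prime] (z : Zp) : (natq p z).norm = (z.norm : ℤ_[p]) := by
  simp [QuadraticAlgebra.norm_def]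

theorem natq_injective (p : ℕ) [Fact p.Prime] : Function.Injective (natq p) := fun x y h => by
  have h1 := congrArg QuadraticAlgebra.re h
  have h2 := congrArg QuadraticAlgebra.im h
  simp only [natq_re, natq_im, Int.cast_inj] at h1 h2
  exact QuadraticAlgebra.ext h1 h2

end Pool.Agent.Work.MP_f81df4_al.H80
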