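import Pool.Agent.Work.MP_f81df4_al.BCls
import Pool.Agent.Work.MP_f81df4_al.H80Hopf
import Pool.Agent.Work.MP_f81df4_al.H80Zq
import Mathlib
import Pool.Agent.Work.MP_f81df4_al.H80Ring

-- merged part: Pool.Agent.Work.MP_f81df4_al.BThree
section
/-! At most two good trace functions over a field of characteristic zero. -/

set_option autoImplicit false

namespace Pool.Agent.Work.MP_f81df4_al

open H80 Qt

lemma jacobson_int : IsJacobsonRing ℤ := by
  rw [isJacobsonRing_iff_prime_eq]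
  intro P hP
  by_cases h : P = ⊥
  · subst h
    rw [eq_bot_iff]
    intro x hx
    rw [Ideal.mem_jacobson_bot] at hx
    have h1 := Int.isUnit_iff.1 (hx x)
    have : x * x = 0 := by nlinarith [mul_self_nonneg x, h1.elim (fun h => h.le) fun h => by omega]
    simpa using this
  · have := hP.isMaximal h
    exact Ideal.jacobson_eq_self_of_isMaximal

lemma exists_residue {Ω : Type} [Field Ω] (s : Set Ω) (hs : s.Finite) :
    ∃ (F : Type) (_ : Field F) (_ : Finite F), Nonempty (Algebra.adjoin ℤ s →+* F) := by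
  have : Algebra.FiniteType ℤ (Algebra.adjoin ℤ s) := .adjoin_of_finite hs
  obtain ⟨m, hm⟩ := Ideal.exists_maximal (Algebra.adjoin ℤ s)
  let _ := Ideal.Quotient.field m
  have := jacobson_int
  have hfin := finite_of_finite_type_of_isJacobsonRing ℤ (Algebra.adjoin ℤ s ⧸ m)
  refine ⟨Algebra.adjoin ℤ s ⧸ m, inferInstance, ?_, ⟨Ideal.Quotient.mk m⟩⟩
  apply Module.finite_of_fg_torsion
  have hn : ¬ Function.Injective (algebraMap ℤ (Algebra.adjoin ℤ s ⧸ m)) := fun h =>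
    Int.not_isField ((Algebra.IsIntegral.isField_iff_isField h).2 (Field.toIsField _))
  rw [injective_iff_map_eq_zero] at hn
  push Not at hn
  obtain ⟨n, h1, h2⟩ := hn
  intro x
  refine ⟨⟨n, mem_nonZeroDivisors_of_ne_zero h2⟩, ?_⟩
  change n • x = 0
  rw [Algebra.smul_def, h1, zero_mul]

/-- elements with coordinates in a subring -/
def N1.sub {Ω : Type} [CommRing Ω] {a b c : Ω} (S : Subalgebra ℤ Ω) (ha : a ∈ S) (hb : b ∈ S)
    (hc : c ∈ S) : Subgroup (N1 Ω a b c) where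
  carrier := {p | p.v.c0 ∈ S ∧ p.v.c1 ∈ S ∧ p.v.c2 ∈ S ∧ p.v.c3 ∈ S}
  one_mem' := ⟨S.one_mem, S.zero_mem, S.zero_mem, S.zero_mem⟩
  mul_mem' := by
    rintro p q ⟨h0, h1, h2, h3⟩ ⟨k0, k1, k2, k3⟩
    simp only [Set.mem_ofPred_eq, N1.mul_v, mul_c0, mul_c1, mul_c2, mul_c3]
    refine ⟨?_, ?_, ?_, ?_⟩ <;> apply_rules (maxDepth := 200) [sub_mem, add_mem, mul_mem]
  inv_mem' := by
    rintro p ⟨h0, h1, h2, h3⟩
    simp only [Set.mem_ofPred_eq, N1.inv_v, cj_c0, cj_c1, cj_c2, cj_c3]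
    refine ⟨?_, ?_, ?_, ?_⟩ <;> apply_rules [NegMemClass.neg_mem, add_mem, mul_mem]

lemma descend {Ω : Type} [CommRing Ω] {a b c : Ω} (S : Subalgebra ℤ Ω) (ha : a ∈ S) (hb : b ∈ S)
    (hc : c ∈ S) {G : Type} [Group G] (σ : G →* N1 Ω a b c) (h : ∀ g, σ g ∈ N1.sub S ha hb hc) :
    ∃ σ' : G →* N1 S ⟨a, ha⟩ ⟨b, hb⟩ ⟨c, hc⟩, (∀ g, ((tr (σ' g).v : S) : Ω) = tr (σ g).v) ∧
      ∀ g h, ((del (σ' g).v (σ' h).v : S) : Ω) = del (σ g).v (σ h).v := by
  let φ : N1 S ⟨a, ha⟩ ⟨b, hb⟩ ⟨c, hc⟩ →* N1 Ω a b c := N1.map (S.val : S →+* Ω) rfl rfl rfl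
  have c0 : ∀ p, (φ p).v.c0 = p.v.c0 := fun p => lift_map_c0 _ _
  have c1 : ∀ p, (φ p).v.c1 = p.v.c1 := fun p => lift_map_c1 _ _
  have c2 : ∀ p, (φ p).v.c2 = p.v.c2 := fun p => lift_map_c2 _ _
  have c3 : ∀ p, (φ p).v.c3 = p.v.c3 := fun p => lift_map_c3 _ _
  have inj : Function.Injective φ := by
    intro p q h
    refine N1.ext (Qt.ext (Subtype.ext ?_) (Subtype.ext ?_) (Subtype.ext ?_) (Subtype.ext ?_))
    · rw [← c0, h, c0]
    · rw [← c1, h, c1]
    · rw [← c2, h, c2]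
    · rw [← c3, h, c3]
  have ex : ∀ g, ∃ p, φ p = σ g := by
    intro g
    obtain ⟨h0, h1, h2, h3⟩ := h g
    exact ⟨⟨⟨⟨_, h0⟩, ⟨_, h1⟩, ⟨_, h2⟩, ⟨_, h3⟩⟩, Subtype.ext (σ g).h⟩,
      N1.ext (Qt.ext (c0 _) (c1 _) (c2 _) (c3 _))⟩
  choose s hs using ex
  refine ⟨MonoidHom.mk' s fun g g' => inj (by rw [map_mul, hs, hs, hs, map_mul]), fun g => ?_,
    fun g h => ?_⟩
  · rw [← hs]; exact (N1.tr_map (S.val : S →+* Ω) rfl rfl rfl _).symm
  · rw [← hs, ← hs]; exact (N1.del_map (S.val : S →+* Ω) rfl rfl rfl _ _).symm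

instance {F : Type} [CommRing F] [Finite F] {a b c : F} : Finite (N1 F a b c) :=
  Finite.of_injective (fun p => (p.v.c0, p.v.c1, p.v.c2, p.v.c3)) fun p q h => by
    simp only [Prod.mk.injEq] at h
    exact N1.ext (Qt.ext h.1 h.2.1 h.2.2.1 h.2.2.2)

theorem three {L G : Type} [Group L] [Group G] (A : LamData L 1) (E : BohrEquiv L G)
    (hG : Group.FG G) {Ω : Type} [Field Ω] [CharZero Ω] (a b c : Fin 3 → Ω)
    (σ : ∀ i, G →* N1 Ω (a i) (b i) (c i)) (g1 : ∀ i, ∃ g h, del (σ i g).v (σ i h).v ≠ 0)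
    (g2 : ∀ i, ∃ g, c60 (tr (σ i g).v) ≠ 2) :
    ∃ i j, i ≠ j ∧ ∀ g, tr (σ i g).v = tr (σ j g).v := by
  by_contra hcon
  push Not at hcon
  choose! gd hgd using hcon
  choose ga gb hab using g1
  choose gc hc using g2
  obtain ⟨T, hT, hfin⟩ := Group.fg_iff.1 hG
  have := hfin.to_subtype
  let s : Set Ω := Set.range a ∪ Set.range b ∪ Set.range c ∪ {22⁻¹}
    ∪ Set.range (fun x : Fin 3 × T => (σ x.1 x.2).v.c0)
    ∪ Set.range (fun x : Fin 3 × T => (σ x.1 x.2).v.c1)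
    ∪ Set.range (fun x : Fin 3 × T => (σ x.1 x.2).v.c2)
    ∪ Set.range (fun x : Fin 3 × T => (σ x.1 x.2).v.c3)
    ∪ Set.range (fun i => (del (σ i (ga i)).v (σ i (gb i)).v)⁻¹)
    ∪ Set.range (fun i => (c60 (tr (σ i (gc i)).v) - 2)⁻¹)
    ∪ Set.range (fun x : Fin 3 × Fin 3 => (tr (σ x.1 (gd x.1 x.2)).v - tr (σ x.2 (gd x.1 x.2)).v)⁻¹)
  obtain ⟨F, _, _, ⟨π⟩⟩ := exists_residue s (by simp [s, Set.finite_range])
  set S := Algebra.adjoin ℤ s with hS
  have sub : ∀ x ∈ s, x ∈ S := fun x hx => Algebra.subset_adjoin hx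
  have unit : ∀ x : S, (x : Ω) ≠ 0 → (x : Ω)⁻¹ ∈ s → π x ≠ 0 := by
    intro x h0 hx
    have : x * ⟨_, sub _ hx⟩ = 1 := Subtype.ext (mul_inv_cancel₀ h0)
    exact left_ne_zero_of_mul_eq_one (by rw [← map_mul, this, map_one])
  have ha : ∀ i, a i ∈ S := fun i => sub _ (by simp [s])
  have hb : ∀ i, b i ∈ S := fun i => sub _ (by simp [s])
  have hc' : ∀ i, c i ∈ S := fun i => sub _ (by simp [s])
  have mem : ∀ i g, σ i g ∈ N1.sub S (ha i) (hb i) (hc' i) := by
    intro i g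
    have : Subgroup.closure T ≤ (N1.sub S (ha i) (hb i) (hc' i)).comap (σ i) := by
      rw [Subgroup.closure_le]
      intro t ht
      refine ⟨sub _ ?_, sub _ ?_, sub _ ?_, sub _ ?_⟩ <;> simp only [s, Set.mem_union]
      · exact Or.inl (Or.inl (Or.inl (Or.inl (Or.inl (Or.inl (Or.inr ⟨(i, ⟨t, ht⟩), rfl⟩))))))
      · exact Or.inl (Or.inl (Or.inl (Or.inl (Or.inl (Or.inr ⟨(i, ⟨t, ht⟩), rfl⟩)))))
      · exact Or.inl (Or.inl (Or.inl (Or.inl (Or.inr ⟨(i, ⟨t, ht⟩), rfl⟩))))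
      · exact Or.inl (Or.inl (Or.inl (Or.inr ⟨(i, ⟨t, ht⟩), rfl⟩)))
    exact this (hT ▸ Subgroup.mem_top g)
  choose τ trτ delτ using fun i => descend S (ha i) (hb i) (hc' i) (σ i) (mem i)
  let κ : G →* ∀ i, N1 F (π ⟨a i, ha i⟩) (π ⟨b i, hb i⟩) (π ⟨c i, hc' i⟩) :=
    MonoidHom.pi fun i => (N1.map π rfl rfl rfl).comp (τ i)
  have rg : ∀ g, ∃ l, (fe E _).symm κ l = κ g := fun g => by
    have : κ g ∈ Set.range ((fe E _).symm κ) := by rw [fe_symm_range]; exact ⟨g, rfl⟩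
    exact this
  choose lf hlf using rg
  let θ := fun i => (Pi.evalMonoidHom _ i).comp ((fe E _).symm κ)
  have hθ : ∀ i g, θ i (lf g) = N1.map π rfl rfl rfl (τ i g) := fun i g => congrFun (hlf g) i
  have h22 : (22 : F) ≠ 0 := by
    have e : ((22 : S) : Ω) = 22 := map_ofNat S.val 22
    have := unit 22 (by rw [e]; norm_num) (by rw [e]; simp [s])
    rwa [map_ofNat] at this
  have cl := fun i => classify A (θ i) h22
    ⟨lf (ga i), lf (gb i), by
      have e := delτ i (ga i) (gb i)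
      rw [hθ, hθ, N1.del_map]
      exact unit _ (e ▸ hab i) (e ▸ Or.inl (Or.inl (Or.inr ⟨i, rfl⟩)))⟩
    ⟨lf (gc i), by
      have e : ((c60 (tr (τ i (gc i)).v) - 2 : S) : Ω) = c60 (tr (σ i (gc i)).v) - 2 := by
        rw [← trτ]
        exact (map_sub (S.val : S →+* Ω) _ _).trans (by rw [map_c60]; rfl)
      rw [hθ, N1.tr_map, ← map_c60, ← sub_ne_zero, ← map_ofNat π 2, ← map_sub]
      exact unit _ (e ▸ sub_ne_zero.2 (hc i)) (e ▸ Or.inl (Or.inr ⟨i, rfl⟩))⟩
  choose u hu hcl using cl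
  have ne : ∀ i j, i ≠ j → u i ≠ u j := by
    intro i j hij h
    have h1 : tr (θ i (lf (gd i j))).v = tr (θ j (lf (gd i j))).v := by
      rw [hcl, hcl, emb_apply, emb_apply, h]
    rw [hθ, hθ, N1.tr_map, N1.tr_map, ← sub_eq_zero, ← map_sub] at h1
    have e : ((tr (τ i (gd i j)).v - tr (τ j (gd i j)).v : S) : Ω) =
        tr (σ i (gd i j)).v - tr (σ j (gd i j)).v := by rw [← trτ, ← trτ]; rfl
    exact unit _ (e ▸ sub_ne_zero.2 (hgd i j hij)) (e ▸ Or.inr ⟨(i, j), rfl⟩) h1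
  have sum : ∀ i j, i ≠ j → u i + u j = 1 := by
    intro i j hij
    apply mul_left_cancel₀ (sub_ne_zero.2 (ne i j hij))
    linear_combination hu i - hu j
  exact ne 1 2 (by decide) (by linear_combination sum 0 1 (by decide) - sum 0 2 (by decide))

end Pool.Agent.Work.MP_f81df4_al
end

-- merged part: Pool.Agent.Work.MP_f81df4_al.BTop
section
/-! Topology on the norm one groups. -/

set_option autoImplicit false

namespace Pool.Agent.Work.MP_f81df4_al

open H80 Qt Topology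

section n1

variable {S : Type} [CommRing S] {a b c : S}

/-- coordinates -/
def N1.co (p : N1 S a b c) : S × S × S × S := (p.v.c0, p.v.c1, p.v.c2, p.v.c3)

lemma N1.co_inj : Function.Injective (N1.co : N1 S a b c → _) := fun p q h => by
  simp only [N1.co, Prod.mk.injEq] at h
  exact N1.ext (Qt.ext h.1 h.2.1 h.2.2.1 h.2.2.2)

lemma N1.range_co : Set.range (N1.co : N1 S a b c → _) =
    {x | nrd (⟨x.1, x.2.1, x.2.2.1, x.2.2.2⟩ : Qt S a b c) = 1} := by
  ext x
  exact ⟨by rintro ⟨p, rfl⟩; exact p.h, fun h => ⟨⟨_, h⟩, rfl⟩⟩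

lemma N1.del_eq (p q : N1 S a b c) : del p.v q.v = 4 - tr p.v ^ 2 - tr q.v ^ 2
    - tr (p * q).v ^ 2 + tr p.v * tr q.v * tr (p * q).v := by
  rw [del_eq_tr, p.h, q.h, N1.mul_v]; ring

variable [TopologicalSpace S]

instance : TopologicalSpace (N1 S a b c) := TopologicalSpace.induced N1.co inferInstance

lemma N1.co_emb : IsEmbedding (N1.co : N1 S a b c → _) := ⟨⟨rfl⟩, N1.co_inj⟩

@[fun_prop] lemma N1.cont0 {X : Type} [TopologicalSpace X] {f : X → N1 S a b c}
    (hf : Continuous f) : Continuous fun x => (f x).v.c0 :=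
  continuous_fst.comp (N1.co_emb.continuous.comp hf)
@[fun_prop] lemma N1.cont1 {X : Type} [TopologicalSpace X] {f : X → N1 S a b c}
    (hf : Continuous f) : Continuous fun x => (f x).v.c1 :=
  continuous_fst.comp (continuous_snd.comp (N1.co_emb.continuous.comp hf))
@[fun_prop] lemma N1.cont2 {X : Type} [TopologicalSpace X] {f : X → N1 S a b c}
    (hf : Continuous f) : Continuous fun x => (f x).v.c2 :=
  continuous_fst.comp (continuous_snd.comp (continuous_snd.comp (N1.co_emb.continuous.comp hf)))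
@[fun_prop] lemma N1.cont3 {X : Type} [TopologicalSpace X] {f : X → N1 S a b c}
    (hf : Continuous f) : Continuous fun x => (f x).v.c3 :=
  continuous_snd.comp (continuous_snd.comp (continuous_snd.comp (N1.co_emb.continuous.comp hf)))

instance [T2Space S] : T2Space (N1 S a b c) := N1.co_emb.t2Space

variable [IsTopologicalRing S]

instance : IsTopologicalGroup (N1 S a b c) where
  continuous_mul := by
    rw [N1.co_emb.continuous_iff]
    simp only [Function.comp_def, N1.co, N1.mul_v, mul_c0, mul_c1, mul_c2, mul_c3]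
    fun_prop
  continuous_inv := by
    rw [N1.co_emb.continuous_iff]
    simp only [Function.comp_def, N1.co, N1.inv_v, cj_c0, cj_c1, cj_c2, cj_c3]
    fun_prop

lemma N1.cont_tr : Continuous fun p : N1 S a b c => tr p.v := by
  simp only [tr]; fun_prop

lemma N1.co_closed [T2Space S] : IsClosedEmbedding (N1.co : N1 S a b c → _) :=
  ⟨N1.co_emb, by
    rw [N1.range_co]
    simp only [nrd]
    exact isClosed_eq (by fun_prop) continuous_const⟩

instance [T2Space S] [CompactSpace S] : CompactSpace (N1 S a b c) := N1.co_closed.compactSpace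

end n1

lemma N1.compact_real {a b : ℝ} (h : a ^ 2 + b ^ 2 ≤ 3) : CompactSpace (N1 ℝ a b 0) := by
  refine ⟨N1.co_closed.isInducing.isCompact_iff.2 ?_⟩
  rw [Set.image_univ]
  have hI := isCompact_Icc (a := (-5 : ℝ)) (b := 5)
  refine (hI.prod (hI.prod (hI.prod hI))).of_isClosed_subset N1.co_closed.isClosed_range ?_
  rintro _ ⟨p, rfl⟩
  have h1 := Qt.four_nrd p.v
  rw [p.h, tr] at h1
  simp only [N1.co, Set.mem_prod, Set.mem_Icc]
  generalize p.v.c0 = x0 at *
  generalize p.v.c1 = x1 at *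
  generalize p.v.c2 = x2 at *
  generalize p.v.c3 = x3 at *
  have k0 := sq_nonneg (2 * x0 + a * x1 + b * x2 + 0 * x3)
  have k1 := sq_nonneg (2 * x3 + b * x1 + a * x2)
  have k2 : x1 ^ 2 + x2 ^ 2 ≤ (4 - a ^ 2 - b ^ 2) * (x1 ^ 2 + x2 ^ 2) :=
    le_mul_of_one_le_left (by positivity) (by linarith)
  have ha : |a| ≤ 2 := abs_le.2 (abs_le_of_sq_le_sq' (by linarith only [h, sq_nonneg b]) (by norm_num))
  have hb : |b| ≤ 2 := abs_le.2 (abs_le_of_sq_le_sq' (by linarith only [h, sq_nonneg a]) (by norm_num))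
  have h1' : |x1| ≤ 2 := abs_le.2 (abs_le_of_sq_le_sq' (by linarith only [h1, k2, sq_nonneg x2, sq_nonneg ((2 : ℝ) * x3 + b * x1 + a * x2), sq_nonneg ((2 : ℝ) * x0 + a * x1 + b * x2 + (0 : ℝ) * x3)]) (by norm_num))
  have h2' : |x2| ≤ 2 := abs_le.2 (abs_le_of_sq_le_sq' (by linarith only [h1, k2, sq_nonneg x1, sq_nonneg ((2 : ℝ) * x3 + b * x1 + a * x2), sq_nonneg ((2 : ℝ) * x0 + a * x1 + b * x2 + (0 : ℝ) * x3)]) (by norm_num))
  have m : ∀ u v : ℝ, |u| ≤ 2 → |v| ≤ 2 → -4 ≤ u * v ∧ u * v ≤ 4 := fun u v hu hv => by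
    rw [← abs_le, abs_mul]; linarith only [hv, hu, abs_nonneg u, abs_nonneg v, mul_nonneg_of_nonpos_of_nonpos (Mathlib.Tactic.Linarith.sub_nonpos_of_le hu) (Mathlib.Tactic.Linarith.sub_nonpos_of_le (abs_nonneg v))]
  have t0 := abs_le_of_sq_le_sq' (a := 2 * x0 + a * x1 + b * x2 + 0 * x3) (b := 2)
    (by linarith only [h1, k2, sq_nonneg x1, sq_nonneg x2, sq_nonneg ((2 : ℝ) * x3 + b * x1 + a * x2)]) (by norm_num)
  have t1 := abs_le_of_sq_le_sq' (a := 2 * x3 + b * x1 + a * x2) (b := 2)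
    (by linarith only [h1, k2, sq_nonneg x1, sq_nonneg x2, sq_nonneg ((2 : ℝ) * x0 + a * x1 + b * x2 + (0 : ℝ) * x3)]) (by norm_num)
  have m1 := m _ _ ha h1'
  have m2 := m _ _ hb h2'
  have m3 := m _ _ hb h1'
  have m4 := m _ _ ha h2'
  rw [abs_le] at h1' h2'
  refine ⟨⟨?_, ?_⟩, ⟨?_, ?_⟩, ⟨?_, ?_⟩, ⟨?_, ?_⟩⟩ <;> linarith only [t0, m1, m2, h1', h2', t1, m3, m4]

instance : CompactSpace (N1 ℝ (s2 (-ph)) (s2 (-ph)) 0) := N1.compact_real (by
  obtain ⟨h1, h2⟩ := goldc_bounds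
  rw [map_neg, s2_ph]; nlinarith)

section zq

variable {p : ℕ} [Fact p.Prime]

noncomputable instance : TopologicalSpace (Zq p) :=
  TopologicalSpace.induced (fun x => (x.re, x.im)) inferInstance

lemma Zq_emb : IsEmbedding fun x : Zq p => (x.re, x.im) :=
  ⟨⟨rfl⟩, fun _ _ h => QuadraticAlgebra.ext (congrArg Prod.fst h) (congrArg Prod.snd h)⟩

@[fun_prop] lemma Zq_re : Continuous fun x : Zq p => x.re := continuous_fst.comp Zq_emb.continuous
@[fun_prop] lemma Zq_im : Continuous fun x : Zq p => x.im := continuous_snd.comp Zq_emb.continuous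

instance : T2Space (Zq p) := Zq_emb.t2Space

instance : IsTopologicalRing (Zq p) where
  continuous_add := by
    rw [Zq_emb.continuous_iff]
    simp only [Function.comp_def, QuadraticAlgebra.re_add, QuadraticAlgebra.im_add]
    fun_prop
  continuous_mul := by
    rw [Zq_emb.continuous_iff]
    simp only [Function.comp_def, QuadraticAlgebra.re_mul, QuadraticAlgebra.im_mul]
    fun_prop
  continuous_neg := by
    rw [Zq_emb.continuous_iff]
    simp only [Function.comp_def, QuadraticAlgebra.re_neg, QuadraticAlgebra.im_neg]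
    fun_prop

instance : CompactSpace (Zq p) :=
  IsClosedEmbedding.compactSpace ⟨Zq_emb, by
    rw [Set.range_eq_univ.2 fun x => ⟨⟨x.1, x.2⟩, rfl⟩]; exact isClosed_univ⟩

@[fun_prop] lemma Zq_norm : Continuous fun x : Zq p => x.norm := by
  simp only [QuadraticAlgebra.norm_def]; fun_prop

end zq

end Pool.Agent.Work.MP_f81df4_al
end

-- merged part: Pool.Agent.Work.MP_f81df4_al.H80B1
section
/-! Real numbers that are locally golden integers at every prime are golden integers. -/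

set_option autoImplicit false

namespace Pool.Agent.Work.MP_f81df4_al.H80

open Polynomial TensorProduct Real

theorem eq_zero_of_aeval_tmul {F : Type} [Field F] [CharZero F] {t : ℝ} {d : ℕ}
    (h : LinearIndependent ℚ fun i : Fin d => t ^ (i : ℕ)) {Q : F[X]} (hQ : Q.natDegree < d)
    (h0 : aeval ((1 : F) ⊗ₜ[ℚ] t) Q = 0) : Q = 0 := by
  have h1 := Fintype.linearIndependent_iff.1 (Module.Flat.linearIndependent_one_tmul (S := F) h)
    (fun i => Q.coeff i) (by
      rw [aeval_eq_sum_range' hQ, Finset.sum_range] at h0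
      simpa [Algebra.TensorProduct.tmul_pow] using h0)
  ext n
  by_cases hn : n < d
  · exact h1 ⟨n, hn⟩
  · exact coeff_eq_zero_of_natDegree_lt (by omega)

theorem linInd_of_not_integral {t : ℝ} (h : ¬ IsIntegral ℚ t) (d : ℕ) :
    LinearIndependent ℚ fun i : Fin d => t ^ (i : ℕ) := by
  have h1 : Function.Injective (aeval t : ℚ[X] →ₐ[ℚ] ℝ) :=
    transcendental_iff_injective.1 fun h' => h h'.isIntegral
  have h2 := ((basisMonomials ℚ).linearIndependent.map' (aeval t : ℚ[X] →ₐ[ℚ] ℝ).toLinearMap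
    (LinearMap.ker_eq_bot.2 h1)).comp (fun i : Fin d => (i : ℕ)) Fin.val_injective
  have h3 : (fun i : Fin d => t ^ (i : ℕ)) = (⇑(aeval t : ℚ[X] →ₐ[ℚ] ℝ).toLinearMap ∘
      ⇑(basisMonomials ℚ)) ∘ fun i : Fin d => (i : ℕ) := by
    ext i
    simp
  rw [h3]
  exact h2

theorem minpoly_dvd_of_fields {F : Type} [Field F] [CharZero F] (t : ℝ) (T N : F)
    (h : ∀ (Ω : Type) [Field Ω] (i : ℝ →+* Ω) (j : F →+* Ω), i t ^ 2 - j T * i t + j N = 0) :
    IsIntegral ℚ t ∧ (minpoly ℚ t).map (algebraMap ℚ F) ∣ X ^ 2 - C T * X + C N := by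
  have hm : (X ^ 2 - C T * X + C N : F[X]).Monic := by monicity!
  obtain ⟨n, hn⟩ : IsNilpotent (aeval ((1 : F) ⊗ₜ[ℚ] t) (X ^ 2 - C T * X + C N : F[X])) := by
    rw [nilpotent_iff_mem_prime]
    intro J hJ
    let pr : F ⊗[ℚ] ℝ →+* FractionRing (F ⊗[ℚ] ℝ ⧸ J) :=
      (algebraMap (F ⊗[ℚ] ℝ ⧸ J) _).comp (Ideal.Quotient.mk J)
    have h1 := h _ (pr.comp (Algebra.TensorProduct.includeRight (R := ℚ) (A := F)).toRingHom)
      (pr.comp (algebraMap F _))
    rw [← Ideal.Quotient.eq_zero_iff_mem]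
    apply IsFractionRing.injective (F ⊗[ℚ] ℝ ⧸ J) (FractionRing (F ⊗[ℚ] ℝ ⧸ J))
    rw [map_zero, ← h1]
    change pr _ = _
    simp only [map_add, map_sub, map_mul, map_pow, aeval_X, aeval_C]
    rfl
  rw [← map_pow] at hn
  have hi : IsIntegral ℚ t := by
    by_contra hi
    exact (hm.pow n).ne_zero
      (eq_zero_of_aeval_tmul (linInd_of_not_integral hi _) (Nat.lt_succ_self _) hn)
  refine ⟨hi, ?_⟩
  have hμ : ((minpoly ℚ t).map (algebraMap ℚ F)).Monic := (minpoly.monic hi).map _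
  have h0 : aeval ((1 : F) ⊗ₜ[ℚ] t) ((minpoly ℚ t).map (algebraMap ℚ F)) = 0 := by
    rw [aeval_map_algebraMap]
    have := aeval_algHom_apply (Algebra.TensorProduct.includeRight (R := ℚ) (A := F) (B := ℝ)) t
      (minpoly ℚ t)
    rw [minpoly.aeval, map_zero] at this
    exact this
  have hd : (minpoly ℚ t).map (algebraMap ℚ F) ∣ (X ^ 2 - C T * X + C N) ^ n := by
    rw [← modByMonic_eq_zero_iff_dvd hμ]
    refine eq_zero_of_aeval_tmul (linearIndependent_pow t) ?_ ?_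
    · refine (natDegree_modByMonic_lt _ hμ fun h1 => ?_).trans_eq (natDegree_map _)
      have h2 := congrArg natDegree h1
      rw [natDegree_map, natDegree_one] at h2
      exact (minpoly.natDegree_pos hi).ne' h2
    · rw [aeval_modByMonic_eq_self_of_root h0, hn]
  exact ((minpoly.irreducible hi).separable.map.squarefree).isRadical n _ hd

theorem int_of_local (q : ℚ)
    (h : ∀ (p : ℕ) [Fact p.Prime], ∃ T N : ℤ_[p], (q : ℚ_[p]) ^ 2 - T * q + N = 0) :
    ∃ m : ℤ, q = m := by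
  refine ⟨q.num, ((Rat.den_eq_one_iff q).1 (Nat.eq_one_iff_not_exists_prime_dvd.2 ?_)).symm⟩
  intro p hp hd
  have := Fact.mk hp
  obtain ⟨T, N, h1⟩ := h p
  have h2 : (q.num : ℤ_[p]) ^ 2 = q.den * (T * q.num - N * q.den) := by
    apply PadicInt.ext
    push_cast
    have hq : (q.num : ℚ_[p]) = q * q.den := by exact_mod_cast (Rat.mul_den_eq_num q).symm
    rw [hq]
    linear_combination (q.den : ℚ_[p]) ^ 2 * h1
  have h3 : (p : ℤ_[p]) ∣ (q.num : ℤ_[p]) :=
    PadicInt.prime_p.dvd_of_dvd_pow (n := 2)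
      (h2 ▸ Dvd.dvd.mul_right (Nat.cast_dvd_cast hd) _)
  have h4 : (p : ℤ) ∣ q.num := by simpa using (PadicInt.pow_p_dvd_int_iff 1 q.num).1 (by simpa)
  exact hp.one_lt.ne' (Nat.eq_one_of_dvd_coprimes q.reduced (Int.natCast_dvd.1 h4) hd)

theorem sq_of_local (d : ℕ) (h : ∀ (p : ℕ) [Fact p.Prime], ∃ m : ℤ_[p], (d : ℤ_[p]) = m ^ 2) :
    ∃ v : ℕ, d = v ^ 2 := by
  rcases d.eq_zero_or_pos with rfl | hd
  · exact ⟨0, rfl⟩
  obtain ⟨a, b, -, hb, rfl, ha⟩ := Nat.sq_mul_squarefree_of_pos hd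
  refine ⟨b, ?_⟩
  rw [(Nat.eq_one_iff_not_exists_prime_dvd (n := a)).2 ?_, mul_one]
  intro p hp hpa
  have := Fact.mk hp
  obtain ⟨m, hm⟩ := h p
  push_cast at hm
  obtain ⟨c, rfl⟩ : (b : ℤ_[p]) ∣ m :=
    (IsIntegrallyClosed.pow_dvd_pow_iff two_ne_zero).1 ⟨_, hm.symm⟩
  have hb' : (b : ℤ_[p]) ^ 2 ≠ 0 := pow_ne_zero _ (by exact_mod_cast hb.ne')
  have h1 : (a : ℤ_[p]) = c ^ 2 := mul_left_cancel₀ hb' (by rw [hm]; ring)
  have h2 : (p : ℤ_[p]) ∣ c :=
    PadicInt.prime_p.dvd_of_dvd_pow (n := 2) (h1 ▸ Nat.cast_dvd_cast hpa)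
  have h3 : ((p : ℤ) ^ 2) ∣ (a : ℤ) := (PadicInt.pow_p_dvd_int_iff 2 a).1 (by
    rw [Int.cast_natCast, h1]; exact pow_dvd_pow_of_dvd h2 2)
  have h4 : p * p ∣ a := by rw [← sq]; exact_mod_cast h3
  exact hp.one_lt.ne' (Nat.isUnit_iff.1 (ha p h4))

theorem eq_natq_or {p : ℕ} [Fact p.Prime] (x : Zq p) (r : Zp)
    (h1 : 2 * x.re + x.im = (2 * r.re + r.im : ℤ)) (h2 : x.im ^ 2 = (r.im ^ 2 : ℤ)) :
    x = natq p r ∨ x = natq p (star r) := by
  push_cast at h1 h2
  rcases sq_eq_sq_iff_eq_or_eq_neg.1 h2 with h | h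
  · left
    refine QuadraticAlgebra.ext (mul_left_cancel₀ (two_ne_zero' ℤ_[p]) ?_) (by simpa using h)
    rw [natq_re]
    linear_combination h1 - h
  · right
    refine QuadraticAlgebra.ext (mul_left_cancel₀ (two_ne_zero' ℤ_[p]) ?_)
      (by simpa [QuadraticAlgebra.im_star] using h)
    rw [natq_re, QuadraticAlgebra.re_star]
    push_cast
    linear_combination h1 - h

theorem trace_int_one (t : ℝ) (x : ∀ (p : ℕ) [Fact p.Prime], Zq p)
    (h : ∀ (p : ℕ) [Fact p.Prime] (Ω : Type) [Field Ω] (i : ℝ →+* Ω) (j : ℤ_[p] →+* Ω),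
      Function.Injective j → i t = j (x p).re + j (x p).im * i goldenRatio ∨
        i t = j (x p).re + j (x p).im * i goldenConj) :
    ∃ r : Zp, t = s2 r ∧
      ((∀ (p : ℕ) [Fact p.Prime], x p = natq p r ∨ x p = natq p (star r)) ∨
        (r.im = 0 ∧ ∀ (p : ℕ) [Fact p.Prime], (x p - natq p r).norm = 0)) := by
  have key : ∀ (p : ℕ) [Fact p.Prime], IsIntegral ℚ t ∧ (minpoly ℚ t).map (algebraMap ℚ ℚ_[p]) ∣
      X ^ 2 - C (((x p).re + (x p).re + (x p).im : ℤ_[p]) : ℚ_[p]) * X +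
        C (((x p).re ^ 2 + (x p).re * (x p).im - (x p).im ^ 2 : ℤ_[p]) : ℚ_[p]) := by
    intro p _
    refine minpoly_dvd_of_fields t _ _ fun Ω _ i j => ?_
    have e1 : i goldenRatio ^ 2 = i goldenRatio + 1 := by
      rw [← map_pow, goldenRatio_sq, map_add, map_one]
    have e2 : i goldenConj ^ 2 = i goldenConj + 1 := by
      rw [← map_pow, goldenConj_sq, map_add, map_one]
    have e3 := h p Ω i (j.comp PadicInt.Coe.ringHom) (j.injective.comp Subtype.val_injective)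
    change i t = j ((x p).re : ℚ_[p]) + j ((x p).im : ℚ_[p]) * _ ∨
      i t = j ((x p).re : ℚ_[p]) + j ((x p).im : ℚ_[p]) * _ at e3
    push_cast
    simp only [map_add, map_sub, map_mul, map_pow]
    rcases e3 with e3 | e3 <;> rw [e3]
    · linear_combination j ((x p).im : ℚ_[p]) ^ 2 * e1
    · linear_combination j ((x p).im : ℚ_[p]) ^ 2 * e2
  have hi := (key 2).1
  by_cases hq : t ∈ (algebraMap ℚ ℝ).range
  · obtain ⟨q, rfl⟩ := hq
    have h1 : ∀ (p : ℕ) [Fact p.Prime], (q : ℚ_[p]) ^ 2 -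
        (((x p).re + (x p).re + (x p).im : ℤ_[p]) : ℚ_[p]) * q +
        (((x p).re ^ 2 + (x p).re * (x p).im - (x p).im ^ 2 : ℤ_[p]) : ℚ_[p]) = 0 := by
      intro p _
      have h2 := (key p).2
      rw [minpoly.eq_X_sub_C, Polynomial.map_sub, map_X, map_C, dvd_iff_isRoot] at h2
      simpa using h2
    obtain ⟨m, rfl⟩ := int_of_local q fun p _ => ⟨_, _, h1 p⟩
    refine ⟨⟨m, 0⟩, by simp [s2_apply], Or.inr ⟨rfl, fun p _ => ?_⟩⟩
    apply PadicInt.ext
    have h2 := h1 p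
    rw [QuadraticAlgebra.norm_def]
    simp only [QuadraticAlgebra.re_sub, QuadraticAlgebra.im_sub, natq_re, natq_im]
    push_cast at h2 ⊢
    linear_combination h2
  · have h1 : ∀ (p : ℕ) [Fact p.Prime],
        X ^ 2 - C (((x p).re + (x p).re + (x p).im : ℤ_[p]) : ℚ_[p]) * X +
        C (((x p).re ^ 2 + (x p).re * (x p).im - (x p).im ^ 2 : ℤ_[p]) : ℚ_[p]) =
          (minpoly ℚ t).map (algebraMap ℚ ℚ_[p]) := fun p _ =>
      eq_of_monic_of_dvd_of_natDegree_le ((minpoly.monic hi).map _) (by monicity!) (key p).2 (by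
        rw [natDegree_map]
        exact le_trans (by compute_degree) ((minpoly.two_le_natDegree_iff hi).2 hq))
    have hT : ∀ (p : ℕ) [Fact p.Prime], ((-(minpoly ℚ t).coeff 1 : ℚ) : ℚ_[p]) =
        (((x p).re + (x p).re + (x p).im : ℤ_[p]) : ℚ_[p]) := fun p _ => by
      have h2 := congrArg (fun Q => Q.coeff 1) (h1 p)
      simp only [coeff_add, coeff_sub, coeff_X_pow, coeff_C_mul, coeff_X_one, coeff_C,
        coeff_map, eq_ratCast] at h2
      rw [Rat.cast_neg, ← h2]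
      simp
    have hN : ∀ (p : ℕ) [Fact p.Prime], (((minpoly ℚ t).coeff 0 : ℚ) : ℚ_[p]) =
        (((x p).re ^ 2 + (x p).re * (x p).im - (x p).im ^ 2 : ℤ_[p]) : ℚ_[p]) := fun p _ => by
      have h2 := congrArg (fun Q => Q.coeff 0) (h1 p)
      simp only [coeff_add, coeff_sub, coeff_X_pow, coeff_C_mul, coeff_X_zero, coeff_C,
        coeff_map, eq_ratCast] at h2
      rw [← h2]
      simp
    have hμ : minpoly ℚ t = X ^ 2 - C (-(minpoly ℚ t).coeff 1) * X + C ((minpoly ℚ t).coeff 0) := by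
      apply map_injective (algebraMap ℚ ℚ_[2]) (algebraMap ℚ ℚ_[2]).injective
      rw [← h1 2, ← hT 2, ← hN 2]
      simp
    obtain ⟨α, hα⟩ := int_of_local _ fun p _ =>
      ⟨(x p).re + (x p).re + (x p).im, 0, by rw [hT p]; push_cast; ring⟩
    obtain ⟨β, hβ⟩ := int_of_local _ fun p _ =>
      ⟨(x p).re ^ 2 + (x p).re * (x p).im - (x p).im ^ 2, 0, by rw [hN p]; push_cast; ring⟩
    rw [hα] at hT
    rw [hβ] at hN
    rw [hα, hβ] at hμ
    have ht : t ^ 2 - α * t + β = 0 := by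
      have h2 := minpoly.aeval ℚ t
      rw [hμ] at h2
      simpa using h2
    have hT' : ∀ (p : ℕ) [Fact p.Prime], (α : ℤ_[p]) = 2 * (x p).re + (x p).im := fun p _ => by
      rw [two_mul]
      exact PadicInt.ext (by simpa using hT p)
    have hN' : ∀ (p : ℕ) [Fact p.Prime],
        (β : ℤ_[p]) = (x p).re ^ 2 + (x p).re * (x p).im - (x p).im ^ 2 := fun p _ =>
      PadicInt.ext (by simpa using hN p)
    have hD : 0 ≤ α ^ 2 - 4 * β := by
      have : (0 : ℝ) ≤ α ^ 2 - 4 * β := by linarith only [ht, sq_nonneg (2 * t - α), sq_nonneg ((2 : ℝ) * t - ↑α)]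
      exact_mod_cast this
    obtain ⟨D, hD'⟩ := Int.eq_ofNat_of_zero_le hD
    have hDp : ∀ (p : ℕ) [Fact p.Prime], (D : ℤ_[p]) = 5 * (x p).im ^ 2 := fun p _ => by
      have h2 := congrArg (Int.cast : ℤ → ℤ_[p]) hD'
      push_cast at h2
      rw [← h2, hT' p, hN' p]
      ring
    obtain ⟨w, hw⟩ := sq_of_local (5 * D) fun p _ => ⟨5 * (x p).im, by
      push_cast; rw [hDp p]; ring⟩
    obtain ⟨v, rfl⟩ : 5 ∣ w := Nat.prime_five.dvd_of_dvd_pow (n := 2) ⟨D, hw.symm⟩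
    have hv : D = 5 * v ^ 2 := by nlinarith
    have hvp : ∀ (p : ℕ) [Fact p.Prime], (x p).im ^ 2 = (v : ℤ_[p]) ^ 2 := fun p _ => by
      have h2 := hDp p
      rw [hv] at h2
      push_cast at h2
      exact (mul_left_cancel₀ (by norm_num) h2).symm
    have hint : α ^ 2 - 4 * β = 5 * (v : ℤ) ^ 2 := by rw [hD', hv]; push_cast; ring
    have hreal : (2 * t - α) ^ 2 = (v * √5) ^ 2 := by
      have h2 : (α : ℝ) ^ 2 - 4 * β = 5 * (v : ℝ) ^ 2 := by exact_mod_cast hint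
      rw [mul_pow, Real.sq_sqrt (by norm_num)]
      linear_combination 4 * ht + h2
    obtain ⟨b, hb1, hb2⟩ : ∃ b : ℤ, b ^ 2 = (v : ℤ) ^ 2 ∧ 2 * t - α = -(b * √5) := by
      rcases sq_eq_sq_iff_eq_or_eq_neg.1 hreal with h2 | h2
      · exact ⟨-v, by ring, by push_cast; linarith only [h2]⟩
      · exact ⟨v, rfl, by push_cast; linarith only [h2]⟩
    obtain ⟨c, hc⟩ : 2 ∣ α - b := by
      have h2 : Even ((α - b) ^ 2) :=
        ⟨2 * β + 3 * b ^ 2 - α * b, by linear_combination hint - 5 * hb1⟩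
      exact even_iff_two_dvd.1 (Int.even_pow.1 h2).1
    refine ⟨⟨c, b⟩, ?_, Or.inl fun p _ => eq_natq_or _ _ ?_ ?_⟩
    · have h2 : (α : ℝ) - b = 2 * c := by exact_mod_cast hc
      rw [s2_apply, goldenConj]
      linarith only [hb2, h2]
    · rw [← hT' p]
      exact congrArg _ (by linarith only [hc])
    · rw [hvp p, hb1]
      push_cast
      rfl

theorem im_eq_zero_of_norm_three {x : Zq 3} (h : x.norm = 0) : x.im = 0 := by
  by_contra h0
  rw [QuadraticAlgebra.norm_def] at h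
  have h1 : (2 * x.re + x.im) ^ 2 = x.im ^ 2 * 5 := by linear_combination 4 * h
  obtain ⟨c, hc⟩ : x.im ∣ 2 * x.re + x.im :=
    (IsIntegrallyClosed.pow_dvd_pow_iff two_ne_zero).1 ⟨_, h1⟩
  have h2 : c ^ 2 = 5 := mul_left_cancel₀ (pow_ne_zero 2 h0) (by rw [← h1, hc]; ring)
  have h3 := congrArg PadicInt.toZMod h2
  rw [map_pow, map_ofNat] at h3
  exact (by decide : ∀ u : ZMod 3, u ^ 2 ≠ 5) _ h3

theorem unif {p : ℕ} [Fact p.Prime] (f f' : Zp →+* Zq p) (hf : ∀ z, (f' z).im = -(f z).im)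
    {r r0 : Zp} {x : Zq p} (h0 : r0.im ≠ 0) (h0' : (f r0).im ≠ 0)
    (h : ∀ n : ℕ, (r + n * r0).im ≠ 0 →
      x + n * f r0 = f (r + n * r0) ∨ x + n * f r0 = f' (r + n * r0)) : x = f r := by
  by_contra hx
  have h1 : ∀ n : ℕ, (r + n * r0).im ≠ 0 → x.im + (f r).im + 2 * n * (f r0).im = 0 := by
    intro n hn
    rcases h n hn with h2 | h2
    · rw [map_add, map_mul, map_natCast] at h2
      exact absurd (add_right_cancel h2) hx
    · have h3 := congrArg QuadraticAlgebra.im h2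
      rw [hf, map_add, map_mul, map_natCast] at h3
      simp at h3
      linear_combination h3
  have h2 : ∀ n : ℕ, r.im.natAbs < n → (r + n * r0).im ≠ 0 := by
    intro n hn h3
    simp at h3
    have h4 : r.im.natAbs = n * r0.im.natAbs := by
      rw [eq_neg_of_add_eq_zero_left h3, Int.natAbs_neg, Int.natAbs_mul, Int.natAbs_natCast]
    have h5 : 1 ≤ r0.im.natAbs := Int.natAbs_pos.2 h0
    nlinarith only [hn, h4, h5]
  have h3 := h1 _ (h2 (r.im.natAbs + 1) (by omega))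
  have h4 := h1 _ (h2 (r.im.natAbs + 2) (by omega))
  push_cast at h3 h4
  exact h0' (mul_left_cancel₀ (two_ne_zero' ℤ_[p]) (by linear_combination h4 - h3))

theorem traces_int {G : Type} (t : G → ℝ) (x : ∀ (p : ℕ) [Fact p.Prime], G → Zq p)
    (h : ∀ (p : ℕ) [Fact p.Prime] (Ω : Type) [Field Ω] (i : ℝ →+* Ω) (j : ℤ_[p] →+* Ω),
      Function.Injective j →
        (∀ g, i (t g) = j (x p g).re + j (x p g).im * i goldenRatio) ∨
        (∀ g, i (t g) = j (x p g).re + j (x p g).im * i goldenConj))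
    (h3 : ∃ g, (x 3 g).im ≠ 0) :
    ∃ r : G → Zp, (∀ g, t g = s2 (r g)) ∧ ∀ (p : ℕ) [Fact p.Prime],
      (∀ g, x p g = natq p (r g)) ∨ (∀ g, x p g = natq p (star (r g))) := by
  choose r hr hr' using fun g => trace_int_one (t g) (fun p _ => x p g)
    fun p _ Ω _ i j hj => (h p Ω i j hj).imp (fun h => h g) fun h => h g
  obtain ⟨g0, hg0⟩ : ∃ g0, (r g0).im ≠ 0 := by
    obtain ⟨g, hg⟩ := h3
    refine ⟨g, fun h0 => hg ?_⟩
    rcases hr' g with h1 | ⟨-, h1⟩
    · rcases h1 3 with h2 | h2 <;> simp [h2, QuadraticAlgebra.im_star, h0]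
    · simpa [h0] using im_eq_zero_of_norm_three (h1 3)
  have hsum : ∀ (p : ℕ) [Fact p.Prime] (g : G) (n : ℕ), (r g + n * r g0).im ≠ 0 →
      x p g + n * x p g0 = natq p (r g + n * r g0) ∨
        x p g + n * x p g0 = natq p (star (r g + n * r g0)) := by
    intro p _ g n hn
    obtain ⟨r', h1, h2⟩ := trace_int_one (t g + n * t g0) (fun p _ => x p g + n * x p g0)
      fun p _ Ω _ i j hj => (h p Ω i j hj).imp
        (fun h => by simp [h g, h g0]; ring) fun h => by simp [h g, h g0]; ring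
    have h4 : r' = r g + n * r g0 := s2_injective (by rw [← h1, hr g, hr g0]; simp)
    subst h4
    exact (h2.resolve_right fun h5 => hn h5.1) p
  refine ⟨r, hr, fun p _ => ?_⟩
  have hp : ((r g0).im : ℤ_[p]) ≠ 0 := by exact_mod_cast hg0
  rcases ((hr' g0).resolve_right fun h5 => hg0 h5.1) p with h1 | h1
  · refine Or.inl fun g => unif (natq p) ((natq p).comp (starRingEnd Zp))
      (fun z => by simp [starRingEnd_apply, QuadraticAlgebra.im_star]) hg0 (by simpa using hp)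
      fun n hn => ?_
    rw [← h1]
    exact hsum p g n hn
  · refine Or.inr fun g => unif ((natq p).comp (starRingEnd Zp)) (natq p)
      (fun z => by simp [starRingEnd_apply, QuadraticAlgebra.im_star]) hg0
      (by simpa [starRingEnd_apply, QuadraticAlgebra.im_star] using hp) fun n hn => ?_
    have h2 := (hsum p g n hn).symm
    rw [h1] at h2
    exact h2

end Pool.Agent.Work.MP_f81df4_al.H80
end

-- merged part: Pool.Agent.Work.MP_f81df4_al.H80B4
section
/-! An invariant unimodular lattice from a representation with golden integer traces. -/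

set_option autoImplicit false

namespace Pool.Agent.Work.MP_f81df4_al.H80

open Matrix

theorem form_of_lattice {G N : Type} [Group G] [AddCommGroup N] [Module Zp N]
    (b : LinearMap.BilinForm Zp N) (hsym : ∀ x y, b x y = b y x)
    (hpos : ∀ x, x ≠ 0 → 0 < s2 (b x x)) (c : G →* Module.End Zp N)
    (hc : ∀ g x y, b (c g x) (c g y) = b x y) (q0 : Fin 3 → N)
    (hq0 : (of fun i j => b (q0 i) (q0 j)).det ≠ 0)
    (horth : ∀ x, (∀ j, b (q0 j) x = 0) → x = 0)
    (hU : ∀ p : ℕ, p.Prime → ∃ q : Fin 3 → N, ¬ (p : ℤ) ∣ (of fun i j => b (q i) (q j)).det.norm)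
    (hinf : ∃ g, ∀ n, 0 < n → c (g ^ n) ≠ 1) :
    ∃ G0 : Matrix (Fin 3) (Fin 3) Zp, G0.IsSymm ∧ IsUnit G0.det ∧
      (∀ v, v ≠ 0 → 0 < s2 (v ⬝ᵥ G0 *ᵥ v)) ∧ ∃ ρ : G →* GL (Fin 3) Zp,
        (∀ γ, (ρ γ).1ᵀ * G0 * (ρ γ).1 = G0) ∧ Infinite ρ.range := by
  let L : N →ₗ[Zp] (Fin 3 → Zp) := LinearMap.pi fun j => b (q0 j)
  have hL : Function.Injective L :=
    (injective_iff_map_eq_zero L).2 fun x hx => horth x fun j => congrFun hx j
  have : Module.Finite Zp N := Module.Finite.of_injective L hL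
  have : Module.Free Zp N := Module.Free.of_equiv (LinearEquiv.ofInjective L hL).symm
  have hli : LinearIndependent Zp q0 := Fintype.linearIndependent_iff.2 fun v hv => by
    have h1 : (of fun i j => b (q0 i) (q0 j)) *ᵥ v = 0 := by
      funext i
      have h2 := congrArg (b (q0 i)) hv
      rw [map_sum, map_zero] at h2
      simpa [mulVec, dotProduct, mul_comm] using h2
    exact congrFun (eq_zero_of_mulVec_eq_zero hq0 h1)
  have hrk : Module.finrank Zp N = 3 := by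
    have h1 := LinearMap.finrank_le_finrank_of_injective hL
    have h2 := hli.fintype_card_le_finrank
    simp at h1 h2
    omega
  let e := Module.finBasisOfFinrankEq Zp N hrk
  let c' : G →* Matrix (Fin 3) (Fin 3) Zp :=
    (LinearMap.toMatrixAlgEquiv e).toMulEquiv.toMonoidHom.comp c
  refine ⟨b.toMatrix e, ?_, ?_, fun v hv => ?_, c'.toHomUnits, fun γ => ?_, ?_⟩
  · exact (LinearMap.BilinForm.isSymm_toMatrix_iff_isSymm e).2 ⟨hsym⟩
  · rw [isUnit_iff_abs, ← Int.natCast_natAbs, Nat.cast_eq_one, Nat.eq_one_iff_not_exists_prime_dvd]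
    intro p hp hd
    obtain ⟨q, hq⟩ := hU p hp
    have h1 : (of fun i j => b (q i) (q j)) =
        (of fun i j => e.repr (q i) j) * b.toMatrix e * (of fun i j => e.repr (q i) j)ᵀ := by
      refine Matrix.ext fun i j => ?_
      rw [of_apply, b.apply_eq_dotProduct_toMatrix_mulVec e, dotProduct_mulVec]
      rfl
    rw [h1, det_mul, det_mul, map_mul, map_mul] at hq
    exact hq (((Int.natCast_dvd.2 hd).mul_left _).mul_right _)
  · rw [b.dotProduct_toMatrix_mulVec e]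
    exact hpos _ fun h => hv (e.equivFun.symm.map_eq_zero_iff.1 h)
  · have h1 := b.toMatrix_comp e e (c γ) (c γ)
    rw [show b.comp (c γ) (c γ) = b from LinearMap.ext₂ (hc γ)] at h1
    exact h1.symm
  · obtain ⟨g, hg⟩ := hinf
    by_contra hf
    have : Finite c'.toHomUnits.range := not_infinite_iff_finite.1 hf
    obtain ⟨n, hn, h1⟩ :=
      (isOfFinOrder_of_finite (c'.toHomUnits.rangeRestrict g)).exists_pow_eq_one
    rw [← map_pow] at h1
    have h2 : c' (g ^ n) = 1 := congrArg (fun u : c'.toHomUnits.range => u.1.1) h1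
    exact hg n hn ((LinearMap.toMatrixAlgEquiv e).injective (h2.trans (map_one _).symm))

section Real

variable {a b c : ℝ}

theorem orth_eq_zero (q : Fin 3 → Qt ℝ a b c) (hq : ∀ i, Qt.tr (q i) = 0)
    (hd : (of fun i j => Qt.tr (q i * q j)).det ≠ 0) {x : Qt ℝ a b c} (hx : Qt.tr x = 0)
    (h : ∀ j, Qt.tr (q j * x) = 0) : x = 0 := by
  let M : Matrix (Fin 3) (Fin 3) ℝ :=
    !![a ^ 2 / 2 - 2, c - a * b / 2, a * c / 2 - b; c - a * b / 2, b ^ 2 / 2 - 2, b * c / 2 - a;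
      a * c / 2 - b, b * c / 2 - a, c ^ 2 / 2 - 2]
  let v : Qt ℝ a b c → Fin 3 → ℝ := fun p => ![p.c1, p.c2, p.c3]
  have h0 : ∀ p : Qt ℝ a b c, Qt.tr p = 0 → p.c0 = -(a * p.c1 + b * p.c2 + c * p.c3) / 2 :=
    fun p hp => by rw [Qt.tr] at hp; linarith only [hp]
  have h1 : ∀ p p' : Qt ℝ a b c, Qt.tr p = 0 → Qt.tr p' = 0 →
      Qt.tr (p * p') = (v p ᵥ* M) ⬝ᵥ v p' := fun p p' hp hp' => by
    simp [M, v, Qt.tr, vecMul, dotProduct, Fin.sum_univ_three, h0 p hp, h0 p' hp']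
    ring
  have h2 : (of fun i j => Qt.tr (q i * q j)) = (of fun i => v (q i)) * M * (of fun i => v (q i))ᵀ := by
    ext i j
    rw [of_apply, h1 _ _ (hq i) (hq j)]
    rfl
  rw [h2, det_mul] at hd
  have h3 : v x = 0 := eq_zero_of_mulVec_eq_zero (left_ne_zero_of_mul hd) (by
    ext j
    rw [Pi.zero_apply, ← h j, h1 _ _ (hq j) hx]
    rfl)
  have e1 : x.c1 = 0 := congrFun h3 0
  have e2 : x.c2 = 0 := congrFun h3 1
  have e3 : x.c3 = 0 := congrFun h3 2
  ext <;> simp [h0 x hx, e1, e2, e3]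

theorem nrd_pos (h0 : 0 < a) (h1 : a < 0.7) {p : Qt ℝ a a 0} (hp : p ≠ 0) : 0 < Qt.nrd p := by
  have h2 : 0 < p.c0 ^ 2 + p.c1 ^ 2 + p.c2 ^ 2 + p.c3 ^ 2 := by
    by_contra h
    refine hp (Qt.ext ?_ ?_ ?_ ?_) <;> simp <;> nlinarith [sq_nonneg p.c0, sq_nonneg p.c1,
      sq_nonneg p.c2, sq_nonneg p.c3]
  have h3 : 1 / 20 ≤ 1 - a - a ^ 2 / 2 := by linarith only [h0, h1, mul_pos_of_neg_of_neg (Mathlib.Tactic.Linarith.sub_neg_of_lt h0) (Mathlib.Tactic.Linarith.sub_neg_of_lt h1)]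
  have e : Qt.nrd p = (1 - a - a ^ 2 / 2) * (p.c0 ^ 2 + p.c1 ^ 2 + p.c2 ^ 2 + p.c3 ^ 2) +
      (a ^ 2 / 2 * (p.c0 ^ 2 + p.c3 ^ 2 + (p.c1 + p.c2) ^ 2) + a / 2 * ((p.c0 + p.c1) ^ 2 +
        (p.c0 + p.c2) ^ 2 + (p.c1 + p.c3) ^ 2 + (p.c2 + p.c3) ^ 2)) := by
    rw [Qt.nrd]; ring
  rw [e]
  exact add_pos_of_pos_of_nonneg (mul_pos (by linarith only [h0, h1, h3]) h2) (by positivity)

theorem tr_sq_of_comm (h0 : 0 < a) (h1 : a < 0.7) {u : Qt ℝ a a 0} (hu : Qt.nrd u = 1)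
    (h : ∀ v, Qt.tr v = 0 → u * v = v * u) : Qt.tr u ^ 2 = 4 := by
  have hY := h ⟨-a / 2, 1, 0, 0⟩ (by simp [Qt.tr]; ring)
  have hZ := h ⟨-a / 2, 0, 1, 0⟩ (by simp [Qt.tr]; ring)
  have e1 := congrArg Qt.c2 hY
  have e2 := congrArg Qt.c3 hY
  have e3 := congrArg Qt.c3 hZ
  simp only [Qt.mul_c2, Qt.mul_c3] at e1 e2 e3
  have h4 : 0 < 4 - a ^ 2 := by linarith only [h0, h1, mul_pos_of_neg_of_neg (Mathlib.Tactic.Linarith.sub_neg_of_lt h0) (Mathlib.Tactic.Linarith.sub_neg_of_lt h1)]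
  have f2 : u.c2 = 0 := mul_left_cancel₀ h4.ne' (by linear_combination -a * e1 - 2 * e2)
  have f3 : u.c3 = 0 := by rw [f2] at e1; linarith only [e1]
  have f1 : u.c1 = 0 := by rw [f2, f3] at e3; linarith only [e3]
  rw [Qt.nrd, f1, f2, f3] at hu
  rw [Qt.tr, f1, f2, f3]
  linarith only [hu]

end Real

section Gen

variable {G S : Type} [Group G] [CommRing S] {a b c : S}

/-- The generators of the lattice. -/
def wS (ν : Zp →+* S) (σ : G →* N1 S a b c) (r : G → Zp) (g h : G) : Qt S a b c :=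
  ν (r h) • (σ g).v - ν (r g) • (σ h).v

/-- The trace of the product of two generators. -/
def tauW (r : G → Zp) (g h g' h' : G) : Zp :=
  r h * r h' * r (g * g') - r h * r g' * r (g * h') - r g * r h' * r (h * g') +
    r g * r g' * r (h * h')

variable {ν : Zp →+* S} {σ : G →* N1 S a b c} {r : G → Zp}

theorem tr_wS (hr : ∀ g, Qt.tr (σ g).v = ν (r g)) (g h : G) : Qt.tr (wS ν σ r g h) = 0 := by
  rw [wS, Qt.tr_sub, Qt.tr_smul, Qt.tr_smul, hr, hr]
  ring

theorem tr_wS_mul (hr : ∀ g, Qt.tr (σ g).v = ν (r g)) (g h g' h' : G) :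
    Qt.tr (wS ν σ r g h * wS ν σ r g' h') = ν (tauW r g h g' h') := by
  simp only [wS, tauW, mul_sub, sub_mul, smul_mul_assoc, mul_smul_comm, Qt.tr_sub, Qt.tr_smul,
    ← N1.mul_v, ← map_mul σ, hr, map_add, map_sub, map_mul ν]
  ring

theorem two_dvd_tauW (hr : ∀ g, Qt.tr (σ g).v = ν (r g))
    (h2 : (2 : S) ∣ 4 - a ^ 2 - b ^ 2 - c ^ 2 + a * b * c) (h2' : ∀ x : Zp, (2 : S) ∣ ν x → 2 ∣ x)
    (g h g' h' : G) : 2 ∣ tauW r g h g' h' := by
  have h3 := Qt.del_eq_tr (wS ν σ r g h) (wS ν σ r g' h')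
  rw [Qt.del_eq_vol, tr_wS hr, tr_wS hr, tr_wS_mul hr] at h3
  obtain ⟨k, hk⟩ := h2
  have h4 := h2' (tauW r g h g' h' ^ 2) ⟨2 * Qt.nrd (wS ν σ r g h) * Qt.nrd (wS ν σ r g' h') -
    k * Qt.vol (wS ν σ r g h) (wS ν σ r g' h') (wS ν σ r g h * wS ν σ r g' h'), by
      rw [map_pow]
      linear_combination h3 - Qt.vol (wS ν σ r g h) (wS ν σ r g' h')
        (wS ν σ r g h * wS ν σ r g' h') * hk⟩
  have h5 := map_dvd QuadraticAlgebra.norm h4
  rw [map_pow, norm_two] at h5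
  exact two_dvd_of_norm (Int.prime_two.dvd_of_dvd_pow ((by norm_num : (2 : ℤ) ∣ 4).trans h5))

theorem tr_rec (σ : G →* N1 S a b c) (g h : G) :
    Qt.tr (σ (g * g * h)).v = Qt.tr (σ g).v * Qt.tr (σ (g * h)).v - Qt.tr (σ h).v := by
  simp only [map_mul, N1.mul_v]
  rw [Qt.mul_self, (σ g).h, sub_mul, smul_mul_assoc, smul_mul_assoc, one_mul, one_smul, Qt.tr_sub,
    Qt.tr_smul]

theorem tr_comm (σ : G →* N1 S a b c) (g h : G) :
    Qt.tr (σ (g * h)).v = Qt.tr (σ (h * g)).v := by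
  simp only [map_mul, N1.mul_v]
  exact Qt.tr_mul_comm _ _

end Gen

theorem abs_growth {G : Type} [Group G] {r : G → Zp} (h1 : r 1 = 2)
    (hrec : ∀ g h, r (g * g * h) = r g * r (g * h) - r h) {g : G} (hg : 2 < |s1 (r g)|) (n : ℕ) :
    2 ≤ |s1 (r (g ^ n))| ∧ |s1 (r (g ^ n))| < |s1 (r (g ^ (n + 1)))| := by
  induction n with
  | zero => simpa [h1, map_ofNat] using hg
  | succ n ih =>
    refine ⟨ih.1.trans ih.2.le, ?_⟩
    have e : r (g ^ (n + 1 + 1)) = r g * r (g ^ (n + 1)) - r (g ^ n) := by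
      rw [pow_succ' g n, ← hrec, pow_succ', pow_succ', mul_assoc]
    rw [e, map_sub, map_mul]
    have h2 := abs_sub_abs_le_abs_sub (s1 (r g) * s1 (r (g ^ (n + 1)))) (s1 (r (g ^ n)))
    rw [abs_mul] at h2
    linarith only [hg, ih, h2, ih.1, ih.2, mul_nonneg_of_nonpos_of_nonpos (le_of_lt (Mathlib.Tactic.Linarith.sub_neg_of_lt hg)) (Mathlib.Tactic.Linarith.sub_nonpos_of_le ih.left), mul_pos_of_neg_of_neg (Mathlib.Tactic.Linarith.sub_neg_of_lt hg) (Mathlib.Tactic.Linarith.sub_neg_of_lt ih.right)]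

/-- The real numbers as an algebra over the golden integers. -/
noncomputable abbrev algS2 : Algebra Zp ℝ := s2.toAlgebra

attribute [local instance] algS2

theorem form_of_traces {G : Type} [Group G] (ρ : G →* N1 ℝ (s2 (-ph)) (s2 (-ph)) 0) (r : G → Zp)
    (hr : ∀ g, Qt.tr (ρ g).v = s2 (r g))
    (hE : ∃ (S : Type) (_ : CommRing S) (a b c : S) (ν : Zp →+* S) (σ : G →* N1 S a b c),
      (∀ g, Qt.tr (σ g).v = ν (r g)) ∧ (2 : S) ∣ 4 - a ^ 2 - b ^ 2 - c ^ 2 + a * b * c ∧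
        ∀ x : Zp, (2 : S) ∣ ν x → 2 ∣ x)
    (hU : ∀ p : ℕ, p.Prime → ∃ (g h : G) (d : Zp),
      4 - r g ^ 2 - r h ^ 2 - r (g * h) ^ 2 + r g * r h * r (g * h) = 2 * d ∧
        ¬ (p : ℤ) ∣ (r g * d).norm)
    (hI : ∃ g, 2 < |s1 (r g)|) :
    ∃ G0 : Matrix (Fin 3) (Fin 3) Zp, G0.IsSymm ∧ IsUnit G0.det ∧
      (∀ v, v ≠ 0 → 0 < s2 (v ⬝ᵥ G0 *ᵥ v)) ∧ ∃ ρ : G →* GL (Fin 3) Zp,
        (∀ γ, (ρ γ).1ᵀ * G0 * (ρ γ).1 = G0) ∧ Infinite ρ.range := by
  obtain ⟨S, _, a', b', c', ν, σ, hσ, h2, h2'⟩ := hE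
  have ha : 0 < s2 (-ph) ∧ s2 (-ph) < 0.7 := by
    rw [map_neg, s2_ph]
    constructor <;> linarith only [goldc_bounds.1, goldc_bounds.2]
  generalize s2 (-ph) = a at ρ hr ha
  have hr1 : r 1 = 2 := s2_injective (by rw [← hr, map_one, N1.one_v, Qt.tr_one, map_ofNat])
  have hrec : ∀ g h, r (g * g * h) = r g * r (g * h) - r h := fun g h =>
    s2_injective (by rw [map_sub, map_mul, ← hr, ← hr, ← hr, ← hr, tr_rec])
  have hcomm : ∀ g h, r (g * h) = r (h * g) := fun g h =>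
    s2_injective (by rw [← hr, ← hr, tr_comm])
  have hconj : ∀ g h, r (g * h * g⁻¹) = r h := fun g h => by rw [hcomm, inv_mul_cancel_left]
  have hsm : ∀ (z : Zp) (p : Qt ℝ a a 0), z • p = s2 z • p := fun z p => rfl
  let N : Submodule Zp (Qt ℝ a a 0) :=
    Submodule.span Zp (Set.range fun gh : G × G => wS s2 ρ r gh.1 gh.2)
  have hw : ∀ g h, wS s2 ρ r g h ∈ N := fun g h => Submodule.subset_span ⟨(g, h), rfl⟩
  have htr : ∀ x ∈ N, Qt.tr x = 0 := fun x hx => by
    induction hx using Submodule.span_induction with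
    | mem x hx => obtain ⟨gh, rfl⟩ := hx; exact tr_wS hr _ _
    | zero => exact Qt.tr_zero
    | add x y _ _ hx hy => rw [Qt.tr_add, hx, hy, add_zero]
    | smul z x _ hx => rw [hsm, Qt.tr_smul, hx, mul_zero]
  let B : Qt ℝ a a 0 →ₗ[Zp] Qt ℝ a a 0 →ₗ[Zp] ℝ :=
    LinearMap.mk₂ Zp (fun p q => -Qt.tr (p * q) / 2)
      (fun p p' q => by rw [add_mul, Qt.tr_add]; ring)
      (fun z p q => by
        rw [hsm, smul_mul_assoc, Qt.tr_smul, Algebra.smul_def]
        change _ = s2 z * _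
        ring)
      (fun p q q' => by rw [mul_add, Qt.tr_add]; ring)
      (fun z p q => by
        rw [hsm, mul_smul_comm, Qt.tr_smul, Algebra.smul_def]
        change _ = s2 z * _
        ring)
  have hB : ∀ x ∈ N, ∀ y ∈ N, B x y ∈ LinearMap.range (Algebra.linearMap Zp ℝ) := by
    intro x hx y hy
    refine (Submodule.span_le (p := Submodule.comap (B.flip y)
      (LinearMap.range (Algebra.linearMap Zp ℝ)))).2 ?_ hx
    rintro _ ⟨⟨g, h⟩, rfl⟩
    refine (Submodule.span_le (p := Submodule.comap (B (wS s2 ρ r g h))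
      (LinearMap.range (Algebra.linearMap Zp ℝ)))).2 ?_ hy
    rintro _ ⟨⟨g', h'⟩, rfl⟩
    obtain ⟨k, hk⟩ := two_dvd_tauW hσ h2 h2' g h g' h'
    refine ⟨-k, ?_⟩
    change s2 (-k) = -Qt.tr (_ * _) / 2
    rw [tr_wS_mul hr, hk, map_mul, map_neg, map_ofNat]
    ring
  let b : LinearMap.BilinForm Zp N := LinearMap.codRestrict₂ (B.domRestrict₁₂ N N)
    (Algebra.linearMap Zp ℝ) s2_injective fun x y => hB _ x.2 _ y.2
  have hb : ∀ x y : N, s2 (b x y) = -Qt.tr (x.1 * y.1) / 2 := fun x y =>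
    LinearMap.codRestrict₂_apply (B.domRestrict₁₂ N N) (Algebra.linearMap Zp ℝ) s2_injective _ x y
  let cg : G → Qt ℝ a a 0 →ₗ[Zp] Qt ℝ a a 0 := fun g =>
    LinearMap.mulLeft Zp (ρ g).v ∘ₗ LinearMap.mulRight Zp (ρ g⁻¹).v
  have hcg : ∀ g x, cg g x = (ρ g).v * (x * (ρ g⁻¹).v) := fun g x => rfl
  have hinv : ∀ g, (ρ g⁻¹).v * (ρ g).v = 1 := fun g => by
    rw [← N1.mul_v, ← map_mul, inv_mul_cancel, map_one, N1.one_v]
  have hcN : ∀ g, ∀ x ∈ N, cg g x ∈ N := fun g x hx => by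
    refine (Submodule.span_le (p := Submodule.comap (cg g) N)).2 ?_ hx
    rintro _ ⟨⟨h, k⟩, rfl⟩
    have e : cg g (wS s2 ρ r h k) = wS s2 ρ r (g * h * g⁻¹) (g * k * g⁻¹) := by
      rw [wS, wS, hconj, hconj]
      simp only [hcg, map_mul ρ, N1.mul_v, mul_sub, sub_mul, smul_mul_assoc,
        mul_smul_comm, mul_assoc]
    change cg g (wS s2 ρ r h k) ∈ N
    rw [e]
    exact hw _ _
  let c : G →* Module.End Zp N :=
    { toFun := fun g => (cg g).restrict (hcN g)
      map_one' := LinearMap.ext fun x => Subtype.ext (by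
        change cg 1 x.1 = x.1
        simp [hcg])
      map_mul' := fun g h => LinearMap.ext fun x => Subtype.ext (by
        change cg (g * h) x.1 = cg g (cg h x.1)
        simp only [hcg, _root_.mul_inv_rev, map_mul, N1.mul_v, mul_assoc]) }
  have hc : ∀ g (x : N), (c g x).1 = (ρ g).v * (x.1 * (ρ g⁻¹).v) := fun g x => rfl
  let q : G → G → Fin 3 → N := fun g h => ![⟨_, hw g 1⟩, ⟨_, hw h g⟩, ⟨_, hw (g * h) g⟩]
  have hq : ∀ g h d, 4 - r g ^ 2 - r h ^ 2 - r (g * h) ^ 2 + r g * r h * r (g * h) = 2 * d →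
      (of fun i j => b (q g h i) (q g h j)).det = r g ^ 4 * d ^ 2 := by
    intro g h d hd
    have t1 : ∀ k, r (k * k) = r k ^ 2 - 2 := fun k => by
      have := hrec k 1
      rw [mul_one, mul_one, hr1] at this
      rw [this]; ring
    have t2 : r (h * g) = r (g * h) := hcomm _ _
    have t3 : r (g * (g * h)) = r g * r (g * h) - r h := by rw [← mul_assoc, hrec]
    have t4 : r (g * h * g) = r g * r (g * h) - r h := by rw [hcomm, t3]
    have t5 : r (g * h * h) = r h * r (g * h) - r g := by rw [mul_assoc, hcomm, hrec, t2]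
    have t6 : r (h * (g * h)) = r h * r (g * h) - r g := by rw [hcomm, t5]
    have hd' := congrArg s2 hd
    apply s2_injective
    rw [RingHom.map_det, det_fin_three]
    simp only [RingHom.mapMatrix_apply, map_apply, of_apply, hb, q, cons_val_zero, cons_val_one,
      cons_val, tr_wS_mul hr, tauW, mul_one, one_mul, hr1, t1, t2, t3, t4, t5, t6, map_add,
      map_sub, map_mul, map_pow, map_ofNat] at hd' ⊢
    linear_combination (s2 (r g) ^ 4 / 4 * (4 - s2 (r g) ^ 2 - s2 (r h) ^ 2 - s2 (r (g * h)) ^ 2 +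
      s2 (r g) * s2 (r h) * s2 (r (g * h)) + 2 * s2 d)) * hd'
  have hU' : ∀ p : ℕ, p.Prime → ∃ g h, ¬ (p : ℤ) ∣ (of fun i j => b (q g h i) (q g h j)).det.norm := by
    intro p hp
    obtain ⟨g, h, d, hd, hp'⟩ := hU p hp
    refine ⟨g, h, fun h3 => hp' ?_⟩
    have hp2 := Nat.prime_iff_prime_int.1 hp
    rw [hq g h d hd, map_mul, map_pow, map_pow] at h3
    rw [map_mul]
    exact (hp2.dvd_or_dvd h3).elim (fun h4 => (hp2.dvd_of_dvd_pow h4).mul_right _)
      fun h4 => (hp2.dvd_of_dvd_pow h4).mul_left _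
  obtain ⟨g0, h0, hq0⟩ := hU' 2 Nat.prime_two
  have hq1 : (of fun i j => b (q g0 h0 i) (q g0 h0 j)).det ≠ 0 := fun h => hq0 (by simp [h])
  have horth : ∀ x : Qt ℝ a a 0, Qt.tr x = 0 → (∀ j, Qt.tr ((q g0 h0 j).1 * x) = 0) → x = 0 := by
    intro x hx h
    refine orth_eq_zero (fun j => (q g0 h0 j).1) (fun j => htr _ (q g0 h0 j).2) (fun h3 => hq1 ?_)
      hx h
    apply s2_injective
    have e : s2.mapMatrix (of fun i j => b (q g0 h0 i) (q g0 h0 j)) =
        (-1 / 2 : ℝ) • of fun i j => Qt.tr ((q g0 h0 i).1 * (q g0 h0 j).1) := by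
      ext i j
      simp only [RingHom.mapMatrix_apply, map_apply, of_apply, hb, Matrix.smul_apply, smul_eq_mul]
      ring
    rw [RingHom.map_det, e, det_smul, h3, mul_zero, map_zero]
  refine form_of_lattice b (fun x y => s2_injective (by rw [hb, hb, Qt.tr_mul_comm]))
    (fun x hx => ?_) c (fun g x y => s2_injective ?_) (q g0 h0) hq1 (fun x hx => ?_)
    (fun p hp => (hU' p hp).elim fun g h => h.elim fun h h' => ⟨_, h'⟩) ?_
  · rw [hb, Qt.mul_self, htr _ x.2, zero_smul, zero_sub, Qt.tr_neg, Qt.tr_smul, Qt.tr_one]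
    linarith only [ha, hx, nrd_pos ha.1 ha.2 (p := x.1) fun h => hx (Subtype.ext h)]
  · rw [hb, hb, hc, hc, mul_assoc, Qt.tr_mul_comm]
    simp only [mul_assoc]
    rw [hinv, mul_one, ← mul_assoc (ρ g⁻¹).v, hinv, one_mul]
  · refine Subtype.ext (horth _ (htr _ x.2) fun j => ?_)
    have := hb (q g0 h0 j) x
    rw [hx j, map_zero] at this
    linarith only [this]
  · obtain ⟨g, hg⟩ := hI
    refine ⟨g, fun n hn h => ?_⟩
    have h3 : ∀ x : N, (ρ (g ^ n)).v * x.1 = x.1 * (ρ (g ^ n)).v := fun x => by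
      have h4 := hc (g ^ n) x
      rw [h] at h4
      conv_rhs => rw [show x.1 = _ from h4, mul_assoc, mul_assoc, hinv, mul_one]
    have h4 := tr_sq_of_comm ha.1 ha.2 (ρ (g ^ n)).h fun v _ => sub_eq_zero.1 (horth _
      (by rw [Qt.tr_sub, Qt.tr_mul_comm, sub_self]) fun j => by
        rw [mul_sub, Qt.tr_sub, ← mul_assoc, ← h3, ← mul_assoc, Qt.tr_mul_comm _ (ρ (g ^ n)).v,
          mul_assoc, sub_self])
    rw [hr] at h4
    have h5 : r (g ^ n) ^ 2 = 4 := s2_injective (by rw [map_pow, h4, map_ofNat])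
    have h6 := congrArg s1 h5
    rw [map_pow, map_ofNat, ← sq_abs] at h6
    obtain ⟨m, rfl⟩ := Nat.exists_eq_succ_of_ne_zero hn.ne'
    have h7 := abs_growth hr1 hrec hg m
    linarith only [h6, h7, ha, h7.1, h7.2, mul_pos_of_neg_of_neg (Mathlib.Tactic.Linarith.sub_neg_of_lt ha.left) (Mathlib.Tactic.Linarith.sub_neg_of_lt h7.right), mul_pos_of_neg_of_neg (Mathlib.Tactic.Linarith.sub_neg_of_lt ha.right) (Mathlib.Tactic.Linarith.sub_neg_of_lt h7.right), mul_nonneg_of_nonpos_of_nonpos (Mathlib.Tactic.Linarith.sub_nonpos_of_le h7.left) (Mathlib.Tactic.Linarith.sub_nonpos_of_le h7.left), mul_nonneg_of_nonpos_of_nonpos (Mathlib.Tactic.Linarith.sub_nonpos_of_le h7.left) (le_of_lt (Mathlib.Tactic.Linarith.sub_neg_of_lt h7.right)), mul_pos_of_neg_of_neg (Mathlib.Tactic.Linarith.sub_neg_of_lt h7.right) (Mathlib.Tactic.Linarith.sub_neg_of_lt h7.right)]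

end Pool.Agent.Work.MP_f81df4_al.H80
end

-- merged part: Pool.Agent.Work.MP_f81df4_al.BMain
section
/-! An integral unimodular ternary form for every finitely generated Bohr equivalent group. -/

set_option autoImplicit false

namespace Pool.Agent.Work.MP_f81df4_al

open H80 Qt Real Matrix

/-- evaluation at a root -/
noncomputable def embq {p : ℕ} [Fact p.Prime] {Ω : Type} [CommRing Ω] (j : ℤ_[p] →+* Ω) (u : Ω)
    (hu : u * u = 1 + u) : Zq p →+* Ω where
  toFun z := j z.re + j z.im * u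
  map_one' := by simp [QuadraticAlgebra.re_one, QuadraticAlgebra.im_one]
  map_mul' z w := by
    simp only [QuadraticAlgebra.re_mul, QuadraticAlgebra.im_mul, map_add, map_mul, one_mul]
    linear_combination (-(j z.im) * j w.im) * hu
  map_zero' := by simp
  map_add' z w := by
    simp only [QuadraticAlgebra.re_add, QuadraticAlgebra.im_add, map_add]
    ring

lemma embq_ne {p : ℕ} [Fact p.Prime] {Ω : Type} [CommRing Ω] {j : ℤ_[p] →+* Ω}
    (hj : Function.Injective j) {u : Ω} (hu : u * u = 1 + u) {x : Zq p} (hx : x.norm ≠ 0) :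
    embq j u hu x ≠ 0 := by
  intro h
  apply hx
  apply hj
  change j x.re + j x.im * u = 0 at h
  simp only [QuadraticAlgebra.norm_def, map_sub, map_add, map_mul, map_one, map_zero]
  linear_combination (j x.re + j x.im * (1 - u)) * h + (j x.im) ^ 2 * hu

theorem three' {L G : Type} [Group L] [Group G] (A : LamData L 1) (E : BohrEquiv L G)
    (hG : Group.FG G) {Ω : Type} [Field Ω] [CharZero Ω] {a0 a1 a2 : Ω}
    (σ0 : G →* N1 Ω a0 a0 0) (σ1 : G →* N1 Ω a1 a1 0) (σ2 : G →* N1 Ω a2 a2 0)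
    (d0 : ∃ g h, del (σ0 g).v (σ0 h).v ≠ 0) (d1 : ∃ g h, del (σ1 g).v (σ1 h).v ≠ 0)
    (d2 : ∃ g h, del (σ2 g).v (σ2 h).v ≠ 0) (e0 : ∃ g, c60 (tr (σ0 g).v) ≠ 2)
    (e1 : ∃ g, c60 (tr (σ1 g).v) ≠ 2) (e2 : ∃ g, c60 (tr (σ2 g).v) ≠ 2) :
    (∀ g, tr (σ0 g).v = tr (σ1 g).v) ∨ (∀ g, tr (σ0 g).v = tr (σ2 g).v) ∨
      ∀ g, tr (σ1 g).v = tr (σ2 g).v := by
  obtain ⟨i, j, hij, h⟩ := three A E hG ![a0, a1, a2] ![a0, a1, a2] (fun _ => 0)
    (fun i => match i with | 0 => σ0 | 1 => σ1 | 2 => σ2)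
    (fun i => match i with | 0 => d0 | 1 => d1 | 2 => d2)
    (fun i => match i with | 0 => e0 | 1 => e1 | 2 => e2)
  match i, j with
  | 0, 0 => exact absurd rfl hij
  | 1, 1 => exact absurd rfl hij
  | 2, 2 => exact absurd rfl hij
  | 0, 1 => exact Or.inl h
  | 1, 0 => exact Or.inl fun g => (h g).symm
  | 0, 2 => exact Or.inr (Or.inl h)
  | 2, 0 => exact Or.inr (Or.inl fun g => (h g).symm)
  | 1, 2 => exact Or.inr (Or.inr h)
  | 2, 1 => exact Or.inr (Or.inr fun g => (h g).symm)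

/-- the commutator norm as a polynomial in traces -/
def Dl {S : Type} [CommRing S] (x y w : S) : S := 4 - x ^ 2 - y ^ 2 - w ^ 2 + x * y * w

lemma map_Dl {S S' : Type} [CommRing S] [CommRing S'] (f : S →+* S') (x y w : S) :
    f (Dl x y w) = Dl (f x) (f y) (f w) := by simp [Dl, map_ofNat]

section part

variable {L G : Type} [Group L] [Group G] (A : LamData L 1) (E : BohrEquiv L G)
  {S : Type} [CommRing S] [TopologicalSpace S] [IsTopologicalRing S] [T2Space S] (f : Zp →+* S)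
  [CompactSpace (N1 S (f (-ph)) (f (-ph)) 0)]

/-- the partner of the standard representation -/
noncomputable def part : G →* N1 S (f (-ph)) (f (-ph)) 0 :=
  E.e _ ((N1.map f rfl rfl (map_zero f)).comp (A.rep root1 root1))

lemma part_closed₂ {C : Set (S × S × S)} (hC : IsClosed C)
    (h : ∀ g h, (tr (part A E f g).v, tr (part A E f h).v, tr (part A E f (g * h)).v) ∈ C) :
    (f (-ph), f (-ph), 0) ∈ C := by
  have c := N1.cont_tr (a := f (-ph)) (b := f (-ph)) (c := 0)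
  have := E.closed₂' ((N1.map f rfl rfl (map_zero f)).comp (A.rep root1 root1))
    (S := {x | (tr x.1.v, tr x.2.v, tr (x.1 * x.2).v) ∈ C})
    (hC.preimage ((c.comp continuous_fst).prodMk ((c.comp continuous_snd).prodMk
      (c.comp continuous_mul)))) (fun g g' => by have := h g g'; rw [map_mul] at this; exact this) A.y A.z
  simp only [Set.mem_ofPred_eq, MonoidHom.comp_apply, ← map_mul, N1.tr_map] at this
  simpa only [map_mul, A.rep_y, A.rep_z, N1.mul_v, N1.y_v, N1.z_v, tr_Y, tr_Z, tr_YZ, map_zero]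
    using this

lemma part_closed₁ {C : Set S} (hC : IsClosed C) (h : ∀ g, tr (part A E f g).v ∈ C) :
    f (ph ^ 2) ∈ C := by
  have := E.closed' ((N1.map f rfl rfl (map_zero f)).comp (A.rep root1 root1))
    (S := {x | tr x.v ∈ C}) (hC.preimage N1.cont_tr) h (A.y * A.z⁻¹)
  simp only [Set.mem_ofPred_eq, MonoidHom.comp_apply, N1.tr_map] at this
  rwa [map_mul, map_inv, A.rep_y, A.rep_z,
    show tr (N1.y * N1.z⁻¹ : N1 Zp (-ph) (-ph) 0).v = ph ^ 2 by simp [tr]; ring] at this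

lemma part_del {T : Type} [TopologicalSpace T] [T2Space T] [Zero T] (n : S → T) (hn : Continuous n)
    (h : n (f (Dl (-ph) (-ph) 0)) ≠ 0) : ∃ g h, n (del (part A E f g).v (part A E f h).v) ≠ 0 := by
  by_contra hcon
  push Not at hcon
  apply h
  rw [map_Dl, map_zero]
  refine part_closed₂ A E f (C := {x | n (Dl x.1 x.2.1 x.2.2) = 0})
    (isClosed_eq (hn.comp (by simp only [Dl]; fun_prop)) continuous_const) fun g h => ?_
  have := hcon g h
  rwa [N1.del_eq, ← map_mul] at this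

lemma part_c60 {T : Type} [TopologicalSpace T] [T2Space T] [Zero T] (n : S → T) (hn : Continuous n)
    (h : n (f (c60 (ph ^ 2) - 2)) ≠ 0) : ∃ g, n (c60 (tr (part A E f g).v) - 2) ≠ 0 := by
  by_contra hcon
  push Not at hcon
  apply h
  rw [map_sub, map_c60, map_ofNat]
  exact part_closed₁ A E f (C := {x | n (c60 x - 2) = 0})
    (isClosed_eq (hn.comp (by simp only [c60]; fun_prop)) continuous_const) hcon

end part

lemma padic_dvd {p : ℕ} [Fact p.Prime] {k : ℤ} (h : (p : ℤ_[p]) ∣ (k : ℤ_[p])) : (p : ℤ) ∣ k :=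
  (PadicInt.norm_int_lt_one_iff_dvd k).1 ((PadicInt.norm_lt_one_iff_dvd _).2 h)

theorem exists_form {L G : Type} [Group L] [Group G] (A : LamData L 1) (E : BohrEquiv L G)
    (hG : Group.FG G) : ∃ G0 : Matrix (Fin 3) (Fin 3) Zp, G0.IsSymm ∧ IsUnit G0.det ∧
      (∀ v, v ≠ 0 → 0 < s2 (v ⬝ᵥ G0 *ᵥ v)) ∧ ∃ ρ : G →* GL (Fin 3) Zp,
        (∀ γ, (ρ γ).1ᵀ * G0 * (ρ γ).1 = G0) ∧ Infinite ρ.range := by
  have him : ∀ (p : ℕ) [Fact p.Prime], ∃ g, (tr (part A E (natq p) g).v).im ≠ 0 := by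
    intro p _
    by_contra hcon
    push Not at hcon
    have := part_closed₁ A E (natq p) (C := {x | x.im = 0}) (isClosed_eq Zq_im continuous_const) hcon
    rw [Set.mem_ofPred_eq, natq_im, show (ph ^ 2).im = 1 by decide] at this
    simp at this
  have rc : ∃ g, c60 (tr (part A E s2 g).v) - 2 ≠ 0 :=
    part_c60 A E s2 id continuous_id fun h => absurd (s2_eq_zero h) (by decide)
  obtain ⟨r, hr, hν⟩ := traces_int (fun g => tr (part A E s2 g).v)
    (fun p _ g => tr (part A E (natq p) g).v) (fun p _ Ω _ i j hj => by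
      have : CharZero Ω := charZero_of_injective_ringHom i.injective
      have u1 : i goldenRatio * i goldenRatio = 1 + i goldenRatio := by
        rw [← map_mul, ← sq, goldenRatio_sq, map_add, map_one, add_comm]
      have u2 : i goldenConj * i goldenConj = 1 + i goldenConj := by
        rw [← map_mul, ← sq, goldenConj_sq, map_add, map_one, add_comm]
      obtain ⟨g1, h1, d1⟩ := part_del A E s2 id continuous_id
        fun h => absurd (s2_eq_zero h) (by decide)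
      obtain ⟨g2, h2, d2⟩ := part_del A E (natq p) _ Zq_norm
        (by rw [natq_norm]; exact Int.cast_ne_zero.2 (by decide))
      obtain ⟨g3, d3⟩ := rc
      obtain ⟨g4, d4⟩ := part_c60 A E (natq p) _ Zq_norm
        (by rw [natq_norm]; exact Int.cast_ne_zero.2 (by decide))
      have cq : ∀ (u : Ω) (hu : u * u = 1 + u), c60 (tr ((N1.map (embq j u hu) rfl rfl
          (map_zero _)).comp (part A E (natq p)) g4).v) ≠ 2 := by
        clear * - Ω p j G L A E g4 hj d4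
        intro u hu
        rw [MonoidHom.comp_apply, N1.tr_map, ← map_c60, ← sub_ne_zero, ← map_ofNat (embq j u hu) 2,
          ← map_sub]
        exact embq_ne hj hu d4
      rcases three' A E hG ((N1.map i rfl rfl (map_zero _)).comp (part A E s2))
        ((N1.map (embq j _ u1) rfl rfl (map_zero _)).comp (part A E (natq p)))
        ((N1.map (embq j _ u2) rfl rfl (map_zero _)).comp (part A E (natq p)))
        ⟨g1, h1, by
          clear * - Ω i G L A E g1 h1 d1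
          rw [MonoidHom.comp_apply, MonoidHom.comp_apply, N1.del_map]
          exact (map_ne_zero i).2 d1⟩
        ⟨g2, h2, by
          clear * - Ω p j i u1 G L A E g2 h2 hj d2
          rw [MonoidHom.comp_apply, MonoidHom.comp_apply, N1.del_map]
          exact embq_ne hj u1 d2⟩
        ⟨g2, h2, by
          clear * - Ω p j i u2 G L A E g2 h2 hj d2
          rw [MonoidHom.comp_apply, MonoidHom.comp_apply, N1.del_map]
          exact embq_ne hj u2 d2⟩
        ⟨g3, by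
          rw [MonoidHom.comp_apply, N1.tr_map, ← map_c60, ← sub_ne_zero, ← map_ofNat i 2,
            ← map_sub]
          exact (map_ne_zero i).2 d3⟩ ⟨g4, cq _ u1⟩ ⟨g4, cq _ u2⟩ with h | h | h
      · exact Or.inl fun g => by
          clear * - Ω i G L A E g p j u1 h this
          have := h g
          simp only [MonoidHom.comp_apply, N1.tr_map] at this
          exact this
      · exact Or.inr fun g => by
          clear * - Ω i G L A E g p j u2 h this
          have := h g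
          simp only [MonoidHom.comp_apply, N1.tr_map] at this
          exact this
      · exfalso
        obtain ⟨g, hg⟩ := him p
        have h5 := h g
        simp only [MonoidHom.comp_apply, N1.tr_map] at h5
        have h6 : j (tr (part A E (natq p) g).v).im * i (goldenRatio - goldenConj) = 0 := by
          rw [map_sub]
          exact (mul_sub _ _ _).trans (sub_eq_zero.2 (add_left_cancel h5))
        rw [goldenRatio_sub_goldenConj, mul_eq_zero, map_eq_zero_iff j hj, map_eq_zero i] at h6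
        exact h6.elim hg (by norm_num)) (him 3)
  have hν' : ∀ (p : ℕ) [Fact p.Prime], ∃ ν : Zp →+* Zq p,
      (∀ g, tr (part A E (natq p) g).v = ν (r g)) ∧ ∀ x, (ν x).norm = (x.norm : ℤ_[p]) := by
    intro p _
    rcases hν p with h | h
    · exact ⟨natq p, h, natq_norm p⟩
    · exact ⟨(natq p).comp (starRingEnd Zp), h, fun x => by
        rw [RingHom.comp_apply, natq_norm, starRingEnd_apply, QuadraticAlgebra.norm_star]⟩
  obtain ⟨ν2, t2, n2⟩ := hν' 2
  have dv2 : ∀ x : Zp, (2 : Zq 2) ∣ ν2 x → 2 ∣ x := by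
    rintro x ⟨y, hy⟩
    apply two_dvd_of_norm
    apply padic_dvd (p := 2)
    rw [← n2, hy, map_mul, ← map_ofNat (natq 2) 2, natq_norm, H80.norm_two]
    exact Dvd.dvd.mul_right ⟨2, by norm_num⟩ _
  have δ2 : (2 : Zq 2) ∣ 4 - natq 2 (-ph) ^ 2 - natq 2 (-ph) ^ 2 - 0 ^ 2
      + natq 2 (-ph) * natq 2 (-ph) * 0 := ⟨2 - natq 2 (-ph) ^ 2, by ring⟩
  refine form_of_traces (part A E s2) r hr ⟨Zq 2, _, _, _, _, ν2, part A E (natq 2), t2, δ2, dv2⟩
    (fun p hp => ?_) ?_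
  · have : Fact p.Prime := ⟨hp⟩
    obtain ⟨ν, t, n⟩ := hν' p
    have ev : ∀ g h, 2 ∣ Dl (r g) (r h) (r (g * h)) := by
      intro g h
      apply dv2
      rw [map_Dl, ← t2, ← t2, ← t2, map_mul, Dl, ← N1.del_eq, del_eq_vol]
      exact δ2.mul_right _
    choose d hd using ev
    by_contra hcon
    push Not at hcon
    have := part_closed₂ A E (natq p)
      (C := {x | ‖(x.1 * Dl x.1 x.2.1 x.2.2).norm‖ ≤ ‖(4 * p : ℤ_[p])‖})
      (isClosed_le (continuous_norm.comp (Zq_norm.comp (by simp only [Dl]; fun_prop)))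
        continuous_const) fun g h => by
        obtain ⟨m, hm⟩ := hcon g h (d g h) (hd g h)
        simp only [Set.mem_ofPred_eq]
        rw [t, t, t, ← map_Dl, ← map_mul, n, hd, mul_left_comm, map_mul, H80.norm_two, hm,
          ← mul_assoc]
        push_cast
        rw [norm_mul]
        exact mul_le_of_le_one_right (norm_nonneg _) (PadicInt.norm_le_one _)
    simp only [Set.mem_ofPred_eq] at this
    rw [← map_zero (natq p), ← map_Dl, ← map_mul, natq_norm,
      show (-ph * Dl (-ph) (-ph) 0).norm = 4 by decide, norm_mul] at this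
    have h4 : 0 < ‖(4 : ℤ_[p])‖ := norm_pos_iff.2 (by norm_num)
    have h5 : ‖(p : ℤ_[p])‖ < 1 := (PadicInt.norm_lt_one_iff_dvd _).2 dvd_rfl
    push_cast at this
    nlinarith
  · obtain ⟨g, hg⟩ := rc
    refine ⟨g, lt_of_not_ge fun h => hg ?_⟩
    have h2 : |s2 (r g)| ≤ 2 := by
      rw [← hr]
      apply N1.abs_tr_le
      obtain ⟨h1, h2⟩ := goldc_bounds
      rw [map_neg, s2_ph]; linarith only [h1, h2, mul_pos_of_neg_of_neg (Mathlib.Tactic.Linarith.sub_neg_of_lt h1) (Mathlib.Tactic.Linarith.sub_neg_of_lt h2)]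
    rw [hr, ← map_c60, c60_small h h2, map_ofNat, sub_self]

end Pool.Agent.Work.MP_f81df4_al
end
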