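import Pool.Agent.Work.MP_f81df4_al.H80Ext

/-! Assembly of the counterexample from the statements `T` and `B`. -/

set_option autoImplicit false

namespace Pool.Agent.Work.MP_f81df4_al.H80

open Matrix

/-- The universal property of the Bohr compactification. -/
def IsBohr {Λ K : Type} [Group Λ] [TopologicalSpace K] [Group K] (i : Λ →* K) : Prop :=
  ∀ (M : Type) [TopologicalSpace M] [Group M] [IsTopologicalGroup M] [CompactSpace M]
    [T2Space M] (f : Λ →* M), ∃! h : K →* M, Continuous h ∧ h.comp i = f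

theorem IsBohr.transport {Γ K L : Type} [Group Γ] [TopologicalSpace K] [Group K]
    [TopologicalSpace L] [Group L] {j : Γ →* L} (hj : IsBohr j) (e : K ≃ₜ* L) :
    IsBohr (e.symm.toMulEquiv.toMonoidHom.comp j) := by
  intro M _ _ _ _ _ f
  obtain ⟨h, ⟨h1, h2⟩, h3⟩ := hj M f
  refine ⟨h.comp e.toMulEquiv.toMonoidHom, ⟨h1.comp e.continuous, ?_⟩, ?_⟩
  · rw [← h2]
    ext x
    exact congrArg h (e.apply_symm_apply (j x))
  · rintro h' ⟨h4, h5⟩
    rw [← h3 (h'.comp e.symm.toMulEquiv.toMonoidHom) ⟨h4.comp e.symm.continuous, h5⟩]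
    ext x
    exact congrArg h' (e.symm_apply_apply x).symm

/-- Two groups with the same Bohr compactification are Bohr equivalent. -/
noncomputable def bohrEquivOf {Λ Γ K : Type} [Group Λ] [Group Γ] [TopologicalSpace K] [Group K]
    {i : Λ →* K} {j : Γ →* K} (hi : IsBohr i) (hj : IsBohr j) : BohrEquiv Λ Γ where
  e M _ _ _ _ _ :=
    { toFun := fun f => (hi M f).choose.comp j
      invFun := fun g => (hj M g).choose.comp i
      left_inv := fun f => by
        have h1 := (hi M f).choose_spec.1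
        have h2 := (hj M ((hi M f).choose.comp j)).choose_spec.2 _ ⟨h1.1, rfl⟩
        simp only
        rw [← h2, h1.2]
      right_inv := fun g => by
        have h1 := (hj M g).choose_spec.1
        have h2 := (hi M ((hj M g).choose.comp i)).choose_spec.2 _ ⟨h1.1, rfl⟩
        simp only
        rw [← h2, h1.2] }
  nat M _ _ _ _ _ N _ _ _ _ _ u hu f := by
    have h1 := (hi M f).choose_spec.1
    have h2 := (hi N (u.comp f)).choose_spec.2 (u.comp (hi M f).choose)
      ⟨hu.comp h1.1, by rw [MonoidHom.comp_assoc, h1.2]⟩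
    simp only [Equiv.coe_fn_mk]
    rw [← h2, MonoidHom.comp_assoc]

theorem iso_of_bohrEquiv
    (hT : ∀ (L G : Type) [Group L] [Group G], LamData L 1 → LamData G 2 → IsEmpty (BohrEquiv L G))
    (hB : ∀ (L G : Type) [Group L] [Group G], LamData L 1 → BohrEquiv L G → Group.FG G →
      ∃ G0 : Matrix (Fin 3) (Fin 3) Zp, G0.IsSymm ∧ IsUnit G0.det ∧
        (∀ v, v ≠ 0 → 0 < s2 (v ⬝ᵥ G0 *ᵥ v)) ∧ ∃ ρ : G →* GL (Fin 3) Zp,
          (∀ γ, (ρ γ).1ᵀ * G0 * (ρ γ).1 = G0) ∧ Infinite ρ.range)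
    {L G : Type} [Group L] [Group G] (A : LamData L 1) (E : BohrEquiv L G) (hfg : Group.FG G)
    (hrf : RF G) : Nonempty (G ≃* L) := by
  obtain ⟨Δ, _, T, hp0, hp1, hp2⟩ := exists_triData
  obtain ⟨G0, h1, h2, h3, ρ, h4, h5⟩ := hB L G A E hfg
  obtain ⟨q, hq⟩ := (T.finite_or_exists_hom hp0 hp1 hp2 h1 h2 h3 ρ h4
    (no_quot_two E A)).resolve_left (not_finite_iff_infinite.2 h5)
  have hsurj : Function.Surjective q := by
    rcases T.eq_top_or_finite hp0 hp1 hp2 q.range
      (fun θ hθ => no_quot_two E A (θ.comp q.rangeRestrict) (hθ.comp q.rangeRestrict_surjective))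
      (fun θ hθ => no_quot_five E A (θ.comp q.rangeRestrict) (hθ.comp q.rangeRestrict_surjective))
      with h | h
    · exact MonoidHom.range_eq_top.1 h
    · have h6 : Finite (G ⧸ q.ker) :=
        Finite.of_equiv _ (QuotientGroup.quotientKerEquivRange q).symm.toEquiv
      rw [hq] at h6
      exact absurd (Finite.of_equiv _ (QuotientGroup.quotientKerEquivRange ρ).toEquiv)
        (not_finite_iff_infinite.2 h5)
  rcases exists_lamData_of_surj E A hrf T hp0 hp1 hp2 hsurj with ⟨⟨B⟩⟩ | ⟨⟨B⟩⟩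
  · exact lam_iso B A
  · exact ((hT L G A B).false E).elim

theorem main_of
    (hT : ∀ (L G : Type) [Group L] [Group G], LamData L 1 → LamData G 2 → IsEmpty (BohrEquiv L G))
    (hB : ∀ (L G : Type) [Group L] [Group G], LamData L 1 → BohrEquiv L G → Group.FG G →
      ∃ G0 : Matrix (Fin 3) (Fin 3) Zp, G0.IsSymm ∧ IsUnit G0.det ∧
        (∀ v, v ≠ 0 → 0 < s2 (v ⬝ᵥ G0 *ᵥ v)) ∧ ∃ ρ : G →* GL (Fin 3) Zp,
          (∀ γ, (ρ γ).1ᵀ * G0 * (ρ γ).1 = G0) ∧ Infinite ρ.range) :
    ¬ (∀ (Λ : Type) [Group Λ], Group.FG Λ →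
      (∀ g : Λ, g ≠ 1 → ∃ H : Subgroup Λ, H.index ≠ 0 ∧ g ∉ H) →
      (∀ (Γ : Type) [Group Γ], Group.FG Γ →
        (∀ g : Γ, g ≠ 1 → ∃ H : Subgroup Γ, H.index ≠ 0 ∧ g ∉ H) →
        ∀ (K : Type) [TopologicalSpace K] [Group K] [IsTopologicalGroup K] [CompactSpace K] [T2Space K]
          (L : Type) [TopologicalSpace L] [Group L] [IsTopologicalGroup L] [CompactSpace L] [T2Space L]
          (i : Λ →* K) (j : Γ →* L),
          (∀ (M : Type) [TopologicalSpace M] [Group M] [IsTopologicalGroup M] [CompactSpace M]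
              [T2Space M] (f : Λ →* M), ∃! h : K →* M, Continuous h ∧ h.comp i = f) →
          (∀ (M : Type) [TopologicalSpace M] [Group M] [IsTopologicalGroup M] [CompactSpace M]
              [T2Space M] (f : Γ →* M), ∃! h : L →* M, Continuous h ∧ h.comp j = f) →
          Nonempty (K ≃ₜ* L) → Nonempty (Γ ≃* Λ)) →
      (∀ (Γ : Type) [Group Γ], Group.FG Γ →
        (∀ g : Γ, g ≠ 1 → ∃ H : Subgroup Γ, H.index ≠ 0 ∧ g ∉ H) →
        ∀ (K : Type) [TopologicalSpace K] [Group K] [IsTopologicalGroup K] [CompactSpace K] [T2Space K]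
          [TotallyDisconnectedSpace K]
          (L : Type) [TopologicalSpace L] [Group L] [IsTopologicalGroup L] [CompactSpace L] [T2Space L]
          [TotallyDisconnectedSpace L]
          (i : Λ →* K) (j : Γ →* L),
          (∀ (M : Type) [TopologicalSpace M] [Group M] [IsTopologicalGroup M] [CompactSpace M]
              [T2Space M] [TotallyDisconnectedSpace M] (f : Λ →* M),
              ∃! h : K →* M, Continuous h ∧ h.comp i = f) →
          (∀ (M : Type) [TopologicalSpace M] [Group M] [IsTopologicalGroup M] [CompactSpace M]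
              [T2Space M] [TotallyDisconnectedSpace M] (f : Γ →* M),
              ∃! h : L →* M, Continuous h ∧ h.comp j = f) →
          Nonempty (K ≃ₜ* L) → Nonempty (Γ ≃* Λ))) := by
  intro h
  obtain ⟨L1, _, ⟨A⟩⟩ := exists_lamData 1
  obtain ⟨L2, _, ⟨B⟩⟩ := exists_lamData 2
  obtain ⟨K, _, _, _, _, _, _, i, j, hi, hj⟩ := exists_common_profCompl (lam_fg A) (lam_fg B)
    (lam_quot_twist A B (k := 2) (by norm_num) (by decide))
    (lam_quot_twist B A (k := 3) (by norm_num) (by decide))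
  obtain ⟨e⟩ := h L1 (lam_fg A) (lam_rf A)
    (fun Γ _ hfg hrf K _ _ _ _ _ L _ _ _ _ _ i j hi hj ⟨e⟩ =>
      iso_of_bohrEquiv hT hB A (bohrEquivOf hi (IsBohr.transport hj e)) hfg hrf)
    L2 (lam_fg B) (lam_rf B) K K i j hi hj ⟨ContinuousMulEquiv.refl K⟩
  exact (hT L1 L2 A B).false (BohrEquiv.ofIso e.symm)

end Pool.Agent.Work.MP_f81df4_al.H80
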