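import Pool.Agent.Work.MP_f81df4_al.TUniq
import Pool.Agent.Work.MP_f81df4_al.H80Hopf

/-! The character of order five, the element of order eleven, and a finite central extension. -/

set_option autoImplicit false

namespace Pool.Agent.Work.MP_f81df4_al

open Matrix Module Complex

/-- the group of order 55 -/
@[ext] structure Aff where
  a : ZMod 11
  t : ZMod 5
deriving DecidableEq, Fintype

namespace Aff

lemma pw : ∀ s t : ZMod 5, (3 : ZMod 11) ^ (s + t).val = 3 ^ s.val * 3 ^ t.val := by decide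

instance : Group Aff where
  mul u v := ⟨u.a + 3 ^ u.t.val * v.a, u.t + v.t⟩
  one := ⟨0, 0⟩
  inv u := ⟨-(3 ^ (-u.t).val * u.a), -u.t⟩
  mul_assoc u v w := Aff.ext (by
    change u.a + 3 ^ u.t.val * v.a + 3 ^ (u.t + v.t).val * w.a =
      u.a + 3 ^ u.t.val * (v.a + 3 ^ v.t.val * w.a)
    rw [pw]; ring) (add_assoc _ _ _)
  one_mul u := Aff.ext (by change 0 + 3 ^ 0 * u.a = u.a; ring) (zero_add _)
  mul_one u := Aff.ext (by change u.a + _ * 0 = u.a; ring) (add_zero _)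
  inv_mul_cancel u := Aff.ext (neg_add_cancel _) (neg_add_cancel _)

/-- the linear part -/
def pr : Aff →* Multiplicative (ZMod 5) where
  toFun u := Multiplicative.ofAdd u.t
  map_one' := rfl
  map_mul' _ _ := rfl

lemma rel : LamRel 1 (⟨1, 0⟩ : Aff) ⟨0, 1⟩ ⟨0, -1⟩ := by
  refine ⟨?_, ?_, ?_, ?_, ?_, ?_, ?_, ?_⟩ <;> first | decide | (unfold Commute SemiconjBy; decide)

lemma two : ∀ u v : Aff, u ≠ 1 → u ^ 11 = 1 →
    (v * u * v⁻¹ = u ^ 3 ^ 2 → v.t = 2) ∧ (v⁻¹ * u * v = u ^ 3 ^ 2 → v.t = -2) := by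
  decide +kernel

end Aff

lemma chi_partner {L G : Type} [Group L] [Group G] (E : BohrEquiv L G) (A : LamData L 1)
    (B : LamData G 2) (χ : L →* Multiplicative (ZMod 5)) (hf : χ A.f = 1)
    (hy : χ A.y = Multiplicative.ofAdd 1) (hz : χ A.z = Multiplicative.ofAdd (-1)) :
    H80.fe E _ χ B.y = Multiplicative.ofAdd 2 ∧ H80.fe E _ χ B.z = Multiplicative.ofAdd (-2) := by
  obtain ⟨α, h1, h2, h3⟩ := A.lift Aff _ _ _ Aff.rel
  have e : χ = Aff.pr.comp α :=
    A.hom_ext (by rw [hf, MonoidHom.comp_apply, h1]; rfl) (by rw [hy, MonoidHom.comp_apply, h2]; rfl)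
      (by rw [hz, MonoidHom.comp_apply, h3]; rfl)
  have hne : H80.fe E _ α B.f ≠ 1 := by
    intro h
    let _ : TopologicalSpace Aff := ⊥
    have : DiscreteTopology Aff := ⟨rfl⟩
    have h4 := H80.kills_f E.symm B A (E.e Aff α) (by rw [H80.fe_eq]; exact h)
    rw [BohrEquiv.symm_e_e, h1] at h4
    revert h4; decide
  have r := B.rel.map (H80.fe E _ α)
  rw [e, H80.fe_nat]
  exact ⟨congrArg Multiplicative.ofAdd ((Aff.two _ _ hne r.hf).1 r.ay),
    congrArg Multiplicative.ofAdd ((Aff.two _ _ hne r.hf).2 r.az)⟩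

lemma kill_N {Y N : Mat} {c : ℂ} (uN : Nᴴ * N = 1) (hN : N ^ 11 = 1) (h : Y * N = N ^ 9 * Y)
    (hY : Y ^ 5 = c • (1 : Mat)) (dY : Y.det = 1) (hc : c ≠ 1) : N = 1 := by
  by_contra hne
  obtain ⟨d, hd⟩ := exists_Dg uN
  obtain ⟨i, hi⟩ : ∃ i, d i ≠ 1 := by
    by_contra hcon
    push Not at hcon
    exact hne (by simpa using (hd.eq_smul_iff 1).2 hcon)
  have h11 : d i ^ 11 = 1 := ((hd.pow 11).eq_smul_iff 1).1 (by simpa using hN) i
  obtain ⟨v, hv0, hv⟩ := hd.exists_eigvec i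
  set ω := d i
  have : Fact (Nat.Prime 11) := ⟨by norm_num⟩
  have hprim : IsPrimitiveRoot ω 11 := by
    have := IsPrimitiveRoot.orderOf ω
    rwa [orderOf_eq_prime h11 hi] at this
  have h5 : N * Y = Y * N ^ 5 := by
    have e : ∀ n : ℕ, Y * N ^ n = (N ^ 9) ^ n * Y := by
      intro n
      induction n with
      | zero => simp
      | succ n ih => rw [pow_succ, ← Matrix.mul_assoc, ih, Matrix.mul_assoc, h, pow_succ (N ^ 9),
          Matrix.mul_assoc]
    rw [e, ← pow_mul, show 9 * 5 = 11 * 4 + 1 from rfl, pow_succ, pow_mul, hN, one_pow, one_mul]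
  have step : ∀ (w : Fin 5 → ℂ) (μ : ℂ), N *ᵥ w = μ • w → N *ᵥ (Y *ᵥ w) = μ ^ 5 • (Y *ᵥ w) := by
    intro w μ hw
    have : ∀ n : ℕ, (N ^ n) *ᵥ w = μ ^ n • w := by
      intro n
      induction n with
      | zero => simp
      | succ n ih => rw [pow_succ, ← mulVec_mulVec, hw, mulVec_smul, ih, smul_smul, pow_succ']
    rw [mulVec_mulVec, h5, ← mulVec_mulVec, this, mulVec_smul]
  have eig : ∀ k : ℕ, N *ᵥ ((Y ^ k) *ᵥ v) = ω ^ 5 ^ k • ((Y ^ k) *ᵥ v) := by
    intro k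
    induction k with
    | zero => simpa using hv
    | succ k ih => rw [pow_succ' Y, ← mulVec_mulVec, step _ _ ih, ← pow_mul, ← pow_succ]
  have nz : ∀ k : ℕ, (Y ^ k) *ᵥ v ≠ 0 := fun k h0 =>
    hv0 (Matrix.eq_zero_of_mulVec_eq_zero (by rw [det_pow, dY]; simp) h0)
  have li : LinearIndependent ℂ fun k : Fin 5 => (Y ^ k.val) *ᵥ v := by
    apply Module.End.eigenvectors_linearIndependent' (Matrix.toLin' N) (fun k => ω ^ 5 ^ k.val)
    · intro a b hab
      simp only at hab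
      rw [pow_eq_pow_mod _ h11, pow_eq_pow_mod (5 ^ b.val) h11] at hab
      have := hprim.pow_inj (Nat.mod_lt _ (by norm_num)) (Nat.mod_lt _ (by norm_num)) hab
      clear hab; revert a b; decide
    · intro k
      exact ⟨Module.End.mem_eigenspace_iff.2 (eig k), nz k⟩
  let P : Mat := Matrix.of fun i k => ((Y ^ k.val) *ᵥ v) i
  have hP : IsUnit P := Matrix.linearIndependent_cols_iff_isUnit.1 li
  have col : ∀ (k : ℕ) (i : Fin 5), ∑ j, Y i j * ((Y ^ k) *ᵥ v) j = ((Y ^ (k + 1)) *ᵥ v) i := by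
    intro k i
    rw [pow_succ', ← mulVec_mulVec]; rfl
  have e : Y * P = P * !![0, 0, 0, 0, c; 1, 0, 0, 0, 0; 0, 1, 0, 0, 0; 0, 0, 1, 0, 0;
      0, 0, 0, 1, 0] := by
    ext i k
    rw [Matrix.mul_apply, Matrix.mul_apply]
    simp only [P, of_apply, col]
    fin_cases k <;> simp [Fin.sum_univ_five, hY, smul_mulVec, mul_comm]
  have e2 := congrArg Matrix.det e
  rw [det_mul, det_mul, dY, one_mul] at e2
  have e3 : (!![0, 0, 0, 0, c; 1, 0, 0, 0, 0; 0, 1, 0, 0, 0; 0, 0, 1, 0, 0;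
      0, 0, 0, 1, 0] : Mat).det = c := by
    simp [det_succ_row_zero, Fin.sum_univ_succ, Fin.succAbove]
    norm_num
  rw [e3] at e2
  exact hc (mul_left_cancel₀ ((Matrix.isUnit_iff_isUnit_det P).1 hP).ne_zero
    (e2.symm.trans (mul_one _).symm))

/-- a finite group with a central element of order five and a character -/
structure FinExt (F : Type) [Group F] where
  ξ : F
  ry : F
  rz : F
  χ : F →* Multiplicative (ZMod 5)
  cen : ∀ g, ξ * g = g * ξ
  ord : orderOf ξ = 5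
  hy : ry ^ 5 = ξ
  hz : rz ^ 5 = ξ
  sq : (ry * rz) ^ 2 = 1
  cξ : χ ξ = 1
  cy : χ ry = Multiplicative.ofAdd 1
  cz : χ rz = Multiplicative.ofAdd (-1)

/-- matrices over the field with 101 elements -/
abbrev M101 := Matrix (Fin 5) (Fin 5) (ZMod 101)

/-- explicit matrix -/
def my : M101 := !![16, 0, 0, 0, 0; 0, 16, 0, 0, 0; 0, 0, 71, 0, 0; 0, 0, 0, 79, 0; 0, 0, 0, 0, 31]
/-- explicit matrix -/
def mz : M101 := !![89, 82, 70, 82, 51; 40, 81, 40, 62, 1; 8, 89, 45, 89, 97; 90, 61, 90, 38, 50;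
  53, 21, 53, 21, 61]

lemma my5 : my * my * my * my * my = (95 : ZMod 101) • 1 := by decide +kernel
lemma mz5 : mz * mz * mz * mz * mz = (95 : ZMod 101) • 1 := by decide +kernel
lemma myz : my * mz * (my * mz) = 1 := by decide +kernel

lemma exists_finExt : ∃ (F : Type) (_ : Group F) (_ : Finite F), Nonempty (FinExt F) := by
  have p5 : ∀ m : M101, m ^ 5 = m * m * m * m * m := fun m => by simp [pow_succ]
  have x5 : ((95 : ZMod 101) • (1 : M101)) ^ 5 = 1 := by
    rw [_root_.smul_pow, one_pow, show (95 : ZMod 101) ^ 5 = 1 by decide, one_smul]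
  have u : ∀ m : M101, m * m * m * m * m = (95 : ZMod 101) • 1 → m ^ 25 = 1 := fun m h => by
    rw [show 25 = 5 * 5 from rfl, pow_mul, p5 m, h, x5]
  let x : M101ˣ := Units.ofPowEqOne _ 5 x5 (by norm_num)
  let y : M101ˣ := Units.ofPowEqOne _ 25 (u _ my5) (by norm_num)
  let z : M101ˣ := Units.ofPowEqOne _ 25 (u _ mz5) (by norm_num)
  refine ⟨M101ˣ × Multiplicative (ZMod 5), inferInstance, inferInstance,
    ⟨⟨(x, 1), (y, Multiplicative.ofAdd 1), (z, Multiplicative.ofAdd (-1)), MonoidHom.snd _ _, ?_, ?_,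
      ?_, ?_, ?_, rfl, rfl, rfl⟩⟩⟩
  · intro g
    refine Prod.ext (Units.ext ?_) (mul_comm _ _)
    change (95 : ZMod 101) • (1 : M101) * g.1.1 = g.1.1 * (95 : ZMod 101) • (1 : M101)
    simp
  · have : Fact (Nat.Prime 5) := ⟨Nat.prime_five⟩
    refine orderOf_eq_prime (Prod.ext (Units.ext x5) (by simp)) fun h => ?_
    have : (95 : ZMod 101) • (1 : M101) = 1 := congrArg (fun g => g.1.1) h
    revert this; decide +kernel
  · exact Prod.ext (Units.ext ((p5 _).trans my5))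
      (by decide : Multiplicative.ofAdd (1 : ZMod 5) ^ 5 = 1)
  · exact Prod.ext (Units.ext ((p5 _).trans mz5))
      (by decide : Multiplicative.ofAdd (-1 : ZMod 5) ^ 5 = 1)
  · exact Prod.ext (Units.ext ((pow_two _).trans myz))
      (by decide : (Multiplicative.ofAdd (1 : ZMod 5) * Multiplicative.ofAdd (-1)) ^ 2 = 1)

end Pool.Agent.Work.MP_f81df4_al
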