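import Pool.Agent.Work.MP_f81df4_al.TExist
import Pool.Agent.Work.MP_f81df4_al.TAff
import Mathlib.Analysis.CStarAlgebra.Matrix
import Mathlib.Topology.Algebra.Star.Unitary

/-! The groups with parameters one and two have different Bohr compactifications. -/

set_option autoImplicit false

namespace Pool.Agent.Work.MP_f81df4_al

open Matrix Complex

/-- the unitary group -/
abbrev U5 := Matrix.unitaryGroup (Fin 5) ℂ

instance : CompactSpace U5 := by
  apply isCompact_iff_compactSpace.1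
  have h1 : IsCompact {A : Mat | ∀ i ∈ Set.univ, ∀ j ∈ Set.univ, A i j ∈ Metric.closedBall 0 1} :=
    isCompact_univ_pi fun _ : Fin 5 => isCompact_univ_pi fun _ : Fin 5 =>
      isCompact_closedBall (0 : ℂ) 1
  refine h1.of_isClosed_subset isClosed_unitary ?_
  intro A hA i _ j _
  simpa using entry_norm_bound_of_unitary hA i j

lemma U5.unit (A : U5) : A.1ᴴ * A.1 = 1 := Matrix.mem_unitaryGroup_iff'.1 A.2

/-- the scalar matrix -/
noncomputable def zU : U5 := ⟨(eta ^ 5) • 1, Matrix.mem_unitaryGroup_iff'.2 (by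
  have := star_ep 1
  rw [ep, Fin.val_one, pow_one] at this
  rw [star_smul, star_one, smul_mul_smul_comm, this, one_mul, one_smul])⟩

lemma zU_pow (n : ℕ) : (zU ^ n).1 = (eta ^ 5) ^ n • (1 : Mat) := by
  rw [SubmonoidClass.coe_pow]
  change ((eta ^ 5) • (1 : Mat)) ^ n = _
  rw [_root_.smul_pow, one_pow]

/-- character values -/
noncomputable def epz (t : Multiplicative (ZMod 5)) : ℂ := ep t.toAdd

lemma epz_mul (s t : Multiplicative (ZMod 5)) : epz (s * t) = epz s * epz t := ep_add _ _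
lemma epz_one : epz 1 = 1 := ep_zero

namespace FinExt

variable {F : Type} [Group F] (X : FinExt F)

/-- the central element -/
noncomputable def cH : U5 × U5 × F := (zU, zU, X.ξ)

lemma ξ5 : X.ξ ^ 5 = 1 := by rw [← X.ord, pow_orderOf_eq_one]

lemma cH_comm (h : U5 × U5 × F) : X.cH * h = h * X.cH := by
  have : ∀ A : U5, zU * A = A * zU := fun A => Subtype.ext (by simp [zU])
  exact Prod.ext (this _) (Prod.ext (this _) (X.cen _))

lemma cH5 : X.cH ^ 5 = 1 := by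
  have : zU ^ 5 = 1 := Subtype.ext (by rw [zU_pow, zeta_prim.pow_eq_one, one_smul]; rfl)
  exact Prod.ext this (Prod.ext this X.ξ5)

lemma normal_of_cen {H : Type} [Group H] {c : H} (h : ∀ g, c * g = g * c) :
    (Subgroup.zpowers c).Normal := ⟨by
  rintro _ ⟨n, rfl⟩ g
  have : Commute (c ^ n) g := Commute.zpow_left (h g) n
  exact ⟨n, by simp only; rw [← this.eq, mul_inv_cancel_right]⟩⟩

lemma exists_nat {H : Type} [Group H] {c x : H} (h : c ^ 5 = 1) (hx : x ∈ Subgroup.zpowers c) :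
    ∃ a : ℕ, a < 5 ∧ x = c ^ a := by
  obtain ⟨n, rfl⟩ := hx
  refine ⟨(n % 5).toNat, by omega, ?_⟩
  rw [← zpow_natCast, Int.toNat_of_nonneg (by omega)]
  exact zpow_eq_zpow_emod' n h

/-- the central subgroup -/
noncomputable def NH : Subgroup (U5 × U5 × F) := Subgroup.zpowers X.cH
/-- the central subgroup of the finite group -/
def NF : Subgroup F := Subgroup.zpowers X.ξ

instance : X.NH.Normal := normal_of_cen X.cH_comm
instance : X.NF.Normal := normal_of_cen X.cen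

/-- the compact group -/
abbrev GH := (U5 × U5 × F) ⧸ X.NH
/-- the finite quotient -/
abbrev QF := F ⧸ X.NF

/-- the projection -/
noncomputable def piH : X.GH →* X.QF :=
  QuotientGroup.map X.NH X.NF ((MonoidHom.snd _ _).comp (MonoidHom.snd _ _))
    (Subgroup.zpowers_le_of_mem (Subgroup.mem_zpowers X.ξ))

lemma piH_mk (h : U5 × U5 × F) : X.piH h = (h.2.2 : X.QF) := rfl

/-- the character on the quotient -/
def chiQ : X.QF →* Multiplicative (ZMod 5) :=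
  QuotientGroup.lift X.NF X.χ (Subgroup.zpowers_le_of_mem X.cξ)

lemma chiQ_mk (r : F) : X.chiQ r = X.χ r := rfl

lemma mk_cH : (X.cH : X.GH) = 1 := (QuotientGroup.eq_one_iff _).2 (Subgroup.mem_zpowers _)
lemma mk_ξ : (X.ξ : X.QF) = 1 := (QuotientGroup.eq_one_iff _).2 (Subgroup.mem_zpowers _)

lemma lift1 (x : X.GH) (r : F) (h : X.piH x = r) : ∃ A B : U5, x = ((A, B, r) : U5 × U5 × F) := by
  obtain ⟨h0, rfl⟩ := QuotientGroup.mk_surjective x
  obtain ⟨a, -, ha⟩ := exists_nat X.ξ5 (QuotientGroup.eq.1 h)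
  refine ⟨(h0 * X.cH ^ a).1, (h0 * X.cH ^ a).2.1, ?_⟩
  have : r = (h0 * X.cH ^ a).2.2 := by
    change r = h0.2.2 * X.ξ ^ a
    rw [← ha]; simp
  rw [this]
  change _ = ((h0 * X.cH ^ a : U5 × U5 × F) : X.GH)
  rw [QuotientGroup.mk_mul, QuotientGroup.mk_pow, mk_cH, one_pow, mul_one]

lemma eq_of {h h' : U5 × U5 × F} (e : (h : X.GH) = h') (e' : h.2.2 = h'.2.2) : h = h' := by
  obtain ⟨a, ha5, ha⟩ := exists_nat X.cH5 (QuotientGroup.eq.1 e)
  have h1 : X.ξ ^ a = 1 := by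
    have := congrArg (fun t => t.2.2) ha
    simp only [Prod.snd_mul, Prod.snd_inv, e', inv_mul_cancel] at this
    exact this.symm
  have h2 : a = 0 := by
    have := orderOf_dvd_of_pow_eq_one h1
    rw [X.ord] at this
    omega
  rw [h2, pow_zero, inv_mul_eq_one] at ha
  exact ha

lemma kappa {r s g : F} {n : ℤ} {a : ℕ} (h : (r : X.QF) = ((g⁻¹ * s * g : F) : X.QF) ^ n)
    (hr : r ^ 5 = X.ξ) (hs : s ^ 5 = X.ξ ^ a) :
    (a : ZMod 5) * n = 1 ∧ (X.χ r).toAdd = n * (X.χ s).toAdd := by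
  constructor
  · rw [← QuotientGroup.mk_zpow] at h
    obtain ⟨j, -, hj⟩ := exists_nat X.ξ5 (QuotientGroup.eq.1 h.symm)
    have e : r = (g⁻¹ * s * g) ^ n * X.ξ ^ j := by rw [← hj]; simp
    have c : Commute ((g⁻¹ * s * g) ^ n) (X.ξ ^ j) := (Commute.pow_left (X.cen _) j).symm
    have e2 : (g⁻¹ * s * g) ^ 5 = X.ξ ^ a := by
      have := conj_pow (a := g⁻¹) (b := s) (i := 5)
      rw [inv_inv] at this
      rw [this, hs, mul_assoc, (Commute.pow_left (X.cen g) a).eq, inv_mul_cancel_left]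
    rw [e, c.mul_pow, ← pow_mul, mul_comm j, pow_mul, X.ξ5, one_pow, mul_one, ← zpow_natCast,
      ← _root_.zpow_mul, mul_comm n, _root_.zpow_mul, zpow_natCast, e2, ← zpow_natCast,
      ← _root_.zpow_mul] at hr
    have h2 : X.ξ ^ ((a : ℤ) * n - 1) = 1 := by rw [_root_.zpow_sub_one, hr, mul_inv_cancel]
    rw [← orderOf_dvd_iff_zpow_eq_one, X.ord, ← ZMod.intCast_zmod_eq_zero_iff_dvd] at h2
    push_cast at h2
    exact sub_eq_zero.1 h2
  · have := congrArg X.chiQ h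
    rw [map_zpow, chiQ_mk, chiQ_mk, map_mul, map_mul, map_inv, inv_mul_cancel_comm] at this
    rw [this, toAdd_zpow, zsmul_eq_mul]

/-- determinant one -/
def Sdet (F : Type) [Group F] : Subgroup (U5 × U5 × F) where
  carrier := {h | h.1.1.det = 1 ∧ h.2.1.1.det = 1}
  one_mem' := ⟨det_one, det_one⟩
  mul_mem' := fun {a b} ha hb => ⟨by simp [ha.1, hb.1], by simp [ha.2, hb.2]⟩
  inv_mem' := fun {a} ha => ⟨by simp [star_eq_conjTranspose, ha.1],
    by simp [star_eq_conjTranspose, ha.2]⟩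

/-- twisted intertwining -/
def Sint (n : ℕ) (M : Mat) : Subgroup (U5 × U5 × F) where
  carrier := {h | h.1.1 * M = epz (X.χ h.2.2 ^ n) • (M * h.2.1.1)}
  one_mem' := by simp [epz_one]
  mul_mem' := fun {a b} ha hb => by
    simp only [Set.mem_ofPred_eq] at ha hb
    change a.1.1 * b.1.1 * M = epz (X.χ (a.2.2 * b.2.2) ^ n) • (M * (a.2.1.1 * b.2.1.1))
    rw [Matrix.mul_assoc, hb, mul_smul_comm, ← Matrix.mul_assoc, ha, map_mul, mul_pow, epz_mul,
      smul_mul_assoc, smul_smul, mul_comm (epz _), Matrix.mul_assoc]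
  inv_mem' := fun {a} ha => by
    simp only [Set.mem_ofPred_eq] at ha
    change a.1.1ᴴ * M = epz (X.χ a.2.2⁻¹ ^ n) • (M * a.2.1.1ᴴ)
    have e : epz (X.χ a.2.2⁻¹ ^ n) * epz (X.χ a.2.2 ^ n) = 1 := by
      rw [← epz_mul, ← mul_pow, ← map_mul, inv_mul_cancel, map_one, one_pow, epz_one]
    calc a.1.1ᴴ * M = epz (X.χ a.2.2⁻¹ ^ n) •
          (a.1.1ᴴ * (epz (X.χ a.2.2 ^ n) • (M * a.2.1.1)) * a.2.1.1ᴴ) := by
          rw [mul_smul_comm, smul_mul_assoc, smul_smul, e, one_smul, Matrix.mul_assoc,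
            Matrix.mul_assoc, mul_eq_one_comm.1 (U5.unit _), mul_one]
      _ = _ := by rw [← ha, ← Matrix.mul_assoc, U5.unit, one_mul]

lemma mem_map_iff (S : Subgroup (U5 × U5 × F)) (hc : X.cH ∈ S) (h : U5 × U5 × F) :
    (h : X.GH) ∈ S.map (QuotientGroup.mk' X.NH) ↔ h ∈ S := by
  refine ⟨?_, fun hh => ⟨h, hh, rfl⟩⟩
  rintro ⟨h', hh, e⟩
  have := Subgroup.zpowers_le_of_mem hc (QuotientGroup.eq.1 e)
  simpa using S.mul_mem hh this

variable [Finite F] [TopologicalSpace F] [DiscreteTopology F]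

instance : IsClosed (X.NH : Set (U5 × U5 × F)) :=
  (finite_zpowers.2 (isOfFinOrder_iff_pow_eq_one.2 ⟨5, by norm_num, X.cH5⟩)).isClosed

instance : DiscreteTopology X.QF := QuotientGroup.discreteTopology (isOpen_discrete _)

omit [Finite F] [DiscreteTopology F] in
lemma piH_cont : Continuous X.piH :=
  (QuotientGroup.isQuotientMap_mk X.NH).continuous_iff.2
    (QuotientGroup.continuous_mk.comp (continuous_snd.comp continuous_snd))

lemma closed_map (S : Subgroup (U5 × U5 × F)) (hS : IsClosed (S : Set (U5 × U5 × F))) :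
    IsClosed (S.map (QuotientGroup.mk' X.NH) : Set X.GH) :=
  (hS.isCompact.image QuotientGroup.continuous_mk).isClosed

omit [Finite F] [DiscreteTopology F] in
lemma Sdet_closed : IsClosed (Sdet F : Set (U5 × U5 × F)) :=
  (isClosed_eq (by fun_prop) continuous_const).inter (isClosed_eq (by fun_prop) continuous_const)

omit [Finite F] in
lemma Sint_closed (n : ℕ) (M : Mat) : IsClosed (X.Sint n M : Set (U5 × U5 × F)) := by
  have : Continuous fun r : F => epz (X.χ r ^ n) := continuous_of_discreteTopology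
  exact isClosed_eq (by fun_prop) (by fun_prop)

omit [Finite F] [TopologicalSpace F] [DiscreteTopology F] in
lemma cH_det : X.cH ∈ Sdet F := by
  have : zU.1.det = 1 := by
    change ((eta ^ 5) • (1 : Mat)).det = 1
    rw [det_smul, det_one, mul_one, Fintype.card_fin, zeta_prim.pow_eq_one]
  exact ⟨this, this⟩

omit [Finite F] [TopologicalSpace F] [DiscreteTopology F] in
lemma cH_int (n : ℕ) (M : Mat) : X.cH ∈ X.Sint n M := by
  change (eta ^ 5) • (1 : Mat) * M = epz (X.χ X.ξ ^ n) • (M * (eta ^ 5) • (1 : Mat))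
  rw [X.cξ, one_pow, epz_one]; simp

end FinExt

lemma trip_of {m : ℕ} (hm : ¬ 5 ∣ m + m) {Y Z : U5} (dY : Y.1.det = 1) (dZ : Z.1.det = 1)
    (pY : Y ^ 5 = zU ^ m) (pZ : Z ^ 5 = zU ^ m) (hw : (Y * Z) ^ 4 = 1)
    (cy : Commute ((Y * Z) ^ 2) Y) (cz : Commute ((Y * Z) ^ 2) Z) : Trip m Y.1 Z.1 := by
  have pY' : Y.1 ^ 5 = (eta ^ 5) ^ m • (1 : Mat) := by rw [← zU_pow, ← pY]; rfl
  have pZ' : Z.1 ^ 5 = (eta ^ 5) ^ m • (1 : Mat) := by rw [← zU_pow, ← pZ]; rfl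
  refine ⟨U5.unit Y, U5.unit Z, dY, dZ, pY', pZ', ?_⟩
  rw [← pow_two]
  set W : Mat := (Y.1 * Z.1) ^ 2 with hW
  have hw' : (Y.1 * Z.1) ^ 4 = 1 := congrArg Subtype.val hw
  have cy' : W * Y.1 = Y.1 * W := congrArg Subtype.val cy.eq
  have cz' : W * Z.1 = Z.1 * W := congrArg Subtype.val cz.eq
  have inv : ∀ A : Mat, W * A = A * W → ∀ v ∈ Eig W 1, A *ᵥ v ∈ Eig W 1 := by
    intro A hA v hv
    rw [mem_Eig] at hv ⊢
    rw [mulVec_mulVec, hA, ← mulVec_mulVec, hv, mulVec_smul]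
  rcases irred zeta_prim pY' pZ' (by rw [show 20 = 4 * 5 from rfl, pow_mul, hw', one_pow]) hm
    (Eig W 1) (inv _ cy') (inv _ cz') with h | h
  · exfalso
    have h2 : W * W = 1 := by rw [hW, ← pow_add, hw']
    have h3 : W = (-1 : ℂ) • (1 : Mat) := by
      apply Eig_top
      rw [eq_top_iff]
      intro v _
      have : W *ᵥ v + v ∈ Eig W 1 := by
        rw [mem_Eig, mulVec_add, mulVec_mulVec, h2, one_mulVec, one_smul, add_comm]
      rw [h, Submodule.mem_bot] at this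
      rw [mem_Eig, neg_one_smul, eq_neg_iff_add_eq_zero, this]
    have h4 := congrArg det h3
    rw [hW, det_pow, det_mul, dY, dZ, det_smul, det_one, Fintype.card_fin] at h4
    norm_num at h4
  · simpa using Eig_top h

theorem not_bohrEquiv_aux {F : Type} [Group F] [Finite F] [TopologicalSpace F] [DiscreteTopology F]
    (X : FinExt F) {L G : Type} [Group L] [Group G] (A : LamData L 1) (B : LamData G 2)
    (E : BohrEquiv L G) : False := by
  obtain ⟨Y, Z1, Z2, T1, T2, hirr⟩ := exists_pair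
  let y : U5 := ⟨Y, Matrix.mem_unitaryGroup_iff'.2 T1.uY⟩
  let z1 : U5 := ⟨Z1, Matrix.mem_unitaryGroup_iff'.2 T1.uZ⟩
  let z2 : U5 := ⟨Z2, Matrix.mem_unitaryGroup_iff'.2 T2.uZ⟩
  let yy : U5 × U5 × F := (y, y, X.ry)
  let zz : U5 × U5 × F := (z1, z2, X.rz)
  have p5 : ∀ a : U5, a.1 ^ 5 = (eta ^ 5) ^ 1 • (1 : Mat) → a ^ 5 = zU := fun a ha =>
    Subtype.ext (ha.trans (by rw [pow_one]; rfl))
  have y5 : yy ^ 5 = X.cH := Prod.ext (p5 _ T1.pY) (Prod.ext (p5 _ T1.pY) X.hy)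
  have z5 : zz ^ 5 = X.cH := Prod.ext (p5 _ T1.pZ) (Prod.ext (p5 _ T2.pZ) X.hz)
  have w2 : (yy * zz) ^ 2 = 1 := Prod.ext (Subtype.ext ((pow_two _).trans T1.sq))
    (Prod.ext (Subtype.ext ((pow_two _).trans T2.sq)) X.sq)
  have w2' : ((yy : X.GH) * zz) ^ 2 = 1 := by
    rw [← QuotientGroup.mk_mul, ← QuotientGroup.mk_pow, w2]; rfl
  obtain ⟨φ, φf, φy, φz⟩ := A.lift X.GH 1 yy zz (LamRel.of_one 1
    (by rw [← QuotientGroup.mk_pow, y5, X.mk_cH]) (by rw [← QuotientGroup.mk_pow, z5, X.mk_cH])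
    (by rw [show 4 = 2 * 2 from rfl, pow_mul, w2', one_pow]) (by rw [w2']; exact Commute.one_left _)
    (by rw [w2']; exact Commute.one_left _))
  set φ' := E.e X.GH φ with hφ'
  have hnat : H80.fe E _ (X.piH.comp φ) = X.piH.comp φ' := by
    rw [← H80.fe_eq, E.nat _ _ _ X.piH_cont]
  have hf1 : (X.piH.comp φ) A.f = 1 := by rw [MonoidHom.comp_apply, φf, map_one]
  have hw1 : (X.piH.comp φ) ((A.y * A.z) ^ 2) = 1 := by
    rw [MonoidHom.comp_apply, map_pow, map_mul, φy, φz, w2', map_one]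
  obtain ⟨k1, k2⟩ := H80.kills_both E A B _ hf1 hw1
  rw [H80.fe_eq, hnat] at k1 k2
  obtain ⟨c1, c2⟩ := chi_partner E A B (X.chiQ.comp (X.piH.comp φ))
    (by rw [MonoidHom.comp_apply, hf1, map_one])
    (by simp only [MonoidHom.comp_apply, φy]; exact X.cy)
    (by simp only [MonoidHom.comp_apply, φz]; exact X.cz)
  rw [H80.fe_nat, hnat] at c1 c2
  -- lifts
  obtain ⟨sy0, hsy0⟩ := QuotientGroup.mk_surjective (X.piH (φ' B.y))
  obtain ⟨sz, hsz⟩ := QuotientGroup.mk_surjective (X.piH (φ' B.z))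
  obtain ⟨l, -, hl⟩ := FinExt.exists_nat X.ξ5 (x := (sy0 * sz) ^ 2)
    ((QuotientGroup.eq_one_iff (N := X.NF) _).1 (by
      rw [QuotientGroup.mk_pow, QuotientGroup.mk_mul, hsy0, hsz, ← k2]; simp))
  obtain ⟨sy, hsy, hsq⟩ : ∃ sy : F, (sy : X.QF) = X.piH (φ' B.y) ∧ (sy * sz) ^ 2 = 1 := by
    refine ⟨X.ξ ^ (2 * l) * sy0, by simp [X.mk_ξ, hsy0], ?_⟩
    rw [mul_assoc, (Commute.pow_left (X.cen _) _).mul_pow, hl, ← pow_mul, ← pow_add,
      show 2 * l * 2 + l = 5 * l by ring, pow_mul, X.ξ5, one_pow]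
  obtain ⟨Y1, Y2, hY⟩ := X.lift1 _ _ hsy.symm
  obtain ⟨W1, W2, hZ⟩ := X.lift1 _ _ hsz.symm
  obtain ⟨N1, N2, hN⟩ := X.lift1 (φ' B.f) 1 k1
  have R := B.rel.map φ'
  rw [hY, hZ, hN] at R
  set yt : U5 × U5 × F := (Y1, Y2, sy) with hyt
  set zt : U5 × U5 × F := (W1, W2, sz) with hzt
  set ft : U5 × U5 × F := (N1, N2, 1) with hft
  obtain ⟨a, ha5, ha⟩ := FinExt.exists_nat X.cH5 (x := yt ^ 5)
    ((QuotientGroup.eq_one_iff (N := X.NH) _).1 R.hy)
  obtain ⟨b, hb5, hb⟩ := FinExt.exists_nat X.cH5 (x := zt ^ 5)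
    ((QuotientGroup.eq_one_iff (N := X.NH) _).1 R.hz)
  have ha' : sy ^ 5 = X.ξ ^ a := congrArg (fun t => t.2.2) ha
  have hb' : sz ^ 5 = X.ξ ^ b := congrArg (fun t => t.2.2) hb
  have χy : X.χ sy = Multiplicative.ofAdd 2 := by rw [← c1, ← X.chiQ_mk, hsy]; rfl
  have χz : X.χ sz = Multiplicative.ofAdd (-2) := by rw [← c2, ← X.chiQ_mk, hsz]; rfl
  -- the classes
  obtain ⟨Δ, _, T, hp0, hp1, hp2⟩ := H80.exists_triData
  obtain ⟨q, hq1, hq2, hq3⟩ := H80.lam_exists_proj B T hp0 hp1 hp2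
  obtain ⟨ψ, hψ⟩ := H80.factor_of_kills E A T hp0 hp1 hp2 (H80.lam_proj_surjective B T hq2 hq3)
    _ hf1 hw1
  have ψ1 : ψ (T.g 1) = sy := by rw [← hq2, hsy, ← MonoidHom.comp_apply, ← hψ, hnat]; rfl
  have ψ2 : ψ (T.g 2) = sz := by rw [← hq3, hsz, ← MonoidHom.comp_apply, ← hψ, hnat]; rfl
  have tor : ∀ (e : L) (r : F), e ^ 5 = 1 → X.piH (φ e) = r → r ^ 5 = X.ξ → X.χ r ≠ 1 →
      ∃ n : ZMod 5, ((a : ZMod 5) * n = 1 ∧ (X.χ r).toAdd = n * 2) ∨
        ((b : ZMod 5) * n = 1 ∧ (X.χ r).toAdd = n * (-2)) := by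
    intro e r he hr hr5 hχ
    have h1 := H80.torsion_image E T ψ Nat.prime_five he (q := q)
    rw [← hψ, Equiv.symm_apply_apply, MonoidHom.comp_apply, hr] at h1
    have hne : (r : X.QF) ≠ 1 := fun h => hχ (by rw [← X.chiQ_mk, h, map_one])
    obtain ⟨j, δ, hj⟩ := h1.resolve_left hne
    obtain ⟨g, hg⟩ := QuotientGroup.mk_surjective (ψ δ)
    fin_cases j
    · have h2 := H80.conj_g_pow T ψ _ δ hj
      refine absurd (H80.eq_one_of_coprime (a := 2) (b := 5) (by norm_num) (hp0 ▸ h2) ?_) hne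
      rw [← QuotientGroup.mk_pow, hr5, X.mk_ξ]
    · obtain ⟨n, hn⟩ := hj
      have := X.kappa (g := g) (n := n) (by
        rw [← hn]; simp only [map_mul, map_inv, ← hg]; erw [ψ1]; rfl) hr5 ha'
      rw [χy] at this
      exact ⟨n, Or.inl this⟩
    · obtain ⟨n, hn⟩ := hj
      have := X.kappa (g := g) (n := n) (by
        rw [← hn]; simp only [map_mul, map_inv, ← hg]; erw [ψ2]; rfl) hr5 hb'
      rw [χz] at this
      exact ⟨n, Or.inr this⟩
  obtain ⟨n1, t1⟩ := tor A.y X.ry A.rel.hy (by rw [φy]; rfl) X.hy (by rw [X.cy]; decide)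
  obtain ⟨n2, t2⟩ := tor A.z X.rz A.rel.hz (by rw [φz]; rfl) X.hz (by rw [X.cz]; decide)
  rw [X.cy] at t1
  rw [X.cz] at t2
  have hab : (a = 2 ∨ a = 3) ∧ b = a := by
    clear * - t1 t2 ha5 hb5
    revert n1 n2
    interval_cases a <;> interval_cases b <;> decide
  obtain ⟨hm, rfl⟩ := hab
  have hm5 : ¬ 5 ∣ b + b := by omega
  -- determinants
  have hdet : ∀ g, φ' g ∈ (FinExt.Sdet F).map (QuotientGroup.mk' X.NH) :=
    E.mem_of_closed φ _ (X.closed_map _ FinExt.Sdet_closed) (A.mem_of (Subgroup.comap φ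
      ((FinExt.Sdet F).map (QuotientGroup.mk' X.NH)))
      (by rw [Subgroup.mem_comap, φf]; exact one_mem _)
      (by rw [Subgroup.mem_comap, φy]; exact ⟨yy, ⟨T1.dY, T1.dY⟩, rfl⟩)
      (by rw [Subgroup.mem_comap, φz]; exact ⟨zz, ⟨T1.dZ, T2.dZ⟩, rfl⟩))
  have dy := (X.mem_map_iff _ X.cH_det yt).1 (hY ▸ hdet B.y)
  have dz := (X.mem_map_iff _ X.cH_det zt).1 (hZ ▸ hdet B.z)
  have sq2 : ((yt * zt) ^ 2).2.2 = 1 := hsq
  have r4 : (yt * zt) ^ 4 = 1 := X.eq_of R.hw (by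
    rw [show 4 = 2 * 2 from rfl, pow_mul, Prod.pow_snd, Prod.pow_snd, sq2, one_pow]; rfl)
  have rcy : (yt * zt) ^ 2 * yt = yt * (yt * zt) ^ 2 := X.eq_of R.cy.eq (by
    simp only [Prod.snd_mul, sq2, one_mul, mul_one])
  have rcz : (yt * zt) ^ 2 * zt = zt * (yt * zt) ^ 2 := X.eq_of R.cz.eq (by
    simp only [Prod.snd_mul, sq2, one_mul, mul_one])
  have S1 : Trip b Y1.1 W1.1 := trip_of hm5 dy.1 dz.1 (congrArg Prod.fst ha) (congrArg Prod.fst hb)
    (congrArg Prod.fst r4) (congrArg Prod.fst rcy) (congrArg Prod.fst rcz)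
  have S2 : Trip b Y2.1 W2.1 := trip_of hm5 dy.2 dz.2 (congrArg (fun t => t.2.1) ha)
    (congrArg (fun t => t.2.1) hb) (congrArg (fun t => t.2.1) r4) (congrArg (fun t : U5 × U5 × F => t.2.1) rcy)
    (congrArg (fun t : U5 × U5 × F => t.2.1) rcz)
  have f11 : ft ^ 11 = 1 := X.eq_of R.hf (by simp [hft])
  have fy : yt * ft = ft ^ 9 * yt := by
    rw [← mul_inv_eq_iff_eq_mul]
    exact X.eq_of R.ay (by simp [hft])
  have hζ : (eta ^ 5) ^ b ≠ 1 := zeta_prim.pow_ne_one_of_pos_of_lt (by omega) hb5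
  have n1 : N1.1 = 1 := kill_N (U5.unit N1) (congrArg (fun t => t.1.1) f11)
    (congrArg (fun t => t.1.1) fy) S1.pY S1.dY hζ
  have n2 : N2.1 = 1 := kill_N (U5.unit N2) (congrArg (fun t => t.2.1.1) f11)
    (congrArg (fun t => t.2.1.1) fy) S2.pY S2.dY hζ
  obtain ⟨n, M, hM0, i1, i2⟩ := uniq hm S1 S2
  obtain ⟨k, k', hk1, hk2, hk3, hk4, hk5⟩ : ∃ (k : ℕ) (k' : Fin 5),
      (Multiplicative.ofAdd (2 : ZMod 5) ^ k).toAdd = n ∧
      (Multiplicative.ofAdd (-2 : ZMod 5) ^ k).toAdd = (-n : Fin 5) ∧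
      (Multiplicative.ofAdd (1 : ZMod 5) ^ k).toAdd = k' ∧
      (Multiplicative.ofAdd (-1 : ZMod 5) ^ k).toAdd = (-k' : Fin 5) ∧ k < 5 := by
    refine ⟨(3 * n).val, 3 * n, ?_⟩
    clear * -; revert n; decide
  have hnn : ∀ t : Fin 5, ep t * ep (-t) = 1 := fun t => by rw [← ep_add, add_neg_cancel, ep_zero]
  have hint : ∀ l, φ l ∈ (X.Sint k M).map (QuotientGroup.mk' X.NH) := by
    intro l
    have := E.symm.mem_of_closed φ' _ (X.closed_map _ (X.Sint_closed k M))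
      (B.mem_of (Subgroup.comap φ' ((X.Sint k M).map (QuotientGroup.mk' X.NH))) ?_ ?_ ?_) l
    · rwa [hφ', BohrEquiv.symm_e_e] at this
    · rw [Subgroup.mem_comap, hN]
      refine ⟨ft, ?_, rfl⟩
      change N1.1 * M = epz (X.χ 1 ^ k) • (M * N2.1)
      rw [n1, n2, map_one, one_pow, epz_one]; simp
    · rw [Subgroup.mem_comap, hY]
      refine ⟨yt, ?_, rfl⟩
      change Y1.1 * M = ep (X.χ sy ^ k).toAdd • (M * Y2.1)
      rw [χy, hk1, i1]
    · rw [Subgroup.mem_comap, hZ]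
      refine ⟨zt, ?_, rfl⟩
      change W1.1 * M = ep (X.χ sz ^ k).toAdd • (M * W2.1)
      rw [χz, hk2, ← i2, smul_smul, mul_comm (ep _), hnn, one_smul]
  have j1 : Y * M = ep (X.χ X.ry ^ k).toAdd • (M * Y) :=
    (X.mem_map_iff _ (X.cH_int k M) yy).1 (φy ▸ hint A.y)
  have j2 : Z1 * M = ep (X.χ X.rz ^ k).toAdd • (M * Z2) :=
    (X.mem_map_iff _ (X.cH_int k M) zz).1 (φz ▸ hint A.z)
  rw [X.cy, hk3] at j1
  rw [X.cz, hk4] at j2
  exact hM0 (hirr k' M j1 (by rw [j2, smul_smul, hnn, one_smul]))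

theorem not_bohrEquiv {L G : Type} [Group L] [Group G] (A : LamData L 1) (B : LamData G 2) :
    IsEmpty (BohrEquiv L G) := ⟨fun E => by
  obtain ⟨F, _, _, ⟨X⟩⟩ := exists_finExt
  let _ : TopologicalSpace F := ⊥
  have : DiscreteTopology F := ⟨rfl⟩
  exact not_bohrEquiv_aux X A B E⟩

end Pool.Agent.Work.MP_f81df4_al
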