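import Mathlib.Topology.Algebra.Group.Basic
import Mathlib.Topology.Algebra.Group.Quotient
import Mathlib.Topology.Algebra.Constructions
import Mathlib.Topology.Separation.Hausdorff
import Mathlib.Algebra.Group.Subgroup.Basic

/-! Shared interface: natural bijections between homomorphisms to compact groups, and the
presentation of the groups `Z/11 ⋊ D`. -/

set_option autoImplicit false

namespace Pool.Agent.Work.MP_f81df4_al

/-- natural bijections between homomorphisms to compact Hausdorff groups -/
structure BohrEquiv (L G : Type) [Group L] [Group G] where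
  e : ∀ (M : Type) [TopologicalSpace M] [Group M] [IsTopologicalGroup M] [CompactSpace M]
    [T2Space M], (L →* M) ≃ (G →* M)
  nat : ∀ (M : Type) [TopologicalSpace M] [Group M] [IsTopologicalGroup M] [CompactSpace M]
    [T2Space M] (N : Type) [TopologicalSpace N] [Group N] [IsTopologicalGroup N] [CompactSpace N]
    [T2Space N] (u : M →* N), Continuous u → ∀ f : L →* M, e N (u.comp f) = u.comp (e M f)

namespace BohrEquiv

variable {L G H : Type} [Group L] [Group G] [Group H]

/-- the inverse correspondence -/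
def symm (E : BohrEquiv L G) : BohrEquiv G L where
  e M _ _ _ _ _ := (E.e M).symm
  nat M _ _ _ _ _ N _ _ _ _ _ u hu f := by
    apply (E.e N).injective
    rw [Equiv.apply_symm_apply, E.nat M N u hu, Equiv.apply_symm_apply]

/-- transport along an isomorphism -/
def ofIso (i : L ≃* G) : BohrEquiv L G where
  e M _ _ _ _ _ :=
    { toFun := fun f => f.comp i.symm.toMonoidHom
      invFun := fun g => g.comp i.toMonoidHom
      left_inv := fun f => by ext; simp
      right_inv := fun g => by ext; simp }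
  nat _ _ _ _ _ _ _ _ _ _ _ _ _ _ _ := rfl

/-- composition -/
def trans (E : BohrEquiv L G) (F : BohrEquiv G H) : BohrEquiv L H where
  e M _ _ _ _ _ := (E.e M).trans (F.e M)
  nat M _ _ _ _ _ N _ _ _ _ _ u hu f := by
    simp only [Equiv.trans_apply]
    rw [E.nat M N u hu, F.nat M N u hu]

variable (E : BohrEquiv L G)
variable {M : Type} [TopologicalSpace M] [Group M] [IsTopologicalGroup M] [CompactSpace M]
  [T2Space M] {N : Type} [TopologicalSpace N] [Group N] [IsTopologicalGroup N] [CompactSpace N]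
  [T2Space N]

@[simp] lemma symm_e_e (f : L →* M) : E.symm.e M (E.e M f) = f := (E.e M).symm_apply_apply f
@[simp] lemma e_symm_e (g : G →* M) : E.e M (E.symm.e M g) = g := (E.e M).apply_symm_apply g

lemma nat_apply (u : M →* N) (hu : Continuous u) (f : L →* M) (g : G) :
    E.e N (u.comp f) g = u (E.e M f g) := by rw [E.nat M N u hu]; rfl

lemma prod (f : L →* M) (f' : L →* N) :
    E.e (M × N) (f.prod f') = (E.e M f).prod (E.e N f') := by
  ext g
  · exact (E.nat_apply (MonoidHom.fst M N) continuous_fst (f.prod f') g).symm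
  · exact (E.nat_apply (MonoidHom.snd M N) continuous_snd (f.prod f') g).symm

lemma mem_of_closed (f : L →* M) (S : Subgroup M) (hS : IsClosed (S : Set M))
    (h : ∀ l, f l ∈ S) (g : G) : E.e M f g ∈ S := by
  have : CompactSpace S := isCompact_iff_compactSpace.1 hS.isCompact
  have h1 : f = S.subtype.comp (f.codRestrict S h) := rfl
  rw [h1, E.nat_apply S.subtype continuous_subtype_val]
  exact Subtype.property _

lemma mem_closure_range (f : L →* M) (g : G) : E.e M f g ∈ closure (Set.range f) :=
  E.mem_of_closed f f.range.topologicalClosure (Subgroup.isClosed_topologicalClosure _)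
    (fun l => Subgroup.le_topologicalClosure _ ⟨l, rfl⟩) g

/-- closed conditions pass from `L` to `G` -/
lemma closed (f : L →* M) {S : Set M} (hS : IsClosed S) (h : ∀ l, f l ∈ S) (g : G) :
    E.e M f g ∈ S :=
  closure_minimal (Set.range_subset_iff.2 h) hS (E.mem_closure_range f g)

/-- closed conditions pass from `G` to `L` -/
lemma closed' (f : L →* M) {S : Set M} (hS : IsClosed S) (h : ∀ g, E.e M f g ∈ S) (l : L) :
    f l ∈ S := by
  have := E.symm.closed (E.e M f) hS h l
  rwa [symm_e_e] at this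

/-- closed conditions on pairs pass from `G` to `L` -/
lemma closed₂' (f : L →* M) {S : Set (M × M)} (hS : IsClosed S)
    (h : ∀ g g', (E.e M f g, E.e M f g') ∈ S) (l l' : L) : (f l, f l') ∈ S := by
  have h1 : ∀ g l', (E.e M f g, f l') ∈ S := fun g =>
    E.closed' f (S := {m | (E.e M f g, m) ∈ S}) (hS.preimage (by fun_prop)) (h g)
  exact E.closed' f (S := {m | (m, f l') ∈ S}) (hS.preimage (by fun_prop)) (fun g => h1 g l') l

lemma range_eq [DiscreteTopology M] (f : L →* M) : Set.range (E.e M f) = Set.range f := by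
  apply Set.Subset.antisymm
  · rintro _ ⟨g, rfl⟩
    exact E.closed f (isClosed_discrete _) (fun l => Set.mem_range_self l) g
  · rintro _ ⟨l, rfl⟩
    exact E.closed' f (isClosed_discrete _) (fun g => Set.mem_range_self g) l

end BohrEquiv

/-- the defining relations of `Z/11 ⋊ D` where `y` acts as multiplication by `3 ^ k` -/
structure LamRel {H : Type} [Group H] (k : ℕ) (f y z : H) : Prop where
  hf : f ^ 11 = 1
  hy : y ^ 5 = 1
  hz : z ^ 5 = 1
  hw : (y * z) ^ 4 = 1
  cy : Commute ((y * z) ^ 2) y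
  cz : Commute ((y * z) ^ 2) z
  ay : y * f * y⁻¹ = f ^ (3 ^ k)
  az : z⁻¹ * f * z = f ^ (3 ^ k)

/-- a group with the presentation given by `LamRel` -/
structure LamData (L : Type) [Group L] (k : ℕ) where
  f : L
  y : L
  z : L
  rel : LamRel k f y z
  gen : Subgroup.closure {f, y, z} = ⊤
  lift : ∀ (H : Type) [Group H] (f' y' z' : H), LamRel k f' y' z' →
    ∃ φ : L →* H, φ f = f' ∧ φ y = y' ∧ φ z = z'

lemma LamRel.map {H H' : Type} [Group H] [Group H'] {k : ℕ} {f y z : H} (h : LamRel k f y z)
    (φ : H →* H') : LamRel k (φ f) (φ y) (φ z) where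
  hf := by rw [← map_pow, h.hf, map_one]
  hy := by rw [← map_pow, h.hy, map_one]
  hz := by rw [← map_pow, h.hz, map_one]
  hw := by rw [← map_mul, ← map_pow, h.hw, map_one]
  cy := by rw [← map_mul, ← map_pow]; exact h.cy.map φ
  cz := by rw [← map_mul, ← map_pow]; exact h.cz.map φ
  ay := by rw [← map_inv, ← map_mul, ← map_mul, h.ay, map_pow]
  az := by rw [← map_inv, ← map_mul, ← map_mul, h.az, map_pow]

lemma LamRel.of_one {H : Type} [Group H] (k : ℕ) {y z : H} (hy : y ^ 5 = 1) (hz : z ^ 5 = 1)
    (hw : (y * z) ^ 4 = 1) (cy : Commute ((y * z) ^ 2) y) (cz : Commute ((y * z) ^ 2) z) :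
    LamRel k 1 y z :=
  ⟨one_pow _, hy, hz, hw, cy, cz, by simp, by simp⟩

lemma LamData.hom_ext {L H : Type} [Group L] [Monoid H] {k : ℕ} (A : LamData L k) {φ ψ : L →* H}
    (hf : φ A.f = ψ A.f) (hy : φ A.y = ψ A.y) (hz : φ A.z = ψ A.z) : φ = ψ := by
  apply MonoidHom.eq_of_eqOn_denseM (s := {A.f, A.y, A.z, A.f⁻¹, A.y⁻¹, A.z⁻¹})
  · have := Subgroup.closure_toSubmonoid ({A.f, A.y, A.z} : Set L)
    rw [A.gen] at this
    rw [eq_top_iff]
    refine le_trans (le_of_eq this) (Submonoid.closure_mono ?_)
    rintro x (h | h)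
    · rcases h with rfl | rfl | rfl <;> simp
    · simp only [Set.mem_inv, Set.mem_insert_iff, Set.mem_singleton_iff, inv_eq_iff_eq_inv] at h
      rcases h with h | h | h <;> simp [h]
  · have key : ∀ x : L, φ x = ψ x → φ x⁻¹ = ψ x⁻¹ := fun x hx => by
      have h1 : φ x⁻¹ * φ x = 1 := by rw [← map_mul]; simp
      have h2 : ψ x * ψ x⁻¹ = 1 := by rw [← map_mul]; simp
      calc φ x⁻¹ = φ x⁻¹ * (ψ x * ψ x⁻¹) := by rw [h2, mul_one]
        _ = ψ x⁻¹ := by rw [← hx, ← mul_assoc, h1, one_mul]
    rintro x (rfl | rfl | rfl | rfl | rfl | rfl)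
    exacts [hf, hy, hz, key _ hf, key _ hy, key _ hz]

lemma LamData.mem_of {L : Type} [Group L] {k : ℕ} (A : LamData L k) (S : Subgroup L)
    (hf : A.f ∈ S) (hy : A.y ∈ S) (hz : A.z ∈ S) (l : L) : l ∈ S := by
  have : Subgroup.closure {A.f, A.y, A.z} ≤ S := by
    rw [Subgroup.closure_le]
    rintro x (rfl | rfl | rfl)
    exacts [hf, hy, hz]
  exact this (A.gen ▸ Subgroup.mem_top l)

end Pool.Agent.Work.MP_f81df4_al
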