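import Mathlib
import Pool.Agent.Work.MP_f81df4_al.H80Ring
import Pool.Agent.Work.MP_f81df4_al.Defs

-- merged part: Pool.Agent.Work.MP_f81df4_al.Quat
section
/-! Generic rank four algebra generated by two norm one elements with prescribed traces. -/

set_option autoImplicit false

namespace Pool.Agent.Work.MP_f81df4_al

/-- Basis `1, y, z, y z`, traces of `y, z, y z` are `a, b, c`, norms are one. -/
@[ext] structure Qt (S : Type) [CommRing S] (a b c : S) where
  c0 : S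
  c1 : S
  c2 : S
  c3 : S

namespace Qt

variable {S : Type} [CommRing S] {a b c : S}

instance : Zero (Qt S a b c) := ⟨⟨0, 0, 0, 0⟩⟩
instance : One (Qt S a b c) := ⟨⟨1, 0, 0, 0⟩⟩
instance : Add (Qt S a b c) := ⟨fun p q => ⟨p.c0 + q.c0, p.c1 + q.c1, p.c2 + q.c2, p.c3 + q.c3⟩⟩
instance : Neg (Qt S a b c) := ⟨fun p => ⟨-p.c0, -p.c1, -p.c2, -p.c3⟩⟩
instance : Sub (Qt S a b c) := ⟨fun p q => ⟨p.c0 - q.c0, p.c1 - q.c1, p.c2 - q.c2, p.c3 - q.c3⟩⟩
instance {T : Type} [SMul T S] : SMul T (Qt S a b c) :=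
  ⟨fun t p => ⟨t • p.c0, t • p.c1, t • p.c2, t • p.c3⟩⟩
instance : Mul (Qt S a b c) := ⟨fun p q =>
  ⟨p.c0 * q.c0 - p.c1 * q.c1 + (c - a * b) * p.c2 * q.c1 - p.c2 * q.c2 - a * p.c2 * q.c3
      - b * p.c3 * q.c1 - p.c3 * q.c3,
    p.c0 * q.c1 + p.c1 * q.c0 + a * p.c1 * q.c1 + b * p.c2 * q.c1 + p.c2 * q.c3
      + c * p.c3 * q.c1 - p.c3 * q.c2,
    p.c0 * q.c2 + p.c2 * q.c0 - p.c1 * q.c3 + a * p.c2 * q.c1 + b * p.c2 * q.c2
      + c * p.c2 * q.c3 + p.c3 * q.c1,
    p.c0 * q.c3 + p.c3 * q.c0 + p.c1 * q.c2 + a * p.c1 * q.c3 - p.c2 * q.c1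
      + b * p.c3 * q.c2 + c * p.c3 * q.c3⟩⟩

@[simp] lemma zero_c0 : (0 : Qt S a b c).c0 = 0 := rfl
@[simp] lemma zero_c1 : (0 : Qt S a b c).c1 = 0 := rfl
@[simp] lemma zero_c2 : (0 : Qt S a b c).c2 = 0 := rfl
@[simp] lemma zero_c3 : (0 : Qt S a b c).c3 = 0 := rfl
@[simp] lemma one_c0 : (1 : Qt S a b c).c0 = 1 := rfl
@[simp] lemma one_c1 : (1 : Qt S a b c).c1 = 0 := rfl
@[simp] lemma one_c2 : (1 : Qt S a b c).c2 = 0 := rfl
@[simp] lemma one_c3 : (1 : Qt S a b c).c3 = 0 := rfl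
@[simp] lemma add_c0 (p q : Qt S a b c) : (p + q).c0 = p.c0 + q.c0 := rfl
@[simp] lemma add_c1 (p q : Qt S a b c) : (p + q).c1 = p.c1 + q.c1 := rfl
@[simp] lemma add_c2 (p q : Qt S a b c) : (p + q).c2 = p.c2 + q.c2 := rfl
@[simp] lemma add_c3 (p q : Qt S a b c) : (p + q).c3 = p.c3 + q.c3 := rfl
@[simp] lemma neg_c0 (p : Qt S a b c) : (-p).c0 = -p.c0 := rfl
@[simp] lemma neg_c1 (p : Qt S a b c) : (-p).c1 = -p.c1 := rfl
@[simp] lemma neg_c2 (p : Qt S a b c) : (-p).c2 = -p.c2 := rfl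
@[simp] lemma neg_c3 (p : Qt S a b c) : (-p).c3 = -p.c3 := rfl
@[simp] lemma sub_c0 (p q : Qt S a b c) : (p - q).c0 = p.c0 - q.c0 := rfl
@[simp] lemma sub_c1 (p q : Qt S a b c) : (p - q).c1 = p.c1 - q.c1 := rfl
@[simp] lemma sub_c2 (p q : Qt S a b c) : (p - q).c2 = p.c2 - q.c2 := rfl
@[simp] lemma sub_c3 (p q : Qt S a b c) : (p - q).c3 = p.c3 - q.c3 := rfl
@[simp] lemma smul_c0 {T : Type} [SMul T S] (t : T) (p : Qt S a b c) : (t • p).c0 = t • p.c0 := rfl
@[simp] lemma smul_c1 {T : Type} [SMul T S] (t : T) (p : Qt S a b c) : (t • p).c1 = t • p.c1 := rfl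
@[simp] lemma smul_c2 {T : Type} [SMul T S] (t : T) (p : Qt S a b c) : (t • p).c2 = t • p.c2 := rfl
@[simp] lemma smul_c3 {T : Type} [SMul T S] (t : T) (p : Qt S a b c) : (t • p).c3 = t • p.c3 := rfl
@[simp] lemma mul_c0 (p q : Qt S a b c) : (p * q).c0 =
    p.c0 * q.c0 - p.c1 * q.c1 + (c - a * b) * p.c2 * q.c1 - p.c2 * q.c2 - a * p.c2 * q.c3
      - b * p.c3 * q.c1 - p.c3 * q.c3 := rfl
@[simp] lemma mul_c1 (p q : Qt S a b c) : (p * q).c1 =
    p.c0 * q.c1 + p.c1 * q.c0 + a * p.c1 * q.c1 + b * p.c2 * q.c1 + p.c2 * q.c3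
      + c * p.c3 * q.c1 - p.c3 * q.c2 := rfl
@[simp] lemma mul_c2 (p q : Qt S a b c) : (p * q).c2 =
    p.c0 * q.c2 + p.c2 * q.c0 - p.c1 * q.c3 + a * p.c2 * q.c1 + b * p.c2 * q.c2
      + c * p.c2 * q.c3 + p.c3 * q.c1 := rfl
@[simp] lemma mul_c3 (p q : Qt S a b c) : (p * q).c3 =
    p.c0 * q.c3 + p.c3 * q.c0 + p.c1 * q.c2 + a * p.c1 * q.c3 - p.c2 * q.c1
      + b * p.c3 * q.c2 + c * p.c3 * q.c3 := rfl

instance : AddCommGroup (Qt S a b c) where
  add_assoc p q r := by ext <;> simp [add_assoc]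
  zero_add p := by ext <;> simp
  add_zero p := by ext <;> simp
  nsmul n p := n • p
  nsmul_zero p := by ext <;> simp
  nsmul_succ n p := by ext <;> simp [add_mul]
  zsmul n p := n • p
  zsmul_zero' p := by ext <;> simp
  zsmul_succ' n p := by ext <;> simp [add_mul]
  zsmul_neg' n p := by ext <;> simp [add_mul]
  sub_eq_add_neg p q := by ext <;> simp [sub_eq_add_neg]
  neg_add_cancel p := by ext <;> simp
  add_comm p q := by ext <;> simp [add_comm]

instance : Ring (Qt S a b c) where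
  left_distrib p q r := by ext <;> simp <;> ring
  right_distrib p q r := by ext <;> simp <;> ring
  zero_mul p := by ext <;> simp
  mul_zero p := by ext <;> simp
  mul_assoc p q r := by ext <;> simp <;> ring
  one_mul p := by ext <;> simp
  mul_one p := by ext <;> simp
  neg_add_cancel p := by ext <;> simp
  natCast n := ⟨n, 0, 0, 0⟩
  natCast_zero := by ext <;> simp
  natCast_succ n := by ext <;> simp
  intCast n := ⟨n, 0, 0, 0⟩
  intCast_ofNat n := by ext <;> first | rfl | exact Int.cast_natCast n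
  intCast_negSucc n := by
    ext
    · exact Int.cast_negSucc n
    all_goals exact neg_zero.symm

instance {T : Type} [Monoid T] [DistribMulAction T S] : DistribMulAction T (Qt S a b c) where
  one_smul p := by ext <;> simp
  mul_smul s t p := by ext <;> simp [mul_smul]
  smul_zero t := by ext <;> simp
  smul_add t p q := by ext <;> simp

instance {T : Type} [Semiring T] [Module T S] : Module T (Qt S a b c) where
  add_smul s t p := by ext <;> simp [add_smul]
  zero_smul p := by ext <;> simp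

instance {T : Type} [CommRing T] [Algebra T S] : Algebra T (Qt S a b c) :=
  Algebra.ofModule (fun t p q => by ext <;> simp [Algebra.smul_def] <;> ring)
    (fun t p q => by ext <;> simp [Algebra.smul_def] <;> ring)

instance {T U : Type} [SMul T U] [SMul T S] [SMul U S] [IsScalarTower T U S] :
    IsScalarTower T U (Qt S a b c) := ⟨fun t u p => by ext <;> simp⟩

/-- the generator `y` -/
def Y : Qt S a b c := ⟨0, 1, 0, 0⟩
/-- the generator `z` -/
def Z : Qt S a b c := ⟨0, 0, 1, 0⟩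
/-- reduced trace -/
def tr (p : Qt S a b c) : S := 2 * p.c0 + a * p.c1 + b * p.c2 + c * p.c3
/-- reduced norm -/
def nrd (p : Qt S a b c) : S := p.c0 ^ 2 + p.c1 ^ 2 + p.c2 ^ 2 + p.c3 ^ 2 + a * p.c0 * p.c1
  + b * p.c0 * p.c2 + c * p.c0 * p.c3 + (a * b - c) * p.c1 * p.c2 + b * p.c1 * p.c3
  + a * p.c2 * p.c3
/-- standard involution -/
def cj (p : Qt S a b c) : Qt S a b c :=
  ⟨p.c0 + a * p.c1 + b * p.c2 + c * p.c3, -p.c1, -p.c2, -p.c3⟩
/-- norm of the commutator -/
def del (p q : Qt S a b c) : S := nrd (p * q - q * p)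
/-- the discriminant bilinear form -/
def bet (p q : Qt S a b c) : S := 2 * tr (p * cj q) - tr p * tr q
/-- determinant of the last three coordinates -/
def vol (p q r : Qt S a b c) : S :=
  p.c1 * (q.c2 * r.c3 - q.c3 * r.c2) - p.c2 * (q.c1 * r.c3 - q.c3 * r.c1)
    + p.c3 * (q.c1 * r.c2 - q.c2 * r.c1)

@[simp] lemma Y_c0 : (Y : Qt S a b c).c0 = 0 := rfl
@[simp] lemma Y_c1 : (Y : Qt S a b c).c1 = 1 := rfl
@[simp] lemma Y_c2 : (Y : Qt S a b c).c2 = 0 := rfl
@[simp] lemma Y_c3 : (Y : Qt S a b c).c3 = 0 := rfl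
@[simp] lemma Z_c0 : (Z : Qt S a b c).c0 = 0 := rfl
@[simp] lemma Z_c1 : (Z : Qt S a b c).c1 = 0 := rfl
@[simp] lemma Z_c2 : (Z : Qt S a b c).c2 = 1 := rfl
@[simp] lemma Z_c3 : (Z : Qt S a b c).c3 = 0 := rfl
@[simp] lemma cj_c0 (p : Qt S a b c) : (cj p).c0 = p.c0 + a * p.c1 + b * p.c2 + c * p.c3 := rfl
@[simp] lemma cj_c1 (p : Qt S a b c) : (cj p).c1 = -p.c1 := rfl
@[simp] lemma cj_c2 (p : Qt S a b c) : (cj p).c2 = -p.c2 := rfl
@[simp] lemma cj_c3 (p : Qt S a b c) : (cj p).c3 = -p.c3 := rfl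

lemma mul_cj (p : Qt S a b c) : p * cj p = nrd p • (1 : Qt S a b c) := by
  ext <;> simp [nrd] <;> ring
lemma cj_mul (p : Qt S a b c) : cj p * p = nrd p • (1 : Qt S a b c) := by
  ext <;> simp [nrd] <;> ring
lemma cj_eq (p : Qt S a b c) : cj p = tr p • (1 : Qt S a b c) - p := by
  ext <;> simp [tr]; ring
lemma cj_mul_rev (p q : Qt S a b c) : cj (p * q) = cj q * cj p := by
  ext <;> simp <;> ring
@[simp] lemma cj_cj (p : Qt S a b c) : cj (cj p) = p := by
  ext <;> simp; ring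
lemma nrd_mul (p q : Qt S a b c) : nrd (p * q) = nrd p * nrd q := by
  simp [nrd]; ring
@[simp] lemma nrd_one : nrd (1 : Qt S a b c) = 1 := by simp [nrd]
@[simp] lemma nrd_zero : nrd (0 : Qt S a b c) = 0 := by simp [nrd]
@[simp] lemma nrd_cj (p : Qt S a b c) : nrd (cj p) = nrd p := by simp [nrd]; ring
@[simp] lemma nrd_neg (p : Qt S a b c) : nrd (-p) = nrd p := by simp [nrd]
lemma nrd_smul (s : S) (p : Qt S a b c) : nrd (s • p) = s ^ 2 * nrd p := by simp [nrd]; ring
lemma nrd_add (p q : Qt S a b c) : nrd (p + q) = nrd p + nrd q + tr (p * cj q) := by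
  simp [nrd, tr]; ring
@[simp] lemma tr_cj (p : Qt S a b c) : tr (cj p) = tr p := by simp [tr]; ring
@[simp] lemma tr_one : tr (1 : Qt S a b c) = 2 := by simp [tr]
@[simp] lemma tr_zero : tr (0 : Qt S a b c) = 0 := by simp [tr]
lemma tr_add (p q : Qt S a b c) : tr (p + q) = tr p + tr q := by simp [tr]; ring
lemma tr_sub (p q : Qt S a b c) : tr (p - q) = tr p - tr q := by simp [tr]; ring
lemma tr_neg (p : Qt S a b c) : tr (-p) = -tr p := by simp [tr]; ring
lemma tr_smul (s : S) (p : Qt S a b c) : tr (s • p) = s * tr p := by simp [tr]; ring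
lemma tr_mul_comm (p q : Qt S a b c) : tr (p * q) = tr (q * p) := by simp [tr]; ring
@[simp] lemma tr_Y : tr (Y : Qt S a b c) = a := by simp [tr]
@[simp] lemma tr_Z : tr (Z : Qt S a b c) = b := by simp [tr]
@[simp] lemma tr_YZ : tr (Y * Z : Qt S a b c) = c := by simp [tr]
@[simp] lemma nrd_Y : nrd (Y : Qt S a b c) = 1 := by simp [nrd]
@[simp] lemma nrd_Z : nrd (Z : Qt S a b c) = 1 := by simp [nrd]
lemma mul_self (p : Qt S a b c) : p * p = tr p • p - nrd p • (1 : Qt S a b c) := by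
  ext <;> simp [nrd, tr] <;> ring
lemma mul_swap (p q : Qt S a b c) :
    q * p = (tr (p * q) - tr p * tr q) • (1 : Qt S a b c) + tr q • p + tr p • q - p * q := by
  ext <;> simp [tr] <;> ring
lemma four_del (p q : Qt S a b c) : 4 * del p q = bet p p * bet q q - bet p q ^ 2 := by
  simp [del, bet, nrd, tr]; ring
lemma bet_self (p : Qt S a b c) : bet p p = 4 * nrd p - tr p ^ 2 := by
  simp [bet, nrd, tr]; ring
lemma bet_comm (p q : Qt S a b c) : bet p q = bet q p := by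
  simp [bet, tr]; ring
lemma del_eq_vol (p q : Qt S a b c) :
    del p q = (4 - a ^ 2 - b ^ 2 - c ^ 2 + a * b * c) * vol p q (p * q) := by
  simp [del, vol, nrd]; ring
lemma del_eq_tr (p q : Qt S a b c) : del p q = 4 * nrd p * nrd q - tr p ^ 2 * nrd q
    - tr q ^ 2 * nrd p - tr (p * q) ^ 2 + tr p * tr q * tr (p * q) := by
  simp [del, nrd, tr]; ring
lemma del_YZ : del (Y : Qt S a b c) Z = 4 - a ^ 2 - b ^ 2 - c ^ 2 + a * b * c := by
  simp [del, nrd]; ring
lemma eq_basis (p : Qt S a b c) :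
    p = p.c0 • (1 : Qt S a b c) + p.c1 • Y + p.c2 • Z + p.c3 • (Y * Z) := by
  ext <;> simp

section lift

variable {S' : Type} [CommRing S'] {a' b' c' : S'}

/-- the semilinear map sending the generators to `p` and `q` -/
def liftFun (f : S →+* S') (p q : Qt S' a' b' c') (x : Qt S a b c) : Qt S' a' b' c' :=
  f x.c0 • (1 : Qt S' a' b' c') + f x.c1 • p + f x.c2 • q + f x.c3 • (p * q)

/-- data for the universal property -/
structure Pair (f : S →+* S') (a b c : S) (p q : Qt S' a' b' c') : Prop where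
  np : nrd p = 1
  nq : nrd q = 1
  tp : tr p = f a
  tq : tr q = f b
  tpq : tr (p * q) = f c

lemma liftFun_mul {f : S →+* S'} {p q : Qt S' a' b' c'} (h : Pair f a b c p q)
    (x y : Qt S a b c) : liftFun f p q (x * y) = liftFun f p q x * liftFun f p q y := by
  have h1 : p * p = f a • p - 1 := by rw [mul_self, h.np, h.tp, one_smul]
  have h2 : q * q = f b • q - 1 := by rw [mul_self, h.nq, h.tq, one_smul]
  have h3 : q * p = (f c - f a * f b) • (1 : Qt S' a' b' c') + f b • p + f a • q - p * q := by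
    rw [mul_swap p q, h.tp, h.tq, h.tpq]
  have h4 : p * (p * q) = f a • (p * q) - q := by
    rw [← mul_assoc, h1, sub_mul, smul_mul_assoc, one_mul]
  have h5 : p * q * q = f b • (p * q) - p := by
    rw [mul_assoc, h2, mul_sub, mul_smul_comm, mul_one]
  have h6 : q * (p * q) = (-f a) • (1 : Qt S' a' b' c') + p + f c • q := by
    rw [← mul_assoc, h3]
    simp only [sub_mul, add_mul, smul_mul_assoc, one_mul, h2, h5]
    module
  have h7 : p * q * p = (-f b) • (1 : Qt S' a' b' c') + f c • p + q := by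
    rw [mul_assoc, h3]
    simp only [mul_sub, mul_add, mul_smul_comm, mul_one, h1, h4]
    module
  have h8 : p * q * (p * q) = f c • (p * q) - 1 := by
    rw [mul_self, nrd_mul, h.np, h.nq, h.tpq, one_mul, one_smul]
  simp only [liftFun, mul_c0, mul_c1, mul_c2, mul_c3, map_add, map_sub, map_mul, mul_add, add_mul,
    smul_mul_assoc, mul_smul_comm, one_mul, mul_one, h1, h2, h3, h4, h5, h6, h7, h8]
  module

/-- the universal property -/
def lift {f : S →+* S'} {p q : Qt S' a' b' c'} (h : Pair f a b c p q) :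
    Qt S a b c →+* Qt S' a' b' c' where
  toFun := liftFun f p q
  map_one' := by simp [liftFun]
  map_mul' := liftFun_mul h
  map_zero' := by simp [liftFun]
  map_add' x y := by simp only [liftFun, add_c0, add_c1, add_c2, add_c3, map_add]; module

lemma lift_apply {f : S →+* S'} {p q : Qt S' a' b' c'} (h : Pair f a b c p q) (x : Qt S a b c) :
    lift h x = f x.c0 • (1 : Qt S' a' b' c') + f x.c1 • p + f x.c2 • q + f x.c3 • (p * q) := rfl

@[simp] lemma lift_Y {f : S →+* S'} {p q : Qt S' a' b' c'} (h : Pair f a b c p q) :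
    lift h Y = p := by simp [lift_apply]
@[simp] lemma lift_Z {f : S →+* S'} {p q : Qt S' a' b' c'} (h : Pair f a b c p q) :
    lift h Z = q := by simp [lift_apply]

lemma tr_lift {f : S →+* S'} {p q : Qt S' a' b' c'} (h : Pair f a b c p q) (x : Qt S a b c) :
    tr (lift h x) = f (tr x) := by
  rw [lift_apply]
  simp only [tr_add, tr_smul, tr_one, h.tp, h.tq, h.tpq]
  simp only [tr, map_add, map_mul, map_ofNat]
  ring

lemma lift_smul {f : S →+* S'} {p q : Qt S' a' b' c'} (h : Pair f a b c p q) (s : S)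
    (x : Qt S a b c) : lift h (s • x) = f s • lift h x := by
  simp only [lift_apply, smul_c0, smul_c1, smul_c2, smul_c3, smul_eq_mul, map_mul]
  module

lemma cj_lift {f : S →+* S'} {p q : Qt S' a' b' c'} (h : Pair f a b c p q) (x : Qt S a b c) :
    cj (lift h x) = lift h (cj x) := by
  rw [cj_eq, cj_eq, map_sub, lift_smul, map_one, tr_lift]

lemma nrd_lift {f : S →+* S'} {p q : Qt S' a' b' c'} (h : Pair f a b c p q) (x : Qt S a b c) :
    nrd (lift h x) = f (nrd x) := by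
  have h1 : (nrd (lift h x) • (1 : Qt S' a' b' c')) = f (nrd x) • 1 := by
    rw [← mul_cj, cj_lift, ← map_mul, mul_cj, lift_smul, map_one]
  simpa using congrArg Qt.c0 h1

lemma del_lift {f : S →+* S'} {p q : Qt S' a' b' c'} (h : Pair f a b c p q) (x y : Qt S a b c) :
    del (lift h x) (lift h y) = f (del x y) := by
  rw [del, ← map_mul, ← map_mul, ← map_sub, nrd_lift, del]

lemma bet_lift {f : S →+* S'} {p q : Qt S' a' b' c'} (h : Pair f a b c p q) (x y : Qt S a b c) :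
    bet (lift h x) (lift h y) = f (bet x y) := by
  rw [bet, cj_lift, ← map_mul, tr_lift, tr_lift, tr_lift, bet]
  simp [map_ofNat]

lemma pair_map (f : S →+* S') (ha : f a = a') (hb : f b = b') (hc : f c = c') :
    Pair f a b c (Y : Qt S' a' b' c') Z :=
  ⟨nrd_Y, nrd_Z, by simp [ha], by simp [hb], by simp [hc]⟩

lemma lift_map_c0 {f : S →+* S'} (h : Pair f a b c (Y : Qt S' a' b' c') Z) (x : Qt S a b c) :
    (lift h x).c0 = f x.c0 := by simp [lift_apply]
lemma lift_map_c1 {f : S →+* S'} (h : Pair f a b c (Y : Qt S' a' b' c') Z) (x : Qt S a b c) :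
    (lift h x).c1 = f x.c1 := by simp [lift_apply]
lemma lift_map_c2 {f : S →+* S'} (h : Pair f a b c (Y : Qt S' a' b' c') Z) (x : Qt S a b c) :
    (lift h x).c2 = f x.c2 := by simp [lift_apply]
lemma lift_map_c3 {f : S →+* S'} (h : Pair f a b c (Y : Qt S' a' b' c') Z) (x : Qt S a b c) :
    (lift h x).c3 = f x.c3 := by simp [lift_apply]

end lift

end Qt

/-- the group of norm one elements -/
@[ext] structure N1 (S : Type) [CommRing S] (a b c : S) where
  v : Qt S a b c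
  h : Qt.nrd v = 1

namespace N1

variable {S : Type} [CommRing S] {a b c : S}

instance : Group (N1 S a b c) where
  mul p q := ⟨p.v * q.v, by rw [Qt.nrd_mul, p.h, q.h, one_mul]⟩
  one := ⟨1, Qt.nrd_one⟩
  inv p := ⟨Qt.cj p.v, by rw [Qt.nrd_cj, p.h]⟩
  mul_assoc p q r := N1.ext (mul_assoc _ _ _)
  one_mul p := N1.ext (one_mul _)
  mul_one p := N1.ext (mul_one _)
  inv_mul_cancel p := N1.ext (by
    change Qt.cj p.v * p.v = 1
    rw [Qt.cj_mul, p.h, one_smul])

@[simp] lemma mul_v (p q : N1 S a b c) : (p * q).v = p.v * q.v := rfl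
@[simp] lemma one_v : (1 : N1 S a b c).v = 1 := rfl
@[simp] lemma inv_v (p : N1 S a b c) : (p⁻¹).v = Qt.cj p.v := rfl

/-- the inclusion as a monoid hom -/
def incl : N1 S a b c →* Qt S a b c where
  toFun p := p.v
  map_one' := rfl
  map_mul' _ _ := rfl

@[simp] lemma pow_v (p : N1 S a b c) (n : ℕ) : (p ^ n).v = p.v ^ n := map_pow incl p n

/-- generator -/
def y : N1 S a b c := ⟨Qt.Y, Qt.nrd_Y⟩
/-- generator -/
def z : N1 S a b c := ⟨Qt.Z, Qt.nrd_Z⟩
@[simp] lemma y_v : (y : N1 S a b c).v = Qt.Y := rfl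
@[simp] lemma z_v : (z : N1 S a b c).v = Qt.Z := rfl

variable {S' : Type} [CommRing S'] {a' b' c' : S'}

/-- the group hom induced by the universal property -/
def lift {f : S →+* S'} {p q : Qt S' a' b' c'} (h : Qt.Pair f a b c p q) :
    N1 S a b c →* N1 S' a' b' c' where
  toFun x := ⟨Qt.lift h x.v, by rw [Qt.nrd_lift, x.h, map_one]⟩
  map_one' := N1.ext (map_one (Qt.lift h))
  map_mul' x y := N1.ext (map_mul (Qt.lift h) _ _)

@[simp] lemma lift_v {f : S →+* S'} {p q : Qt S' a' b' c'} (h : Qt.Pair f a b c p q)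
    (x : N1 S a b c) : (lift h x).v = Qt.lift h x.v := rfl

end N1

end Pool.Agent.Work.MP_f81df4_al
end

-- merged part: Pool.Agent.Work.MP_f81df4_al.BCls
section
/-! Two dimensional representations of the groups `Z/11 ⋊ D` over a field. -/

set_option autoImplicit false

namespace Pool.Agent.Work.MP_f81df4_al

open H80 Qt

/-- trace of the sixtieth power -/
def c60 {S : Type} [CommRing S] (t : S) : S :=
  (((t ^ 5 - 5 * t ^ 3 + 5 * t) ^ 3 - 3 * (t ^ 5 - 5 * t ^ 3 + 5 * t)) ^ 2 - 2) ^ 2 - 2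

lemma map_c60 {S S' : Type} [CommRing S] [CommRing S'] (f : S →+* S') (t : S) :
    f (c60 t) = c60 (f t) := by simp [c60, map_ofNat]

lemma c60_small {t : Zp} (h1 : |s1 t| ≤ 2) (h2 : |s2 t| ≤ 2) : c60 t = 2 := by
  obtain ⟨p, q⟩ := t
  rw [abs_le, s1_apply] at h1
  rw [abs_le, s2_apply] at h2
  simp only at h1 h2
  obtain ⟨a1, a2⟩ := gold_bounds
  obtain ⟨a3, a4⟩ := goldc_bounds
  have b1 : (-2 : ℝ) < q := by nlinarith
  have b2 : (q : ℝ) < 2 := by nlinarith
  have b3 : -2 < q := by exact_mod_cast b1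
  have b4 : q < 2 := by exact_mod_cast b2
  have hq : q = -1 ∨ q = 0 ∨ q = 1 := by omega
  rcases hq with rfl | rfl | rfl
  · have c1 : (-1 : ℝ) < p := by push_cast at h1; linarith
    have c2 : (p : ℝ) < 2 := by push_cast at h2; linarith
    have c3 : -1 < p := by exact_mod_cast c1
    have c4 : p < 2 := by exact_mod_cast c2
    interval_cases p <;> decide
  · have c1 : (-3 : ℝ) < p := by push_cast at h1; linarith
    have c2 : (p : ℝ) < 3 := by push_cast at h2; linarith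
    have c3 : -3 < p := by exact_mod_cast c1
    have c4 : p < 3 := by exact_mod_cast c2
    interval_cases p <;> decide
  · have c1 : (-2 : ℝ) < p := by push_cast at h2; linarith
    have c2 : (p : ℝ) < 1 := by push_cast at h1; linarith
    have c3 : -2 < p := by exact_mod_cast c1
    have c4 : p < 1 := by exact_mod_cast c2
    interval_cases p <;> decide

section gen

variable {S : Type} [CommRing S] {a b c : S}

lemma Qt.sq_eq {p : Qt S a b c} (h : nrd p = 1) : p * p = tr p • p - 1 := by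
  rw [Qt.mul_self, h, one_smul]

lemma Qt.pow3 {p : Qt S a b c} (h : nrd p = 1) :
    p ^ 3 = (tr p ^ 2 - 1) • p - tr p • (1 : Qt S a b c) := by
  have h2 := Qt.sq_eq h
  rw [pow_three, h2, mul_sub, mul_smul_comm, h2]
  simp only [mul_one]
  module

lemma Qt.pow5 {p : Qt S a b c} (h : nrd p = 1) :
    p ^ 5 = (tr p ^ 4 - 3 * tr p ^ 2 + 1) • p - (tr p ^ 3 - 2 * tr p) • (1 : Qt S a b c) := by
  have h2 := Qt.sq_eq h
  rw [show 5 = 3 + 2 from rfl, pow_add, Qt.pow3 h, pow_two p, h2]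
  simp only [sub_mul, mul_sub, smul_mul_assoc, mul_smul_comm, h2, mul_one, one_mul]
  module

lemma Qt.four_nrd (p : Qt S a b 0) : 4 * nrd p = tr p ^ 2 + (2 * p.c3 + b * p.c1 + a * p.c2) ^ 2
    + (4 - a ^ 2 - b ^ 2) * (p.c1 ^ 2 + p.c2 ^ 2) := by
  simp only [nrd, tr]; ring

lemma N1.pow5 {p : N1 S a b c} (h : tr p.v ^ 2 + tr p.v - 1 = 0) : p ^ 5 = 1 := by
  apply N1.ext
  rw [N1.pow_v, Qt.pow5 p.h, show tr p.v ^ 4 - 3 * tr p.v ^ 2 + 1 = 0 by
    linear_combination (tr p.v ^ 2 - tr p.v - 1) * h,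
    show tr p.v ^ 3 - 2 * tr p.v = -1 by linear_combination (tr p.v - 1) * h]
  simp

lemma lamRel_N1 (k : ℕ) (ha : a ^ 2 + a - 1 = 0) (hb : b ^ 2 + b - 1 = 0) :
    LamRel k (1 : N1 S a b 0) N1.y N1.z := by
  have h : ((N1.y * N1.z : N1 S a b 0) ^ 2).v = -1 := by
    rw [N1.pow_v, pow_two, Qt.sq_eq (N1.y * N1.z).h]; simp
  refine LamRel.of_one k (N1.pow5 (by simpa using ha)) (N1.pow5 (by simpa using hb)) ?_ ?_ ?_
  · apply N1.ext
    rw [show 4 = 2 * 2 from rfl, pow_mul, N1.pow_v, h]; simp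
  · exact N1.ext (by rw [N1.mul_v, N1.mul_v, h]; simp)
  · exact N1.ext (by rw [N1.mul_v, N1.mul_v, h]; simp)

/-- change of the base ring -/
def N1.map {S' : Type} [CommRing S'] (f : S →+* S') {a' b' c' : S'} (ha : f a = a') (hb : f b = b')
    (hc : f c = c') : N1 S a b c →* N1 S' a' b' c' := N1.lift (pair_map f ha hb hc)

lemma N1.tr_map {S' : Type} [CommRing S'] (f : S →+* S') {a' b' c' : S'} (ha : f a = a')
    (hb : f b = b') (hc : f c = c') (p : N1 S a b c) :
    tr (N1.map f ha hb hc p).v = f (tr p.v) := tr_lift _ _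

lemma N1.del_map {S' : Type} [CommRing S'] (f : S →+* S') {a' b' c' : S'} (ha : f a = a')
    (hb : f b = b') (hc : f c = c') (p q : N1 S a b c) :
    del (N1.map f ha hb hc p).v (N1.map f ha hb hc q).v = f (del p.v q.v) := del_lift _ _ _

variable {L : Type} [Group L] {k : ℕ} (A : LamData L k)

/-- the standard representation -/
noncomputable def LamData.rep (ha : a ^ 2 + a - 1 = 0) (hb : b ^ 2 + b - 1 = 0) : L →* N1 S a b 0 :=
  (A.lift _ _ _ _ (lamRel_N1 k ha hb)).choose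

lemma LamData.rep_f (ha : a ^ 2 + a - 1 = 0) (hb : b ^ 2 + b - 1 = 0) : A.rep ha hb A.f = 1 :=
  (A.lift _ _ _ _ (lamRel_N1 k ha hb)).choose_spec.1
lemma LamData.rep_y (ha : a ^ 2 + a - 1 = 0) (hb : b ^ 2 + b - 1 = 0) : A.rep ha hb A.y = N1.y :=
  (A.lift _ _ _ _ (lamRel_N1 k ha hb)).choose_spec.2.1
lemma LamData.rep_z (ha : a ^ 2 + a - 1 = 0) (hb : b ^ 2 + b - 1 = 0) : A.rep ha hb A.z = N1.z :=
  (A.lift _ _ _ _ (lamRel_N1 k ha hb)).choose_spec.2.2

lemma LamData.tr_eq (ha : a ^ 2 + a - 1 = 0) (hb : b ^ 2 + b - 1 = 0) {S' : Type} [CommRing S']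
    {a' b' c' : S'} (f : S →+* S') (θ : L →* N1 S' a' b' c') (hf : θ A.f = 1)
    (hy : tr (θ A.y).v = f a) (hz : tr (θ A.z).v = f b) (hw : tr ((θ A.y).v * (θ A.z).v) = 0)
    (l : L) : tr (θ l).v = f (tr (A.rep ha hb l).v) := by
  have P : Pair f a b 0 (θ A.y).v (θ A.z).v := ⟨(θ _).h, (θ _).h, hy, hz, by rw [hw, map_zero]⟩
  have : θ = (N1.lift P).comp (A.rep ha hb) := by
    apply A.hom_ext
    · rw [hf, MonoidHom.comp_apply, A.rep_f, map_one]
    · apply N1.ext; rw [MonoidHom.comp_apply, A.rep_y]; simp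
    · apply N1.ext; rw [MonoidHom.comp_apply, A.rep_z]; simp
  rw [this]
  exact tr_lift P _

end gen

lemma N1.abs_tr_le {a b : ℝ} (h : a ^ 2 + b ^ 2 ≤ 4) (p : N1 ℝ a b 0) : |tr p.v| ≤ 2 := by
  have h1 := Qt.four_nrd p.v
  rw [p.h] at h1
  have h2 : 0 ≤ (4 - a ^ 2 - b ^ 2) * (p.v.c1 ^ 2 + p.v.c2 ^ 2) :=
    mul_nonneg (by linarith) (by positivity)
  exact abs_le_of_sq_le_sq' (by nlinarith [sq_nonneg (2 * p.v.c3 + b * p.v.c1 + a * p.v.c2)])
    (by norm_num) |> abs_le.2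

lemma root1 : (-ph) ^ 2 + -ph - 1 = 0 := by decide
lemma root2 : (ph - 1) ^ 2 + (ph - 1) - 1 = 0 := by decide

lemma ico_c60 (p : N1 Zp (-ph) (ph - 1) 0) : c60 (tr p.v) = 2 := by
  have key : ∀ s : Zp →+* ℝ, |s (tr p.v)| ≤ 2 := fun s => by
    rw [← N1.tr_map s rfl rfl (map_zero s)]
    apply N1.abs_tr_le
    rw [← map_pow, ← map_pow, ← map_add, show (-ph) ^ 2 + (ph - 1) ^ 2 = 3 by decide, map_ofNat]
    norm_num
  exact c60_small (key s1) (key s2)

section field

variable {F : Type} [Field F] {a b c : F}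

lemma N1.comm_of_smul {p : N1 F a b c} {s t : F} (hs : s ≠ 0)
    (h : s • p.v = t • (1 : Qt F a b c)) (q : N1 F a b c) : Commute p q := by
  apply N1.ext
  have : p.v = (s⁻¹ * t) • (1 : Qt F a b c) := by
    rw [mul_smul, ← h, smul_smul, inv_mul_cancel₀ hs, one_smul]
  simp [this]

lemma N1.ord5 (h2 : (2 : F) ≠ 0) {p q : N1 F a b c} (h : p ^ 5 = 1) (hc : ¬ Commute p q) :
    tr p.v ^ 2 + tr p.v - 1 = 0 := by
  have h1 := congrArg N1.v h
  rw [N1.pow_v, Qt.pow5 p.h, N1.one_v, sub_eq_iff_eq_add] at h1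
  have h3 : tr p.v ^ 4 - 3 * tr p.v ^ 2 + 1 = 0 := by
    by_contra h3
    exact hc (N1.comm_of_smul (t := 1 + (tr p.v ^ 3 - 2 * tr p.v)) h3
      (by rw [h1, add_smul, one_smul]) q)
  have h4 := congrArg Qt.c0 h1
  rw [h3] at h4
  simp only [zero_smul, zero_c0, add_c0, one_c0, smul_c0, smul_eq_mul, mul_one] at h4
  have h5 : (tr p.v ^ 2 + tr p.v - 1) * (tr p.v ^ 2 - tr p.v - 1) = 0 := by linear_combination h3
  refine (mul_eq_zero.1 h5).resolve_right fun h6 => h2 ?_
  linear_combination -h4 - (tr p.v + 1) * h6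

lemma N1.unip {p : Qt F a b c} (hn : nrd p = 1) (ht : tr p = 2) {m : ℕ} (hm : (m : F) ≠ 0)
    (h : p ^ m = 1) : p = 1 := by
  have h1 : (p - 1) * (p - 1) = 0 := by
    simp only [mul_sub, sub_mul, Qt.sq_eq hn, ht, mul_one, one_mul]; module
  have h2 : ∀ n : ℕ, p ^ n = 1 + (n : F) • (p - 1) := by
    intro n
    induction n with
    | zero => simp
    | succ n ih =>
      have : p = 1 + (p - 1) := by abel
      rw [pow_succ, ih]
      nth_rewrite 2 [this]
      simp only [mul_add, add_mul, smul_mul_assoc, h1, mul_one, one_mul, Nat.cast_succ]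
      module
  rw [h2, add_eq_left, smul_eq_zero] at h
  exact sub_eq_zero.1 (h.resolve_left hm)

lemma N1.ord11 (h22 : (22 : F) ≠ 0) {p q : N1 F a b c} (h : p ^ 11 = 1)
    (hc : q * p * q⁻¹ = p ^ 3) : p = 1 := by
  have h2 : (2 : F) ≠ 0 := fun h => h22 (by linear_combination 11 * h)
  have h11 : ((11 : ℕ) : F) ≠ 0 := fun h => h22 (by push_cast at h; linear_combination 2 * h)
  have h1 := congrArg (fun x => tr x.v) hc
  simp only [N1.mul_v, N1.inv_v, N1.pow_v] at h1
  rw [tr_mul_comm, ← mul_assoc, cj_mul, q.h, one_smul, one_mul, Qt.pow3 p.h, tr_sub, tr_smul,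
    tr_smul, tr_one] at h1
  have hv : p.v ^ 11 = 1 := by rw [← N1.pow_v, h]; rfl
  have h3 : tr p.v * ((tr p.v - 2) * (tr p.v + 2)) = 0 := by linear_combination -h1
  rcases mul_eq_zero.1 h3 with h4 | h4
  · have h5 : p ^ 2 = p⁻¹ ^ 2 := by
      apply N1.ext
      rw [N1.pow_v, N1.pow_v, pow_two, pow_two, Qt.sq_eq p.h, Qt.sq_eq p⁻¹.h, N1.inv_v, tr_cj, h4]
      simp
    have h6 : p ^ 4 = 1 := by
      rw [show 4 = 2 + 2 from rfl, pow_add]
      nth_rewrite 1 [h5]
      simp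
    calc p = (p ^ 4) ^ 3 * (p ^ 11)⁻¹ := by group
      _ = 1 := by rw [h6, h]; simp
  · rcases mul_eq_zero.1 h4 with h5 | h5
    · exact N1.ext (N1.unip p.h (sub_eq_zero.1 h5) h11 hv)
    · exfalso
      have h6 : -p.v = 1 := N1.unip (m := 22) (by rw [nrd_neg, p.h])
        (by rw [tr_neg]; linear_combination -h5) (by exact_mod_cast h22)
        (by rw [show 22 = 2 * 11 from rfl, pow_mul, neg_sq, ← pow_mul, mul_comm, pow_mul, hv,
          one_pow])
      rw [neg_eq_iff_eq_neg.1 h6, Odd.neg_one_pow (by decide)] at hv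
      have := congrArg Qt.c0 hv
      simp only [neg_c0, one_c0] at this
      exact h2 (by linear_combination -this)

theorem classify {L : Type} [Group L] (A : LamData L 1) (θ : L →* N1 F a b c) (h22 : (22 : F) ≠ 0)
    (hnc : ∃ l l', del (θ l).v (θ l').v ≠ 0) (h60 : ∃ l, c60 (tr (θ l).v) ≠ 2) :
    ∃ (u : F) (hu : u * u = 1 + u), ∀ l, tr (θ l).v = emb u hu (tr (A.rep root1 root1 l).v) := by
  have h2 : (2 : F) ≠ 0 := fun h => h22 (by linear_combination 11 * h)
  have R := A.rel.map θ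
  have hf : θ A.f = 1 := N1.ord11 h22 R.hf R.ay
  have nc : ¬ Commute (θ A.y) (θ A.z) := by
    intro hc
    obtain ⟨l, l', h⟩ := hnc
    have h1 : ∀ g, (g = A.y ∨ g = A.z) → ∀ l, Commute (θ g) (θ l) := by
      intro g hg l
      refine A.mem_of ((Subgroup.centralizer {θ g}).comap θ) ?_ ?_ ?_ l (θ g) rfl
      · rw [Subgroup.mem_comap, hf]; exact one_mem _
      · rintro _ rfl; rcases hg with rfl | rfl
        exacts [rfl, hc.symm]
      · rintro _ rfl; rcases hg with rfl | rfl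
        exacts [hc, rfl]
    have h3 : Commute (θ l) (θ l') := by
      refine A.mem_of ((Subgroup.centralizer {θ l}).comap θ) ?_ ?_ ?_ l' (θ l) rfl
      · rw [Subgroup.mem_comap, hf]; exact one_mem _
      · rintro _ rfl; exact (h1 _ (Or.inl rfl) l).symm
      · rintro _ rfl; exact (h1 _ (Or.inr rfl) l).symm
    apply h
    rw [del, ← N1.mul_v, ← N1.mul_v, h3.eq, sub_self, nrd_zero]
  have hy := N1.ord5 h2 R.hy nc
  have hz := N1.ord5 h2 R.hz fun h => nc h.symm
  have hw : tr ((θ A.y).v * (θ A.z).v) = 0 := by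
    by_contra hw
    apply nc
    have h1 := congrArg N1.v R.cy.eq
    simp only [N1.mul_v, pow_two] at h1
    rw [← N1.mul_v, Qt.sq_eq (θ A.y * θ A.z).h, sub_mul, mul_sub, one_mul, mul_one, sub_left_inj,
      smul_mul_assoc, mul_smul_comm] at h1
    have h3 : θ A.y * θ A.z * θ A.y = θ A.y * (θ A.y * θ A.z) :=
      N1.ext (smul_right_injective _ hw h1)
    rw [mul_assoc] at h3
    exact (mul_left_cancel h3).symm
  have hu : -tr (θ A.y).v * -tr (θ A.y).v = 1 + -tr (θ A.y).v := by linear_combination hy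
  have e1 : tr (θ A.y).v = emb _ hu (-ph) := by rw [map_neg, emb_ph, neg_neg]
  have h3 : (tr (θ A.z).v - tr (θ A.y).v) * (tr (θ A.z).v + tr (θ A.y).v + 1) = 0 := by
    linear_combination hz - hy
  rcases mul_eq_zero.1 h3 with h4 | h4
  · exact ⟨_, hu, A.tr_eq root1 root1 _ θ hf e1 ((sub_eq_zero.1 h4).trans e1) hw⟩
  · exfalso
    obtain ⟨l, hl⟩ := h60
    apply hl
    rw [A.tr_eq root1 root2 (emb _ hu) θ hf e1
      (by rw [map_sub, emb_ph, map_one]; linear_combination h4) hw, ← map_c60, ico_c60, map_ofNat]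

end field

end Pool.Agent.Work.MP_f81df4_al
end
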