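import Pool.Agent.Work.MP_f81df4_al.H18Defs
import Pool.Agent.Work.MP_f81df4_al.H80Main
import Pool.Agent.Work.MP_f81df4_al.TGrp
import Pool.Agent.Work.MP_f81df4_al.BMain

/-! Proof of the explicit statement. -/

set_option autoImplicit false

namespace Pool.Agent.Work.MP_f81df4_al.H18

universe u v

theorem lamData (k : ℕ) : Nonempty (LamData (Lam k) k) := by
  have h1 : ∀ r ∈ rels k, PresentedGroup.mk (rels k) r = 1 :=
    fun r hr => PresentedGroup.one_of_mem hr
  let m : FreeGroup (Fin 3) := FreeGroup.of 0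
  let y : FreeGroup (Fin 3) := FreeGroup.of 1
  let z : FreeGroup (Fin 3) := FreeGroup.of 2
  refine ⟨⟨PresentedGroup.of 0, PresentedGroup.of 1,
    PresentedGroup.of 2, ⟨?_, ?_, ?_, ?_, ?_, ?_, ?_, ?_⟩, ?_, ?_⟩⟩
  · exact h1 (m ^ 11) (by simp [rels, m])
  · exact h1 (y ^ 5) (by simp [rels, y])
  · exact h1 (z ^ 5) (by simp [rels, z])
  · exact h1 ((y * z) ^ 4) (by simp [rels, y, z])
  · exact mul_inv_eq_one.1 (h1 ((y * z) ^ 2 * y * (y * (y * z) ^ 2)⁻¹) (by simp [rels, y, z]))
  · exact mul_inv_eq_one.1 (h1 ((y * z) ^ 2 * z * (z * (y * z) ^ 2)⁻¹) (by simp [rels, y, z]))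
  · exact mul_inv_eq_one.1 (h1 (y * m * y⁻¹ * (m ^ 3 ^ k)⁻¹) (by simp [rels, y, m]))
  · exact mul_inv_eq_one.1 (h1 (z⁻¹ * m * z * (m ^ 3 ^ k)⁻¹) (by simp [rels, z, m]))
  · rw [← PresentedGroup.closure_range_of (rels k)]
    congr 1
    ext x
    simp only [Set.mem_insert_iff, Set.mem_singleton_iff, Set.mem_range, Fin.exists_fin_succ,
      IsEmpty.exists_iff, or_false, eq_comm (a := x)]
    rfl
  · intro H _ a b c h
    have hr : ∀ r ∈ rels k, FreeGroup.lift ![a, b, c] r = 1 := by
      rintro r (rfl | rfl | rfl | rfl | rfl | rfl | rfl | rfl)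
      · simpa using h.hf
      · simpa using h.hy
      · simpa using h.hz
      · simpa using h.hw
      · rw [map_mul, map_inv, mul_inv_eq_one]
        simpa using h.cy.eq
      · rw [map_mul, map_inv, mul_inv_eq_one]
        simpa using h.cz.eq
      · rw [map_mul, map_inv, mul_inv_eq_one]
        simpa using h.ay
      · rw [map_mul, map_inv, mul_inv_eq_one]
        simpa using h.az
    exact ⟨PresentedGroup.toGroup hr, PresentedGroup.toGroup.of hr, PresentedGroup.toGroup.of hr,
      PresentedGroup.toGroup.of hr⟩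

/-- the universal property for small test groups -/
def Univ0 {Γ : Type v} {B : Type u} [Group Γ] [TopologicalSpace B] [Group B] (β : Γ →* B) : Prop :=
  ∀ (K : Type) [TopologicalSpace K] [Group K] [IsTopologicalGroup K] [CompactSpace K]
    [T2Space K] (f : Γ →* K), ∃! ψ : B →* K, Continuous ψ ∧ ψ.comp β = f

theorem IsBohr.univ0 {Γ : Type v} {B : Type u} [Group Γ] [TopologicalSpace B] [Group B]
    {β : Γ →* B} (h : IsBohr β) : Univ0 β := by
  intro K _ _ _ _ _ f
  obtain ⟨ψ, ⟨h1, h2⟩, -⟩ := h.univ (ULift.{u} K) (MulEquiv.ulift.symm.toMonoidHom.comp f)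
  refine ⟨(MulEquiv.ulift : ULift.{u} K ≃* K).toMonoidHom.comp ψ,
    ⟨continuous_uliftDown.comp h1, ?_⟩, ?_⟩
  · rw [MonoidHom.comp_assoc, h2]
    rfl
  · rintro φ ⟨h3, h4⟩
    ext x
    refine congrFun (h.dense.equalizer h3 (continuous_uliftDown.comp h1) (funext fun y => ?_)) x
    exact (DFunLike.congr_fun h4 y).trans (congrArg ULift.down (DFunLike.congr_fun h2 y)).symm

theorem Univ0.transport {Γ : Type v} {Γ' : Type} {K L : Type u} [Group Γ] [Group Γ']
    [TopologicalSpace K] [Group K] [TopologicalSpace L] [Group L] {j : Γ →* L} (hj : Univ0 j)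
    (e : L ≃ₜ* K) (d : Γ' ≃* Γ) :
    Univ0 ((e.toMulEquiv.toMonoidHom.comp j).comp d.toMonoidHom) := by
  intro M _ _ _ _ _ f
  obtain ⟨h, ⟨h1, h2⟩, h3⟩ := hj M (f.comp d.symm.toMonoidHom)
  refine ⟨h.comp e.symm.toMulEquiv.toMonoidHom, ⟨h1.comp e.symm.continuous, ?_⟩, ?_⟩
  · ext x
    exact (congrArg h (e.symm_apply_apply (j (d x)))).trans
      ((DFunLike.congr_fun h2 (d x)).trans (congrArg f (d.symm_apply_apply x)))
  · rintro h' ⟨h4, h5⟩
    rw [← h3 (h'.comp e.toMulEquiv.toMonoidHom) ⟨h4.comp e.continuous, by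
      ext x
      refine Eq.trans ?_ (DFunLike.congr_fun h5 (d.symm x))
      exact congrArg (fun t => h' (e (j t))) (d.apply_symm_apply x).symm⟩]
    ext x
    exact congrArg h' (e.apply_symm_apply x).symm

/-- two groups with a common compactification are Bohr equivalent -/
noncomputable def equivOf {Λ Γ : Type} {K : Type u} [Group Λ] [Group Γ] [TopologicalSpace K]
    [Group K] {i : Λ →* K} {j : Γ →* K} (hi : Univ0 i) (hj : Univ0 j) : BohrEquiv Λ Γ where
  e M _ _ _ _ _ :=
    { toFun := fun f => (hi M f).choose.comp j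
      invFun := fun g => (hj M g).choose.comp i
      left_inv := fun f => by
        have h1 := (hi M f).choose_spec.1
        have h2 := (hj M ((hi M f).choose.comp j)).choose_spec.2 _ ⟨h1.1, rfl⟩
        simp only
        rw [← h2, h1.2]
      right_inv := fun g => by
        have h1 := (hj M g).choose_spec.1
        have h2 := (hi M ((hj M g).choose.comp i)).choose_spec.2 _ ⟨h1.1, rfl⟩
        simp only
        rw [← h2, h1.2] }
  nat M _ _ _ _ _ N _ _ _ _ _ u hu f := by
    have h1 := (hi M f).choose_spec.1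
    have h2 := (hi N (u.comp f)).choose_spec.2 (u.comp (hi M f).choose)
      ⟨hu.comp h1.1, by rw [MonoidHom.comp_assoc, h1.2]⟩
    simp only [Equiv.coe_fn_mk]
    rw [← h2, MonoidHom.comp_assoc]

/-- carriers of small models -/
def Car {Γ : Type} (S : Set (Filter Γ)) : Type u := ULift.{u} S

/-- small models of homomorphisms to compact groups -/
structure Idx (Γ : Type) [Group Γ] : Type u where
  S : Set (Filter Γ)
  [top : TopologicalSpace (Car.{u} S)]
  [grp : Group (Car.{u} S)]
  [tg : IsTopologicalGroup (Car.{u} S)]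
  [cs : CompactSpace (Car.{u} S)]
  [t2 : T2Space (Car.{u} S)]
  f : Γ →* Car.{u} S

theorem exists_bohr (Γ : Type) [Group Γ] :
    ∃ (B : Type u) (_ : TopologicalSpace B) (_ : Group B) (β : Γ →* B), IsBohr β := by
  let _ := fun i : Idx.{u} Γ => i.top
  let _ := fun i : Idx.{u} Γ => i.grp
  have := fun i : Idx.{u} Γ => i.tg
  have := fun i : Idx.{u} Γ => i.cs
  have := fun i : Idx.{u} Γ => i.t2
  have dense : ∀ {K : Type u} [TopologicalSpace K] [Group K] [IsTopologicalGroup K] (f : Γ →* K),
      DenseRange (f.codRestrict f.range.topologicalClosure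
        fun x => Subgroup.le_topologicalClosure _ ⟨x, rfl⟩) := by
    intro K _ _ _ f
    refine Topology.IsInducing.subtypeVal.dense_iff.2 fun x => ?_
    rw [← Set.range_comp]
    exact x.2
  let F : Γ →* ∀ i : Idx.{u} Γ, Car.{u} i.S := MonoidHom.pi fun i => i.f
  refine ⟨F.range.topologicalClosure, inferInstance, inferInstance, _, inferInstance,
    isCompact_iff_compactSpace.1 (Subgroup.isClosed_topologicalClosure _).isCompact, inferInstance,
    dense F, fun K _ _ _ _ _ f => ?_⟩
  refine existsUnique_of_exists_of_unique ?_ fun φ ψ h1 h2 => ?_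
  · have hd := dense f
    have : CompactSpace f.range.topologicalClosure :=
      isCompact_iff_compactSpace.1 (Subgroup.isClosed_topologicalClosure _).isCompact
    set f' := f.codRestrict f.range.topologicalClosure
      fun x => Subgroup.le_topologicalClosure _ ⟨x, rfl⟩ with hf'
    have inj : Function.Injective fun x : f.range.topologicalClosure => Filter.comap f' (nhds x) := by
      intro x y hxy
      have : (Filter.comap f' (nhds x)).NeBot := Filter.comap_neBot fun t ht => hd.mem_nhds ht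
      exact tendsto_nhds_unique (l := Filter.comap f' (nhds x)) Filter.tendsto_comap
        (by rw [show Filter.comap f' (nhds x) = Filter.comap f' (nhds y) from hxy]
            exact Filter.tendsto_comap)
    let e : Car.{u} (Set.range fun x : f.range.topologicalClosure => Filter.comap f' (nhds x)) ≃
        f.range.topologicalClosure := Equiv.ulift.trans (Equiv.ofInjective _ inj).symm
    let _ := e.topologicalSpace
    let _ := e.group
    have : IsTopologicalGroup (Car.{u} (Set.range fun x : f.range.topologicalClosure =>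
        Filter.comap f' (nhds x))) :=
      e.homeomorph.isInducing.topologicalGroup e.mulEquiv.toMonoidHom
    have := e.homeomorph.symm.compactSpace
    have := e.homeomorph.symm.t2Space
    let i : Idx.{u} Γ := { S := _, f := e.mulEquiv.symm.toMonoidHom.comp f' }
    refine ⟨f.range.topologicalClosure.subtype.comp (e.mulEquiv.toMonoidHom.comp
      ((Pi.evalMonoidHom _ i).comp F.range.topologicalClosure.subtype)), ?_, ?_⟩
    · exact continuous_subtype_val.comp (e.homeomorph.continuous.comp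
        ((continuous_apply i).comp continuous_subtype_val))
    · ext x
      exact congrArg Subtype.val (e.apply_symm_apply (f' x))
  · ext x
    refine congrFun ((dense F).equalizer h1.1 h2.1 (funext fun y => ?_)) x
    exact (DFunLike.congr_fun h1.2 y).trans (DFunLike.congr_fun h2.2 y).symm

theorem prof_unique {Λ K K' : Type} [Group Λ] [TopologicalSpace K] [Group K]
    [IsTopologicalGroup K] [CompactSpace K] [T2Space K] [TotallyDisconnectedSpace K]
    [TopologicalSpace K'] [Group K'] [IsTopologicalGroup K'] [CompactSpace K'] [T2Space K']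
    [TotallyDisconnectedSpace K'] {i : Λ →* K} {i' : Λ →* K'} (h : H80.IsProfCompl i)
    (h' : H80.IsProfCompl i') : Nonempty (K ≃ₜ* K') := by
  obtain ⟨φ, ⟨a1, a2⟩, -⟩ := h K' i'
  obtain ⟨ψ, ⟨b1, b2⟩, -⟩ := h' K i
  have c1 : ψ.comp φ = MonoidHom.id K := (h K i).unique
    ⟨b1.comp a1, by rw [MonoidHom.comp_assoc, a2, b2]⟩ ⟨continuous_id, MonoidHom.id_comp _⟩
  have c2 : φ.comp ψ = MonoidHom.id K' := (h' K' i').unique
    ⟨a1.comp b1, by rw [MonoidHom.comp_assoc, b2, a2]⟩ ⟨continuous_id, MonoidHom.id_comp _⟩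
  exact ⟨{ MonoidHom.toMulEquiv φ ψ c1 c2 with continuous_toFun := a1, continuous_invFun := b1 }⟩

open ProfiniteGrp.ProfiniteCompletion in
theorem prof_completion (Λ : Type) [Group Λ] :
    H80.IsProfCompl (K := completion (GrpCat.of Λ)) (ProfiniteGrp.ProfiniteCompletion.eta (GrpCat.of Λ)).hom := by
  intro M _ _ _ _ _ _ f
  let h := ProfiniteGrp.ProfiniteCompletion.lift (G := GrpCat.of Λ) (P := ProfiniteGrp.of M) (GrpCat.ofHom f)
  have hh : (h.hom.toMonoidHom).comp (ProfiniteGrp.ProfiniteCompletion.eta (GrpCat.of Λ)).hom = f :=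
    congrArg GrpCat.Hom.hom (lift_eta (G := GrpCat.of Λ) (P := ProfiniteGrp.of M) (GrpCat.ofHom f))
  refine ⟨h.hom.toMonoidHom, ⟨h.hom.continuous_toFun, hh⟩, ?_⟩
  rintro h' ⟨h1, h2⟩
  ext x
  refine congrFun ((denseRange (GrpCat.of Λ)).equalizer h1 h.hom.continuous_toFun ?_) x
  funext y
  exact (DFunLike.congr_fun h2 y).trans (DFunLike.congr_fun hh y).symm

theorem rf_iff (Γ : Type) [Group Γ] : Group.ResiduallyFinite Γ ↔ H80.RF Γ := by
  simp only [Group.residuallyFinite_iff_exists_finiteIndex, H80.RF, Subgroup.finiteIndex_iff]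

theorem exists_small (Γ : Type u) [Group Γ] (h : Group.FG Γ) (h' : Group.ResiduallyFinite Γ) :
    ∃ (G : Type) (_ : Group G), Group.FG G ∧ H80.RF G ∧ Nonempty (G ≃* Γ) := by
  obtain ⟨S, hS, hfin⟩ := Group.fg_iff.1 h
  have : Finite S := hfin
  obtain ⟨n, ⟨e⟩⟩ := Finite.exists_equiv_fin S
  let φ : FreeGroup (Fin n) →* Γ := FreeGroup.lift fun i => (e.symm i : Γ)
  have hφ : Function.Surjective φ := by
    rw [← MonoidHom.range_eq_top, eq_top_iff, ← hS, Subgroup.closure_le]
    exact fun s hs => ⟨FreeGroup.of (e ⟨s, hs⟩), by simp [φ]⟩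
  let d := QuotientGroup.quotientKerEquivOfSurjective φ hφ
  refine ⟨_, inferInstance, Group.fg_of_surjective (f := d.symm.toMonoidHom) d.symm.surjective,
    fun g hg => ?_, ⟨d⟩⟩
  obtain ⟨H, h1, h2⟩ := Group.residuallyFinite_iff_exists_finiteIndex.1 h' (d g)
    (fun h0 => hg (d.injective (h0.trans (map_one d).symm)))
  refine ⟨H.comap d.toMonoidHom, ?_, h2⟩
  rw [Subgroup.index_comap_of_surjective (f := d.toMonoidHom) _ d.surjective]
  exact h1.index_ne_zero

open ProfiniteGrp.ProfiniteCompletion in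
/-- `Lam 1` is finitely generated, residually finite and Bohr rigid, while `Lam 2` is finitely
generated, residually finite, not isomorphic to it and has the same profinite completion. -/
theorem main :
    (Group.FG (Lam 1) ∧ Group.ResiduallyFinite (Lam 1)) ∧
    ((∃ (K : Type u) (_ : TopologicalSpace K) (_ : Group K) (i : Lam 1 →* K), IsBohr i) ∧
      ∀ (Γ : Type u) [Group Γ], Group.FG Γ → Group.ResiduallyFinite Γ →
        ∀ (K L : Type u) [TopologicalSpace K] [Group K] [TopologicalSpace L] [Group L]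
          (i : Lam 1 →* K) (j : Γ →* L), IsBohr i → IsBohr j → Nonempty (L ≃ₜ* K) →
          Nonempty (Γ ≃* Lam 1)) ∧
    (Group.FG (Lam 2) ∧ Group.ResiduallyFinite (Lam 2) ∧
      Nonempty (completion (GrpCat.of (Lam 2)) ≃ₜ* completion (GrpCat.of (Lam 1))) ∧
      IsEmpty (Lam 2 ≃* Lam 1)) := by
  obtain ⟨A⟩ := lamData 1
  obtain ⟨B⟩ := lamData 2
  refine ⟨⟨H80.lam_fg A, (rf_iff _).2 (H80.lam_rf A)⟩, ⟨exists_bohr _, ?_⟩, H80.lam_fg B,
    (rf_iff _).2 (H80.lam_rf B), ?_, ⟨fun e => (not_bohrEquiv A B).false (.ofIso e.symm)⟩⟩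
  · rintro Γ _ h1 h2 K L _ _ _ _ i j hi hj ⟨e⟩
    obtain ⟨G, _, g1, g2, ⟨d⟩⟩ := exists_small Γ h1 h2
    obtain ⟨c⟩ := H80.iso_of_bohrEquiv (fun _ _ _ _ A B => not_bohrEquiv A B)
      (fun _ _ _ _ A E hG => exists_form A E hG) A
      (equivOf hi.univ0 (hj.univ0.transport e d)) g1 g2
    exact ⟨d.symm.trans c⟩
  · obtain ⟨K, _, _, _, _, _, _, i, j, hi, hj⟩ := H80.exists_common_profCompl (H80.lam_fg A)
      (H80.lam_fg B) (H80.lam_quot_twist A B (k := 2) (by norm_num) (by decide))
      (H80.lam_quot_twist B A (k := 3) (by norm_num) (by decide))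
    obtain ⟨a⟩ := prof_unique (prof_completion (Lam 2)) hj
    obtain ⟨b⟩ := prof_unique hi (prof_completion (Lam 1))
    exact ⟨a.trans b⟩

end Pool.Agent.Work.MP_f81df4_al.H18
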