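import Mathlib

/-! Definitions for the explicit statement. -/

set_option autoImplicit false

namespace Pool.Agent.Work.MP_f81df4_al.H18

universe u v

/-- `β : Γ → B` is a Bohr compactification of the discrete group `Γ` -/
structure IsBohr {Γ : Type v} {B : Type u} [Group Γ] [TopologicalSpace B] [Group B] (β : Γ →* B) :
    Prop where
  top : IsTopologicalGroup B
  compact : CompactSpace B
  t2 : T2Space B
  dense : DenseRange β
  univ : ∀ (K : Type u) [TopologicalSpace K] [Group K] [IsTopologicalGroup K] [CompactSpace K]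
    [T2Space K] (f : Γ →* K), ∃! ψ : B →* K, Continuous ψ ∧ ψ.comp β = f

/-- relators in the generators `a, y, z` -/
def rels (k : ℕ) : Set (FreeGroup (Fin 3)) :=
  let a : FreeGroup (Fin 3) := FreeGroup.of 0
  let y : FreeGroup (Fin 3) := FreeGroup.of 1
  let z : FreeGroup (Fin 3) := FreeGroup.of 2
  {a ^ 11, y ^ 5, z ^ 5, (y * z) ^ 4, (y * z) ^ 2 * y * (y * (y * z) ^ 2)⁻¹,
    (y * z) ^ 2 * z * (z * (y * z) ^ 2)⁻¹, y * a * y⁻¹ * (a ^ 3 ^ k)⁻¹, z⁻¹ * a * z * (a ^ 3 ^ k)⁻¹}

/-- the group with three generators and the relators `rels k` -/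
abbrev Lam (k : ℕ) : Type := PresentedGroup (rels k)

end Pool.Agent.Work.MP_f81df4_al.H18
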