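import Mathlib.MeasureTheory.Group.GeometryOfNumbers
import Mathlib.MeasureTheory.Measure.Lebesgue.VolumeOfBalls
import Mathlib.Algebra.Module.ZLattice.Basic
import Mathlib.Analysis.Matrix.Spectrum
import Mathlib.LinearAlgebra.Matrix.SchurComplement
import Pool.Agent.Work.MP_f81df4_al.H80Ring

/-! Short vectors of quadratic forms over `ℤ[φ]`. -/

set_option autoImplicit false

namespace Pool.Agent.Work.MP_f81df4_al.H80

open Matrix Real MeasureTheory

theorem minkowski_ball {ι : Type} [Fintype ι] [DecidableEq ι] [Nonempty ι] {k : ℕ}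
    (hk : Fintype.card ι = 2 * k) (M : Matrix ι ι ℝ) (hM : M.det ≠ 0) {r : ℝ} (hr : 0 < r)
    (h : |M.det| * 2 ^ (2 * k) < r ^ (2 * k) * (π ^ k / k.factorial)) :
    ∃ x : ι → ℤ, x ≠ 0 ∧ ∑ i, ((M *ᵥ fun j => (x j : ℝ)) i) ^ 2 < r ^ 2 := by
  have := M.invertibleOfIsUnitDet (Ne.isUnit hM)
  let b : Module.Basis ι ℝ (ι → ℝ) := (Pi.basisFun ℝ ι).map (M.toLinearEquiv' this)
  have hb : ∀ j, b j = fun i => M i j := by
    intro j
    ext i
    simp only [b, Module.Basis.map_apply, Pi.basisFun_apply]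
    show (M *ᵥ Pi.single j 1) i = M i j
    simp
  have : Countable (Submodule.span ℤ (Set.range b)).toAddSubgroup :=
    inferInstanceAs (Countable (Submodule.span ℤ (Set.range b)))
  let s : Set (ι → ℝ) := (WithLp.toLp 2) ⁻¹' Metric.ball (0 : EuclideanSpace ℝ ι) r
  have hs : volume s = ENNReal.ofReal r ^ (2 * k) * ENNReal.ofReal (π ^ k / k.factorial) := by
    rw [(PiLp.volume_preserving_toLp ι).measure_preimage
      Metric.isOpen_ball.measurableSet.nullMeasurableSet,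
      InnerProductSpace.volume_ball_of_dim_even (k := k) (by simpa using hk)]
    simp [hk]
  obtain ⟨x, hx0, hx⟩ := exists_ne_zero_mem_lattice_of_measure_mul_two_pow_lt_measure
    (ZSpan.isAddFundamentalDomain' b volume) (s := s)
    (fun x hx => by simpa [s] using hx)
    ((convex_ball _ _).linear_preimage (WithLp.linearEquiv 2 ℝ (ι → ℝ)).symm.toLinearMap)
    (by
      rw [hs, ZSpan.volume_fundamentalDomain]
      have : Matrix.of b = Mᵀ := by
        ext i j
        simp [hb]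
      rw [this, det_transpose, Module.finrank_fintype_fun_eq_card, hk,
        ← ENNReal.ofReal_pow hr.le, ← ENNReal.ofReal_mul (by positivity),
        show (2 : ENNReal) = ENNReal.ofReal 2 by simp, ← ENNReal.ofReal_pow (by norm_num),
        ← ENNReal.ofReal_mul (by positivity)]
      exact (ENNReal.ofReal_lt_ofReal_iff (by positivity)).2 h)
  obtain ⟨c, hc⟩ := (Submodule.mem_span_range_iff_exists_fun ℤ).1 x.2
  have hx1 : (x : ι → ℝ) = M *ᵥ fun j => (c j : ℝ) := by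
    rw [← hc]
    ext i
    simp [hb, mulVec, dotProduct, mul_comm]
  refine ⟨c, ?_, ?_⟩
  · rintro rfl
    apply hx0
    ext1
    rw [hx1]
    ext i
    simp [mulVec, dotProduct]
  · rw [← hx1]
    have h1 : ‖(WithLp.toLp 2 (x : ι → ℝ) : EuclideanSpace ℝ ι)‖ < r := by simpa [s] using hx
    have h2 := EuclideanSpace.norm_sq_eq (WithLp.toLp 2 (x : ι → ℝ) : EuclideanSpace ℝ ι)
    simp only [Real.norm_eq_abs, sq_abs] at h2
    rw [← h2]
    exact pow_lt_pow_left₀ h1 (norm_nonneg _) two_ne_zero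

theorem exists_majorant {ι : Type} [Fintype ι] [DecidableEq ι] (S : Matrix ι ι ℝ)
    (hS : S.IsSymm) :
    ∃ A : Matrix ι ι ℝ, A.det ^ 2 = |S.det| ∧ ∀ x, |x ⬝ᵥ S *ᵥ x| ≤ ∑ i, ((A *ᵥ x) i) ^ 2 := by
  have hH : S.IsHermitian := by
    rw [IsHermitian, conjTranspose_eq_transpose_of_trivial]
    exact hS
  let U : Matrix ι ι ℝ := hH.eigenvectorUnitary
  have hU : Uᵀ * U = 1 := by
    have := hH.eigenvectorUnitary.2.1
    rwa [star_eq_conjTranspose, conjTranspose_eq_transpose_of_trivial] at this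
  have hsp : S = U * diagonal hH.eigenvalues * Uᵀ := by
    have := hH.spectral_theorem
    rw [Unitary.conjStarAlgAut_apply, star_eq_conjTranspose,
      conjTranspose_eq_transpose_of_trivial] at this
    simpa using this
  refine ⟨diagonal (fun i => √|hH.eigenvalues i|) * Uᵀ, ?_, fun x => ?_⟩
  · have h1 : U.det ^ 2 = 1 := by
      have := congrArg det hU
      rwa [det_mul, det_transpose, det_one, ← sq] at this
    rw [det_mul, det_transpose, mul_pow, h1, mul_one, det_diagonal, ← Finset.prod_pow,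
      hH.det_eq_prod_eigenvalues, Finset.abs_prod]
    simp
  · have h1 : x ⬝ᵥ S *ᵥ x = ∑ i, hH.eigenvalues i * ((Uᵀ *ᵥ x) i) ^ 2 := by
      conv_lhs => rw [hsp]
      rw [← mulVec_mulVec, ← mulVec_mulVec, dotProduct_mulVec, ← mulVec_transpose]
      simp only [dotProduct, mulVec_diagonal]
      exact Finset.sum_congr rfl fun i _ => by ring
    rw [h1]
    refine (Finset.abs_sum_le_sum_abs _ _).trans (le_of_eq ?_)
    refine Finset.sum_congr rfl fun i _ => ?_
    rw [← mulVec_mulVec, mulVec_diagonal, mul_pow, Real.sq_sqrt (abs_nonneg _), abs_mul, abs_sq]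

theorem exists_short {n : ℕ} (hn : 0 < n) (G : Matrix (Fin n) (Fin n) Zp) (hG : G.IsSymm)
    (hdet : G.det ≠ 0) {ρ : ℝ} (hρ : 0 < ρ)
    (h : 16 ^ n * 5 ^ n * |(G.det.norm : ℝ)| < (ρ ^ n * (π ^ n / n.factorial)) ^ 2) :
    ∃ v : Fin n → Zp, v ≠ 0 ∧ 4 * |((v ⬝ᵥ G *ᵥ v).norm : ℝ)| < ρ ^ 2 := by
  have : Nonempty (Fin n) := ⟨⟨0, hn⟩⟩
  obtain ⟨A1, hA1, hA1'⟩ := exists_majorant (G.map s1) (hG.map _)
  obtain ⟨A2, hA2, hA2'⟩ := exists_majorant (G.map s2) (hG.map _)
  have e1 : (G.map s1).det = s1 G.det := (RingHom.map_det s1 G).symm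
  have e2 : (G.map s2).det = s2 G.det := (RingHom.map_det s2 G).symm
  let M : Matrix (Fin n ⊕ Fin n) (Fin n ⊕ Fin n) ℝ :=
    fromBlocks A1 0 0 A2 * fromBlocks 1 (goldenRatio • 1) 1 (goldenConj • 1)
  have hM : M.det ^ 2 = 5 ^ n * |(G.det.norm : ℝ)| := by
    rw [det_mul, det_fromBlocks_zero₂₁, det_fromBlocks_one₁₁, Matrix.one_mul, ← sub_smul,
      det_smul, det_one, mul_one, mul_pow, mul_pow, hA1, hA2, e1, e2, ← abs_mul, s1_mul_s2,
      Fintype.card_fin, ← pow_mul, mul_comm n 2, pow_mul, mul_comm]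
    congr 2
    rw [← neg_sub, goldenRatio_sub_goldenConj]
    simp
  have hN : (G.det.norm : ℝ) ≠ 0 := by exact_mod_cast fun h => hdet (norm_eq_zero' h)
  obtain ⟨x, hx0, hx⟩ := minkowski_ball (k := n) (by simp [two_mul]) M
    (fun h0 => by
      rw [h0] at hM
      have : (0 : ℝ) < 5 ^ n * |(G.det.norm : ℝ)| := by positivity
      rw [← hM] at this
      simp at this)
    (Real.sqrt_pos.2 hρ) (by
      refine lt_of_pow_lt_pow_left₀ 2 (by positivity) ?_
      rw [mul_pow, sq_abs, hM, pow_mul (√ρ), Real.sq_sqrt hρ.le, ← pow_mul, mul_comm (2 * n) 2,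
        ← mul_assoc, pow_mul]
      norm_num
      linarith)
  let v : Fin n → Zp := fun i => ⟨x (Sum.inl i), x (Sum.inr i)⟩
  refine ⟨v, fun h0 => hx0 ?_, ?_⟩
  · ext (i | i)
    · exact congrArg QuadraticAlgebra.re (congrFun h0 i)
    · exact congrArg QuadraticAlgebra.im (congrFun h0 i)
  · rw [Real.sq_sqrt hρ.le, Fintype.sum_sum_type] at hx
    have hMx : (M *ᵥ fun j => (x j : ℝ)) =
        Sum.elim (A1 *ᵥ fun i => s1 (v i)) (A2 *ᵥ fun i => s2 (v i)) := by
      rw [← mulVec_mulVec, fromBlocks_mulVec, fromBlocks_mulVec]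
      simp only [one_mulVec, smul_mulVec, zero_mulVec, add_zero, zero_add, Sum.elim_comp_inl,
        Sum.elim_comp_inr]
      congr 2 <;> ext i <;> simp [v, s1_apply, s2_apply, mul_comm]
    rw [hMx] at hx
    simp only [Sum.elim_inl, Sum.elim_inr] at hx
    have f1 := hA1' fun i => s1 (v i)
    have f2 := hA2' fun i => s2 (v i)
    have g1 : (fun i => s1 (v i)) ⬝ᵥ G.map s1 *ᵥ (fun i => s1 (v i)) = s1 (v ⬝ᵥ G *ᵥ v) := by
      simp [dotProduct, mulVec]
    have g2 : (fun i => s2 (v i)) ⬝ᵥ G.map s2 *ᵥ (fun i => s2 (v i)) = s2 (v ⬝ᵥ G *ᵥ v) := by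
      simp [dotProduct, mulVec]
    rw [g1] at f1
    rw [g2] at f2
    rw [← s1_mul_s2, abs_mul]
    have h3 : |s1 (v ⬝ᵥ G *ᵥ v)| + |s2 (v ⬝ᵥ G *ᵥ v)| < ρ := by linarith
    have h4 := pow_lt_pow_left₀ h3 (by positivity) two_ne_zero
    nlinarith [sq_nonneg (|s1 (v ⬝ᵥ G *ᵥ v)| - |s2 (v ⬝ᵥ G *ᵥ v)|)]

end Pool.Agent.Work.MP_f81df4_al.H80
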