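import Mathlib.Algebra.BigOperators.Finprod
import Mathlib.Data.Set.Card
import Mathlib.Data.Prod.Lex
import Mathlib.Order.WellFounded
import Mathlib.Tactic

/-! Spanning trees and end-directed spanning forests in locally finite graphs. -/

set_option autoImplicit false

namespace Pool.Agent.Work.MP_f81df4_al.H80

open scoped Classical

/-- Breadth-first tree in a connected graph whose edges are the `ok` elements of `Ed`. -/
theorem exists_bfs {N Ed : Type*} (l r : Ed → N) (ok : Ed → Prop) (n0 : N)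
    (hconn : ∀ S : Set N, n0 ∈ S → (∀ e, ok e → (l e ∈ S ↔ r e ∈ S)) → ∀ n, n ∈ S) :
    ∃ dep : N → ℕ, ∀ n, n ≠ n0 → ∃ e m, ok e ∧ dep m < dep n ∧
      ((l e = n ∧ r e = m) ∨ (r e = n ∧ l e = m)) := by
  let R : ℕ → Set N := fun k => Nat.rec (motive := fun _ => Set N) {n0}
    (fun _ S => S ∪ {n | ∃ e m, ok e ∧ m ∈ S ∧ ((l e = n ∧ r e = m) ∨ (r e = n ∧ l e = m))}) k
  have hR0 : R 0 = {n0} := rfl
  have hRs : ∀ k, R (k + 1) = R k ∪
      {n | ∃ e m, ok e ∧ m ∈ R k ∧ ((l e = n ∧ r e = m) ∨ (r e = n ∧ l e = m))} := fun k => rfl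
  have hall : ∀ n : N, ∃ k : ℕ, n ∈ R k := by
    apply hconn {n | ∃ k, n ∈ R k}
    · exact ⟨0, by rw [hR0]; rfl⟩
    · intro e he
      constructor
      · rintro ⟨k, hk⟩
        exact ⟨k + 1, by rw [hRs]; exact Or.inr ⟨e, l e, he, hk, Or.inr ⟨rfl, rfl⟩⟩⟩
      · rintro ⟨k, hk⟩
        exact ⟨k + 1, by rw [hRs]; exact Or.inr ⟨e, r e, he, hk, Or.inl ⟨rfl, rfl⟩⟩⟩
  let dep : N → ℕ := fun n => Nat.find (hall n)
  refine ⟨dep, fun n hn => ?_⟩
  have h1 := Nat.find_spec (hall n)
  rcases hk : Nat.find (hall n) with _ | k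
  · rw [hk, hR0] at h1
    exact absurd h1 hn
  · rw [hk, hRs] at h1
    rcases h1 with h1 | ⟨e, m, he, hm, h⟩
    · exact absurd h1 (Nat.find_min (hall n) (by omega))
    · refine ⟨e, m, he, ?_, h⟩
      have : Nat.find (hall m) ≤ k := Nat.find_min' _ hm
      show Nat.find (hall m) < Nat.find (hall n)
      omega

/-- End-directed spanning forest: every node other than a root (which exists only if the graph is
finite) owns an incident edge whose other endpoint has larger rank. -/
theorem exists_forest {N Ed : Type*} [Nonempty Ed] (l r : Ed → N) (n0 : N)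
    (hfin : ∀ n, {e | l e = n ∨ r e = n}.Finite)
    (hconn : ∀ S : Set N, n0 ∈ S → (∀ e, (l e ∈ S ↔ r e ∈ S)) → ∀ n, n ∈ S) :
    ∃ (fe : N → Ed) (rk : N → ℕ ×ₗ ℕ), ∀ m, (m ≠ n0 ∨ Infinite N) →
      (l (fe m) = m ∨ r (fe m) = m) ∧
        ∀ n, n ≠ m → (l (fe m) = n ∨ r (fe m) = n) → rk m < rk n := by
  obtain ⟨dep, hdep⟩ := exists_bfs l r (fun _ => True) n0
    (fun S h0 hS => hconn S h0 (fun e => hS e trivial))
  have hdep' : ∀ n, ∃ e m, n ≠ n0 → dep m < dep n ∧
      ((l e = n ∧ r e = m) ∨ (r e = n ∧ l e = m)) := by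
    intro n
    by_cases hn : n = n0
    · exact ⟨Classical.arbitrary _, n, fun h => absurd hn h⟩
    · obtain ⟨e, m, -, h1, h2⟩ := hdep n hn
      exact ⟨e, m, fun _ => ⟨h1, h2⟩⟩
  choose pe par hp using hdep'
  let c : N → N → Prop := fun m n => m ≠ n0 ∧ par m = n
  let Desc : N → Set N := fun n => {m | Relation.ReflTransGen c m n}
  have hDdep : ∀ n m, m ∈ Desc n → dep n ≤ dep m := by
    intro n m hm
    induction hm with
    | refl => exact le_rfl
    | tail _ hc ih =>
      obtain ⟨h1, h2⟩ := hc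
      have := (hp _ h1).1
      rw [h2] at this
      omega
  have hroot : ∀ m, m ∈ Desc n0 := by
    intro m
    induction' hk : dep m using Nat.strong_induction_on with k ih generalizing m
    by_cases hm : m = n0
    · rw [hm]; exact Relation.ReflTransGen.refl
    · have := ih (dep (par m)) (by rw [← hk]; exact (hp m hm).1) (par m) rfl
      exact Relation.ReflTransGen.head ⟨hm, rfl⟩ this
  have hchild : ∀ n, {m | c m n}.Finite := by
    intro n
    refine (((hfin n).image l).union ((hfin n).image r)).subset ?_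
    rintro m ⟨h1, h2⟩
    rcases (hp m h1).2 with ⟨h3, h4⟩ | ⟨h3, h4⟩
    · exact Or.inl ⟨pe m, Or.inr (h4.trans h2), h3⟩
    · exact Or.inr ⟨pe m, Or.inl (h4.trans h2), h3⟩
  have halive : ∀ n, (Desc n).Infinite → ∃ m, c m n ∧ (Desc m).Infinite := by
    intro n hn
    by_contra hcon
    push Not at hcon
    apply hn
    refine ((Set.finite_singleton n).union
      ((hchild n).biUnion (fun m hm => hcon m hm))).subset ?_
    intro m hm
    rcases Relation.ReflTransGen.cases_tail hm with h | ⟨k, hk1, hk2⟩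
    · exact Or.inl h.symm
    · exact Or.inr (Set.mem_biUnion hk2 hk1)
  have halive' : ∀ n, ∃ m, (Desc n).Infinite → c m n ∧ (Desc m).Infinite := by
    intro n
    by_cases hn : (Desc n).Infinite
    · obtain ⟨m, hm⟩ := halive n hn
      exact ⟨m, fun _ => hm⟩
    · exact ⟨n, fun h => absurd h hn⟩
  choose ch hch using halive'
  refine ⟨fun m => if (Desc m).Infinite then pe (ch m) else pe m,
    fun m => if (Desc m).Infinite then toLex (1, dep m) else toLex (0, (Desc m).ncard), ?_⟩
  intro m hm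
  by_cases ha : (Desc m).Infinite
  · simp only [ha, if_true]
    obtain ⟨⟨h1, h2⟩, h3⟩ := hch m ha
    obtain ⟨h4, h5⟩ := hp _ h1
    rw [h2] at h4 h5
    refine ⟨?_, fun n hn hinc => ?_⟩
    · rcases h5 with ⟨-, h⟩ | ⟨-, h⟩
      · exact Or.inr h
      · exact Or.inl h
    · have hn' : n = ch m := by
        rcases h5 with ⟨h6, h7⟩ | ⟨h6, h7⟩ <;> rcases hinc with h | h
        · exact h.symm.trans h6
        · exact absurd (h.symm.trans h7) hn
        · exact absurd (h.symm.trans h7) hn
        · exact h.symm.trans h6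
      rw [hn', if_pos h3]
      exact Prod.Lex.toLex_lt_toLex.2 (Or.inr ⟨rfl, h4⟩)
  · simp only [ha, if_false]
    have hm0 : m ≠ n0 := by
      rcases hm with h | h
      · exact h
      · rintro rfl
        apply ha
        have : Desc m = Set.univ := Set.eq_univ_of_forall hroot
        rw [this]
        exact Set.infinite_univ
    obtain ⟨h4, h5⟩ := hp _ hm0
    refine ⟨?_, fun n hn hinc => ?_⟩
    · rcases h5 with ⟨h, -⟩ | ⟨h, -⟩
      · exact Or.inl h
      · exact Or.inr h
    · have hn' : n = par m := by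
        rcases h5 with ⟨h6, h7⟩ | ⟨h6, h7⟩ <;> rcases hinc with h | h
        · exact absurd (h.symm.trans h6) hn
        · exact h.symm.trans h7
        · exact h.symm.trans h7
        · exact absurd (h.symm.trans h6) hn
      rw [hn']
      by_cases hb : (Desc (par m)).Infinite
      · rw [if_pos hb]
        exact Prod.Lex.toLex_lt_toLex.2 (Or.inl (by norm_num))
      · rw [if_neg hb]
        refine Prod.Lex.toLex_lt_toLex.2 (Or.inr ⟨rfl, ?_⟩)
        refine Set.ncard_lt_ncard ?_ (Set.not_infinite.1 hb)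
        refine ⟨fun k hk => Relation.ReflTransGen.tail hk ⟨hm0, rfl⟩, fun hsub => ?_⟩
        have := hDdep m (par m) (hsub Relation.ReflTransGen.refl)
        omega

/-- The forest of a connected locally finite bipartite graph, in the three forms in which it is
used: solving all vertex equations, propagating a property of edges, and counting. -/
theorem exists_forest_set {N1 N2 Ed : Type*} (l : Ed → N1) (r : Ed → N2) (e0 : Ed)
    (B1 : N1 → Finset Ed) (B2 : N2 → Finset Ed)
    (hB1 : ∀ n e, e ∈ B1 n ↔ l e = n) (hB2 : ∀ n e, e ∈ B2 n ↔ r e = n)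
    (hconn : ∀ (S1 : Set N1) (S2 : Set N2), r e0 ∈ S2 → (∀ e, (l e ∈ S1 ↔ r e ∈ S2)) →
      (∀ n, n ∈ S1) ∧ ∀ n, n ∈ S2) :
    ∃ Fo : Set Ed,
      (∀ (A : Type) [AddCommGroup A] (val : Ed → A) (t1 : N1 → A) (t2 : N2 → A),
        (Finite N1 → Finite N2 → ∑ᶠ n, t1 n = ∑ᶠ n, t2 n) →
        ∃ f : Ed → A, (∀ e, e ∉ Fo → f e = val e) ∧ (∀ n, ∑ e ∈ B1 n, f e = t1 n) ∧
          ∀ n, ∑ e ∈ B2 n, f e = t2 n) ∧
      (∀ P : Ed → Prop, (∀ e, e ∉ Fo → P e) →
        (∀ e1, (∀ e, l e = l e1 → e ≠ e1 → P e) → P e1) →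
        (∀ e1, (∀ e, r e = r e1 → e ≠ e1 → P e) → P e1) → ∀ e, P e) ∧
      (Finite N1 → Finite N2 → Fo.ncard + 1 ≤ Nat.card N1 + Nat.card N2) := by
  have : Nonempty Ed := ⟨e0⟩
  let B : N1 ⊕ N2 → Finset Ed := Sum.elim B1 B2
  have hB : ∀ n e, e ∈ B n ↔ (Sum.inl (l e) = n ∨ Sum.inr (r e) = n) := by
    rintro (n | n) e
    · simp [B, hB1]
    · simp [B, hB2]
  obtain ⟨fe, rk, hf⟩ := exists_forest (N := N1 ⊕ N2) (fun e => Sum.inl (l e))
    (fun e => Sum.inr (r e)) (Sum.inr (r e0))
    (fun n => (B n).finite_toSet.subset (fun e he => by simpa [hB] using he))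
    (by
      intro S h0 hS
      obtain ⟨h1, h2⟩ := hconn {n | Sum.inl n ∈ S} {n | Sum.inr n ∈ S} h0 hS
      rintro (n | n)
      · exact h1 n
      · exact h2 n)
  set n0 : N1 ⊕ N2 := Sum.inr (r e0) with hn0
  let NR : N1 ⊕ N2 → Prop := fun m => m ≠ n0 ∨ Infinite (N1 ⊕ N2)
  have hwf : WellFounded (fun a b : N1 ⊕ N2 => rk a < rk b) := InvImage.wf rk wellFounded_lt
  have hmem : ∀ m, NR m → fe m ∈ B m := fun m hm => (hB _ _).2 (hf m hm).1
  have hlt : ∀ m n, NR m → n ≠ m → fe m ∈ B n → rk m < rk n :=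
    fun m n hm hn h => (hf m hm).2 n hn ((hB _ _).1 h)
  have hinj : ∀ m n, NR m → NR n → fe m = fe n → m = n := by
    intro m n hm hn h
    by_contra hne
    have h1 := hlt m n hm (Ne.symm hne) (h ▸ hmem n hn)
    have h2 := hlt n m hn hne (h ▸ hmem m hm)
    exact lt_asymm h1 h2
  refine ⟨{e | ∃ m, NR m ∧ fe m = e}, ?_, ?_, ?_⟩
  · intro A _ val t1 t2 hsum
    let t : N1 ⊕ N2 → A := Sum.elim t1 t2
    let step : (n : N1 ⊕ N2) → ((m : N1 ⊕ N2) → rk m < rk n → A) → A := fun n rec =>
      t n - ∑ e ∈ (B n).erase (fe n),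
        if h : ∃ m, NR m ∧ fe m = e ∧ rk m < rk n then rec h.choose h.choose_spec.2.2 else val e
    let F : N1 ⊕ N2 → A := hwf.fix step
    have hF : ∀ n, F n = step n (fun m _ => F m) := fun n => hwf.fix_eq step n
    let f : Ed → A := fun e => if h : ∃ m, NR m ∧ fe m = e then F h.choose else val e
    have hf1 : ∀ m, NR m → f (fe m) = F m := by
      intro m hm
      have h : ∃ m', NR m' ∧ fe m' = fe m := ⟨m, hm, rfl⟩
      simp only [f, dif_pos h]
      rw [hinj _ _ h.choose_spec.1 hm h.choose_spec.2]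
    have hf2 : ∀ e, (¬ ∃ m, NR m ∧ fe m = e) → f e = val e := fun e he => by
      simp only [f, dif_neg he]
    have hsol : ∀ n, NR n → ∑ e ∈ B n, f e = t n := by
      intro n hn
      rw [← Finset.add_sum_erase _ _ (hmem n hn), hf1 n hn, hF n]
      simp only [step]
      rw [sub_add_eq_add_sub, sub_eq_iff_eq_add, add_left_cancel_iff]
      refine Finset.sum_congr rfl fun e he => ?_
      obtain ⟨he1, he2⟩ := Finset.mem_erase.1 he
      by_cases h : ∃ m, NR m ∧ fe m = e ∧ rk m < rk n
      · rw [dif_pos h]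
        have := hf1 _ h.choose_spec.1
        rw [h.choose_spec.2.1] at this
        exact this
      · rw [dif_neg h]
        apply hf2
        rintro ⟨m, hm, rfl⟩
        refine h ⟨m, hm, rfl, hlt m n hm ?_ he2⟩
        rintro rfl
        exact he1 rfl
    have hsol' : ∀ n, ∑ e ∈ B n, f e = t n := by
      intro n
      by_cases hn : NR n
      · exact hsol n hn
      · have hn1 : n = n0 := by
          by_contra h
          exact hn (Or.inl h)
        have hfin : Finite (N1 ⊕ N2) := by
          by_contra h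
          exact hn (Or.inr (not_finite_iff_infinite.1 h))
        have h1 : Finite N1 := Finite.sum_left N2
        have h2 : Finite N2 := Finite.sum_right N1
        have hs := hsum h1 h2
        have := Fintype.ofFinite N1
        have := Fintype.ofFinite N2
        have : Finite Ed := by
          have : (Set.univ : Set Ed).Finite := by
            refine (Set.finite_univ.biUnion (fun (n : N2) _ => (B2 n).finite_toSet)).subset ?_
            intro e _
            exact Set.mem_biUnion (Set.mem_univ (r e)) ((hB2 _ _).2 rfl)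
          exact Set.finite_univ_iff.1 this
        have := Fintype.ofFinite Ed
        rw [finsum_eq_sum_of_fintype, finsum_eq_sum_of_fintype] at hs
        have e1 : ∑ n, ∑ e ∈ B1 n, f e = ∑ e, f e := by
          rw [← Finset.sum_fiberwise (s := Finset.univ) (g := l)]
          refine Finset.sum_congr rfl fun n _ => Finset.sum_congr ?_ fun _ _ => rfl
          ext e
          simp [hB1]
        have e2 : ∑ n, ∑ e ∈ B2 n, f e = ∑ e, f e := by
          rw [← Finset.sum_fiberwise (s := Finset.univ) (g := r)]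
          refine Finset.sum_congr rfl fun n _ => Finset.sum_congr ?_ fun _ _ => rfl
          ext e
          simp [hB2]
        have e3 : ∑ n, ∑ e ∈ B1 n, f e = ∑ n, t1 n :=
          Finset.sum_congr rfl fun n _ => hsol (Sum.inl n) (Or.inl (by simp [hn0]))
        have e4 : ∑ n, ∑ e ∈ B2 n, f e = ∑ n, t2 n := by rw [e2, ← e1, e3, hs]
        rw [← Finset.add_sum_erase _ _ (Finset.mem_univ (r e0)),
          ← Finset.add_sum_erase _ _ (Finset.mem_univ (r e0))] at e4
        have e5 : ∑ n ∈ Finset.univ.erase (r e0), ∑ e ∈ B2 n, f e =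
            ∑ n ∈ Finset.univ.erase (r e0), t2 n :=
          Finset.sum_congr rfl fun n hn => hsol (Sum.inr n)
            (Or.inl (by simpa [hn0] using hn))
        rw [e5, add_left_inj] at e4
        rw [hn1]
        exact e4
    exact ⟨f, hf2, fun n => hsol' (Sum.inl n), fun n => hsol' (Sum.inr n)⟩
  · intro P h0 h1 h2
    have key : ∀ n, NR n → P (fe n) := by
      intro n
      induction n using hwf.induction with
      | _ n ih =>
        intro hn
        have hoth : ∀ e ∈ B n, e ≠ fe n → P e := by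
          intro e he hne
          by_cases h : ∃ m, NR m ∧ fe m = e
          · obtain ⟨m, hm, rfl⟩ := h
            refine ih m (hlt m n hm ?_ he) hm
            rintro rfl
            exact hne rfl
          · exact h0 e h
        rcases (hB _ _).1 (hmem n hn) with h | h
        · exact h1 _ fun e he hne => hoth e ((hB _ _).2 (Or.inl (he ▸ h))) hne
        · exact h2 _ fun e he hne => hoth e ((hB _ _).2 (Or.inr (he ▸ h))) hne
    intro e
    by_cases h : ∃ m, NR m ∧ fe m = e
    · obtain ⟨m, hm, rfl⟩ := h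
      exact key m hm
    · exact h0 e h
  · intro h1 h2
    have hsub : {e | ∃ m, NR m ∧ fe m = e} ⊆ fe '' (Set.univ \ {n0}) := by
      rintro e ⟨m, hm, rfl⟩
      refine ⟨m, ⟨trivial, ?_⟩, rfl⟩
      rcases hm with h | h
      · exact h
      · exact absurd (inferInstance : Finite (N1 ⊕ N2)) (not_finite_iff_infinite.2 h)
    have h3 := Set.ncard_le_ncard hsub (Set.toFinite _)
    have h4 := Set.ncard_image_le (f := fe) (s := Set.univ \ {n0}) (Set.toFinite _)
    have h5 := Set.ncard_sdiff_singleton_add_one (a := n0) (s := Set.univ) trivial (Set.toFinite _)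
    rw [Set.ncard_univ, Nat.card_sum] at h5
    omega

end Pool.Agent.Work.MP_f81df4_al.H80
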