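import Mathlib.GroupTheory.GroupAction.Period
import Mathlib.GroupTheory.GroupAction.Quotient
import Mathlib.GroupTheory.Index
import Mathlib.Algebra.Group.Subgroup.Finite
import Mathlib.Data.ZMod.Basic
import Pool.Agent.Work.MP_f81df4_al.H80Forest

/-! Cocycles of a triangle group with prime periods acting transitively on a set. -/

set_option autoImplicit false

namespace Pool.Agent.Work.MP_f81df4_al.H80

open scoped Classical
open Finset MulAction

/-- A group with the presentation `⟨g 0, g 1, g 2 | g j ^ p j = 1, g 0 * g 1 * g 2 = 1⟩`,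
the `p j` being primes. -/
structure TriData (G : Type) [Group G] where
  g : Fin 3 → G
  p : Fin 3 → ℕ
  prime : ∀ j, (p j).Prime
  pow : ∀ j, g j ^ p j = 1
  prod : g 0 * g 1 * g 2 = 1
  gen : Subgroup.closure (Set.range g) = ⊤
  lift : ∀ (H : Type) [Group H] (a : Fin 3 → H), (∀ j, a j ^ p j = 1) → a 0 * a 1 * a 2 = 1 →
    ∃ f : G →* H, ∀ j, f (g j) = a j

section orbits

variable {G X : Type} [Group G] [MulAction G X]

theorem pow_smul_inj {a : G} {p : ℕ} (hp : p.Prime) (ha : a ^ p = 1) {q : X} (hq : a • q ≠ q)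
    {i j : ℕ} (hi : i < p) (hj : j < p) (h : a ^ i • q = a ^ j • q) : i = j := by
  have h1 : period a q ∣ p := pow_smul_eq_iff_period_dvd.1 (by rw [ha, one_smul])
  have h2 : period a q = p := by
    rcases (Nat.dvd_prime hp).1 h1 with h2 | h2
    · exact absurd (period_eq_one_iff.1 h2) hq
    · exact h2
  have key : ∀ i j : ℕ, i ≤ j → j < p → a ^ i • q = a ^ j • q → i = j := by
    intro i j hij hj h
    obtain ⟨k, rfl⟩ := Nat.exists_eq_add_of_le hij
    rw [pow_add, mul_smul] at h
    have h3 : a ^ k • q = q := (smul_left_cancel _ h).symm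
    rw [pow_smul_eq_iff_period_dvd, h2] at h3
    have := Nat.eq_zero_of_dvd_of_lt h3 (by omega)
    omega
  rcases le_total i j with hij | hij
  · exact key i j hij hj h
  · exact (key j i hij hi h.symm).symm

theorem mem_orbit_iff_pow {a : G} {p : ℕ} (hp : p.Prime) (ha : a ^ p = 1) {q q' : X} :
    q' ∈ orbit (Subgroup.zpowers a) q ↔ ∃ k < p, q' = a ^ k • q := by
  constructor
  · rintro ⟨⟨b, hb⟩, rfl⟩
    have hfin : IsOfFinOrder a := isOfFinOrder_iff_pow_eq_one.2 ⟨p, hp.pos, ha⟩
    obtain ⟨k, rfl⟩ := (hfin.mem_powers_iff_mem_zpowers).2 hb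
    refine ⟨k % p, Nat.mod_lt _ hp.pos, ?_⟩
    rw [← pow_eq_pow_mod k ha]
    rfl
  · rintro ⟨k, -, rfl⟩
    exact ⟨⟨a ^ k, Subgroup.pow_mem _ (Subgroup.mem_zpowers a) k⟩, rfl⟩

theorem card_orbits_le [Finite X] {a : G} {p : ℕ} (hp : p.Prime) (ha : a ^ p = 1) :
    p * Nat.card (orbitRel.Quotient (Subgroup.zpowers a) X) ≤
      Nat.card X + (p - 1) * {q : X | a • q = q}.ncard := by
  have := Fintype.ofFinite X
  have := Fintype.ofFinite (orbitRel.Quotient (Subgroup.zpowers a) X)
  let π : X → orbitRel.Quotient (Subgroup.zpowers a) X := Quotient.mk''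
  have h1 : Nat.card X = ∑ w, (univ.filter fun q => π q = w).card := by
    rw [Nat.card_eq_fintype_card, ← Finset.card_univ]
    exact Finset.card_eq_sum_card_fiberwise (fun _ _ => by simp)
  have h2 : {q : X | a • q = q}.ncard =
      ∑ w, ((univ.filter fun q : X => a • q = q).filter fun q => π q = w).card := by
    rw [← Finset.card_eq_sum_card_fiberwise (fun _ _ => by simp), ← Set.ncard_coe_finset]
    congr 1
    ext q
    simp
  rw [h1, h2, Nat.card_eq_fintype_card, Finset.mul_sum, ← Finset.sum_add_distrib,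
    ← Finset.card_univ, mul_comm, ← smul_eq_mul, ← Finset.sum_const]
  refine Finset.sum_le_sum fun w _ => ?_
  obtain ⟨q, rfl⟩ := Quotient.exists_rep w
  by_cases hq : a • q = q
  · have e1 : 1 ≤ (univ.filter fun q' => π q' = Quotient.mk _ q).card :=
      Finset.card_pos.2 ⟨q, by simp [π, Quotient.mk'']⟩
    have e2 : 1 ≤ ((univ.filter fun q : X => a • q = q).filter
        fun q' => π q' = Quotient.mk _ q).card :=
      Finset.card_pos.2 ⟨q, by simp [π, Quotient.mk'', hq]⟩
    have := hp.pos
    have e3 := Nat.mul_le_mul_left (p - 1) e2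
    omega
  · refine le_add_right ?_
    have : ((range p).image fun k => a ^ k • q).card = p := by
      rw [Finset.card_image_of_injOn, card_range]
      intro i hi j hj h
      exact pow_smul_inj hp ha hq (by simpa using hi) (by simpa using hj) h
    rw [← this]
    refine Finset.card_le_card fun q' hq' => ?_
    obtain ⟨k, hk, rfl⟩ := Finset.mem_image.1 hq'
    simp only [mem_filter, mem_univ, true_and]
    exact Quotient.sound ((mem_orbit_iff_pow hp ha).2 ⟨k, by simpa using hk, rfl⟩)

end orbits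

variable {G : Type} [Group G] (T : TriData G)

theorem TriData.induct {P : G → Prop} (h1 : P 1) (hg : ∀ j y, P y → P (T.g j * y)) (y : G) :
    P y := by
  have hpow : ∀ j k y, P y → P (T.g j ^ k * y) := by
    intro j k
    induction k with
    | zero => intro y hy; simpa using hy
    | succ k ih => intro y hy; rw [pow_succ', mul_assoc]; exact hg _ _ (ih y hy)
  have hy : y ∈ Subgroup.closure (Set.range T.g) := by rw [T.gen]; trivial
  induction hy using Subgroup.closure_induction_left with
  | one => exact h1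
  | mul_left x hx y _ ih =>
    obtain ⟨j, rfl⟩ := hx
    exact hg j y ih
  | inv_mul_cancel x hx y _ ih =>
    obtain ⟨j, rfl⟩ := hx
    have : (T.g j)⁻¹ = T.g j ^ (T.p j - 1) := by
      rw [inv_eq_iff_mul_eq_one, ← pow_succ', Nat.sub_add_cancel (T.prime j).pos, T.pow]
    rw [this]
    exact hpow _ _ _ ih

theorem TriData.exists_cocycle {X : Type} [MulAction G X] {A : Type} [AddCommGroup A]
    (f : Fin 3 × X → A) (h1 : ∀ j q, ∑ k ∈ range (T.p j), f (j, T.g j ^ k • q) = 0)
    (h2 : ∀ q, f (0, (T.g 1 * T.g 2) • q) + f (1, T.g 2 • q) + f (2, q) = 0) :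
    ∃ c : G → X → A, (∀ a b q, c (a * b) q = c a (b • q) + c b q) ∧
      ∀ j q, c (T.g j) q = f (j, q) := by
  let P : Fin 3 → Equiv.Perm (X × A) := fun j =>
    { toFun := fun z => (T.g j • z.1, z.2 + f (j, z.1))
      invFun := fun z => ((T.g j)⁻¹ • z.1, z.2 - f (j, (T.g j)⁻¹ • z.1))
      left_inv := fun z => by simp
      right_inv := fun z => by simp }
  have hP : ∀ j q a, P j (q, a) = (T.g j • q, a + f (j, q)) := fun _ _ _ => rfl
  have hPn : ∀ j n q a, (P j ^ n) (q, a) =
      (T.g j ^ n • q, a + ∑ k ∈ range n, f (j, T.g j ^ k • q)) := by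
    intro j n q a
    induction n with
    | zero => simp
    | succ n ih =>
      rw [pow_succ', Equiv.Perm.mul_apply, ih, hP, Finset.sum_range_succ, pow_succ', mul_smul,
        add_assoc]
  obtain ⟨Φ, hΦ⟩ := T.lift (Equiv.Perm (X × A)) P
    (fun j => Equiv.ext fun ⟨q, a⟩ => by rw [hPn, T.pow, h1]; simp)
    (Equiv.ext fun ⟨q, a⟩ => by
      rw [Equiv.Perm.mul_apply, Equiv.Perm.mul_apply, hP, hP, hP, ← mul_smul, ← mul_smul, T.prod,
        ← mul_smul]
      have := h2 q
      simp only [one_smul, Equiv.Perm.coe_one, id_eq, Prod.mk.injEq, true_and]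
      rw [add_assoc, add_assoc, add_eq_left, ← this]
      abel)
  have hc : ∀ δ, ∃ c : X → A, ∀ q a, Φ δ (q, a) = (δ • q, a + c q) := by
    intro δ
    induction δ using T.induct with
    | h1 => exact ⟨0, fun q a => by simp⟩
    | hg j y ih =>
      obtain ⟨c, hc⟩ := ih
      refine ⟨fun q => c q + f (j, y • q), fun q a => ?_⟩
      rw [map_mul, Equiv.Perm.mul_apply, hc, hΦ, hP, mul_smul, add_assoc]
  choose c hc using hc
  refine ⟨c, fun a b q => ?_, fun j q => ?_⟩
  · have := hc (a * b) q 0
    rw [map_mul, Equiv.Perm.mul_apply, hc, hc] at this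
    have h := congrArg Prod.snd this
    simp only [zero_add] at h
    rw [← h, add_comm]
  · have := hc (T.g j) q 0
    rw [hΦ, hP] at this
    have h := congrArg Prod.snd this
    simpa using h.symm

/-- The dual forest of a transitive action of a triangle group. -/
theorem TriData.exists_forest {X : Type} [MulAction G X] (x0 : X) (htr : ∀ q, ∃ y : G, y • x0 = q) :
    ∃ Fo : Set (Fin 3 × X),
      (∀ (A : Type) [AddCommGroup A] (val t : Fin 3 × X → A),
        (∀ j q, T.g j • q ≠ q → t (j, q) = 0) → (∀ j q, T.p j • t (j, q) = 0) →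
        (Finite X → ∑ᶠ e, t e = 0) →
        ∃ c : G → X → A, (∀ a b q, c (a * b) q = c a (b • q) + c b q) ∧
          (∀ j q, (j, q) ∉ Fo → c (T.g j) q = val (j, q)) ∧
          ∀ j q, T.g j • q = q → c (T.g j) q = t (j, q)) ∧
      (∀ (β : Type) (φ : G → β), (∀ j y, (j, y • x0) ∉ Fo → φ (T.g j * y) = φ y) →
        (∀ j y, T.g j • y • x0 = y • x0 → φ (T.g j * y) = φ y) → ∀ y, φ y = φ 1) ∧
      (Finite X → Fo.ncard + 1 ≤
        ∑ j, Nat.card (orbitRel.Quotient (Subgroup.zpowers (T.g j)) X) + Nat.card X) := by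
  let N1 := Σ j : Fin 3, orbitRel.Quotient (Subgroup.zpowers (T.g j)) X
  let l : Fin 3 × X → N1 := fun e => ⟨e.1, Quotient.mk'' e.2⟩
  let h : Fin 3 → G := ![T.g 1 * T.g 2, T.g 2, 1]
  let r : Fin 3 × X → X := fun e => (h e.1)⁻¹ • e.2
  have hl : ∀ j q e, l e = l (j, q) ↔ ∃ k < T.p j, e = (j, T.g j ^ k • q) := by
    rintro j q ⟨j', q'⟩
    constructor
    · intro hh
      obtain ⟨h1, h2⟩ := Sigma.mk.inj_iff.1 hh
      simp only at h1
      subst h1
      have h3 := Quotient.exact (eq_of_heq h2)
      obtain ⟨k, hk, h4⟩ := (mem_orbit_iff_pow (T.prime _) (T.pow _)).1 h3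
      exact ⟨k, hk, congrArg (Prod.mk j') h4⟩
    · rintro ⟨k, hk, he⟩
      rw [he]
      exact congrArg (Sigma.mk j)
        (Quotient.sound ((mem_orbit_iff_pow (T.prime _) (T.pow _)).2 ⟨k, hk, rfl⟩))
  have hlsurj : ∀ n, ∃ j q, n = l (j, q) := by
    rintro ⟨j, w⟩
    obtain ⟨q, rfl⟩ := Quotient.exists_rep w
    exact ⟨j, q, rfl⟩
  have hlfin : ∀ n, {e | l e = n}.Finite := by
    intro n
    obtain ⟨j, q, rfl⟩ := hlsurj n
    refine ((range (T.p j)).image fun k => (j, T.g j ^ k • q)).finite_toSet.subset fun e he => ?_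
    obtain ⟨k, hk, rfl⟩ := (hl j q e).1 he
    simp only [coe_image, coe_range, Set.mem_image, Set.mem_Iio]
    exact ⟨k, hk, rfl⟩
  let B1 : N1 → Finset (Fin 3 × X) := fun n => (hlfin n).toFinset
  have hB1 : ∀ n e, e ∈ B1 n ↔ l e = n := fun n e => by simp [B1]
  let B2 : X → Finset (Fin 3 × X) := fun q => Finset.univ.image fun j => (j, h j • q)
  have hB2 : ∀ q e, e ∈ B2 q ↔ r e = q := by
    rintro q ⟨j, q'⟩
    simp only [B2, r, mem_image, mem_univ, true_and, Prod.mk.injEq, inv_smul_eq_iff]
    constructor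
    · rintro ⟨j', rfl, h2⟩
      exact h2.symm
    · intro h2
      exact ⟨j, rfl, h2.symm⟩
  have hg0 : T.g 0 = (T.g 1 * T.g 2)⁻¹ := by
    rw [eq_inv_iff_mul_eq_one, ← mul_assoc, T.prod]
  obtain ⟨Fo, hsolve, hprop, hcount⟩ := exists_forest_set l r (2, x0) B1 B2 hB1 hB2 (by
    intro S1 S2 h0 hS
    have hstep : ∀ j q, (h j)⁻¹ • q ∈ S2 ↔ (h j)⁻¹ • T.g j • q ∈ S2 := by
      intro j q
      have e1 : l (j, T.g j • q) = l (j, q) :=
        (hl j q _).2 ⟨1, (T.prime j).one_lt, by rw [pow_one]⟩
      exact (hS (j, q)).symm.trans (e1 ▸ hS (j, T.g j • q))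
    have h2 : ∀ q, q ∈ S2 ↔ T.g 2 • q ∈ S2 := fun q => by simpa [h] using hstep 2 q
    have h1 : ∀ q, q ∈ S2 ↔ T.g 1 • q ∈ S2 := fun q => by
      have := hstep 1 q
      simp only [h, Matrix.cons_val_one, Matrix.cons_val_zero] at this
      rw [h2, h2 ((T.g 2)⁻¹ • _), smul_inv_smul, smul_inv_smul] at this
      exact this
    have h0' : ∀ q, q ∈ S2 ↔ T.g 0 • q ∈ S2 := fun q => by
      rw [h2 (T.g 0 • q), h1 (T.g 2 • _), ← mul_smul, ← mul_smul, hg0, mul_inv_cancel, one_smul]
    have hall : ∀ y : G, y • x0 ∈ S2 := by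
      intro y
      induction y using T.induct with
      | h1 => simpa [r, h] using h0
      | hg j y ih =>
        rw [mul_smul]
        fin_cases j
        · exact (h0' _).1 ih
        · exact (h1 _).1 ih
        · exact (h2 _).1 ih
    have hall' : ∀ q, q ∈ S2 := fun q => by
      obtain ⟨y, rfl⟩ := htr q
      exact hall y
    refine ⟨fun n => ?_, hall'⟩
    obtain ⟨j, q, rfl⟩ := hlsurj n
    exact (hS _).2 (hall' _))
  have hfixB : ∀ j q, T.g j • q = q → B1 (l (j, q)) = {(j, q)} := by
    intro j q hq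
    ext e
    rw [hB1, hl, mem_singleton]
    have : ∀ k : ℕ, T.g j ^ k • q = q := fun k =>
      (stabilizer G q).pow_mem (mem_stabilizer_iff.2 hq) k
    constructor
    · rintro ⟨k, -, rfl⟩
      rw [this]
    · rintro rfl
      exact ⟨0, (T.prime j).pos, by simp⟩
  have hfreeB : ∀ (A : Type) [AddCommGroup A] (f : Fin 3 × X → A) j q, T.g j • q ≠ q →
      ∑ e ∈ B1 (l (j, q)), f e = ∑ k ∈ range (T.p j), f (j, T.g j ^ k • q) := by
    intro A _ f j q hq
    have : B1 (l (j, q)) = (range (T.p j)).image fun k => (j, T.g j ^ k • q) := by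
      ext e
      rw [hB1, hl]
      simp only [mem_image, mem_range]
      exact ⟨fun ⟨k, h1, h2⟩ => ⟨k, h1, h2.symm⟩, fun ⟨k, h1, h2⟩ => ⟨k, h1, h2.symm⟩⟩
    rw [this, Finset.sum_image]
    intro i hi k hk hik
    exact pow_smul_inj (T.prime j) (T.pow j) hq (by simpa using hi) (by simpa using hk)
      (congrArg Prod.snd hik)
  have hfreeP : ∀ j (q : X) (k : ℕ), T.g j • q ≠ q → T.g j • T.g j ^ k • q ≠ T.g j ^ k • q := by
    intro j q k hq hh
    rw [← mul_smul, ← pow_succ', pow_succ, mul_smul] at hh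
    exact hq (smul_left_cancel _ hh)
  refine ⟨Fo, ?_, ?_, ?_⟩
  · intro A _ val t ht1 ht2 ht3
    obtain ⟨f, hf1, hf2, hf3⟩ := hsolve A val (fun n => ∑ e ∈ B1 n, t e) 0 (by
      intro hN hX
      have := Fintype.ofFinite X
      have := Fintype.ofFinite N1
      have h3 := ht3 hX
      rw [finsum_eq_sum_of_fintype] at h3
      rw [finsum_eq_sum_of_fintype, finsum_eq_sum_of_fintype]
      simp only [Pi.zero_apply, sum_const_zero]
      rw [← h3, ← Finset.sum_fiberwise (s := Finset.univ) (g := l)]
      refine Finset.sum_congr rfl fun n _ => Finset.sum_congr ?_ fun _ _ => rfl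
      ext e
      simp [hB1])
    have hfix : ∀ j q, T.g j • q = q → f (j, q) = t (j, q) := by
      intro j q hq
      have := hf2 (l (j, q))
      rwa [hfixB j q hq, sum_singleton, sum_singleton] at this
    obtain ⟨c, hc1, hc2⟩ := T.exists_cocycle f (by
      intro j q
      by_cases hq : T.g j • q = q
      · have : ∀ k : ℕ, T.g j ^ k • q = q := fun k =>
          (stabilizer G q).pow_mem (mem_stabilizer_iff.2 hq) k
        simp only [this, sum_const, card_range]
        rw [hfix j q hq, ht2]
      · rw [← hfreeB A f j q hq, hf2, hfreeB A t j q hq]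
        exact Finset.sum_eq_zero fun k _ => ht1 _ _ (hfreeP j q k hq)) (by
      intro q
      have := hf3 q
      simp only [B2] at this
      rw [Finset.sum_image (fun i _ k _ hik => congrArg Prod.fst hik), Fin.sum_univ_three] at this
      simpa [h] using this)
    exact ⟨c, hc1, fun j q he => by rw [hc2, hf1 _ he], fun j q hq => by rw [hc2, hfix j q hq]⟩
  · intro β φ hφ1 hφ2
    have key := hprop (fun e => ∀ y : G, y • x0 = e.2 → φ (T.g e.1 * y) = φ y)
      (fun e he y hy => hφ1 e.1 y (by rw [hy]; exact he)) ?_ ?_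
    · intro y
      induction y using T.induct with
      | h1 => rfl
      | hg j y ih => rw [key (j, y • x0) y rfl, ih]
    · rintro ⟨j, q⟩ hoth y hy
      simp only at hy ⊢
      by_cases hq : T.g j • q = q
      · exact hφ2 j y (by rw [hy, hq])
      · have hk : ∀ k, k + 1 ≤ T.p j → φ (T.g j ^ (k + 1) * y) = φ (T.g j * y) := by
          intro k
          induction k with
          | zero => intro _; simp
          | succ k ih =>
            intro hk
            rw [← ih (by omega), pow_succ' _ (k + 1), mul_assoc]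
            refine hoth (j, T.g j ^ (k + 1) • q) ((hl j q _).2 ⟨k + 1, by omega, rfl⟩) ?_ _
              (by rw [mul_smul, hy])
            intro hh
            have h3 : T.g j ^ (k + 1) • q = T.g j ^ 0 • q := by simpa using congrArg Prod.snd hh
            have := pow_smul_inj (T.prime j) (T.pow j) hq (by omega) (T.prime j).pos h3
            omega
        have h4 := hk (T.p j - 1) (by have := (T.prime j).pos; omega)
        rw [Nat.sub_add_cancel (T.prime j).pos, T.pow, one_mul] at h4
        exact h4.symm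
    · rintro ⟨j, q⟩ hoth y hy
      simp only at hy ⊢
      set w := (h j)⁻¹ * y with hw
      have hoth' : ∀ i, i ≠ j → φ (T.g i * (h i * w)) = φ (h i * w) := by
        intro i hi
        refine hoth (i, (h i * w) • x0) ?_ (fun hh => hi (congrArg Prod.fst hh)) _ rfl
        simp only [r]
        rw [← mul_smul, inv_mul_cancel_left, hw, mul_smul, hy]
      have hy' : y = h j * w := by rw [hw, mul_inv_cancel_left]
      have e0 : T.g 0 * (h 0 * w) = h 2 * w := by
        simp only [h, Matrix.cons_val_zero, Matrix.cons_val]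
        rw [hg0, inv_mul_cancel_left, one_mul]
      have e1 : T.g 1 * (h 1 * w) = h 0 * w := by
        simp only [h, Matrix.cons_val_zero, Matrix.cons_val]
        rw [mul_assoc]
      have e2 : T.g 2 * (h 2 * w) = h 1 * w := by
        simp only [h, Matrix.cons_val]
        rw [one_mul]
      rw [hy']
      clear_value w
      have a0 := hoth' 0
      have a1 := hoth' 1
      have a2 := hoth' 2
      rw [e0] at a0
      rw [e1] at a1
      rw [e2] at a2
      fin_cases j
      · exact (congrArg φ e0).trans ((a2 (by decide)).symm.trans (a1 (by decide)).symm)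
      · exact (congrArg φ e1).trans ((a0 (by decide)).symm.trans (a2 (by decide)).symm)
      · exact (congrArg φ e2).trans ((a1 (by decide)).symm.trans (a0 (by decide)).symm)
  · intro hX
    have := hcount inferInstance hX
    rwa [Nat.card_sigma] at this

end Pool.Agent.Work.MP_f81df4_al.H80
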