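import Mathlib.GroupTheory.SpecificGroups.Cyclic
import Pool.Agent.Work.MP_f81df4_al.H80Tri

/-! Subgroups of the triangle group `(2,5,5)` with small abelianisation, and lifting of
homomorphisms on subgroups of a triangle group. -/

set_option autoImplicit false

namespace Pool.Agent.Work.MP_f81df4_al.H80

open scoped Classical
open Finset MulAction

variable {G : Type} [Group G]

section cocycle

variable {X : Type} [MulAction G X] {A : Type} [AddCommGroup A] {c : G → X → A}

theorem cocycle_one (hc : ∀ a b q, c (a * b) q = c a (b • q) + c b q) (q : X) : c 1 q = 0 := by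
  have := hc 1 1 q
  simpa using this

theorem cocycle_conj (hc : ∀ a b q, c (a * b) q = c a (b • q) + c b q) (g y : G) (x0 : X)
    (h : g • y • x0 = y • x0) : c (y⁻¹ * g * y) x0 = c g (y • x0) := by
  have h1 := hc y⁻¹ y x0
  rw [inv_mul_cancel, cocycle_one hc] at h1
  rw [hc, hc, h, add_right_comm, ← h1, zero_add]

/-- The homomorphism on a subgroup fixing the base point defined by a cocycle. -/
def cocycleHom (hc : ∀ a b q, c (a * b) q = c a (b • q) + c b q) (x0 : X) (L : Subgroup G)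
    (hL : ∀ y, y ∈ L → y • x0 = x0) : L →* Multiplicative A where
  toFun l := Multiplicative.ofAdd (c l x0)
  map_one' := by simp [cocycle_one hc]
  map_mul' a b := by
    rw [Subgroup.coe_mul, hc, hL _ b.2, ofAdd_add]

end cocycle

theorem quot_smul_one (L : Subgroup G) (y : G) : y • ((1 : G) : G ⧸ L) = (y : G ⧸ L) := by
  simp

theorem quot_fix_iff (L : Subgroup G) (y : G) :
    y • ((1 : G) : G ⧸ L) = ((1 : G) : G ⧸ L) ↔ y ∈ L := by
  rw [quot_smul_one, eq_comm, QuotientGroup.eq]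
  simp

theorem quot_trans (L : Subgroup G) (q : G ⧸ L) : ∃ y : G, y • ((1 : G) : G ⧸ L) = q := by
  obtain ⟨y, rfl⟩ := QuotientGroup.mk_surjective q
  exact ⟨y, quot_smul_one L y⟩

variable (T : TriData G)

/-- Homomorphisms with prescribed values on the torsion generators of a subgroup. -/
theorem TriData.exists_hom_torsion (L : Subgroup G) (A : Type) [AddCommGroup A]
    (t : Fin 3 × (G ⧸ L) → A) (h1 : ∀ j q, T.g j • q ≠ q → t (j, q) = 0)
    (h2 : ∀ j q, T.p j • t (j, q) = 0) (h3 : Finite (G ⧸ L) → ∑ᶠ e, t e = 0) :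
    ∃ θ : L →* Multiplicative A, ∀ e, Multiplicative.ofAdd (t e) ∈ θ.range := by
  obtain ⟨Fo, hs, -, -⟩ := T.exists_forest ((1 : G) : G ⧸ L) (quot_trans L)
  obtain ⟨c, hc, -, hct⟩ := hs A 0 t h1 h2 h3
  refine ⟨cocycleHom hc ((1 : G) : G ⧸ L) L (fun y hy => (quot_fix_iff L y).2 hy), ?_⟩
  rintro ⟨j, q⟩
  by_cases hq : T.g j • q = q
  · obtain ⟨y, rfl⟩ := quot_trans L q
    refine ⟨⟨y⁻¹ * T.g j * y, ?_⟩, ?_⟩
    · rw [← quot_fix_iff, mul_smul, mul_smul, hq, inv_smul_smul]
    · show Multiplicative.ofAdd (c (y⁻¹ * T.g j * y) _) = _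
      rw [cocycle_conj hc _ _ _ hq, hct _ _ hq]
  · rw [h1 j q hq]
    exact one_mem _

theorem surj_zmod_two {H : Type} [Group H] (θ : H →* Multiplicative (ZMod 2))
    (h : Multiplicative.ofAdd (1 : ZMod 2) ∈ θ.range) : Function.Surjective θ := by
  intro a
  have : a = 1 ∨ a = Multiplicative.ofAdd (1 : ZMod 2) := by
    revert a
    decide
  rcases this with rfl | rfl
  · exact ⟨1, map_one _⟩
  · exact h

theorem surj_zmod_five {H : Type} [Group H] (θ : H →* Multiplicative (ZMod 5 × ZMod 5))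
    (h1 : Multiplicative.ofAdd ((1, 0) : ZMod 5 × ZMod 5) ∈ θ.range)
    (h2 : Multiplicative.ofAdd ((0, 1) : ZMod 5 × ZMod 5) ∈ θ.range) : Function.Surjective θ := by
  intro a
  have : a = Multiplicative.ofAdd ((1, 0) : ZMod 5 × ZMod 5) ^ (a.toAdd.1.val) *
      Multiplicative.ofAdd ((0, 1) : ZMod 5 × ZMod 5) ^ (a.toAdd.2.val) := by
    revert a
    decide
  rw [this]
  exact θ.range.mul_mem (θ.range.pow_mem h1 _) (θ.range.pow_mem h2 _)

theorem finsum_single {ι A : Type} [DecidableEq ι] [Finite ι] [AddCommGroup A] (i : ι) (a : A) :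
    ∑ᶠ e, (Pi.single i a : ι → A) e = a := by
  have := Fintype.ofFinite ι
  rw [finsum_eq_sum_of_fintype]
  simp

theorem finsum_add_fin {ι A : Type} [Finite ι] [AddCommGroup A] (f g : ι → A) :
    ∑ᶠ e, (f + g) e = ∑ᶠ e, f e + ∑ᶠ e, g e :=
  finsum_add_distrib (Set.toFinite _) (Set.toFinite _)

/-- A subgroup of the triangle group `(2,5,5)` with no quotient `ℤ/2` or `ℤ/5 × ℤ/5` is the whole
group or finite. -/
theorem TriData.eq_top_or_finite (hp0 : T.p 0 = 2) (hp1 : T.p 1 = 5) (hp2 : T.p 2 = 5)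
    (L : Subgroup G) (h2 : ∀ θ : L →* Multiplicative (ZMod 2), ¬ Function.Surjective θ)
    (h5 : ∀ θ : L →* Multiplicative (ZMod 5 × ZMod 5), ¬ Function.Surjective θ) :
    L = ⊤ ∨ Finite L := by
  set x0 : G ⧸ L := ((1 : G) : G ⧸ L) with hx0
  have hp5 : ∀ j, j ≠ 0 → T.p j = 5 := by
    intro j hj
    fin_cases j
    · exact absurd rfl hj
    · exact hp1
    · exact hp2
  -- single prescribed values are admissible
  have adm1 : ∀ (A : Type) [AddCommGroup A] (e : Fin 3 × (G ⧸ L)) (a : A), T.g e.1 • e.2 = e.2 →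
      ∀ j q, T.g j • q ≠ q → (Pi.single e a : _ → A) (j, q) = 0 := by
    intro A _ e a he j q hq
    apply Pi.single_eq_of_ne
    rintro rfl
    exact hq he
  have adm2 : ∀ (A : Type) [AddCommGroup A] (e : Fin 3 × (G ⧸ L)) (a : A), T.p e.1 • a = 0 →
      ∀ j q, T.p j • (Pi.single e a : _ → A) (j, q) = 0 := by
    intro A _ e a he j q
    by_cases h : (j, q) = e
    · subst h
      simpa using he
    · rw [Pi.single_eq_of_ne h, smul_zero]
  have two0 : T.p 0 • (1 : ZMod 2) = 0 := by rw [hp0]; decide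
  have five0 : ∀ j, j ≠ 0 → ∀ a : ZMod 5 × ZMod 5, T.p j • a = 0 := by
    intro j hj
    rw [hp5 j hj]
    decide
  have hA1 : ∀ q q' : G ⧸ L, T.g 0 • q = q → T.g 0 • q' = q' → q = q' := by
    intro q q' hq hq'
    by_contra hne
    obtain ⟨θ, hθ⟩ := T.exists_hom_torsion L (ZMod 2)
      (Pi.single (0, q) 1 + Pi.single (0, q') 1)
      (fun j r hr => by rw [Pi.add_apply, adm1 _ _ _ hq _ _ hr, adm1 _ _ _ hq' _ _ hr, add_zero])
      (fun j r => by rw [Pi.add_apply, smul_add, adm2 _ _ _ two0, adm2 _ _ _ two0, add_zero])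
      (fun _ => by rw [finsum_add_fin, finsum_single, finsum_single]; decide)
    refine h2 θ (surj_zmod_two θ ?_)
    have := hθ (0, q)
    rwa [Pi.add_apply, Pi.single_eq_same, Pi.single_eq_of_ne (by simpa using hne), add_zero] at this
  have hA2 : Infinite (G ⧸ L) → ∀ q : G ⧸ L, T.g 0 • q ≠ q := by
    intro hinf q hq
    obtain ⟨θ, hθ⟩ := T.exists_hom_torsion L (ZMod 2) (Pi.single (0, q) 1)
      (adm1 _ _ _ hq) (adm2 _ _ _ two0) (fun h => absurd h (not_finite_iff_infinite.2 hinf))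
    refine h2 θ (surj_zmod_two θ ?_)
    have := hθ (0, q)
    rwa [Pi.single_eq_same] at this
  let F5 : Set (Fin 3 × (G ⧸ L)) := {e | e.1 ≠ 0 ∧ T.g e.1 • e.2 = e.2}
  have hB1 : ∀ e1 ∈ F5, ∀ e2 ∈ F5, ∀ e3 ∈ F5, e1 ≠ e2 → e1 ≠ e3 → e2 ≠ e3 → False := by
    intro e1 he1 e2 he2 e3 he3 h12 h13 h23
    obtain ⟨θ, hθ⟩ := T.exists_hom_torsion L (ZMod 5 × ZMod 5)
      (Pi.single e1 (1, 0) + Pi.single e2 (0, 1) + Pi.single e3 (-1, -1))
      (fun j r hr => by
        rw [Pi.add_apply, Pi.add_apply, adm1 _ _ _ he1.2 _ _ hr, adm1 _ _ _ he2.2 _ _ hr,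
          adm1 _ _ _ he3.2 _ _ hr, add_zero, add_zero])
      (fun j r => by
        rw [Pi.add_apply, Pi.add_apply, smul_add, smul_add, adm2 _ _ _ (five0 _ he1.1 _),
          adm2 _ _ _ (five0 _ he2.1 _), adm2 _ _ _ (five0 _ he3.1 _), add_zero, add_zero])
      (fun _ => by
        rw [finsum_add_fin, finsum_add_fin, finsum_single, finsum_single, finsum_single]; decide)
    refine h5 θ (surj_zmod_five θ ?_ ?_)
    · have := hθ e1
      rwa [Pi.add_apply, Pi.add_apply, Pi.single_eq_same, Pi.single_eq_of_ne h12,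
        Pi.single_eq_of_ne h13, add_zero, add_zero] at this
    · have := hθ e2
      rwa [Pi.add_apply, Pi.add_apply, Pi.single_eq_same, Pi.single_eq_of_ne h12.symm,
        Pi.single_eq_of_ne h23, add_zero, zero_add] at this
  have hB2 : Infinite (G ⧸ L) → ∀ e1 ∈ F5, ∀ e2 ∈ F5, e1 = e2 := by
    intro hinf e1 he1 e2 he2
    by_contra h12
    obtain ⟨θ, hθ⟩ := T.exists_hom_torsion L (ZMod 5 × ZMod 5)
      (Pi.single e1 (1, 0) + Pi.single e2 (0, 1))
      (fun j r hr => by
        rw [Pi.add_apply, adm1 _ _ _ he1.2 _ _ hr, adm1 _ _ _ he2.2 _ _ hr, add_zero])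
      (fun j r => by
        rw [Pi.add_apply, smul_add, adm2 _ _ _ (five0 _ he1.1 _),
          adm2 _ _ _ (five0 _ he2.1 _), add_zero])
      (fun h => absurd h (not_finite_iff_infinite.2 hinf))
    refine h5 θ (surj_zmod_five θ ?_ ?_)
    · have := hθ e1
      rwa [Pi.add_apply, Pi.single_eq_same, Pi.single_eq_of_ne h12, add_zero] at this
    · have := hθ e2
      rwa [Pi.add_apply, Pi.single_eq_same, Pi.single_eq_of_ne (Ne.symm h12), zero_add] at this
  obtain ⟨Fo, hs, hprop, hcount⟩ := T.exists_forest x0 (quot_trans L)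
  obtain ⟨dep, hdep⟩ := exists_bfs (fun e : Fin 3 × (G ⧸ L) => e.2) (fun e => T.g e.1 • e.2)
    (fun e => e ∉ Fo) x0 (by
      intro S h0 hS q
      obtain ⟨y, rfl⟩ := quot_trans L q
      have := hprop Prop (fun y => y • x0 ∈ S)
        (fun j y he => by rw [mul_smul]; exact propext (hS _ he).symm)
        (fun j y he => by rw [mul_smul, he]) y
      simp only [one_smul] at this
      exact this.mpr h0)
  have hdep' : ∀ n, ∃ (e : Fin 3 × (G ⧸ L)) (m : G ⧸ L), n ≠ x0 → e ∉ Fo ∧ dep m < dep n ∧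
      ((e.2 = n ∧ T.g e.1 • e.2 = m) ∨ (T.g e.1 • e.2 = n ∧ e.2 = m)) := by
    intro n
    by_cases hn : n = x0
    · exact ⟨(0, n), n, fun h => absurd hn h⟩
    · obtain ⟨e, m, h⟩ := hdep n hn
      exact ⟨e, m, fun _ => h⟩
  choose pe par hpe using hdep'
  have htree : ∀ e, e ∉ Fo → ∃ n, n ≠ x0 ∧ pe n = e := by
    intro e he
    by_contra hne
    obtain ⟨c, hc, hval, -⟩ := hs (ZMod 2) (Pi.single e 1) 0 (fun _ _ _ => rfl)
      (fun _ _ => smul_zero _) (fun _ => by simp)
    have hzero : ∀ y, y ∈ L → c y x0 = 0 := by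
      intro y hy
      by_contra h
      refine h2 (cocycleHom hc x0 L (fun y hy => (quot_fix_iff L y).2 hy))
        (surj_zmod_two _ ⟨⟨y, hy⟩, ?_⟩)
      have : ∀ a : ZMod 2, a ≠ 0 → a = 1 := by decide
      exact congrArg Multiplicative.ofAdd (this _ h)
    choose s hs using quot_trans L
    have hpot : ∀ y, c y x0 = c (s (y • x0)) x0 := by
      intro y
      have h1 : (s (y • x0))⁻¹ * y ∈ L := by
        rw [← quot_fix_iff, mul_smul, inv_smul_eq_iff, hs]
      have h3 := hc (s (y • x0)) ((s (y • x0))⁻¹ * y) x0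
      rw [mul_inv_cancel_left, hzero _ h1, (quot_fix_iff L _).2 h1, add_zero] at h3
      exact h3
    have hpot2 : ∀ g q, c (s (g • q)) x0 = c g q + c (s q) x0 := by
      intro g q
      have h1 := hpot (g * s q)
      rw [mul_smul, hs, hc, hs] at h1
      exact h1.symm
    have hall : ∀ q, c (s q) x0 = 0 := by
      intro q
      induction' hk : dep q using Nat.strong_induction_on with k ih generalizing q
      by_cases hq : q = x0
      · rw [hq]
        exact hzero _ ((quot_fix_iff L _).1 (hs _))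
      · obtain ⟨h1, h3, h4⟩ := hpe q hq
        have h5 := ih _ (hk ▸ h3) (par q) rfl
        have h6 := hval (pe q).1 (pe q).2 h1
        rw [Pi.single_eq_of_ne (fun h => hne ⟨q, hq, h⟩)] at h6
        have h7 := hpot2 (T.g (pe q).1) (pe q).2
        rw [h6, zero_add] at h7
        rcases h4 with ⟨h8, h9⟩ | ⟨h8, h9⟩
        · rw [h9, h8] at h7
          rw [← h7, h5]
        · rw [h8, h9] at h7
          rw [h7, h5]
    have h1 := hval e.1 e.2 he
    have h3 := hpot2 (T.g e.1) e.2
    rw [hall, hall, h1, Pi.single_eq_same] at h3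
    revert h3
    decide
  rcases finite_or_infinite (G ⧸ L) with hfin | hinf
  · left
    have c1 := hcount hfin
    rw [Fin.sum_univ_three] at c1
    have o0 := card_orbits_le (X := G ⧸ L) (T.prime 0) (T.pow 0)
    have o1 := card_orbits_le (X := G ⧸ L) (T.prime 1) (T.pow 1)
    have o2 := card_orbits_le (X := G ⧸ L) (T.prime 2) (T.pow 2)
    rw [hp0] at o0
    rw [hp1] at o1
    rw [hp2] at o2
    have ha : {q : G ⧸ L | T.g 0 • q = q}.ncard ≤ 1 :=
      (Set.ncard_le_one (Set.toFinite _)).2 fun a ha b hb => hA1 a b ha hb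
    have hb : F5.ncard ≤ 2 := by
      by_contra h
      obtain ⟨e1, e2, e3, h1, h2, h3, h4, h5, h6⟩ :=
        (Set.two_lt_ncard_iff (Set.toFinite F5)).1 (not_le.1 h)
      exact hB1 e1 h1 e2 h2 e3 h3 h4 h5 h6
    have hb' : {q : G ⧸ L | T.g 1 • q = q}.ncard + {q : G ⧸ L | T.g 2 • q = q}.ncard ≤
        F5.ncard := by
      rw [← Set.ncard_image_of_injective _ (Prod.mk_right_injective (1 : Fin 3)),
        ← Set.ncard_image_of_injective {q : G ⧸ L | T.g 2 • q = q}
          (Prod.mk_right_injective (2 : Fin 3)), ← Set.ncard_union_eq]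
      · refine Set.ncard_le_ncard ?_
        rintro e (⟨q, hq, rfl⟩ | ⟨q, hq, rfl⟩)
        · exact ⟨by simp, hq⟩
        · exact ⟨by simp, hq⟩
      · rw [Set.disjoint_left]
        rintro e ⟨q, -, rfl⟩ ⟨q', -, h⟩
        simp at h
    have c2 : 3 * Nat.card (G ⧸ L) ≤ Fo.ncard + (pe '' (Set.univ \ {x0})).ncard := by
      refine le_trans ?_ (Set.ncard_union_le _ _)
      have : Fo ∪ pe '' (Set.univ \ {x0}) = Set.univ := by
        refine Set.eq_univ_of_forall fun e => ?_
        by_cases he : e ∈ Fo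
        · exact Or.inl he
        · obtain ⟨n, hn, rfl⟩ := htree e he
          exact Or.inr ⟨n, ⟨trivial, hn⟩, rfl⟩
      rw [this, Set.ncard_univ, Nat.card_prod]
      simp
    have c3 := Set.ncard_image_le (f := pe) (s := Set.univ \ {x0}) (Set.toFinite _)
    have c4 := Set.ncard_sdiff_singleton_add_one (a := x0) (s := Set.univ) trivial (Set.toFinite _)
    rw [Set.ncard_univ] at c4
    rw [← Subgroup.index_eq_one, Subgroup.index_eq_card]
    omega
  · right
    have hwf : WellFounded (fun a b : G ⧸ L => dep a < dep b) := InvImage.wf dep wellFounded_lt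
    let step : (n : G ⧸ L) → ((m : G ⧸ L) → dep m < dep n → G) → G := fun n rec =>
      if h : n = x0 then 1 else
        if (pe n).2 = n then (T.g (pe n).1)⁻¹ * rec (par n) (hpe n h).2.1
        else T.g (pe n).1 * rec (par n) (hpe n h).2.1
    let s : G ⧸ L → G := hwf.fix step
    have hs : ∀ n, s n = step n (fun m _ => s m) := fun n => hwf.fix_eq step n
    have hs0 : s x0 = 1 := by rw [hs]; simp [step]
    have hs1 : ∀ n, n ≠ x0 → s (T.g (pe n).1 • (pe n).2) = T.g (pe n).1 * s (pe n).2 := by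
      intro n hn
      obtain ⟨-, h3, h4⟩ := hpe n hn
      have h5 := hs n
      simp only [step, dif_neg hn] at h5
      rcases h4 with ⟨h8, h9⟩ | ⟨h8, h9⟩
      · rw [if_pos h8] at h5
        rw [h9, h8, h5, mul_inv_cancel_left]
      · rw [if_neg (fun h => by rw [← h9, h] at h3; exact lt_irrefl _ h3)] at h5
        rw [h8, h9, h5]
    obtain ⟨κ, hκ1, hκ2⟩ : ∃ κ : G, IsOfFinOrder κ ∧ ∀ j q, T.g j • q = q →
        (s q)⁻¹ * T.g j * s q ∈ Subgroup.zpowers κ := by
      have hF : ∀ j q, T.g j • q = q → (j, q) ∈ F5 := fun j q hq =>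
        ⟨by rintro rfl; exact hA2 hinf q hq, hq⟩
      rcases F5.eq_empty_or_nonempty with h | ⟨e, he⟩
      · exact ⟨1, IsOfFinOrder.one, fun j q hq => absurd (hF j q hq) (by simp [h])⟩
      · refine ⟨(s e.2)⁻¹ * T.g e.1 * s e.2, ?_, fun j q hq => ?_⟩
        · refine isOfFinOrder_iff_pow_eq_one.2 ⟨T.p e.1, (T.prime _).pos, ?_⟩
          have := conj_pow (a := (s e.2)⁻¹) (b := T.g e.1) (i := T.p e.1)
          rw [inv_inv] at this
          rw [this, T.pow, mul_one, inv_mul_cancel]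
        · rw [← hB2 hinf _ (hF j q hq) e he]
          exact Subgroup.mem_zpowers _
    have key := hprop Prop (fun y => (s (y • x0))⁻¹ * y ∈ Subgroup.zpowers κ)
      (fun j y he => by
        obtain ⟨n, hn, hne⟩ := htree _ he
        have := hs1 n hn
        rw [hne] at this
        simp only at this ⊢
        rw [mul_smul, this, mul_inv_rev, mul_assoc, inv_mul_cancel_left])
      (fun j y he => by
        rw [mul_smul, he]
        have : (s (y • x0))⁻¹ * (T.g j * y) =
            ((s (y • x0))⁻¹ * T.g j * s (y • x0)) * ((s (y • x0))⁻¹ * y) := by group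
        rw [this]
        exact propext (Subgroup.mul_mem_cancel_left _ (hκ2 j _ he)))
    have hle : L ≤ Subgroup.zpowers κ := by
      intro y hy
      have := key y
      have hy' : y • x0 = x0 := (quot_fix_iff L y).2 hy
      simp only [one_smul, hs0, hy'] at this
      simpa using this
    have : Finite (Subgroup.zpowers κ) := hκ1.finite_zpowers
    exact Finite.of_injective _ (Subgroup.inclusion_injective hle)

/-- A homomorphism from a subgroup of a triangle group to an abelian group which kills the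
conjugates of the generators lifts along every surjection of abelian groups. -/
theorem TriData.lift_hom (L : Subgroup G) {A B : Type} [AddCommGroup A] [AddCommGroup B]
    (π : B →+ A) (hπ : Function.Surjective π) (θ : L →* Multiplicative A)
    (hθ : ∀ j y (h : y⁻¹ * T.g j * y ∈ L), θ ⟨_, h⟩ = 1) :
    ∃ θ' : L →* Multiplicative B, ∀ l, π (θ' l).toAdd = (θ l).toAdd := by
  set x0 : G ⧸ L := ((1 : G) : G ⧸ L) with hx0
  obtain ⟨Fo, hs, hprop, -⟩ := T.exists_forest x0 (quot_trans L)
  choose s hsec using quot_trans L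
  have hmem : ∀ (a : G) q, (s (a • q))⁻¹ * a * s q ∈ L := by
    intro a q
    rw [← quot_fix_iff, mul_smul, mul_smul, hsec, inv_smul_eq_iff, hsec]
  let c0 : G → G ⧸ L → A := fun a q => (θ ⟨_, hmem a q⟩).toAdd
  have hc0 : ∀ a b q, c0 (a * b) q = c0 a (b • q) + c0 b q := by
    intro a b q
    simp only [c0]
    rw [← toAdd_mul, ← map_mul]
    congr 2
    ext
    simp only [Subgroup.coe_mul, mul_smul]
    group
  obtain ⟨c, hc, hval, hfix⟩ := hs B (fun e => Function.surjInv hπ (c0 (T.g e.1) e.2)) 0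
    (fun _ _ _ => rfl) (fun _ _ => smul_zero _) (fun _ => by simp)
  have key := hprop A (fun y => π (c y x0) - c0 y x0)
    (fun j y he => by
      rw [hc, hc0, hval _ _ he, map_add, Function.surjInv_eq hπ]
      abel)
    (fun j y he => by
      have : c0 (T.g j) (y • x0) = 0 := by
        have h1 := hmem (T.g j) (y • x0)
        have h2 : (s (y • x0))⁻¹ * T.g j * s (y • x0) ∈ L := by rwa [he] at h1
        have h3 : (⟨_, h1⟩ : L) = ⟨_, h2⟩ := Subtype.ext (by simp only [he])
        simp only [c0]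
        rw [h3, hθ, toAdd_one]
      rw [hc, hc0, hfix _ _ he, this]
      simp)
  refine ⟨cocycleHom hc x0 L (fun y hy => (quot_fix_iff L y).2 hy), fun l => ?_⟩
  have h1 := key l
  simp only [cocycle_one hc, cocycle_one hc0, map_zero, sub_zero, sub_eq_zero] at h1
  have h0 : s x0 ∈ L := (quot_fix_iff L _).1 (hsec _)
  have hl : (l : G) • x0 = x0 := (quot_fix_iff L _).2 l.2
  have h2 : (⟨_, hmem l x0⟩ : L) = (⟨_, h0⟩ : L)⁻¹ * l * ⟨_, h0⟩ :=
    Subtype.ext (by simp only [hl]; simp)
  refine h1.trans ?_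
  simp only [c0]
  rw [h2, θ.map_mul, θ.map_mul, θ.map_inv, mul_right_comm, inv_mul_cancel, one_mul]

/-- An element of prime order in a finite quotient of a triangle group which is not in a conjugate
of the image of a generating cyclic subgroup has no lift of the same order in a suitable larger
finite quotient. -/
theorem TriData.torsion_lemma {Q : Type} [Group Q] [Finite Q] (φ : G →* Q) {u : Q} {ℓ : ℕ}
    (hℓ : ℓ.Prime) (hu : u ^ ℓ = 1) (hu1 : u ≠ 1)
    (hnc : ∀ j y, u ∉ Subgroup.zpowers (φ (y⁻¹ * T.g j * y))) :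
    ∃ (Q' : Type) (_ : Group Q') (_ : Finite Q') (φ' : G →* Q'),
      ∀ δ, φ δ = u → φ' δ ^ ℓ ≠ 1 := by
  have := Fact.mk hℓ
  have hord : orderOf u = ℓ := orderOf_eq_prime hu hu1
  let _ : CommGroup (Subgroup.zpowers u) := IsCyclic.commGroup
  let L : Subgroup G := (Subgroup.zpowers u).comap φ
  let θ0 : L →* Subgroup.zpowers u := (φ.comp L.subtype).codRestrict _ (fun l => l.2)
  let π : ℤ →+ Additive (Subgroup.zpowers u) :=
    zmultiplesHom _ (Additive.ofMul ⟨u, Subgroup.mem_zpowers u⟩)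
  have hπ : Function.Surjective π := by
    rintro ⟨v, k, rfl⟩
    exact ⟨k, rfl⟩
  obtain ⟨θ', hθ'⟩ := T.lift_hom L (A := Additive (Subgroup.zpowers u)) π hπ
    ((MulEquiv.multiplicativeAdditive (Subgroup.zpowers u)).symm.toMonoidHom.comp θ0) (by
      intro j y h
      have : θ0 ⟨_, h⟩ = 1 := by
        by_contra hne
        have h1 : (⟨u, Subgroup.mem_zpowers u⟩ : Subgroup.zpowers u) ∈
            Subgroup.zpowers (θ0 ⟨_, h⟩) :=
          mem_zpowers_of_prime_card (p := ℓ) (by rw [Nat.card_zpowers, hord]) hne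
        obtain ⟨k, hk⟩ := h1
        exact hnc j y ⟨k, congrArg Subtype.val hk⟩
      simp [this])
  have : NeZero (ℓ ^ 2) := ⟨pow_ne_zero _ hℓ.ne_zero⟩
  let θ2 : L →* Multiplicative (ZMod (ℓ ^ 2)) :=
    (AddMonoidHom.toMultiplicative (Int.castAddHom (ZMod (ℓ ^ 2)))).comp θ'
  let N : Subgroup G := θ2.ker.map L.subtype
  have hL : L.FiniteIndex := by
    refine ⟨?_⟩
    rw [Subgroup.index_comap]
    exact Subgroup.FiniteIndex.index_ne_zero
  have hN : N.FiniteIndex := by
    refine ⟨?_⟩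
    rw [Subgroup.index_map_subtype]
    exact mul_ne_zero Subgroup.FiniteIndex.index_ne_zero Subgroup.FiniteIndex.index_ne_zero
  refine ⟨G ⧸ N.normalCore, inferInstance, inferInstance, QuotientGroup.mk' _, ?_⟩
  intro δ hδ h
  rw [← map_pow, QuotientGroup.mk'_apply, QuotientGroup.eq_one_iff] at h
  have hδL : δ ∈ L := by
    show φ δ ∈ Subgroup.zpowers u
    rw [hδ]
    exact Subgroup.mem_zpowers u
  obtain ⟨l, hl1, hl2⟩ := N.normalCore_le h
  have hl : l = (⟨δ, hδL⟩ : L) ^ ℓ := Subtype.ext hl2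
  set k := (θ' ⟨δ, hδL⟩).toAdd with hk
  have h1 : u ^ k = u := by
    have := congrArg (fun a => (Additive.toMul a : Subgroup.zpowers u).val) (hθ' ⟨δ, hδL⟩)
    exact this.trans hδ
  have h2 : (((ℓ : ℤ) * k : ℤ) : ZMod (ℓ ^ 2)) = 0 := by
    have h3 : θ2 l = 1 := hl1
    rw [hl, map_pow] at h3
    have h4 := congrArg Multiplicative.toAdd h3
    rw [toAdd_pow, toAdd_one] at h4
    rw [← h4]
    simp [θ2, hk]
  rw [ZMod.intCast_zmod_eq_zero_iff_dvd] at h2
  have h3 : (ℓ : ℤ) ∣ k := by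
    rw [Nat.cast_pow, sq] at h2
    exact Int.dvd_of_mul_dvd_mul_left (by exact_mod_cast hℓ.ne_zero) h2
  obtain ⟨m, hm⟩ := h3
  rw [hm, zpow_mul, zpow_natCast, hu, one_zpow] at h1
  exact hu1 h1.symm

end Pool.Agent.Work.MP_f81df4_al.H80
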