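import Mathlib.Data.Real.Basic
import Mathlib.Tactic

/-! Tits' positivity argument for Coxeter diagrams whose labels are 2 and 5. -/

set_option autoImplicit false

namespace Pool.Agent.Work.MP_f81df4_al.H80

theorem tits_pos {X ι : Type} (R : ι → X → X) (x0 : X) (ε : X → Bool) (f : ℝ) (hf0 : 0 < f)
    (hf : f * f = 1 + f) (c : ι → ι → ℝ) (lam : X → ι → ℝ)
    (hinv : ∀ i w, R i (R i w) = w) (hε : ∀ i w, ε (R i w) = !ε w)
    (hreach : ∀ w, ∃ l : List ι, l.foldr R x0 = w)
    (hc : ∀ i j, i ≠ j → (c i j = 0 ∧ ∀ w, R i (R j w) = R j (R i w)) ∨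
      (c i j = f ∧ c j i = f ∧
        ∀ w, R i (R j (R i (R j (R i w)))) = R j (R i (R j (R i (R j w))))))
    (hcc : ∀ i, c i i = -2) (hlam0 : ∀ i, 0 < lam x0 i)
    (hlam : ∀ w i j, lam (R j w) i = lam w i + c i j * lam w j)
    (w : X) (hw : ∀ i, 0 < lam w i) : w = x0 := by
  classical
  have hex : ∀ w, ∃ k : ℕ, ∃ l : List ι, l.length = k ∧ l.foldr R x0 = w := fun w => by
    obtain ⟨l, hl⟩ := hreach w
    exact ⟨_, l, rfl, hl⟩
  let len : X → ℕ := fun w => Nat.find (hex w)
  have hspec : ∀ w, ∃ l : List ι, l.length = len w ∧ l.foldr R x0 = w :=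
    fun w => Nat.find_spec (hex w)
  have hmin : ∀ l : List ι, len (l.foldr R x0) ≤ l.length :=
    fun l => Nat.find_min' _ ⟨l, rfl, rfl⟩
  have hle : ∀ i w, len (R i w) ≤ len w + 1 := by
    intro i w
    obtain ⟨l, h1, h2⟩ := hspec w
    have := hmin (i :: l)
    rwa [List.foldr_cons, h2, List.length_cons, h1] at this
  have hpar : ∀ l : List ι, ε (l.foldr R x0) = (ε x0 ^^ (l.length % 2 == 1)) := by
    intro l
    induction l with
    | nil => simp
    | cons a l ih =>
      rw [List.foldr_cons, hε, ih, List.length_cons]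
      rcases Nat.mod_two_eq_zero_or_one l.length with h | h <;> simp [h, Nat.add_mod]
  have hne : ∀ i w, len (R i w) ≠ len w := by
    intro i w h
    obtain ⟨l, h1, h2⟩ := hspec w
    obtain ⟨l', h3, h4⟩ := hspec (R i w)
    have a := hpar l
    have b := hpar l'
    rw [h4, h3, h, ← h1, ← a, h2, hε] at b
    simp at b
  have hstep : ∀ i w, len w < len (R i w) ∨ len (R i w) + 1 = len w := by
    intro i w
    have a := hle i (R i w)
    rw [hinv] at a
    have b := hne i w
    omega
  have hdesc : ∀ w, w ≠ x0 → ∃ j, len (R j w) + 1 = len w := by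
    intro w hw
    obtain ⟨l, h1, h2⟩ := hspec w
    rcases l with _ | ⟨j, l⟩
    · exact absurd h2.symm hw
    · refine ⟨j, ?_⟩
      have a := hmin l
      rw [List.foldr_cons] at h2
      rw [List.length_cons] at h1
      have b : R j w = l.foldr R x0 := by rw [← h2, hinv]
      rcases hstep j w with h | h
      · rw [b] at h
        omega
      · exact h
  have hneg : ∀ w i, lam (R i w) i = -lam w i := fun w i => by rw [hlam, hcc]; ring
  have key : ∀ n w, len w = n → ∀ i, len w < len (R i w) → 0 < lam w i := by
    intro n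
    induction n using Nat.strong_induction_on with
    | _ n ih =>
      intro w hn i hi
      by_cases hw : w = x0
      · rw [hw]; exact hlam0 i
      obtain ⟨j, hj⟩ := hdesc w hw
      have hij : i ≠ j := by
        rintro rfl
        omega
      have IH : ∀ v, len v < len w → ∀ k, len v < len (R k v) → 0 < lam v k :=
        fun v hv => ih _ (hn ▸ hv) v rfl
      obtain ⟨w1, rfl⟩ : ∃ w1, w = R j w1 := ⟨R j w, (hinv j w).symm⟩
      rw [hinv] at hj
      have p1 := IH w1 (by omega) j (by omega)
      rcases hc i j hij with ⟨h0, hcomm⟩ | ⟨h1, h2, hbr⟩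
      · rcases hstep i w1 with h | h
        · rw [hlam, h0]
          have := IH w1 (by omega) i h
          linarith
        · have := hle j (R i w1)
          rw [← hcomm] at this
          omega
      · rcases hstep i w1 with h | h
        · rw [hlam, h1]
          have := IH w1 (by omega) i h
          positivity
        obtain ⟨w2, rfl⟩ : ∃ w2, w1 = R i w2 := ⟨R i w1, (hinv i w1).symm⟩
        rw [hinv] at h
        have e2 : lam (R j (R i w2)) i = f * lam w2 i + f * lam w2 j := by
          rw [hlam, hneg, hlam, h1, h2]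
          linear_combination (lam w2 i) * hf
        have p2 := IH w2 (by omega) i (by omega)
        rcases hstep j w2 with h3 | h3
        · rw [e2]
          have := IH w2 (by omega) j h3
          positivity
        obtain ⟨w3, rfl⟩ : ∃ w3, w2 = R j w3 := ⟨R j w2, (hinv j w2).symm⟩
        rw [hinv] at h3
        have e3 : lam (R j (R i (R j w3))) i = f * lam w3 i + lam w3 j := by
          rw [e2, hneg, hlam, h1]
          linear_combination (lam w3 j) * hf
        have p3 := IH w3 (by omega) j (by omega)
        rcases hstep i w3 with h4 | h4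
        · rw [e3]
          have := IH w3 (by omega) i h4
          positivity
        obtain ⟨w4, rfl⟩ : ∃ w4, w3 = R i w4 := ⟨R i w3, (hinv i w3).symm⟩
        rw [hinv] at h4
        have e4 : lam (R j (R i (R j (R i w4)))) i = lam w4 j := by
          rw [e3, hneg, hlam, h2]
          ring
        rcases hstep j w4 with h5 | h5
        · rw [e4]
          exact IH w4 (by omega) j h5
        obtain ⟨w5, rfl⟩ : ∃ w5, w4 = R j w5 := ⟨R j w4, (hinv j w4).symm⟩
        rw [hinv] at h5
        rw [hbr, hinv] at hi
        have a1 := hle i w5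
        have a2 := hle j (R i w5)
        have a3 := hle i (R j (R i w5))
        have a4 := hle j (R i (R j (R i w5)))
        omega
  by_contra hw0
  obtain ⟨j, hj⟩ := hdesc w hw0
  have := key _ (R j w) rfl j (by rw [hinv]; omega)
  rw [hneg] at this
  linarith [hw j]

end Pool.Agent.Work.MP_f81df4_al.H80
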