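import Mathlib.LinearAlgebra.Matrix.GeneralLinearGroup.Defs
import Mathlib.LinearAlgebra.Matrix.Notation
import Mathlib.GroupTheory.IndexNormal
import Pool.Agent.Work.MP_f81df4_al.H80Ring
import Pool.Agent.Work.MP_f81df4_al.H80Tits
import Pool.Agent.Work.MP_f81df4_al.H80Sub

/-! The orthogonal group of `x² + y² - φ z²` over `ℤ[φ]` and the triangle group `(2,5,5)`. -/

set_option autoImplicit false

namespace Pool.Agent.Work.MP_f81df4_al.H80

open Matrix Real QuadraticAlgebra

/-- The form `x² + y² - φ z²`. -/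
def JJ : Matrix (Fin 3) (Fin 3) Zp := !![1, 0, 0; 0, 1, 0; 0, 0, -ph]

def raM : Matrix (Fin 3) (Fin 3) Zp := !![0, 1, 0; 1, 0, 0; 0, 0, 1]
def rbM : Matrix (Fin 3) (Fin 3) Zp := !![-ph, 0, ph; 0, 1, 0; -1, 0, ph]
def rcM : Matrix (Fin 3) (Fin 3) Zp := !![0, -1, 0; -1, 0, 0; 0, 0, 1]
def rdM : Matrix (Fin 3) (Fin 3) Zp := !![1, 0, 0; 0, -1, 0; 0, 0, 1]

def ra : GL (Fin 3) Zp := ⟨raM, raM, by decide, by decide⟩
def rb : GL (Fin 3) Zp := ⟨rbM, rbM, by decide, by decide⟩
def rc : GL (Fin 3) Zp := ⟨rcM, rcM, by decide, by decide⟩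
def rd : GL (Fin 3) Zp := ⟨rdM, rdM, by decide, by decide⟩

theorem ra_inv : ra⁻¹ = ra := rfl
theorem rb_inv : rb⁻¹ = rb := rfl
theorem rc_inv : rc⁻¹ = rc := rfl
theorem rd_inv : rd⁻¹ = rd := rfl

theorem rab5 : (ra * rb) ^ 5 = 1 := Units.ext (by
  rw [Units.val_pow_eq_pow_val]
  decide +kernel)

theorem rbc5 : (rb * rc) ^ 5 = 1 := Units.ext (by
  rw [Units.val_pow_eq_pow_val]
  decide +kernel)

theorem rca2 : (rc * ra) ^ 2 = 1 := Units.ext (by
  rw [Units.val_pow_eq_pow_val]
  decide +kernel)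

theorem rdad : rd * ra * rd = rc := Units.ext (by decide +kernel)
theorem rdbd : rd * rb * rd = rb := Units.ext (by decide +kernel)

/-- The group generated by the reflections and `-1`. -/
def HH : Subgroup (GL (Fin 3) Zp) := Subgroup.closure {ra, rb, rd, -1}

theorem ra_mem : ra ∈ HH := Subgroup.subset_closure (by simp)
theorem rb_mem : rb ∈ HH := Subgroup.subset_closure (by simp)
theorem rd_mem : rd ∈ HH := Subgroup.subset_closure (by simp)
theorem neg_mem : -1 ∈ HH := Subgroup.subset_closure (by simp)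

/-- The orthogonal group of `JJ`. -/
def OO : Subgroup (GL (Fin 3) Zp) where
  carrier := {g | g.1ᵀ * JJ * g.1 = JJ}
  one_mem' := by simp
  mul_mem' := by
    intro a b ha hb
    simp only [Set.mem_ofPred_eq, Units.val_mul, transpose_mul] at ha hb ⊢
    calc b.1ᵀ * a.1ᵀ * JJ * (a.1 * b.1) = b.1ᵀ * (a.1ᵀ * JJ * a.1) * b.1 := by
          simp only [Matrix.mul_assoc]
      _ = JJ := by rw [ha, hb]
  inv_mem' := by
    intro a ha
    simp only [Set.mem_ofPred_eq] at ha ⊢
    calc (a⁻¹).1ᵀ * JJ * (a⁻¹).1 = (a⁻¹).1ᵀ * (a.1ᵀ * JJ * a.1) * (a⁻¹).1 := by rw [ha]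
      _ = (a.1 * (a⁻¹).1)ᵀ * JJ * (a.1 * (a⁻¹).1) := by
          simp only [transpose_mul, Matrix.mul_assoc]
      _ = JJ := by simp

theorem HH_le_OO : HH ≤ OO := by
  rw [HH, Subgroup.closure_le]
  rintro g (rfl | rfl | rfl | rfl)
  · show raMᵀ * JJ * raM = JJ
    decide +kernel
  · show rbMᵀ * JJ * rbM = JJ
    decide +kernel
  · show rdMᵀ * JJ * rdM = JJ
    decide +kernel
  · show (-1 : Matrix (Fin 3) (Fin 3) Zp)ᵀ * JJ * (-1) = JJ
    simp

theorem small_both {a : Zp} (h1 : |s1 a| ≤ 1) (h2 : |s2 a| ≤ 1) : a = 0 ∨ a = 1 ∨ a = -1 := by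
  have e1 := s1_sub_s2 a
  have e2 := s1_apply a
  obtain ⟨q1, q2⟩ := sqrt5_bounds
  rw [abs_le] at h1 h2
  have a1 : (a.im : ℝ) < 1 := by nlinarith
  have a2 : (-1 : ℝ) < a.im := by nlinarith
  have a1' : a.im < 1 := by exact_mod_cast a1
  have a2' : -1 < a.im := by exact_mod_cast a2
  have him : a.im = 0 := by omega
  rw [him] at e2
  have a3 : (a.re : ℝ) ≤ 1 := by push_cast at e2; linarith
  have a4 : (-1 : ℝ) ≤ a.re := by push_cast at e2; linarith
  have a3' : a.re ≤ 1 := by exact_mod_cast a3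
  have a4' : -1 ≤ a.re := by exact_mod_cast a4
  have : a.re = 0 ∨ a.re = 1 ∨ a.re = -1 := by omega
  rcases this with h | h | h
  · left; ext <;> simp [h, him]
  · right; left; ext <;> simp [h, him]
  · right; right; ext <;> simp [h, him]

theorem sq_add_sq_eq_one {a b : Zp} (h : a * a + b * b = 1) :
    (a = 1 ∧ b = 0) ∨ (a = -1 ∧ b = 0) ∨ (a = 0 ∧ b = 1) ∨ (a = 0 ∧ b = -1) := by
  have h1 := congrArg s1 h
  have h2 := congrArg s2 h
  simp only [map_add, map_mul, map_one] at h1 h2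
  have ha := small_both (a := a) (abs_le_one_iff_mul_self_le_one.2 (by nlinarith))
    (abs_le_one_iff_mul_self_le_one.2 (by nlinarith))
  have hb := small_both (a := b) (abs_le_one_iff_mul_self_le_one.2 (by nlinarith))
    (abs_le_one_iff_mul_self_le_one.2 (by nlinarith))
  rcases ha with rfl | rfl | rfl <;> rcases hb with rfl | rfl | rfl <;> revert h <;> decide

/-- Vectors which the reflection group moves to the base point. -/
def Good (v : Fin 3 → Zp) : Prop := ∃ h ∈ HH, h.1 *ᵥ v = ![0, 0, 1]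

theorem Good.of_smul {v : Fin 3 → Zp} {g : GL (Fin 3) Zp} (hg : g ∈ HH) (h : Good (g.1 *ᵥ v)) :
    Good v := by
  obtain ⟨h, h1, h2⟩ := h
  exact ⟨h * g, HH.mul_mem h1 hg, by rw [Units.val_mul, ← mulVec_mulVec, h2]⟩

theorem Good.swap {a b c : Zp} (h : Good ![b, a, c]) : Good ![a, b, c] := by
  refine Good.of_smul ra_mem ?_
  have : ra.1 *ᵥ ![a, b, c] = ![b, a, c] := by
    ext1 i
    fin_cases i <;> simp [ra, raM, mulVec, dotProduct, Fin.sum_univ_three]
  rwa [this]

theorem Good.flip1 {a b c : Zp} (h : Good ![a, -b, c]) : Good ![a, b, c] := by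
  refine Good.of_smul rd_mem ?_
  have : rd.1 *ᵥ ![a, b, c] = ![a, -b, c] := by
    ext1 i
    fin_cases i <;> simp [rd, rdM, mulVec, dotProduct, Fin.sum_univ_three]
  rwa [this]

theorem Good.flip0 {a b c : Zp} (h : Good ![-a, b, c]) : Good ![a, b, c] :=
  h.swap.flip1.swap

theorem Good.flip2 {a b c : Zp} (h : Good ![a, b, -c]) : Good ![a, b, c] := by
  refine Good.flip0 (Good.flip1 (Good.of_smul neg_mem ?_))
  have : (-1 : GL (Fin 3) Zp).1 *ᵥ ![-a, -b, c] = ![a, b, -c] := by
    ext1 i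
    fin_cases i <;> simp [neg_mulVec]
  rwa [this]

theorem Good.refl {a b c : Zp} (h : Good ![ph * (c - a), b, ph * c - a]) : Good ![a, b, c] := by
  refine Good.of_smul rb_mem ?_
  have : rb.1 *ᵥ ![a, b, c] = ![ph * (c - a), b, ph * c - a] := by
    ext1 i
    fin_cases i <;> simp [rb, rbM, mulVec, dotProduct, Fin.sum_univ_three] <;> ring
  rwa [this]

theorem good_of_norm (a b c : Zp) (h : a * a + b * b - ph * (c * c) = -ph) : Good ![a, b, c] := by
  let m : Zp → ℕ := fun c => {d : Zp | |s1 d| < |s1 c| ∧ |s2 d| ≤ 1}.ncard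
  have hfin : ∀ c : Zp, {d : Zp | |s1 d| < |s1 c| ∧ |s2 d| ≤ 1}.Finite := fun c =>
    (finite_bounded (|s1 c| + 1)).subset fun d hd =>
      ⟨by linarith [hd.1], by linarith [hd.2, abs_nonneg (s1 c)]⟩
  have hconj : ∀ a b c : Zp, a * a + b * b - ph * (c * c) = -ph → |s2 c| ≤ 1 := by
    intro a b c h
    have h2 := congrArg s2 h
    simp only [map_add, map_mul, map_sub, map_neg, s2_ph] at h2
    have := goldenConj_neg
    rw [abs_le_one_iff_mul_self_le_one]
    nlinarith [mul_self_nonneg (s2 a), mul_self_nonneg (s2 b)]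
  induction' hn : m c using Nat.strong_induction_on with n ih generalizing a b c
  wlog ha : 0 ≤ s1 a generalizing a
  · exact Good.flip0 (this (-a) (by linear_combination h) (by rw [map_neg]; linarith))
  wlog hb : 0 ≤ s1 b generalizing b
  · exact Good.flip1 (this (-b) (by linear_combination h) (by rw [map_neg]; linarith))
  wlog hab : s1 b ≤ s1 a generalizing a b
  · exact Good.swap (this b hb a (by linear_combination h) ha (by linarith))
  wlog hc : 0 ≤ s1 c generalizing c
  · exact Good.flip2 (this (-c) (by simpa [m] using hn) (by linear_combination h)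
      (by rw [map_neg]; linarith))
  have h1 := congrArg s1 h
  simp only [map_add, map_mul, map_sub, map_neg, s1_ph] at h1
  obtain ⟨g1, g2⟩ := gold_bounds
  have hsq := goldenRatio_sq
  have hc1 : 1 ≤ s1 c := by
    by_contra hlt
    nlinarith [mul_self_nonneg (s1 a), mul_self_nonneg (s1 b)]
  by_cases hlt : s1 c < goldenRatio * s1 a
  · have h' : (ph * (c - a)) * (ph * (c - a)) + b * b - ph * ((ph * c - a) * (ph * c - a)) =
        -ph := by
      have := ph_sq
      linear_combination h + (a * a - ph * (c * c)) * this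
    refine Good.refl (ih _ ?_ _ _ _ h' rfl)
    rw [← hn]
    have hac : s1 a < goldenRatio * s1 c := by
      by_contra hge
      have e2 : (goldenRatio * s1 c) * (goldenRatio * s1 c) ≤ s1 a * s1 a :=
        mul_self_le_mul_self (by positivity) (not_lt.1 hge)
      have e3 : goldenRatio * s1 c * (goldenRatio * s1 c) =
          goldenRatio * (s1 c * s1 c) + s1 c * s1 c := by
        linear_combination (s1 c * s1 c) * hsq
      nlinarith [mul_self_nonneg (s1 b), mul_self_nonneg (s1 c)]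
    have hlt2 : |s1 (ph * c - a)| < |s1 c| := by
      rw [map_sub, map_mul, s1_ph, abs_of_pos (by linarith), abs_of_nonneg hc]
      nlinarith
    refine Set.ncard_lt_ncard ⟨fun d hd => ⟨hd.1.trans hlt2, hd.2⟩, fun hsub => ?_⟩ (hfin c)
    exact lt_irrefl _ (hsub ⟨hlt2, hconj _ _ _ h'⟩).1
  · have hc2 : s1 c < 1.4 := by
      by_contra hge
      have e1 : goldenRatio * s1 a ≤ s1 c := not_lt.1 hlt
      have e2 : (goldenRatio * s1 a) * (goldenRatio * s1 a) ≤ s1 c * s1 c :=
        mul_self_le_mul_self (by positivity) e1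
      have e3 : s1 b * s1 b ≤ s1 a * s1 a := mul_self_le_mul_self hb hab
      have e4 : 1.96 ≤ s1 c * s1 c := by nlinarith
      have e5 : 2.618 * (s1 a * s1 a) ≤ s1 c * s1 c := by nlinarith [mul_self_nonneg (s1 a)]
      nlinarith
    have hc3 := hconj _ _ _ h
    have e1 := s1_sub_s2 c
    have e2 := s1_apply c
    obtain ⟨q1, q2⟩ := sqrt5_bounds
    rw [abs_le] at hc3
    have a1 : (c.im : ℝ) < 2 := by nlinarith
    have a2 : (-1 : ℝ) < c.im := by nlinarith
    have a1' : c.im < 2 := by exact_mod_cast a1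
    have a2' : -1 < c.im := by exact_mod_cast a2
    have hc4 : c = 1 := by
      have : c.im = 0 ∨ c.im = 1 := by omega
      rcases this with h | h
      · rw [h] at e2
        have a3 : (0 : ℝ) < c.re := by push_cast at e2; linarith
        have a4 : (c.re : ℝ) < 2 := by push_cast at e2; linarith
        have a3' : 0 < c.re := by exact_mod_cast a3
        have a4' : c.re < 2 := by exact_mod_cast a4
        ext
        · simp; omega
        · simp [h]
      · rw [h] at e2
        have a3 : (-1 : ℝ) < c.re := by push_cast at e2; linarith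
        have a4 : (c.re : ℝ) < 0 := by push_cast at e2; linarith
        have a3' : -1 < c.re := by exact_mod_cast a3
        have a4' : c.re < 0 := by exact_mod_cast a4
        omega
    rw [hc4, map_one] at h1
    have ha0 : a = 0 := s1_eq_zero (by nlinarith [mul_self_nonneg (s1 a), mul_self_nonneg (s1 b)])
    have hb0 : b = 0 := s1_eq_zero (by nlinarith [mul_self_nonneg (s1 a), mul_self_nonneg (s1 b)])
    rw [ha0, hb0, hc4]
    exact ⟨1, HH.one_mem, by simp⟩

theorem OO_entry {g : GL (Fin 3) Zp} (hg : g ∈ OO) (i j : Fin 3) :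
    g.1 0 i * g.1 0 j + g.1 1 i * g.1 1 j - ph * (g.1 2 i * g.1 2 j) = JJ i j := by
  have h : g.1ᵀ * JJ * g.1 = JJ := hg
  rw [← congrFun (congrFun h i) j]
  simp [Matrix.mul_apply, Fin.sum_univ_three, JJ]
  ring

theorem col_mul (h g : GL (Fin 3) Zp) (j i : Fin 3) :
    (h * g).1 i j = (h.1 *ᵥ ![g.1 0 j, g.1 1 j, g.1 2 j]) i := by
  simp [Matrix.mul_apply, mulVec, dotProduct, Fin.sum_univ_three]

theorem OO_le_HH : OO ≤ HH := by
  have hph : ph ≠ 0 := by decide
  have step2 : ∀ g ∈ OO, g.1 0 2 = 0 → g.1 1 2 = 0 → g.1 2 2 = 1 → g.1 0 0 = 1 → g.1 1 0 = 0 →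
      g.1 2 0 = 0 → g ∈ HH := by
    intro g hg h1 h2 h3 h4 h5 h6
    have e1 := OO_entry hg 0 1
    have e2 := OO_entry hg 2 1
    have e3 := OO_entry hg 1 1
    simp [JJ, h1, h2, h3, h4, h5, h6, hph] at e1 e2 e3
    rw [e1, e2] at e3
    have e4 : g.1 1 1 * g.1 1 1 = 1 := by simpa using e3
    rcases mul_self_eq_one_iff.1 e4 with h | h
    · have : g = 1 := by
        ext i j : 2
        fin_cases i <;> fin_cases j <;> simp [*]
      rw [this]; exact HH.one_mem
    · have : g = rd := by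
        ext i j : 2
        fin_cases i <;> fin_cases j <;> simp [*, rd, rdM]
      rw [this]; exact rd_mem
  have step1 : ∀ g ∈ OO, g.1 0 2 = 0 → g.1 1 2 = 0 → g.1 2 2 = 1 → g ∈ HH := by
    intro g hg h1 h2 h3
    have e1 := OO_entry hg 2 0
    have e2 := OO_entry hg 0 0
    simp [JJ, h1, h2, h3, hph] at e1 e2
    rw [e1] at e2
    have key : ∀ h ∈ HH, h.1 *ᵥ ![0, 0, 1] = ![0, 0, 1] →
        h.1 *ᵥ ![g.1 0 0, g.1 1 0, 0] = ![1, 0, 0] → g ∈ HH := by
      intro h hh a1 a2
      rw [← HH.mul_mem_cancel_left hh]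
      refine step2 _ (OO.mul_mem (HH_le_OO hh) hg) ?_ ?_ ?_ ?_ ?_ ?_ <;>
        simp [-Units.val_mul, col_mul, h1, h2, h3, e1, a1, a2]
    rcases sq_add_sq_eq_one (a := g.1 0 0) (b := g.1 1 0) (by simpa using e2) with
      ⟨a1, a2⟩ | ⟨a1, a2⟩ | ⟨a1, a2⟩ | ⟨a1, a2⟩
    · exact key 1 HH.one_mem (by simp) (by simp [a1, a2])
    · exact key (ra * rd * ra) (HH.mul_mem (HH.mul_mem ra_mem rd_mem) ra_mem) (by decide +kernel)
        (by rw [a1, a2]; decide +kernel)
    · exact key ra ra_mem (by decide +kernel) (by rw [a1, a2]; decide +kernel)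
    · exact key (ra * rd) (HH.mul_mem ra_mem rd_mem) (by decide +kernel)
        (by rw [a1, a2]; decide +kernel)
  intro g hg
  obtain ⟨h, hh, h1⟩ := good_of_norm (g.1 0 2) (g.1 1 2) (g.1 2 2) (by
    simpa [JJ] using OO_entry hg 2 2)
  rw [← HH.mul_mem_cancel_left hh]
  refine step1 _ (OO.mul_mem (HH_le_OO hh) hg) ?_ ?_ ?_ <;> simp [-Units.val_mul, col_mul, h1]

theorem closure_two_cosets {H : Type} [Group H] (S : Subgroup H) (e : H) (A : Set H)
    (hA : ∀ a ∈ A, a⁻¹ = a ∧ ((a ∈ S ∧ e⁻¹ * a * e ∈ S) ∨ (a * e ∈ S ∧ e⁻¹ * a ∈ S))) :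
    ∀ g ∈ Subgroup.closure A, g ∈ S ∨ g * e ∈ S := by
  have step : ∀ a ∈ A, ∀ g, (g ∈ S ∨ g * e ∈ S) → (g * a ∈ S ∨ g * a * e ∈ S) := by
    intro a ha g hg
    rcases (hA a ha).2 with ⟨h1, h2⟩ | ⟨h1, h2⟩ <;> rcases hg with hg | hg
    · exact Or.inl (S.mul_mem hg h1)
    · right
      have := S.mul_mem hg h2
      rwa [show g * e * (e⁻¹ * a * e) = g * a * e by group] at this
    · right
      rw [mul_assoc]
      exact S.mul_mem hg h1
    · left
      have := S.mul_mem hg h2
      rwa [show g * e * (e⁻¹ * a) = g * a by group] at this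
  intro g hg
  induction hg using Subgroup.closure_induction_right with
  | one => exact Or.inl S.one_mem
  | mul_right x _ y hy ih => exact step y hy x ih
  | mul_inv_cancel x _ y hy ih => rw [(hA y hy).1]; exact step y hy x ih

theorem mem_of_two_cosets {Γ H : Type} [Group Γ] [Group H] (pr : Γ →* H)
    (h2 : ∀ θ : Γ →* Multiplicative (ZMod 2), ¬ Function.Surjective θ) (S : Subgroup H) (e : H)
    (h : ∀ γ, pr γ ∈ S ∨ pr γ * e ∈ S) (γ : Γ) : pr γ ∈ S := by
  by_contra h0
  have hidx : (S.comap pr).index = 2 := by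
    rw [Subgroup.index_eq_two_iff]
    refine ⟨γ⁻¹, fun b => ?_⟩
    have hγ := (h γ).resolve_left h0
    by_cases hb : pr b ∈ S
    · refine Or.inr ⟨hb, fun hc => h0 ?_⟩
      have : pr b * (pr γ)⁻¹ ∈ S := by simpa using hc
      exact S.inv_mem_iff.1 ((S.mul_mem_cancel_left hb).1 this)
    · refine Or.inl ⟨?_, hb⟩
      have := S.mul_mem ((h b).resolve_left hb) (S.inv_mem hγ)
      simpa [mul_assoc] using this
  have hn : (S.comap pr).Normal := Subgroup.normal_of_index_eq_two hidx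
  have : Fact (Nat.Prime 2) := ⟨Nat.prime_two⟩
  let e : Γ ⧸ S.comap pr ≃* Multiplicative (ZMod 2) :=
    mulEquivOfPrimeCardEq (p := 2) hidx (by simp)
  exact h2 (e.toMonoidHom.comp (QuotientGroup.mk' _))
    (e.surjective.comp (QuotientGroup.mk'_surjective _))

/-- The triangle group `(2,5,5)` embeds in the orthogonal group of `x² + y² - φ z²` and the image
contains the image of every group with no quotient of order two. -/
theorem TriData.exists_orth_rep {G : Type} [Group G] (T : TriData G) (hp0 : T.p 0 = 2)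
    (hp1 : T.p 1 = 5) (hp2 : T.p 2 = 5) :
    ∃ ϖ : G →* GL (Fin 3) Zp, Function.Injective ϖ ∧
      ∀ (Γ : Type) [Group Γ] (pr : Γ →* GL (Fin 3) Zp), (∀ γ, (pr γ).1ᵀ * JJ * (pr γ).1 = JJ) →
        (∀ θ : Γ →* Multiplicative (ZMod 2), ¬ Function.Surjective θ) →
        ∀ γ, pr γ ∈ ϖ.range := by
  have haa : ra * ra = 1 := inv_mul_cancel ra
  have hbb : rb * rb = 1 := inv_mul_cancel rb
  have hcc : rc * rc = 1 := inv_mul_cancel rc
  obtain ⟨ϖ, hϖ⟩ := T.lift (GL (Fin 3) Zp) ![rc * ra, ra * rb, rb * rc]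
    (by
      intro j
      fin_cases j
      · simpa [hp0] using rca2
      · simpa [hp1] using rab5
      · simpa [hp2] using rbc5)
    (by
      show rc * ra * (ra * rb) * (rb * rc) = 1
      rw [show rc * ra * (ra * rb) * (rb * rc) = rc * ((ra * ra) * (rb * rb)) * rc by group,
        haa, hbb, mul_one, mul_one, hcc])
  have hy : ϖ (T.g 1) = ra * rb := hϖ 1
  have hz : ϖ (T.g 2) = rb * rc := hϖ 2
  refine ⟨ϖ, ?_, ?_⟩
  · set y := T.g 1 with hy'
    set z := T.g 2 with hz'
    have y5 : y ^ 5 = 1 := by rw [← hp1]; exact T.pow 1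
    have z5 : z ^ 5 = 1 := by rw [← hp2]; exact T.pow 2
    have hg0 : T.g 0 = (y * z)⁻¹ := by rw [eq_inv_iff_mul_eq_one, ← mul_assoc, T.prod]
    have yz2 : (y * z) ^ 2 = 1 := by
      have := T.pow 0
      rwa [hp0, hg0, inv_pow, inv_eq_one] at this
    have y3 : y * y * y = y⁻¹ * y⁻¹ := by
      rw [← _root_.mul_inv_rev, eq_inv_iff_mul_eq_one, ← y5]; simp [pow_succ, mul_assoc]
    have z3 : z * z * z = z⁻¹ * z⁻¹ := by
      rw [← _root_.mul_inv_rev, eq_inv_iff_mul_eq_one, ← z5]; simp [pow_succ, mul_assoc]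
    have yz1 : y * z = z⁻¹ * y⁻¹ := by
      rw [← _root_.mul_inv_rev, eq_inv_iff_mul_eq_one, ← yz2, sq]
    have zy1 : z * y = y⁻¹ * z⁻¹ := by
      rw [show z * y = y⁻¹ * (y * z) * y by group, yz1]; group
    let u : Fin 3 → G := ![y, 1, z⁻¹]
    let R : Fin 3 → G × Bool → G × Bool := fun i w =>
      if w.2 then (w.1 * (u i)⁻¹, false) else (w.1 * u i, true)
    have RF : ∀ i δ, R i (δ, false) = (δ * u i, true) := fun _ _ => rfl
    have RT : ∀ i δ, R i (δ, true) = (δ * (u i)⁻¹, false) := fun _ _ => rfl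
    let r : Fin 3 → GL (Fin 3) Zp := ![ra, rb, rc]
    let pr : G × Bool → GL (Fin 3) Zp := fun w => if w.2 then ϖ w.1 * rb else ϖ w.1
    have hu : ∀ i, ϖ (u i) = r i * rb := by
      intro i
      fin_cases i
      · exact hy
      · exact (map_one ϖ).trans hbb.symm
      · show ϖ z⁻¹ = rc * rb
        rw [map_inv, hz, _root_.mul_inv_rev, rb_inv, rc_inv]
    have hrinv : ∀ i, (r i)⁻¹ = r i := by
      intro i
      fin_cases i <;> rfl
    have hpr : ∀ i w, pr (R i w) = pr w * r i := by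
      rintro i ⟨δ, _ | _⟩
      · show ϖ (δ * u i) * rb = ϖ δ * r i
        rw [map_mul, hu, mul_assoc, mul_assoc, hbb, mul_one]
      · show ϖ (δ * (u i)⁻¹) = ϖ δ * rb * r i
        rw [map_mul, map_inv, hu, _root_.mul_inv_rev, hrinv, rb_inv, mul_assoc]
    let α : Fin 3 → Fin 3 → Zp := ![![1, -1, 0], ![-ph, 0, 1 - ph], ![1, 1, 0]]
    let cz : Fin 3 → Fin 3 → Zp := ![![-2, ph, 0], ![ph, -2, ph], ![0, ph, -2]]
    have hα : ∀ i j, (r j).1 *ᵥ α i = α i + cz i j • α j := by decide +kernel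
    let lam : G × Bool → Fin 3 → ℝ := fun w i => s1 (![1, 0, -3] ⬝ᵥ ((pr w).1 *ᵥ α i))
    have hlam0 : ∀ w, pr w = 1 → ∀ i, 0 < lam w i := by
      intro w hw i
      have := gold_bounds
      simp only [lam, hw, Units.val_one, one_mulVec]
      fin_cases i
      · simp [α]
      · have : (![1, 0, -3] : Fin 3 → Zp) ⬝ᵥ α 1 = 2 * ph - 3 := by decide +kernel
        show 0 < s1 (![1, 0, -3] ⬝ᵥ α 1)
        rw [this, map_sub, map_mul, s1_ph, map_ofNat, map_ofNat]
        linarith
      · simp [α]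
    rw [injective_iff_map_eq_one]
    intro δ hδ
    have := tits_pos R (1, false) Prod.snd goldenRatio goldenRatio_pos
      (by rw [← sq, goldenRatio_sq, add_comm]) (fun i j => s1 (cz i j)) lam
      (by rintro i ⟨δ, _ | _⟩ <;> simp [RF, RT])
      (by rintro i ⟨δ, _ | _⟩ <;> rfl)
      (by
        have h1 : ∀ δ : G, ∃ l : List (Fin 3), l.foldr R (1, false) = (δ⁻¹, false) := by
          intro δ
          induction δ using T.induct with
          | h1 => exact ⟨[], by simp⟩
          | hg j δ ih =>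
            obtain ⟨l, hl⟩ := ih
            fin_cases j
            · refine ⟨2 :: 0 :: l, ?_⟩
              simp [hl, RF, RT, u, hg0, mul_assoc]
            · refine ⟨0 :: 1 :: l, ?_⟩
              simp [hl, RF, RT, u, hy']
            · refine ⟨1 :: 2 :: l, ?_⟩
              simp [hl, RF, RT, u, hz']
        rintro ⟨δ, _ | _⟩
        · simpa using h1 δ⁻¹
        · obtain ⟨l, hl⟩ := h1 δ⁻¹
          exact ⟨1 :: l, by simp [hl, RF, u]⟩)
      (by
        intro i j hij
        fin_cases i <;> fin_cases j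
        · exact absurd rfl hij
        · refine Or.inr ⟨s1_ph, s1_ph, ?_⟩
          rintro ⟨δ, _ | _⟩
          · simp [RF, RT, u, mul_assoc, ← y3]
          · simp only [RF, RT, u]
            simp [mul_assoc]
            rw [← mul_assoc, ← y3]; group
        · refine Or.inl ⟨map_zero _, ?_⟩
          rintro ⟨δ, _ | _⟩
          · simp [RF, RT, u, mul_assoc, yz1]
          · simp [RF, RT, u, mul_assoc, zy1]
        · refine Or.inr ⟨s1_ph, s1_ph, ?_⟩
          rintro ⟨δ, _ | _⟩
          · simp [RF, RT, u, mul_assoc, ← y3]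
          · simp only [RF, RT, u]
            simp [mul_assoc]
            rw [← mul_assoc, ← y3]; group
        · exact absurd rfl hij
        · refine Or.inr ⟨s1_ph, s1_ph, ?_⟩
          rintro ⟨δ, _ | _⟩
          · simp only [RF, RT, u]
            simp [mul_assoc]
            rw [← mul_assoc, ← z3]; group
          · simp [RF, RT, u, mul_assoc, ← z3]
        · refine Or.inl ⟨map_zero _, ?_⟩
          rintro ⟨δ, _ | _⟩
          · simp [RF, RT, u, mul_assoc, yz1]
          · simp [RF, RT, u, mul_assoc, zy1]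
        · refine Or.inr ⟨s1_ph, s1_ph, ?_⟩
          rintro ⟨δ, _ | _⟩
          · simp only [RF, RT, u]
            simp [mul_assoc]
            rw [← mul_assoc, ← z3]; group
          · simp [RF, RT, u, mul_assoc, ← z3]
        · exact absurd rfl hij)
      (by
        intro i
        fin_cases i <;> simp [cz, map_ofNat])
      (hlam0 _ (map_one ϖ))
      (by
        intro w i j
        simp only [lam]
        rw [hpr, Units.val_mul, ← mulVec_mulVec, hα, mulVec_add, mulVec_smul, dotProduct_add,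
          dotProduct_smul, map_add, smul_eq_mul, map_mul])
      (δ, false) (hlam0 _ hδ)
    exact congrArg Prod.fst this
  · intro Γ _ pr hpr h2
    have m1 : ra * rb ∈ ϖ.range := ⟨_, hy⟩
    have m2 : rb * rc ∈ ϖ.range := ⟨_, hz⟩
    have m1' : rb⁻¹ * ra ∈ ϖ.range := by
      simpa [ra_inv] using ϖ.range.inv_mem m1
    have m2' : rc * rb ∈ ϖ.range := by
      simpa [rb_inv, rc_inv] using ϖ.range.inv_mem m2
    refine mem_of_two_cosets pr h2 _ rb fun γ => closure_two_cosets _ rb {ra, rb, rc} ?_ _ ?_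
    · rintro a (rfl | rfl | rfl)
      · exact ⟨rfl, Or.inr ⟨m1, m1'⟩⟩
      · exact ⟨rfl, Or.inr ⟨by rw [hbb]; exact one_mem _, by simp⟩⟩
      · exact ⟨rfl, Or.inr ⟨m2', m2⟩⟩
    revert γ
    refine mem_of_two_cosets pr h2 _ rd fun γ => closure_two_cosets _ rd {ra, rb, rd} ?_ _ ?_
    · rintro a (rfl | rfl | rfl)
      · refine ⟨rfl, Or.inl ⟨Subgroup.subset_closure (by simp), ?_⟩⟩
        rw [rd_inv, rdad]
        exact Subgroup.subset_closure (by simp)
      · refine ⟨rfl, Or.inl ⟨Subgroup.subset_closure (by simp), ?_⟩⟩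
        rw [rd_inv, rdbd]
        exact Subgroup.subset_closure (by simp)
      · refine ⟨rfl, Or.inr ⟨?_, by simp⟩⟩
        rw [show rd * rd = 1 from inv_mul_cancel rd]
        exact one_mem _
    revert γ
    refine mem_of_two_cosets pr h2 _ (-1) fun γ =>
      closure_two_cosets _ (-1) {ra, rb, rd, -1} ?_ _ (OO_le_HH (hpr γ))
    rintro a (rfl | rfl | rfl | rfl)
    · exact ⟨rfl, Or.inl ⟨Subgroup.subset_closure (by simp),
        by simpa using Subgroup.subset_closure (by simp)⟩⟩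
    · exact ⟨rfl, Or.inl ⟨Subgroup.subset_closure (by simp),
        by simpa using Subgroup.subset_closure (by simp)⟩⟩
    · exact ⟨rfl, Or.inl ⟨Subgroup.subset_closure (by simp),
        by simpa using Subgroup.subset_closure (by simp)⟩⟩
    · exact ⟨by simp, Or.inr ⟨by simp, by simp⟩⟩

end Pool.Agent.Work.MP_f81df4_al.H80
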