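import Mathlib.LinearAlgebra.CrossProduct
import Mathlib.Analysis.Real.Pi.Bounds
import Pool.Agent.Work.MP_f81df4_al.H80Mink
import Pool.Agent.Work.MP_f81df4_al.H80Orth

/-! Classification of unimodular ternary forms over `ℤ[φ]` that are definite at one place. -/

set_option autoImplicit false

namespace Pool.Agent.Work.MP_f81df4_al.H80

open Matrix Real QuadraticAlgebra

theorem prime_two : Prime (2 : Zp) := by
  refine ⟨two_ne_zero, by rw [isUnit_iff_abs, norm_two]; decide, fun a b h => ?_⟩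
  obtain ⟨c, hc⟩ := h
  have : (2 : ℤ) ∣ a.norm * b.norm := by
    rw [← map_mul, hc, map_mul, norm_two]
    exact Dvd.dvd.mul_right (by norm_num) _
  exact (Int.prime_two.dvd_or_dvd this).imp two_dvd_of_norm two_dvd_of_norm

theorem prime_r5 : Prime r5 := by
  refine ⟨by decide, by rw [isUnit_iff_abs, norm_r5]; decide, fun a b h => ?_⟩
  obtain ⟨c, hc⟩ := h
  have : (5 : ℤ) ∣ a.norm * b.norm := by
    rw [← map_mul, hc, map_mul, norm_r5]
    exact Dvd.dvd.mul_right (by norm_num) _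
  have h5 : Prime (5 : ℤ) := Int.prime_iff_natAbs_prime.2 (by norm_num)
  exact (h5.dvd_or_dvd this).imp r5_dvd_of_norm r5_dvd_of_norm

theorem unit_normal (u : Zpˣ) (hu : 0 < s2 u) :
    ∃ e : Zpˣ, (u : Zp) = e * e ∨ (u : Zp) = -ph * (e * e) := by
  obtain ⟨k, hk⟩ := unit_s2_pos u hu
  refine ⟨(-phU) ^ (k / 2), ?_⟩
  rcases Int.emod_two_eq_zero_or_one k with h | h
  · left
    rw [← Units.val_mul, ← _root_.zpow_add, hk]
    congr 2
    omega
  · right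
    rw [← Units.val_mul, ← _root_.zpow_add, hk]
    show _ = ((-phU : Zpˣ) : Zp) * _
    rw [← Units.val_mul, ← _root_.zpow_one_add]
    congr 2
    omega

/-- The arithmetic input of the gluing step. -/
def AR (p m : Zp) : Prop := ∀ (τ : Zpˣ) (l : Zp), 0 < s2 (m * τ) → p ∣ 1 + l * l * (m * τ) →
  ∃ (l' : Zp) (ε : Zpˣ), p ∣ l' - l ∧ 1 + l' * l' * (m * τ) = p * ε

/-- One residue class of the gluing step. -/
def AR0 (p M : Zp) : Prop := ∀ l : Zp, p ∣ 1 + l * l * M →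
  ∃ (l' : Zp) (ε : Zpˣ), p ∣ l' - l ∧ 1 + l' * l' * M = p * ε

theorem AR0.of_sol {p M : Zp} (hp : Prime p) (l0 ε ε' : Zp) (hε : ε * ε' = 1)
    (h : 1 + l0 * l0 * M = p * ε) : AR0 p M := by
  intro l hl
  let e : Zpˣ := ⟨ε, ε', hε, by rw [mul_comm, hε]⟩
  have hM : ¬ p ∣ M := by
    intro hM
    have : p ∣ 1 + l * l * M - l * l * M := dvd_sub hl (Dvd.dvd.mul_left hM _)
    exact hp.not_dvd_one (by simpa using this)
  have h1 : p ∣ M * ((l0 - l) * (-l0 - l)) := by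
    have := dvd_sub hl (Dvd.intro _ h.symm)
    convert this using 1
    ring
  rcases hp.dvd_or_dvd ((hp.dvd_or_dvd h1).resolve_left hM) with h2 | h2
  · exact ⟨l0, e, h2, h⟩
  · exact ⟨-l0, e, h2, by rw [neg_mul_neg]; exact h⟩

theorem AR0.of_mod5 {M : Zp} (h : ∀ x : ZMod 5, 1 + x * x * (M.re + M.im * 3) ≠ 0) : AR0 r5 M := by
  intro l hl
  obtain ⟨c, hc⟩ := hl
  have := congrArg (emb (3 : ZMod 5) (by decide)) hc
  rw [map_add, map_mul, map_mul, map_mul, map_one, emb_apply _ _ r5, emb_apply _ _ M] at this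
  exact absurd (this.trans (mul_eq_zero_of_left (by decide) _)) (h _)

theorem AR.of_AR0 {p m : Zp} (hm : 0 < s2 m) (h1 : AR0 p m) (h2 : AR0 p (m * -ph)) : AR p m := by
  intro τ l hpos hl
  rw [map_mul] at hpos
  obtain ⟨e, he⟩ := unit_normal τ ((pos_iff_pos_of_mul_pos hpos).1 hm)
  have key : ∀ M, AR0 p M → m * τ = M * (e * e) →
      ∃ (l' : Zp) (ε : Zpˣ), p ∣ l' - l ∧ 1 + l' * l' * (m * τ) = p * ε := by
    intro M hM hτ
    obtain ⟨l', ε, h3, h4⟩ := hM (l * e) (by rw [hτ] at hl; convert hl using 1; ring)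
    refine ⟨l' * (e⁻¹ : Zpˣ), ε, ?_, ?_⟩
    · have := h3.mul_right ((e⁻¹ : Zpˣ) : Zp)
      rwa [sub_mul, Units.mul_inv_cancel_right] at this
    · rw [← h4, hτ]
      have := e.inv_mul
      linear_combination (l' * l' * M * ((e⁻¹ : Zpˣ) * e + 1)) * this
  rcases he with he | he
  · exact key _ h1 (by rw [he])
  · exact key _ h2 (by rw [he]; ring)

theorem AR.of_dvd {p m : Zp} (hp : Prime p) (h : p ∣ m) : AR p m := by
  intro τ l _ hl
  have : p ∣ 1 + l * l * (m * τ) - l * l * (m * τ) :=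
    dvd_sub hl (Dvd.dvd.mul_left (h.mul_right _) _)
  exact absurd (by simpa using this) hp.not_dvd_one

theorem AR_two_one : AR 2 1 := AR.of_AR0 (by simp)
  (AR0.of_sol prime_two 1 1 1 (by decide) (by decide))
  (AR0.of_sol prime_two ph (-ph) (1 - ph) (by decide) (by decide))

theorem AR_r5_one : AR r5 1 := AR.of_AR0 (by simp)
  (AR0.of_sol prime_r5 ph ph (ph - 1) (by decide) (by decide))
  (AR0.of_mod5 (by decide))

theorem AR_r5_two : AR r5 2 := AR.of_AR0 (by simp [map_ofNat])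
  (AR0.of_mod5 (by decide))
  (AR0.of_sol prime_r5 1 (-1) (-1) (by decide) (by decide))

theorem AR_r5_three : AR r5 3 := AR.of_AR0 (by simp [map_ofNat])
  (AR0.of_mod5 (by decide))
  (AR0.of_sol prime_r5 (ph - 1) (ph - 2) (-ph - 1) (by decide) (by decide))

theorem parallel_mod {p : Zp} (hp : Prime p) {a b : Fin 3 → Zp} (h : ∀ i, p ∣ (a ⨯₃ b) i)
    (hb : ¬ ∀ i, p ∣ b i) : ∃ (l : Zp) (z : Fin 3 → Zp), a = l • b + p • z := by
  push Not at hb
  obtain ⟨i, hi⟩ := hb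
  obtain ⟨α, β, hβ⟩ := (hp.irreducible.coprime_iff_not_dvd).2 hi
  have h0 := h 0
  have h1 := h 1
  have h2 := h 2
  simp only [cross_apply, cons_val_zero, cons_val_one, cons_val] at h0 h1 h2
  have hij : ∀ j, p ∣ a j * b i - a i * b j := by
    intro j
    fin_cases i <;> fin_cases j
    · simp
    · simpa using (dvd_neg.2 h2)
    · simpa using h1
    · simpa using h2
    · simp
    · simpa using (dvd_neg.2 h0)
    · simpa using (dvd_neg.2 h1)
    · simpa using h0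
    · simp
  choose c hc using hij
  refine ⟨β * a i, fun j => α * a j + β * c j, ?_⟩
  ext1 j
  simp only [Pi.add_apply, Pi.smul_apply, smul_eq_mul]
  linear_combination (-a j) * hβ + β * hc j

theorem exists_cross_eq (c : Fin 3 → Zp) : ∃ w1 w2 : Fin 3 → Zp, w1 ⨯₃ w2 = c := by
  obtain ⟨g, a, b, α, β, h1, h2, h3⟩ :
      ∃ g a b α β : Zp, c 0 = g * a ∧ c 1 = g * b ∧ α * a + β * b = 1 := by
    by_cases h0 : c 0 = 0 ∧ c 1 = 0
    · exact ⟨0, 1, 0, 1, 0, by simp [h0.1], by simp [h0.2], by simp⟩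
    obtain ⟨g, hg⟩ := (IsPrincipalIdealRing.principal (Ideal.span {c 0, c 1})).principal
    have hg' : Ideal.span {c 0, c 1} = Ideal.span {g} := hg
    obtain ⟨a, ha⟩ := Ideal.mem_span_singleton'.1 (hg' ▸ Ideal.subset_span (by simp) :
      c 0 ∈ Ideal.span {g})
    obtain ⟨b, hb⟩ := Ideal.mem_span_singleton'.1 (hg' ▸ Ideal.subset_span (by simp) :
      c 1 ∈ Ideal.span {g})
    obtain ⟨α, β, hαβ⟩ := Ideal.mem_span_pair.1 (hg' ▸ Ideal.mem_span_singleton_self g :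
      g ∈ Ideal.span {c 0, c 1})
    have hg0 : g ≠ 0 := by
      rintro rfl
      exact h0 ⟨by simpa using ha.symm, by simpa using hb.symm⟩
    refine ⟨g, a, b, α, β, by rw [← ha, mul_comm], by rw [← hb, mul_comm], ?_⟩
    apply mul_left_cancel₀ hg0
    rw [← ha, ← hb] at hαβ
    linear_combination hαβ
  refine ⟨![b, -a, 0], ![α * c 2, β * c 2, -g], ?_⟩
  ext1 i
  fin_cases i
  · simp [cross_apply, h1, mul_comm]
  · simp [cross_apply, h2, mul_comm]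
  · simp [cross_apply]
    linear_combination (c 2) * h3

theorem cross_adjugate (G : Matrix (Fin 3) (Fin 3) Zp) (hG : G.IsSymm) (v w : Fin 3 → Zp) :
    (v ⨯₃ w) ⬝ᵥ G.adjugate *ᵥ (v ⨯₃ w) =
      (v ⬝ᵥ G *ᵥ v) * (w ⬝ᵥ G *ᵥ w) - (v ⬝ᵥ G *ᵥ w) * (v ⬝ᵥ G *ᵥ w) := by
  have h10 : G 1 0 = G 0 1 := hG.apply 0 1
  have h20 : G 2 0 = G 0 2 := hG.apply 0 2
  have h21 : G 2 1 = G 1 2 := hG.apply 1 2
  simp [adjugate_fin_three, cross_apply, dotProduct, mulVec, Fin.sum_univ_three, h10, h20, h21]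
  ring

section form

variable {G : Matrix (Fin 3) (Fin 3) Zp} (hG : G.IsSymm) (hdet : IsUnit G.det)
  (hpos : ∀ v, v ≠ 0 → 0 < s2 (v ⬝ᵥ G *ᵥ v))

include hG in
theorem form_symm (v w : Fin 3 → Zp) : v ⬝ᵥ G *ᵥ w = w ⬝ᵥ G *ᵥ v := by
  rw [dotProduct_mulVec, ← mulVec_transpose, hG.eq, dotProduct_comm]

include hG hdet in
theorem exists_normal {v w : Fin 3 → Zp} (hvw : v ⬝ᵥ G *ᵥ w = 0) :
    ∃ (n : Fin 3 → Zp) (u : Zpˣ), G *ᵥ n = v ⨯₃ w ∧ v ⬝ᵥ G *ᵥ n = 0 ∧ w ⬝ᵥ G *ᵥ n = 0 ∧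
      n ⬝ᵥ G *ᵥ n = (v ⬝ᵥ G *ᵥ v) * (w ⬝ᵥ G *ᵥ w) * u := by
  obtain ⟨d, hd⟩ := hdet
  have h1 : G *ᵥ (((d⁻¹ : Zpˣ) : Zp) • (G.adjugate *ᵥ (v ⨯₃ w))) = v ⨯₃ w := by
    rw [mulVec_smul, mulVec_mulVec, mul_adjugate, smul_mulVec, one_mulVec, smul_smul, ← hd,
      Units.inv_mul, one_smul]
  refine ⟨_, d⁻¹, h1, by rw [h1, dot_self_cross], by rw [h1, dot_cross_self], ?_⟩
  rw [h1, smul_dotProduct, dotProduct_comm, cross_adjugate G hG, hvw, smul_eq_mul]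
  ring

include hG hpos in
theorem glue {p m : Zp} (hp : Prime p) (har : AR p m) {v w z : Fin 3 → Zp} {u1 u2 : Zpˣ} {l : Zp}
    (hv : v ⬝ᵥ G *ᵥ v = p * u1) (hw : w ⬝ᵥ G *ᵥ w = p * (m * u2)) (hw0 : w ≠ 0)
    (hvw : v ⬝ᵥ G *ᵥ w = 0) (hz : v = l • w + p • z) :
    ∃ (z' : Fin 3 → Zp) (l' : Zp), IsUnit (z' ⬝ᵥ G *ᵥ z') ∧ p • z' = v - l' • w := by
  have hwv : w ⬝ᵥ G *ᵥ v = 0 := by rw [form_symm hG, hvw]
  have hq : ∀ (z : Fin 3 → Zp) (l : Zp), p • z = v - l • w →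
      p * (z ⬝ᵥ G *ᵥ z) = u1 * (1 + l * l * (m * ((u1⁻¹ * u2 : Zpˣ) : Zp))) := by
    intro z l h
    apply mul_left_cancel₀ hp.ne_zero
    have h1 : (p • z) ⬝ᵥ G *ᵥ (p • z) = (v - l • w) ⬝ᵥ G *ᵥ (v - l • w) := by rw [h]
    simp only [mulVec_smul, mulVec_sub, smul_dotProduct, dotProduct_smul, sub_dotProduct,
      dotProduct_sub, smul_eq_mul, hv, hw, hvw, hwv] at h1
    rw [h1, Units.val_mul]
    have := u1.mul_inv
    linear_combination (-p * l * l * m * u2) * this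
  have hv0 : v ≠ 0 := by
    rintro rfl
    simp [hp.ne_zero] at hv
  have hτ : 0 < s2 (m * ((u1⁻¹ * u2 : Zpˣ) : Zp)) := by
    have h1 := hpos v hv0
    have h2 := hpos w hw0
    have h3 : w ⬝ᵥ G *ᵥ w = (v ⬝ᵥ G *ᵥ v) * (m * ((u1⁻¹ * u2 : Zpˣ) : Zp)) := by
      rw [hv, hw, Units.val_mul]
      have := u1.mul_inv
      linear_combination (-p * m * u2) * this
    rw [h3, map_mul] at h2
    exact (pos_iff_pos_of_mul_pos h2).1 h1
  obtain ⟨l', ε, ⟨c, hc⟩, h2⟩ := har _ l hτ (by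
    have := hq z l (by rw [hz]; abel)
    exact (Units.dvd_mul_left).1 ⟨_, this.symm⟩)
  have h3 : p • (z - c • w) = v - l' • w := by
    rw [hz, show l' = l + p * c by linear_combination hc]
    module
  refine ⟨z - c • w, l', ?_, h3⟩
  have h4 := hq _ _ h3
  rw [h2, mul_left_comm] at h4
  rw [mul_left_cancel₀ hp.ne_zero h4]
  exact (u1 * ε).isUnit

include hG hdet hpos in
theorem pair_lemma {p m : Zp} (hp : Prime p) (har : AR p m) (har1 : AR p 1) (hm : p ∣ m → m = p)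
    (hm0 : m ≠ 0) {v w : Fin 3 → Zp} {u1 u2 : Zpˣ}
    (hv : v ⬝ᵥ G *ᵥ v = p * u1) (hw : w ⬝ᵥ G *ᵥ w = m * u2) (hvw : v ⬝ᵥ G *ᵥ w = 0) :
    ∃ z : Fin 3 → Zp, IsUnit (z ⬝ᵥ G *ᵥ z) ∧ (p ∣ m ∨ w ⬝ᵥ G *ᵥ z = 0) := by
  have hwv : w ⬝ᵥ G *ᵥ v = 0 := by rw [form_symm hG, hvw]
  have hprim : ∀ (x : Fin 3 → Zp) (u : Zpˣ), x ⬝ᵥ G *ᵥ x = p * u → ¬ ∀ i, p ∣ x i := by
    intro x u hx hdvd
    choose y hy using hdvd
    have : x = p • y := funext hy
    rw [this, mulVec_smul, smul_dotProduct, dotProduct_smul, smul_eq_mul, smul_eq_mul] at hx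
    exact hp.not_isUnit (isUnit_of_dvd_unit ⟨_, (mul_left_cancel₀ hp.ne_zero hx).symm⟩ u.isUnit)
  by_cases hc : ∀ i, p ∣ (v ⨯₃ w) i
  · have hc' : ∀ i, p ∣ (w ⨯₃ v) i := by
      intro i
      rw [← cross_anticomm, Pi.neg_apply, dvd_neg]
      exact hc i
    obtain ⟨l, z, hz⟩ := parallel_mod hp hc' (hprim v u1 hv)
    have hpm : p ∣ m := by
      have h1 : w ⬝ᵥ G *ᵥ w = p * (w ⬝ᵥ G *ᵥ z) := by
        conv_lhs => rw [show G *ᵥ w = G *ᵥ (l • v + p • z) by rw [← hz]]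
        rw [mulVec_add, mulVec_smul, mulVec_smul, dotProduct_add, dotProduct_smul,
          dotProduct_smul, hwv, smul_zero, zero_add, smul_eq_mul]
      exact Units.dvd_mul_right.1 ⟨_, hw.symm.trans h1⟩
    rw [hm hpm] at hw
    obtain ⟨z', -, h, -⟩ := glue hG hpos hp har1 (u2 := u1) hw (by rw [hv, one_mul])
      (by rintro rfl; simp [hp.ne_zero] at hv) hwv hz
    exact ⟨z', h, Or.inl hpm⟩
  · obtain ⟨n, u, hn1, hn2, hn3, hn4⟩ := exists_normal hG hdet hvw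
    obtain ⟨l, z, hz⟩ := parallel_mod hp (a := G *ᵥ v) (b := v ⨯₃ w) (by
      intro i
      rw [cross_cross_eq_smul_sub_smul', dotProduct_comm, hwv, hv]
      simp [mul_assoc]) hc
    obtain ⟨d, hd⟩ := hdet
    have hinj : ∀ x, ((d⁻¹ : Zpˣ) : Zp) • (G.adjugate *ᵥ (G *ᵥ x)) = x := by
      intro x
      rw [mulVec_mulVec, adjugate_mul, smul_mulVec, one_mulVec, smul_smul, ← hd, Units.inv_mul,
        one_smul]
    have hz' : v = l • n + p • (((d⁻¹ : Zpˣ) : Zp) • (G.adjugate *ᵥ z)) := by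
      rw [← hinj v, hz, ← hn1, mulVec_add, mulVec_smul, mulVec_smul, smul_add, smul_comm _ l,
        hinj, smul_comm _ p]
    have hn5 : n ⬝ᵥ G *ᵥ n = p * (m * ((u1 * u2 * u : Zpˣ) : Zp)) := by
      rw [hn4, hv, hw]; push_cast; ring
    obtain ⟨z', l', h1, h2⟩ := glue hG hpos hp har hv hn5
      (by rintro rfl; simp [hp.ne_zero, hm0] at hn5) hn2 hz'
    refine ⟨z', h1, Or.inr ?_⟩
    apply mul_left_cancel₀ hp.ne_zero
    rw [← smul_eq_mul, ← dotProduct_smul, ← mulVec_smul, h2, mulVec_sub, mulVec_smul,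
      dotProduct_sub, dotProduct_smul, hwv, hn3]
    simp

include hG hdet in
theorem exists_short_perp {v : Fin 3 → Zp} (hv : v ⬝ᵥ G *ᵥ v ≠ 0) {ρ : ℝ} (hρ : 0 < ρ)
    (h : 6400 * |((v ⬝ᵥ G *ᵥ v).norm : ℝ)| < (ρ ^ 2 * (π ^ 2 / 2)) ^ 2) :
    ∃ w : Fin 3 → Zp, w ≠ 0 ∧ v ⬝ᵥ G *ᵥ w = 0 ∧ 4 * |((w ⬝ᵥ G *ᵥ w).norm : ℝ)| < ρ ^ 2 := by
  obtain ⟨w1, w2, hw⟩ := exists_cross_eq (G *ᵥ v)
  let G2 : Matrix (Fin 2) (Fin 2) Zp :=
    !![w1 ⬝ᵥ G *ᵥ w1, w1 ⬝ᵥ G *ᵥ w2; w1 ⬝ᵥ G *ᵥ w2, w2 ⬝ᵥ G *ᵥ w2]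
  have hd : G2.det = G.det * (v ⬝ᵥ G *ᵥ v) := by
    rw [det_fin_two_of, ← cross_adjugate G hG, hw, mulVec_mulVec, adjugate_mul, smul_mulVec,
      one_mulVec, dotProduct_smul, dotProduct_comm, smul_eq_mul]
  obtain ⟨s, hs0, hs⟩ := exists_short two_pos G2
    (by ext1 i j; fin_cases i <;> fin_cases j <;> rfl)
    (by rw [hd]; exact mul_ne_zero hdet.ne_zero hv) hρ (by
      rw [hd, map_mul, Int.cast_mul, abs_mul]
      have : |(G.det.norm : ℝ)| = 1 := by exact_mod_cast isUnit_iff_abs.1 hdet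
      rw [this]
      norm_num [Nat.factorial]
      linarith)
  have hGv : G *ᵥ v ≠ 0 := fun h0 => hv (by rw [h0, dotProduct_zero])
  refine ⟨s 0 • w1 + s 1 • w2, fun h0 => hs0 ?_, ?_, ?_⟩
  · have h1 := congrArg (fun x => x ⨯₃ w2) h0
    have h2 := congrArg (fun x => w1 ⨯₃ x) h0
    simp only [map_add, map_smul, LinearMap.add_apply, LinearMap.smul_apply, cross_self, hw,
      smul_zero, add_zero, zero_add, map_zero, LinearMap.zero_apply, smul_eq_zero, hGv,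
      or_false] at h1 h2
    ext1 i
    fin_cases i
    · exact h1
    · exact h2
  · rw [form_symm hG, ← hw, add_dotProduct, smul_dotProduct, smul_dotProduct, dot_self_cross,
      dot_cross_self]
    simp
  · convert hs using 5
    simp only [G2, mulVec_add, mulVec_smul, add_dotProduct, dotProduct_add, smul_dotProduct,
      dotProduct_smul, smul_eq_mul, form_symm hG w2 w1]
    simp [dotProduct, mulVec, Fin.sum_univ_two]
    ring

theorem norm_le_of_lt {z : Zp} {k : ℕ} (h : 4 * |(z.norm : ℝ)| < 4 * (k + 1)) : |z.norm| ≤ k := by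
  have : |(z.norm : ℝ)| < k + 1 := by linarith
  have : |z.norm| < k + 1 := by exact_mod_cast this
  omega

theorem abs_norm_mul_unit (m : Zp) (u : Zpˣ) : |((m * u : Zp).norm : ℝ)| = |(m.norm : ℝ)| := by
  have : |((u : Zp).norm : ℝ)| = 1 := by exact_mod_cast isUnit_iff_abs.1 u.isUnit
  rw [map_mul, Int.cast_mul, abs_mul, this, mul_one]

theorem abs_norm_mul_unit' (m : Zp) (u : Zpˣ) : |(m * u : Zp).norm| = |m.norm| := by
  exact_mod_cast abs_norm_mul_unit m u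

include hG hdet hpos in
theorem exists_unit_vector : ∃ v : Fin 3 → Zp, IsUnit (v ⬝ᵥ G *ᵥ v) := by
  have hne : ∀ v, v ≠ 0 → v ⬝ᵥ G *ᵥ v ≠ 0 := fun v hv h => by simpa [h] using hpos v hv
  have pi1 := Real.pi_gt_d2
  have pi2 : 9.85 < π ^ 2 := by nlinarith
  have pi3 : 30 < π ^ 3 := by nlinarith
  have h52 : ¬ r5 ∣ 2 := fun h => by
    have := map_dvd (QuadraticAlgebra.norm : Zp →* ℤ) h
    rw [norm_r5, norm_two] at this
    revert this
    decide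
  have h53 : ¬ r5 ∣ 3 := fun h => by
    have := map_dvd (QuadraticAlgebra.norm : Zp →* ℤ) h
    rw [norm_r5, norm_three] at this
    revert this
    decide
  obtain ⟨v, hv0, hv⟩ := exists_short three_pos G hG hdet.ne_zero (ρ := 6) (by norm_num) (by
    have : |(G.det.norm : ℝ)| = 1 := by exact_mod_cast isUnit_iff_abs.1 hdet
    rw [this]
    norm_num [Nat.factorial]
    nlinarith)
  have hv8 := norm_le_of_lt (k := 8) (hv.trans_le (by norm_num))
  obtain ⟨u1, h | h | h | ⟨-, h⟩⟩ := small_norm (hne v hv0) (hv8.trans (by norm_num))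
  · exact ⟨v, h ▸ u1.isUnit⟩
  · obtain ⟨w, hw0, hvw, hw⟩ := exists_short_perp hG hdet (hne v hv0) (ρ := 6) (by norm_num) (by
      rw [h, abs_norm_mul_unit, norm_two]
      norm_num
      nlinarith)
    have hw8 := norm_le_of_lt (k := 8) (hw.trans_le (by norm_num))
    obtain ⟨u2, h' | h' | h' | ⟨-, h'⟩⟩ := small_norm (hne w hw0) (hw8.trans (by norm_num))
    · exact ⟨w, h' ▸ u2.isUnit⟩
    · obtain ⟨z, hz, -⟩ := pair_lemma hG hdet hpos prime_two (AR.of_dvd prime_two dvd_rfl)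
        AR_two_one (fun _ => rfl) two_ne_zero h h' hvw
      exact ⟨z, hz⟩
    · obtain ⟨z, hz, -⟩ := pair_lemma hG hdet hpos prime_r5 AR_r5_two
        AR_r5_one (fun h => absurd h h52) two_ne_zero h' h (by rw [form_symm hG, hvw])
      exact ⟨z, hz⟩
    · omega
  · obtain ⟨w, hw0, hvw, hw⟩ := exists_short_perp hG hdet (hne v hv0) (ρ := √40)
      (Real.sqrt_pos.2 (by norm_num)) (by
      rw [h, abs_norm_mul_unit, norm_r5, Real.sq_sqrt (by norm_num)]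
      norm_num
      nlinarith)
    rw [Real.sq_sqrt (by norm_num)] at hw
    have hw8 := norm_le_of_lt (k := 9) (hw.trans_le (by norm_num))
    obtain ⟨u2, h' | h' | h' | ⟨h', -⟩⟩ := small_norm (hne w hw0) (hw8.trans (by norm_num))
    · exact ⟨w, h' ▸ u2.isUnit⟩
    · obtain ⟨z, hz, -⟩ := pair_lemma hG hdet hpos prime_r5 AR_r5_two
        AR_r5_one (fun h => absurd h h52) two_ne_zero h h' hvw
      exact ⟨z, hz⟩
    · obtain ⟨z, hz, -⟩ := pair_lemma hG hdet hpos prime_r5 (AR.of_dvd prime_r5 dvd_rfl)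
        AR_r5_one (fun _ => rfl) prime_r5.ne_zero h h' hvw
      exact ⟨z, hz⟩
    · obtain ⟨z, hz, -⟩ := pair_lemma hG hdet hpos prime_r5 AR_r5_three
        AR_r5_one (fun h => absurd h h53) (by decide) h h' hvw
      exact ⟨z, hz⟩
  · omega

include hG hdet hpos in
theorem exists_unit_perp {v : Fin 3 → Zp} (hv : IsUnit (v ⬝ᵥ G *ᵥ v)) :
    ∃ w : Fin 3 → Zp, IsUnit (w ⬝ᵥ G *ᵥ w) ∧ v ⬝ᵥ G *ᵥ w = 0 := by
  have hne : ∀ v, v ≠ 0 → v ⬝ᵥ G *ᵥ v ≠ 0 := fun v hv h => by simpa [h] using hpos v hv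
  have pi1 := Real.pi_gt_d2
  have pi2 : 9.85 < π ^ 2 := by nlinarith
  obtain ⟨w, hw0, hvw, hw⟩ := exists_short_perp hG hdet hv.ne_zero (ρ := √20)
    (Real.sqrt_pos.2 (by norm_num)) (by
    have : |((v ⬝ᵥ G *ᵥ v).norm : ℝ)| = 1 := by exact_mod_cast isUnit_iff_abs.1 hv
    rw [this, Real.sq_sqrt (by norm_num)]
    nlinarith)
  rw [Real.sq_sqrt (by norm_num)] at hw
  have hw8 := norm_le_of_lt (k := 4) (hw.trans_le (by norm_num))
  obtain ⟨u1, hu1⟩ := hv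
  obtain ⟨u2, h' | h' | h' | ⟨-, h'⟩⟩ := small_norm (hne w hw0) (hw8.trans (by norm_num))
  · exact ⟨w, h' ▸ u2.isUnit, hvw⟩
  · obtain ⟨z, hz, hz'⟩ := pair_lemma hG hdet hpos prime_two AR_two_one
      AR_two_one (fun h => absurd h prime_two.not_dvd_one) one_ne_zero (u2 := u1) h'
      (by rw [one_mul, hu1]) (by rw [form_symm hG, hvw])
    exact ⟨z, hz, hz'.resolve_left prime_two.not_dvd_one⟩
  · rw [h', abs_norm_mul_unit', norm_r5] at hw8
    norm_num at hw8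
  · omega

include hG in
theorem gram_of_orth {a b c : Fin 3 → Zp} (hab : a ⬝ᵥ G *ᵥ b = 0) (hac : a ⬝ᵥ G *ᵥ c = 0)
    (hbc : b ⬝ᵥ G *ᵥ c = 0) :
    ∃ P : Matrix (Fin 3) (Fin 3) Zp,
      Pᵀ * G * P = !![a ⬝ᵥ G *ᵥ a, 0, 0; 0, b ⬝ᵥ G *ᵥ b, 0; 0, 0, c ⬝ᵥ G *ᵥ c] := by
  refine ⟨(Matrix.of ![a, b, c])ᵀ, ?_⟩
  have : ∀ i j, ((Matrix.of ![a, b, c])ᵀᵀ * G * (Matrix.of ![a, b, c])ᵀ) i j =
      ![a, b, c] i ⬝ᵥ G *ᵥ ![a, b, c] j := by
    intro i j
    rw [Matrix.mul_assoc]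
    rfl
  ext1 i j
  rw [this]
  fin_cases i <;> fin_cases j <;>
    simp [hab, hac, hbc, form_symm hG b a, form_symm hG c a, form_symm hG c b]

include hG hdet hpos in
/-- A unimodular ternary form over `ℤ[φ]`, positive definite at the second place, is similar to
`x² + y² + z²` or to `x² + y² - φ z²`. -/
theorem unimodular_classification :
    ∃ (P : Matrix (Fin 3) (Fin 3) Zp) (t : Zpˣ),
      Pᵀ * G * P = (t : Zp) • (1 : Matrix (Fin 3) (Fin 3) Zp) ∨ Pᵀ * G * P = (t : Zp) • JJ := by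
  have hnorm : ∀ v : Fin 3 → Zp, IsUnit (v ⬝ᵥ G *ᵥ v) → ∃ e : Zp,
      (e • v) ⬝ᵥ G *ᵥ (e • v) = 1 ∨ (e • v) ⬝ᵥ G *ᵥ (e • v) = -ph := by
    rintro v ⟨u, hu⟩
    obtain ⟨e, he⟩ := unit_normal u (by
      rw [hu]
      refine hpos v ?_
      rintro rfl
      simp at hu)
    refine ⟨(e⁻¹ : Zpˣ), ?_⟩
    rw [mulVec_smul, smul_dotProduct, dotProduct_smul, ← hu, smul_eq_mul, smul_eq_mul]
    have := e.inv_mul
    rcases he with he | he
    · left
      rw [he]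
      linear_combination ((e⁻¹ : Zpˣ) * e + 1) * this
    · right
      rw [he]
      linear_combination (-ph * ((e⁻¹ : Zpˣ) * e + 1)) * this
  obtain ⟨a0, ha0⟩ := exists_unit_vector hG hdet hpos
  obtain ⟨b0, hb0, hab0⟩ := exists_unit_perp hG hdet hpos ha0
  obtain ⟨c0, u, -, hac0, hbc0, hc0⟩ := exists_normal hG hdet hab0
  obtain ⟨ea, ha⟩ := hnorm a0 ha0
  obtain ⟨eb, hb⟩ := hnorm b0 hb0
  obtain ⟨ec, hc⟩ := hnorm c0 (hc0 ▸ (ha0.mul hb0).mul u.isUnit)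
  have hab : (ea • a0) ⬝ᵥ G *ᵥ (eb • b0) = 0 := by simp [mulVec_smul, hab0]
  have hac : (ea • a0) ⬝ᵥ G *ᵥ (ec • c0) = 0 := by simp [mulVec_smul, hac0]
  have hbc : (eb • b0) ⬝ᵥ G *ᵥ (ec • c0) = 0 := by simp [mulVec_smul, hbc0]
  generalize ea • a0 = a at ha hab hac
  generalize eb • b0 = b at hb hab hbc
  generalize ec • c0 = c at hc hac hbc
  have key : ∀ a b c : Fin 3 → Zp, a ⬝ᵥ G *ᵥ b = 0 → a ⬝ᵥ G *ᵥ c = 0 → b ⬝ᵥ G *ᵥ c = 0 →
      a ⬝ᵥ G *ᵥ a = b ⬝ᵥ G *ᵥ b → (a ⬝ᵥ G *ᵥ a = 1 ∨ a ⬝ᵥ G *ᵥ a = -ph) →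
      (c ⬝ᵥ G *ᵥ c = 1 ∨ c ⬝ᵥ G *ᵥ c = -ph) →
      ∃ (P : Matrix (Fin 3) (Fin 3) Zp) (t : Zpˣ),
        Pᵀ * G * P = (t : Zp) • (1 : Matrix (Fin 3) (Fin 3) Zp) ∨
          Pᵀ * G * P = (t : Zp) • JJ := by
    intro a b c hab hac hbc h ha hc
    obtain ⟨P, hP⟩ := gram_of_orth hG hab hac hbc
    obtain ⟨P', hP'⟩ := gram_of_orth hG (c := ph • c) hab (by simp [mulVec_smul, hac])
      (by simp [mulVec_smul, hbc])
    rw [mulVec_smul, smul_dotProduct, dotProduct_smul] at hP'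
    rw [← h] at hP hP'
    rcases ha with ha | ha <;> rcases hc with hc | hc <;> rw [ha, hc] at hP hP'
    · exact ⟨P, 1, Or.inl (by rw [hP]; decide +kernel)⟩
    · exact ⟨P, 1, Or.inr (by rw [hP]; decide +kernel)⟩
    · exact ⟨P', -phU, Or.inr (by rw [hP']; decide +kernel)⟩
    · exact ⟨P, -phU, Or.inl (by rw [hP]; decide +kernel)⟩
  have hba : b ⬝ᵥ G *ᵥ a = 0 := by rw [form_symm hG, hab]
  have hca : c ⬝ᵥ G *ᵥ a = 0 := by rw [form_symm hG, hac]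
  have hcb : c ⬝ᵥ G *ᵥ b = 0 := by rw [form_symm hG, hbc]
  by_cases h1 : a ⬝ᵥ G *ᵥ a = b ⬝ᵥ G *ᵥ b
  · exact key a b c hab hac hbc h1 ha hc
  by_cases h2 : a ⬝ᵥ G *ᵥ a = c ⬝ᵥ G *ᵥ c
  · exact key a c b hac hab hcb h2 ha hb
  refine key b c a hbc hba hca ?_ hb ha
  rcases ha with ha | ha <;> rcases hb with hb | hb <;> rcases hc with hc | hc <;> simp_all

end form

theorem finite_orth_one : {g : GL (Fin 3) Zp | g.1ᵀ * g.1 = 1}.Finite := by
  refine Set.Finite.of_finite_image (f := fun g : GL (Fin 3) Zp => fun i j => g.1 i j) ?_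
    (fun a _ b _ h => Units.ext h)
  refine (Set.Finite.pi' fun _ : Fin 3 => Set.Finite.pi' fun _ : Fin 3 => finite_bounded 1).subset ?_
  rintro _ ⟨g, hg, rfl⟩ i j
  have h := congrFun (congrFun hg j) j
  simp only [Matrix.mul_apply, transpose_apply, one_apply_eq] at h
  have key : ∀ s : Zp →+* ℝ, |s (g.1 i j)| ≤ 1 := by
    intro s
    have h1 := congrArg s h
    rw [map_sum, map_one] at h1
    rw [abs_le_one_iff_mul_self_le_one, ← h1, ← map_mul]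
    exact Finset.single_le_sum (f := fun k => s (g.1 k j * g.1 k j))
      (fun k _ => by rw [map_mul]; exact mul_self_nonneg _) (Finset.mem_univ i)
  exact ⟨key s1, key s2⟩

/-- A group without quotient of order two acting on a unimodular ternary lattice over `ℤ[φ]` that is
definite at the second place either acts through a finite group or maps to the triangle group
`(2,5,5)` with the same kernel. -/
theorem TriData.finite_or_exists_hom {Δ : Type} [Group Δ] (T : TriData Δ) (hp0 : T.p 0 = 2)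
    (hp1 : T.p 1 = 5) (hp2 : T.p 2 = 5) {G : Matrix (Fin 3) (Fin 3) Zp} (hG : G.IsSymm)
    (hdet : IsUnit G.det) (hpos : ∀ v, v ≠ 0 → 0 < s2 (v ⬝ᵥ G *ᵥ v)) {Γ : Type} [Group Γ]
    (ρ : Γ →* GL (Fin 3) Zp) (hρ : ∀ γ, (ρ γ).1ᵀ * G * (ρ γ).1 = G)
    (h2 : ∀ θ : Γ →* Multiplicative (ZMod 2), ¬ Function.Surjective θ) :
    Finite ρ.range ∨ ∃ f : Γ →* Δ, f.ker = ρ.ker := by
  obtain ⟨P, t, hP⟩ := unimodular_classification hG hdet hpos
  have hPu : IsUnit P := by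
    rw [Matrix.isUnit_iff_isUnit_det]
    have : IsUnit (Pᵀ * G * P).det := by
      rcases hP with h | h <;> rw [h, det_smul]
      · simp
      · refine (t.isUnit.pow _).mul ?_
        have : JJ.det = ((-phU : Zpˣ) : Zp) := by decide +kernel
        rw [this]
        exact Units.isUnit _
    rw [det_mul] at this
    exact isUnit_of_mul_isUnit_right this
  obtain ⟨P, rfl⟩ := hPu
  let c : GL (Fin 3) Zp ≃* GL (Fin 3) Zp := MulAut.conj P⁻¹
  have hc : ∀ γ, (c (ρ γ)).1ᵀ * (P.1ᵀ * G * P.1) * (c (ρ γ)).1 = P.1ᵀ * G * P.1 := by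
    intro γ
    have h1 : P.1 * (c (ρ γ)).1 = (ρ γ).1 * P.1 := by
      rw [← Units.val_mul, ← Units.val_mul]
      simp [c, mul_assoc]
    calc _ = (P.1 * (c (ρ γ)).1)ᵀ * G * (P.1 * (c (ρ γ)).1) := by
          simp only [transpose_mul, Matrix.mul_assoc]
      _ = P.1ᵀ * ((ρ γ).1ᵀ * G * (ρ γ).1) * P.1 := by
          rw [h1]; simp only [transpose_mul, Matrix.mul_assoc]
      _ = _ := by rw [hρ]
  have hcancel : ∀ A B : Matrix (Fin 3) (Fin 3) Zp, (t : Zp) • A = (t : Zp) • B → A = B :=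
    fun A B h => by simpa [smul_smul] using congrArg (fun M => ((t⁻¹ : Zpˣ) : Zp) • M) h
  rcases hP with h | h
  · left
    have : ((c.toMonoidHom.comp ρ).range : Set (GL (Fin 3) Zp)).Finite := by
      refine finite_orth_one.subset ?_
      rintro _ ⟨γ, rfl⟩
      apply hcancel
      have := hc γ
      rw [h] at this
      simpa using this
    have h3 : ((ρ.range : Set (GL (Fin 3) Zp))).Finite := by
      refine Set.Finite.of_finite_image (f := c) (this.subset ?_) c.injective.injOn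
      rintro _ ⟨_, ⟨γ, rfl⟩, rfl⟩
      exact ⟨γ, rfl⟩
    exact h3
  · right
    obtain ⟨ϖ, hinj, hϖ⟩ := T.exists_orth_rep hp0 hp1 hp2
    have hmem := hϖ Γ (c.toMonoidHom.comp ρ) (fun γ => by
      apply hcancel
      have := hc γ
      rw [h] at this
      simpa using this) h2
    refine ⟨(MonoidHom.ofInjective hinj).symm.toMonoidHom.comp
      ((c.toMonoidHom.comp ρ).codRestrict _ hmem), ?_⟩
    ext γ
    simp [MonoidHom.mem_ker]

end Pool.Agent.Work.MP_f81df4_al.H80
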