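import Pool.Agent.Work.MP_f81df4_al.H80Hopf
import Pool.Agent.Work.MP_f81df4_al.H80Unimod

/-! Recognition of the groups `Λ_k`, residual finiteness and the final assembly. -/

set_option autoImplicit false

namespace Pool.Agent.Work.MP_f81df4_al.H80

/-- Residual finiteness as in the frozen statement. -/
def RF (Γ : Type) [Group Γ] : Prop := ∀ g : Γ, g ≠ 1 → ∃ H : Subgroup Γ, H.index ≠ 0 ∧ g ∉ H

theorem RF.of_hom {Γ : Type} [Group Γ]
    (h : ∀ g : Γ, g ≠ 1 → ∃ (Q : Type) (_ : Group Q) (_ : Finite Q) (φ : Γ →* Q), φ g ≠ 1) :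
    RF Γ := by
  intro g hg
  obtain ⟨Q, _, _, φ, hφ⟩ := h g hg
  exact ⟨φ.ker, Subgroup.FiniteIndex.index_ne_zero, hφ⟩

theorem RF.exists_injOn {Γ : Type} [Group Γ] (h : RF Γ) {S : Set Γ} (hS : S.Finite) :
    ∃ (Q : Type) (_ : Group Q) (_ : Finite Q) (φ : Γ →* Q), Set.InjOn φ S := by
  have : Finite S := hS
  have h1 : ∀ p : S × S, ∃ H : Subgroup Γ, H.FiniteIndex ∧
      (p.1 ≠ p.2 → (p.1 : Γ)⁻¹ * p.2 ∉ H) := by
    intro p
    by_cases hp : p.1 = p.2
    · exact ⟨⊤, inferInstance, fun h => absurd hp h⟩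
    · obtain ⟨H, h1, h2⟩ := h ((p.1 : Γ)⁻¹ * p.2)
        (fun h => hp (Subtype.ext (inv_mul_eq_one.1 h)))
      exact ⟨H, ⟨h1⟩, fun _ => h2⟩
  choose H hH1 hH2 using h1
  have : (⨅ p, H p).FiniteIndex := Subgroup.finiteIndex_iInf hH1
  refine ⟨Γ ⧸ (⨅ p, H p).normalCore, inferInstance, inferInstance, QuotientGroup.mk' _, ?_⟩
  intro a ha b hb hab
  by_contra hne
  exact hH2 (⟨a, ha⟩, ⟨b, hb⟩) (fun h => hne (congrArg Subtype.val h))
    (iInf_le H _ (Subgroup.normalCore_le _ (QuotientGroup.eq.1 hab)))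

section detect

def mA : GL (Fin 2) (ZMod 11) := ⟨!![1, 1; 0, 1], !![1, -1; 0, 1], by decide, by decide⟩
def yA : GL (Fin 2) (ZMod 11) := ⟨!![3, 0; 0, 1], !![4, 0; 0, 1], by decide, by decide⟩
def yB : GL (Fin 2) (ZMod 5) := ⟨!![2, -1; 1, 0], !![0, 1; -1, 2], by decide, by decide⟩
def zB : GL (Fin 2) (ZMod 5) := ⟨!![0, 2; 2, 2], !![2, -2; -2, 0], by decide, by decide⟩

theorem relA : LamRel 1 mA yA yA⁻¹ :=
  ⟨by decide +kernel, by decide +kernel, by decide +kernel, by simp, by simp, by simp,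
    by decide +kernel, by decide +kernel⟩

theorem relA' (k : ℕ) : LamRel k mA (yA ^ k) (yA ^ k)⁻¹ := by
  have h := rel_ym_pow relA k
  rw [one_mul] at h
  have h5 : (yA ^ k) ^ 5 = 1 := by rw [← pow_mul, mul_comm, pow_mul, relA.hy, one_pow]
  exact ⟨relA.hf, h5, by rw [inv_pow, h5, inv_one], by simp, by simp, by simp, h,
    by rw [inv_inv]; exact h⟩

theorem yzB : (yB * zB) ^ 2 = -1 := by decide +kernel

theorem relB (k : ℕ) : LamRel k 1 yB zB :=
  LamRel.of_one k (by decide +kernel) (by decide +kernel) (by decide +kernel)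
    (by rw [yzB]; simp) (by rw [yzB]; simp)

theorem lam_detect {L : Type} [Group L] {k : ℕ} (A : LamData L k) :
    ∃ (Q : Type) (_ : Group Q) (_ : Finite Q) (h : L →* Q),
      h A.f ≠ 1 ∧ h ((A.y * A.z) ^ 2) ≠ 1 := by
  obtain ⟨h1, a1, -, -⟩ := A.lift _ _ _ _ (relA' k)
  obtain ⟨h2, -, b2, b3⟩ := A.lift _ _ _ _ (relB k)
  refine ⟨_, inferInstance, inferInstance, h1.prod h2, fun h => ?_, fun h => ?_⟩
  · have : h1 A.f = 1 := congrArg Prod.fst h
    rw [a1] at this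
    revert this
    decide +kernel
  · have : h2 ((A.y * A.z) ^ 2) = 1 := congrArg Prod.snd h
    rw [map_pow, map_mul, b2, b3, yzB] at this
    revert this
    decide +kernel

end detect

theorem zpow_mul_zpow_eq_one {H : Type} [Group H] {m c : H} (hm : m ^ 11 = 1) (hc : c ^ 2 = 1)
    (hm1 : m ≠ 1) (hc1 : c ≠ 1) {a b : ℤ} (h : m ^ a * c ^ b = 1) : (11 : ℤ) ∣ a ∧ (2 : ℤ) ∣ b := by
  have : Fact (Nat.Prime 11) := ⟨by norm_num⟩
  have h1 : m ^ a = (c ^ b)⁻¹ := eq_inv_of_mul_eq_one_left h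
  have h2 : m ^ a = 1 := by
    refine eq_one_of_coprime (a := 11) (b := 2) (by norm_num) ?_ ?_
    · rw [← zpow_natCast, ← zpow_mul, mul_comm, zpow_mul, zpow_natCast, hm, one_zpow]
    · rw [h1, inv_pow, ← zpow_natCast, ← zpow_mul, mul_comm, zpow_mul, zpow_natCast, hc, one_zpow,
        inv_one]
  rw [h2, one_mul] at h
  rw [← orderOf_dvd_iff_zpow_eq_one, orderOf_eq_prime hm hm1] at h2
  rw [← orderOf_dvd_iff_zpow_eq_one, orderOf_eq_prime hc hc1] at h
  exact ⟨h2, h⟩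

theorem zpow_mul_zpow_of_dvd {H : Type} [Group H] {m c : H} (hm : m ^ 11 = 1) (hc : c ^ 2 = 1)
    {a b : ℤ} (h : (11 : ℤ) ∣ a ∧ (2 : ℤ) ∣ b) : m ^ a * c ^ b = 1 := by
  obtain ⟨⟨a, rfl⟩, ⟨b, rfl⟩⟩ := h
  rw [zpow_mul, zpow_mul, zpow_ofNat, zpow_ofNat, hm, hc]
  simp

theorem rf_GL : RF (GL (Fin 3) Zp) := by
  refine RF.of_hom fun g hg => ?_
  obtain ⟨i, j, hij⟩ : ∃ i j, g.1 i j - (1 : Matrix (Fin 3) (Fin 3) Zp) i j ≠ 0 := by
    by_contra h
    push Not at h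
    exact hg (Units.ext (Matrix.ext fun i j => sub_eq_zero.1 (h i j)))
  set d := g.1 i j - (1 : Matrix (Fin 3) (Fin 3) Zp) i j with hd
  let n := d.re.natAbs + d.im.natAbs + 1
  have : NeZero n := ⟨by omega⟩
  let R := QuadraticAlgebra (ZMod n) 1 1
  have : Finite R := Finite.of_equiv _ (QuadraticAlgebra.equivProd (1 : ZMod n) 1).symm
  let σ : Zp →+* R := emb (⟨0, 1⟩ : R) (by ext <;> simp [R, QuadraticAlgebra.re_one, QuadraticAlgebra.im_one])
  refine ⟨GL (Fin 3) R, inferInstance, inferInstance, Matrix.GeneralLinearGroup.map σ, fun h => ?_⟩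
  have h1 : σ (g.1 i j) = (1 : Matrix (Fin 3) (Fin 3) R) i j :=
    congrArg (fun M : GL (Fin 3) R => M.1 i j) h
  have h2 : σ d = 0 := by
    rw [hd, map_sub, h1, Matrix.one_apply, Matrix.one_apply]
    split_ifs <;> simp
  rw [emb_apply] at h2
  have h3 : ((d.re : ℤ) : ZMod n) = 0 := by simpa [R] using congrArg QuadraticAlgebra.re h2
  have h4 : ((d.im : ℤ) : ZMod n) = 0 := by simpa [R] using congrArg QuadraticAlgebra.im h2
  rw [ZMod.intCast_zmod_eq_zero_iff_dvd] at h3 h4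
  apply hij
  ext
  · exact Int.eq_zero_of_dvd_of_natAbs_lt_natAbs h3 (by simp only [n]; omega)
  · exact Int.eq_zero_of_dvd_of_natAbs_lt_natAbs h4 (by simp only [n]; omega)

theorem lam_rf {L : Type} [Group L] {k : ℕ} (A : LamData L k) : RF L := by
  obtain ⟨Δ, _, T, hp0, hp1, hp2⟩ := exists_triData
  obtain ⟨π, hπ1, hπ2, hπ3⟩ := lam_exists_proj A T hp0 hp1 hp2
  obtain ⟨ϖ, hϖ, -⟩ := T.exists_orth_rep hp0 hp1 hp2
  intro g hg
  by_cases h : π g = 1
  · obtain ⟨a, b, rfl⟩ := lam_ker_proj A T hp0 hp1 hp2 hπ1 hπ2 hπ3 g h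
    obtain ⟨Q, _, _, φ, h1, h2⟩ := lam_detect A
    refine ⟨φ.ker, Subgroup.FiniteIndex.index_ne_zero, fun h3 => hg ?_⟩
    rw [MonoidHom.mem_ker, map_mul, map_zpow, map_zpow] at h3
    exact zpow_mul_zpow_of_dvd A.rel.hf (rel_c2 A.rel) (zpow_mul_zpow_eq_one
      (by rw [← map_pow, A.rel.hf, map_one]) (by rw [← map_pow, rel_c2 A.rel, map_one]) h1 h2 h3)
  · obtain ⟨H, h1, h2⟩ := rf_GL (ϖ (π g)) (fun h' => h (hϖ (h'.trans (map_one ϖ).symm)))
    refine ⟨H.comap (ϖ.comp π), ?_, h2⟩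
    have : H.FiniteIndex := ⟨h1⟩
    rw [Subgroup.index_comap]
    exact Subgroup.FiniteIndex.index_ne_zero

theorem lam_iso {L G : Type} [Group L] [Group G] {k : ℕ} (A : LamData L k) (B : LamData G k) :
    Nonempty (L ≃* G) := by
  obtain ⟨φ, h1, h2, h3⟩ := A.lift G _ _ _ B.rel
  obtain ⟨ψ, h4, h5, h6⟩ := B.lift L _ _ _ A.rel
  exact ⟨MonoidHom.toMulEquiv φ ψ (A.hom_ext (by simp [*]) (by simp [*]) (by simp [*]))
    (B.hom_ext (by simp [*]) (by simp [*]) (by simp [*]))⟩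

/-- Exchange of the two generators of order five. -/
def lamSwap {L : Type} [Group L] {k v : ℕ} (A : LamData L k) (h1 : k * 4 ≡ v [MOD 5])
    (h2 : v * 4 ≡ k [MOD 5]) : LamData L v where
  f := A.f
  y := A.z
  z := A.y
  rel := rel_swap A.rel h1
  gen := by rw [← A.gen, Set.pair_comm A.z A.y]
  lift H _ f y z h := by
    obtain ⟨φ, a, b, c⟩ := A.lift H f z y (rel_swap h h2)
    exact ⟨φ, a, c, b⟩

section quot

variable {L G : Type} [Group L] [Group G] (E : BohrEquiv L G) {k : ℕ} (A : LamData L k)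

include E A in
theorem no_quot_two (θ : G →* Multiplicative (ZMod 2)) : ¬ Function.Surjective θ := by
  intro hθ
  set h := (fe E _).symm θ with hh
  have h2 : ∀ x : Multiplicative (ZMod 2), x ^ 2 = 1 := by decide
  have R := A.rel.map h
  have : h = 1 := A.hom_ext (eq_one_of_coprime (by norm_num) (h2 _) R.hf)
    (eq_one_of_coprime (by norm_num) (h2 _) R.hy) (eq_one_of_coprime (by norm_num) (h2 _) R.hz)
  have h3 := fe_symm_range E θ
  rw [← hh, this, Set.range_eq_univ.2 hθ] at h3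
  obtain ⟨x, hx⟩ : Multiplicative.ofAdd (1 : ZMod 2) ∈ Set.range (1 : L →* _) := by
    rw [h3]; trivial
  have hx' : (1 : Multiplicative (ZMod 2)) = Multiplicative.ofAdd (1 : ZMod 2) := hx
  exact absurd hx' (by decide)

include E A in
theorem no_quot_five (θ : G →* Multiplicative (ZMod 5 × ZMod 5)) : ¬ Function.Surjective θ := by
  intro hθ
  set h := (fe E _).symm θ with hh
  have h5 : ∀ x : Multiplicative (ZMod 5 × ZMod 5), x ^ 5 = 1 := by decide
  have R := A.rel.map h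
  have h1 : h A.f = 1 := eq_one_of_coprime (by norm_num) (h5 _) R.hf
  have h2 : h A.y * h A.z = 1 := eq_one_of_coprime (by norm_num) (h5 _) R.hw
  have h3 : ∀ l, h l ∈ Subgroup.zpowers (h A.y) := fun l =>
    A.mem_of ((Subgroup.zpowers (h A.y)).comap h) (by simp [h1]) (by simp)
      (by simp [eq_inv_of_mul_eq_one_right h2]) l
  have h4 := fe_symm_range E θ
  rw [← hh, Set.range_eq_univ.2 hθ] at h4
  have h6 : Subgroup.zpowers (h A.y) = ⊤ := by
    rw [eq_top_iff]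
    intro x _
    obtain ⟨l, rfl⟩ : x ∈ Set.range h := by rw [h4]; trivial
    exact h3 l
  have h7 := Nat.card_zpowers (h A.y)
  rw [h6] at h7
  have h8 := Nat.le_of_dvd (by norm_num) (orderOf_dvd_of_pow_eq_one (h5 (h A.y)))
  rw [← h7] at h8
  simp at h8

end quot

theorem lam_conj_f {L : Type} [Group L] {k : ℕ} (A : LamData L k) (l : L) :
    ∃ j : ℕ, l * A.f * l⁻¹ = A.f ^ 3 ^ j := by
  let S : Subgroup L :=
    { carrier := {l | ∃ j : ℕ, l * A.f * l⁻¹ = A.f ^ 3 ^ j}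
      one_mem' := ⟨0, by simp⟩
      mul_mem' := by
        rintro a b ⟨i, hi⟩ ⟨j, hj⟩
        refine ⟨i + j, ?_⟩
        rw [pow_add, pow_mul, ← hi, conj_pow, ← hj]
        group
      inv_mem' := by
        rintro a ⟨i, hi⟩
        refine ⟨4 * i, ?_⟩
        have h1 : a * A.f ^ 3 ^ (4 * i) * a⁻¹ = A.f := by
          rw [← conj_pow, hi, ← pow_mul, ← pow_add,
            pow_three_pow A.rel.hf (b := 0) (by unfold Nat.ModEq; omega)]
          simp
        conv_lhs => rw [← h1]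
        group }
  exact A.mem_of S ⟨0, by simp⟩ ⟨k, A.rel.ay⟩
    (S.inv_mem_iff.1 ⟨k, by rw [inv_inv]; exact A.rel.az⟩) l

theorem three_pow_inj {H : Type} [Group H] {m : H} (hm : m ^ 11 = 1) (hm1 : m ≠ 1) {a b : ℕ}
    (h : m ^ 3 ^ a = m ^ 3 ^ b) : a ≡ b [MOD 5] := by
  have : Fact (Nat.Prime 11) := ⟨by norm_num⟩
  rw [pow_three_pow hm (Nat.mod_modEq a 5).symm, pow_three_pow hm (Nat.mod_modEq b 5).symm,
    pow_eq_pow_iff_modEq, orderOf_eq_prime hm hm1] at h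
  have ha := Nat.mod_lt a (by norm_num : 0 < 5)
  have hb := Nat.mod_lt b (by norm_num : 0 < 5)
  unfold Nat.ModEq at h ⊢
  generalize a % 5 = a at *
  generalize b % 5 = b at *
  interval_cases a <;> interval_cases b <;> simp_all

/-- A residually finite group with the same finite quotients as `Λ_1` which maps onto the triangle
group is one of the groups `Λ_k`. -/
theorem exists_lamData_of_surj {L G Δ : Type} [Group L] [Group G] [Group Δ] (E : BohrEquiv L G)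
    (A : LamData L 1) (hG : RF G) (T : TriData Δ) (hp0 : T.p 0 = 2) (hp1 : T.p 1 = 5)
    (hp2 : T.p 2 = 5) {q : G →* Δ} (hq : Function.Surjective q) :
    Nonempty (LamData G 1) ∨ Nonempty (LamData G 2) := by
  obtain ⟨π, hπ1, hπ2, hπ3⟩ := lam_exists_proj A T hp0 hp1 hp2
  have hπc : π ((A.y * A.z) ^ 2) = 1 := by rw [map_pow, map_mul, hπ2, hπ3, tri_sq T hp0]
  have hker := fun {Q : Type} [Group Q] [Finite Q] (φ : G →* Q) =>
    map_ker_eq E A T hp0 hp1 hp2 hq hπ1 hπ2 hπ3 ((fe E Q).symm φ)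
  simp only [Equiv.apply_symm_apply] at hker
  have hEfin : (π.ker : Set L).Finite := by
    have h1 : (Subgroup.zpowers A.f : Set L).Finite :=
      (isOfFinOrder_iff_pow_eq_one.2 ⟨11, by norm_num, A.rel.hf⟩).finite_zpowers
    have h2 : (Subgroup.zpowers ((A.y * A.z) ^ 2) : Set L).Finite :=
      (isOfFinOrder_iff_pow_eq_one.2 ⟨2, by norm_num, rel_c2 A.rel⟩).finite_zpowers
    refine (h1.image2 (· * ·) h2).subset fun l hl => ?_
    obtain ⟨a, b, rfl⟩ := lam_ker_proj A T hp0 hp1 hp2 hπ1 hπ2 hπ3 l hl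
    exact Set.mem_image2_of_mem ⟨a, rfl⟩ ⟨b, rfl⟩
  have hNfin : (q.ker : Set G).Finite := by
    by_contra hinf
    obtain ⟨S, hS1, hS2, hS3⟩ :=
      Set.Infinite.exists_subset_ncard_eq hinf ((π.ker : Set L).ncard + 1)
    obtain ⟨Q, _, _, φ, hφ⟩ := hG.exists_injOn hS2
    have h1 : φ '' S ⊆ (fe E Q).symm φ '' π.ker := by
      rw [← Subgroup.coe_map, ← hker, Subgroup.coe_map]
      exact Set.image_mono hS1
    have h2 := Set.ncard_le_ncard h1 (Set.toFinite _)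
    have h3 := Set.ncard_image_le (f := (fe E Q).symm φ) hEfin
    rw [hφ.ncard_image, hS3] at h2
    omega
  obtain ⟨Q1, _, _, φ1, hφ1⟩ := hG.exists_injOn hNfin
  obtain ⟨Q2, _, _, h2, hf2, hc2⟩ := lam_detect A
  let Φ : G →* Q1 × Q2 := φ1.prod (fe E Q2 h2)
  set h : L →* Q1 × Q2 := (fe E _).symm Φ with hh
  have hsnd : (MonoidHom.snd Q1 Q2).comp h = h2 := by
    rw [hh, ← fe_symm_nat, Equiv.symm_apply_eq]
    rfl
  have hΦ : ∀ a b, q a = 1 → q b = 1 → Φ a = Φ b → a = b :=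
    fun a b ha hb hab => hφ1 ha hb (congrArg Prod.fst hab)
  have hk := hker Φ
  rw [← hh] at hk
  obtain ⟨m, hm, hmΦ⟩ : h A.f ∈ q.ker.map Φ := hk ▸ ⟨_, hπ1, rfl⟩
  obtain ⟨c, hc, hcΦ⟩ : h ((A.y * A.z) ^ 2) ∈ q.ker.map Φ := hk ▸ ⟨_, hπc, rfl⟩
  replace hm : q m = 1 := hm
  replace hc : q c = 1 := hc
  have hrange : ∀ γ, ∃ l, h l = Φ γ := fun γ => by
    have : Φ γ ∈ Set.range h := by rw [hh, fe_symm_range]; exact Set.mem_range_self γ
    exact this
  have hm11 : m ^ 11 = 1 := hΦ _ _ (by simp [hm]) (map_one _)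
    (by rw [map_pow, hmΦ, ← map_pow, A.rel.hf, map_one, map_one])
  have hcc : c ^ 2 = 1 := hΦ _ _ (by simp [hc]) (map_one _)
    (by rw [map_pow, hcΦ, ← map_pow, rel_c2 A.rel, map_one, map_one])
  have hm1 : m ≠ 1 := by
    rintro rfl
    exact hf2 ((DFunLike.congr_fun hsnd _).symm.trans (by simp [← hmΦ]))
  have hc1 : c ≠ 1 := by
    rintro rfl
    exact hc2 ((DFunLike.congr_fun hsnd _).symm.trans (by simp [← hcΦ]))
  have hcen : ∀ γ, Commute c γ := by
    intro γ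
    obtain ⟨l, hl⟩ := hrange γ
    have : γ * c * γ⁻¹ = c := hΦ _ _ (by simp [hc]) hc (by
      rw [map_mul, map_mul, map_inv, ← hl, hcΦ, ← ((lam_c_comm A l).map h).eq,
        mul_inv_cancel_right])
    rw [Commute, SemiconjBy, eq_comm, ← mul_inv_eq_iff_eq_mul, this]
  have hact : ∀ γ, ∃ j : ℕ, γ * m * γ⁻¹ = m ^ 3 ^ j := by
    intro γ
    obtain ⟨l, hl⟩ := hrange γ
    obtain ⟨j, hj⟩ := lam_conj_f A l
    exact ⟨j, hΦ _ _ (by simp [hm]) (by simp [hm]) (by
      rw [map_mul, map_mul, map_inv, map_pow, ← hl, hmΦ, ← map_inv, ← map_mul, ← map_mul, hj,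
        map_pow])⟩
  have hN : ∀ n, q n = 1 → ∃ a b : ℤ, n = m ^ a * c ^ b := by
    intro n hn
    obtain ⟨l, hl, hl2⟩ : Φ n ∈ π.ker.map h := hk ▸ ⟨n, hn, rfl⟩
    obtain ⟨a, b, rfl⟩ := lam_ker_proj A T hp0 hp1 hp2 hπ1 hπ2 hπ3 l hl
    exact ⟨a, b, hΦ _ _ hn (by simp [hm, hc]) (by
      rw [← hl2, map_mul, map_mul, map_zpow, map_zpow, map_zpow, map_zpow, hmΦ, hcΦ])⟩
  have hNm : ∀ n, q n = 1 → Commute n m := by
    intro n hn
    obtain ⟨a, b, rfl⟩ := hN n hn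
    exact ((Commute.refl m).zpow_left a).mul_left ((hcen m).zpow_left b)
  have hlift : ∀ g : Δ, g ^ 5 = 1 → ∃ y : G, q y = g ∧ y ^ 5 = 1 := by
    intro g hg
    obtain ⟨y, rfl⟩ := hq g
    obtain ⟨a, b, hab⟩ := hN (y ^ 5) (by rw [map_pow, hg])
    refine ⟨y ^ 66, ?_, ?_⟩
    · rw [map_pow, show 66 = 5 * 13 + 1 by rfl, pow_succ, pow_mul, hg, one_pow, one_mul]
    · rw [← pow_mul, show 66 * 5 = 5 * 66 by rfl, pow_mul, hab,
        ((hcen _).symm.zpow_right b).mul_pow, ← zpow_natCast, ← zpow_natCast, ← zpow_mul,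
        ← zpow_mul]
      exact zpow_mul_zpow_of_dvd hm11 hcc ⟨Dvd.dvd.mul_left (by norm_num) _,
        Dvd.dvd.mul_left (by norm_num) _⟩
  obtain ⟨y, hy, hy5⟩ := hlift _ (hp1 ▸ T.pow 1)
  obtain ⟨z1, hz1, hz15⟩ := hlift _ (hp2 ▸ T.pow 2)
  have hw2 : q ((y * z1) ^ 2) = 1 := by rw [map_pow, map_mul, hy, hz1, tri_sq T hp0]
  have hwm : Commute (y * z1) m := by
    obtain ⟨j, hj⟩ := hact (y * z1)
    have h1 : m ^ 3 ^ (j + j) = m ^ 3 ^ 0 := by
      rw [pow_add, pow_mul, ← hj, conj_pow, ← hj, pow_zero, pow_one]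
      conv_rhs => rw [← mul_inv_cancel_right m ((y * z1) ^ 2), ← (hNm _ hw2).eq, sq]
      group
    have h2 := three_pow_inj hm11 hm1 h1
    rw [pow_three_pow hm11 (b := 0) (by unfold Nat.ModEq at h2 ⊢; omega), pow_zero, pow_one] at hj
    rw [Commute, SemiconjBy, ← mul_inv_eq_iff_eq_mul, hj]
  obtain ⟨k0, hk0⟩ := hact z1⁻¹
  rw [inv_inv, pow_three_pow hm11 (Nat.mod_modEq k0 5).symm] at hk0
  have hklt := Nat.mod_lt k0 (by norm_num : 0 < 5)
  generalize k0 % 5 = k at hk0 hklt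
  have hyk : y * m * y⁻¹ = m ^ 3 ^ k := by
    have h1 : (y * z1) * m ^ 3 ^ k * (y * z1)⁻¹ = m ^ 3 ^ k := by
      rw [(hwm.pow_right _).eq, mul_inv_cancel_right]
    rw [← h1, ← hk0]
    group
  have hk : k ≠ 0 := by
    rintro rfl
    rw [pow_zero, pow_one] at hk0 hyk
    have hcent : ∀ γ, γ ∈ Subgroup.centralizer {m} := by
      intro γ
      have h1 : Subgroup.closure (Set.range T.g) ≤ (Subgroup.centralizer {m}).map q := by
        have a1 : y ∈ Subgroup.centralizer {m} := Subgroup.mem_centralizer_singleton_iff.2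
          (mul_inv_eq_iff_eq_mul.1 hyk)
        have a2 : z1 ∈ Subgroup.centralizer {m} := Subgroup.mem_centralizer_singleton_iff.2
          (by conv_lhs => rw [← hk0]
              group)
        rw [Subgroup.closure_le]
        rintro _ ⟨j, rfl⟩
        fin_cases j
        · exact ⟨(y * z1)⁻¹, Subgroup.inv_mem _ (Subgroup.mul_mem _ a1 a2),
            by simp [hy, hz1, tri_g0]⟩
        · exact ⟨y, a1, hy⟩
        · exact ⟨z1, a2, hz1⟩
      obtain ⟨γ', h2, h3⟩ := h1 (T.gen ▸ Subgroup.mem_top (q γ))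
      have h4 := hNm (γ'⁻¹ * γ) (by simp [h3])
      have := Subgroup.mul_mem _ h2 (Subgroup.mem_centralizer_singleton_iff.2 h4)
      simpa using this
    obtain ⟨γ, hγ⟩ : h A.y ∈ Set.range Φ := by
      rw [← fe_symm_range E]
      exact Set.mem_range_self _
    have h1 : m ^ 3 ^ 1 = m ^ 3 ^ 0 := by
      refine hΦ _ _ (by simp [hm]) (by simp [hm]) ?_
      have h2 := Subgroup.mem_centralizer_singleton_iff.1 (hcent γ)
      rw [map_pow, hmΦ, ← map_pow, ← A.rel.ay, map_mul, map_mul, map_inv, ← hγ, ← hmΦ, ← map_mul,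
        h2]
      simp
    exact absurd (three_pow_inj hm11 hm1 h1) (by decide)
  obtain ⟨a, b, hab⟩ := hN _ hw2
  obtain ⟨r, hr⟩ : ∃ r : ℤ, (11 : ℤ) ∣ a + 2 * (r * (3 ^ k - 1)) := by
    interval_cases k
    · exact absurd rfl hk
    · exact ⟨8 * a, by omega⟩
    · exact ⟨2 * a, by omega⟩
    · exact ⟨4 * a, by omega⟩
    · exact ⟨9 * a, by omega⟩
  set z := m ^ r * z1 * (m ^ r)⁻¹ with hz
  have hz' : z = z1 * m ^ (r * (3 ^ k - 1)) := by
    have h1 : z1⁻¹ * m ^ r * z1 = m ^ (3 ^ k * r) := by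
      have := conj_zpow (a := z1⁻¹) (b := m) (i := r)
      rw [inv_inv, hk0] at this
      rw [← this, ← zpow_natCast, ← zpow_mul]
      simp
    rw [hz, show m ^ r * z1 * (m ^ r)⁻¹ = z1 * (z1⁻¹ * m ^ r * z1) * (m ^ r)⁻¹ by group, h1]
    group
  have hqz : q z = T.g 2 := by simp [hz, hm, hz1]
  have hyz : (y * z) ^ 2 = c ^ b := by
    rw [hz', ← mul_assoc, (hwm.zpow_right _).mul_pow, hab, ← zpow_natCast, ← zpow_mul,
      mul_assoc, ((hcen _).zpow_left b).eq, ← mul_assoc, ← zpow_add]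
    have := zpow_mul_zpow_of_dvd hm11 hcc (a := a + r * (3 ^ k - 1) * (2 : ℕ)) (b := 0)
      ⟨by convert hr using 1; push_cast; ring, dvd_zero _⟩
    rw [zpow_zero, mul_one] at this
    rw [this, one_mul]
  have R : LamRel k m y z :=
    { hf := hm11
      hy := hy5
      hz := by rw [hz, conj_pow, hz15]; simp
      hw := by
        rw [show 4 = 2 * 2 by rfl, pow_mul, hyz, ← zpow_natCast, ← zpow_mul, mul_comm, zpow_mul,
          zpow_natCast, hcc, one_zpow]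
      cy := by rw [hyz]; exact (hcen _).zpow_left b
      cz := by rw [hyz]; exact (hcen _).zpow_left b
      ay := hyk
      az := by
        rw [hz', show (z1 * m ^ (r * (3 ^ k - 1)))⁻¹ * m * (z1 * m ^ (r * (3 ^ k - 1))) =
          (m ^ (r * (3 ^ k - 1)))⁻¹ * (z1⁻¹ * m * z1) * m ^ (r * (3 ^ k - 1)) by group, hk0]
        group }
  obtain ⟨L', _, ⟨B⟩⟩ := exists_lamData k
  obtain ⟨ι, hι1, hι2, hι3⟩ := B.lift G _ _ _ R
  have b1 : q.comp ι B.f = 1 := by simp [hι1, hm]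
  have b2 : q.comp ι B.y = T.g 1 := by simp [hι2, hy]
  have b3 : q.comp ι B.z = T.g 2 := by simp [hι3, hqz]
  have hsurj : ∀ γ, γ ∈ ι.range := by
    refine mem_of_two_cosets (MonoidHom.id G) (no_quot_two E A) ι.range c fun γ => ?_
    obtain ⟨l, hl⟩ := lam_proj_surjective B T b2 b3 (q γ)
    obtain ⟨a', b', h1⟩ := hN ((ι l)⁻¹ * γ) (by simp [← hl])
    have h2 : γ = ι (l * B.f ^ a') * c ^ b' := by
      rw [map_mul, map_zpow, hι1, mul_assoc, ← h1, mul_inv_cancel_left]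
    rcases Int.even_or_odd' b' with ⟨n, rfl | rfl⟩
    · left
      rw [zpow_mul, zpow_ofNat, hcc, one_zpow, mul_one] at h2
      exact ⟨_, h2.symm⟩
    · right
      rw [zpow_add, zpow_mul, zpow_ofNat, hcc, one_zpow, one_mul, zpow_one] at h2
      refine ⟨l * B.f ^ a', ?_⟩
      rw [MonoidHom.id_apply, h2, mul_assoc, ← sq, hcc, mul_one]
  have hyz1 : (y * z) ^ 2 ≠ 1 := by
    intro h0
    obtain ⟨l, hl⟩ := hsurj c
    obtain ⟨a', b', rfl⟩ := lam_ker_proj B T hp0 hp1 hp2 b1 b2 b3 l (by simp [hl, hc])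
    rw [map_mul, map_zpow, map_zpow, map_pow, map_mul, hι1, hι2, hι3, h0, one_zpow, mul_one] at hl
    have := zpow_mul_zpow_eq_one hm11 hcc hm1 hc1 (a := a') (b := -1) (by simp [hl])
    omega
  have hinj : Function.Injective ι := by
    rw [injective_iff_map_eq_one]
    intro l hl
    obtain ⟨a', b', rfl⟩ := lam_ker_proj B T hp0 hp1 hp2 b1 b2 b3 l (by simp [hl])
    rw [map_mul, map_zpow, map_zpow, map_pow, map_mul, hι1, hι2, hι3] at hl
    exact zpow_mul_zpow_of_dvd B.rel.hf (rel_c2 B.rel)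
      (zpow_mul_zpow_eq_one hm11 (rel_c2 R) hm1 hyz1 hl)
  let e : L' ≃* G := MulEquiv.ofBijective ι ⟨hinj, hsurj⟩
  let C : LamData G k :=
    { f := m
      y := y
      z := z
      rel := R
      gen := by
        rw [eq_top_iff]
        intro γ _
        obtain ⟨l, rfl⟩ := hsurj γ
        exact B.mem_of ((Subgroup.closure {m, y, z}).comap ι)
          (Subgroup.subset_closure (by simp [hι1])) (Subgroup.subset_closure (by simp [hι2]))
          (Subgroup.subset_closure (by simp [hι3])) l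
      lift := by
        intro H _ f' y' z' hrel
        obtain ⟨φ, a1, a2, a3⟩ := B.lift H _ _ _ hrel
        have he : ∀ l, e.symm (ι l) = l := e.symm_apply_apply
        exact ⟨φ.comp e.symm.toMonoidHom, by simp [← hι1, he, a1], by simp [← hι2, he, a2],
          by simp [← hι3, he, a3]⟩ }
  interval_cases k
  · exact absurd rfl hk
  · exact Or.inl ⟨C⟩
  · exact Or.inr ⟨C⟩
  · exact Or.inr ⟨lamSwap C (by decide) (by decide)⟩
  · exact Or.inl ⟨lamSwap C (by decide) (by decide)⟩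

end Pool.Agent.Work.MP_f81df4_al.H80
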