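import Mathlib.LinearAlgebra.Matrix.Charpoly.FiniteField
import Mathlib.Algebra.MonoidAlgebra.Module
import Mathlib.LinearAlgebra.Matrix.ToLin
import Mathlib.GroupTheory.OrderOfElement
import Mathlib.Algebra.Group.Subgroup.Finite
import Mathlib.Tactic

/-! Frobenius twist of generating triples of a finite group. -/

set_option autoImplicit false

namespace Pool.Agent.Work.MP_f81df4_al.H80

open scoped Classical
open MonoidAlgebra

section

variable {H : Type} [Group H] [Fintype H] {p : ℕ} [Fact p.Prime]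

theorem coeff_one_pow (hp : Fintype.card H < p) (x : MonoidAlgebra (ZMod p) H) :
    (x ^ p).coeff 1 = x.coeff 1 := by
  let L := Algebra.leftMulMatrix (MonoidAlgebra.basis H (ZMod p))
  have htr : ∀ x, Matrix.trace (L x) = Fintype.card H * x.coeff 1 := by
    intro x
    have : ∀ i, L x i i = x.coeff 1 := by
      intro i
      rw [Algebra.leftMulMatrix_eq_repr_mul]
      simp [MonoidAlgebra.basis]
    simp [Matrix.trace, this]
  have h1 := ZMod.trace_pow_card (L x)
  rw [← map_pow, htr, ZMod.pow_card, htr] at h1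
  refine mul_left_cancel₀ ?_ h1
  rw [Ne, ZMod.natCast_eq_zero_iff]
  exact Nat.not_dvd_of_pos_of_lt Fintype.card_pos hp

theorem coeff_pow_of_central (hp : Fintype.card H < p) (z : MonoidAlgebra (ZMod p) H)
    (hz : ∀ h : H, Commute z (single h 1)) (h : H) : (z ^ p).coeff (h ^ p) = z.coeff h := by
  have := coeff_one_pow hp (z * single h⁻¹ 1)
  rw [(hz _).mul_pow, single_pow] at this
  simpa using this

/-- The sum of the elements of a subset. -/
noncomputable def classSum (p : ℕ) (A : Set H) : MonoidAlgebra (ZMod p) H :=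
  ∑ a ∈ Finset.univ.filter (· ∈ A), single a 1

omit [Group H] in
theorem coeff_classSum (A : Set H) (h : H) :
    (classSum p A).coeff h = if h ∈ A then 1 else 0 := by
  simp [classSum, Finsupp.single_apply, Finsupp.finsetSum_apply]

theorem classSum_comm (A : Set H) (hA : ∀ g h, h ∈ A → g * h * g⁻¹ ∈ A) (h : H) :
    Commute (classSum p A) (single h 1) := by
  rw [Commute, SemiconjBy, ← coeff_inj]
  ext k
  rw [coeff_mul_single_apply, coeff_single_mul_apply, coeff_classSum, coeff_classSum]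
  have : k * h⁻¹ ∈ A ↔ h⁻¹ * k ∈ A :=
    ⟨fun h1 => by simpa [mul_assoc] using hA h⁻¹ _ h1, fun h1 => by simpa using hA h _ h1⟩
  simp [this]

theorem classSum_comm' (A : Set H) (hA : ∀ g h, h ∈ A → g * h * g⁻¹ ∈ A) (B : Set H) :
    Commute (classSum p A) (classSum p B) :=
  Commute.sum_right _ _ _ fun h _ => classSum_comm A hA h

theorem pow_bijective (hp : Fintype.card H < p) : Function.Bijective fun h : H => h ^ p :=
  (powCoprime (G := H) (n := p) (by
    rw [Nat.card_eq_fintype_card]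
    exact (Nat.coprime_of_lt_prime Fintype.card_pos.ne' hp (Fact.out : p.Prime)).symm)).bijective

theorem classSum_pow (hp : Fintype.card H < p) (A A' : Set H)
    (hA : ∀ g h, h ∈ A → g * h * g⁻¹ ∈ A) (hA' : ∀ h, h ^ p ∈ A' ↔ h ∈ A) :
    classSum p A ^ p = classSum p A' := by
  rw [← coeff_inj]
  ext k
  obtain ⟨h, rfl⟩ := (pow_bijective hp).2 k
  beta_reduce
  rw [coeff_pow_of_central hp _ (classSum_comm A hA), coeff_classSum, coeff_classSum]
  simp [hA']

/-- The number of pairs `(a, b)` in `A × B` with `(a * b)⁻¹` in `C`. -/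
noncomputable def cnt (A B C : Set H) : ℕ :=
  (Finset.univ.filter fun x : H × H => x.1 ∈ A ∧ x.2 ∈ B ∧ (x.1 * x.2)⁻¹ ∈ C).card

theorem coeff_triple (A B C : Set H) :
    (classSum p A * classSum p B * classSum p C).coeff 1 = cnt A B C := by
  rw [classSum, classSum, Finset.sum_mul_sum, Finset.sum_mul, coeff_sum, Finsupp.finsetSum_apply,
    cnt, Finset.card_filter, Fintype.sum_prod_type, Finset.sum_filter]
  push_cast
  refine Finset.sum_congr rfl fun a _ => ?_
  by_cases ha : a ∈ A
  · rw [if_pos ha, Finset.sum_mul, coeff_sum, Finsupp.finsetSum_apply, Finset.sum_filter]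
    refine Finset.sum_congr rfl fun b _ => ?_
    by_cases hb : b ∈ B
    · rw [if_pos hb, single_mul_single, coeff_single_mul_apply, coeff_classSum]
      simp [ha, hb]
    · simp [hb]
  · simp [ha]

theorem cnt_eq (hp : Fintype.card H * Fintype.card H < p) (A B C A' B' C' : Set H)
    (hA : ∀ g h, h ∈ A → g * h * g⁻¹ ∈ A) (hA' : ∀ h, h ^ p ∈ A' ↔ h ∈ A)
    (hB : ∀ g h, h ∈ B → g * h * g⁻¹ ∈ B) (hB' : ∀ h, h ^ p ∈ B' ↔ h ∈ B)
    (hC : ∀ g h, h ∈ C → g * h * g⁻¹ ∈ C) (hC' : ∀ h, h ^ p ∈ C' ↔ h ∈ C) :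
    cnt A' B' C' = cnt A B C := by
  have hp' : Fintype.card H < p := lt_of_le_of_lt (Nat.le_mul_self _) hp
  have h1 := coeff_one_pow hp' (classSum p A * classSum p B * classSum p C)
  rw [(classSum_comm' C hC A).symm.mul_left (classSum_comm' C hC B).symm |>.mul_pow,
    (classSum_comm' A hA B).mul_pow, classSum_pow hp' A A' hA hA', classSum_pow hp' B B' hB hB',
    classSum_pow hp' C C' hC hC', coeff_triple, coeff_triple] at h1
  have hlt : ∀ A B C : Set H, cnt A B C < p := fun A B C =>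
    lt_of_le_of_lt ((Finset.card_filter_le _ _).trans (by simp)) hp
  rw [ZMod.natCast_eq_natCast_iff', Nat.mod_eq_of_lt (hlt _ _ _), Nat.mod_eq_of_lt (hlt _ _ _)]
    at h1
  exact h1

/-- The pairs counted by `cnt`, as a finset. -/
noncomputable def trip (A B C : Set H) : Finset (H × H) :=
  Finset.univ.filter fun x : H × H => x.1 ∈ A ∧ x.2 ∈ B ∧ (x.1 * x.2)⁻¹ ∈ C

theorem card_trip_sub (A B C : Set H) (S : Subgroup H) :
    ((trip A B C).filter fun x => Subgroup.closure {x.1, x.2} ≤ S).card =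
      cnt (H := S) (Subtype.val ⁻¹' A) (Subtype.val ⁻¹' B) (Subtype.val ⁻¹' C) := by
  symm
  refine Finset.card_bij (fun x _ => (x.1.1, x.2.1)) ?_ ?_ ?_
  · rintro ⟨a, b⟩ h
    simp only [Finset.mem_filter, Finset.mem_univ, true_and, trip] at h ⊢
    refine ⟨h, ?_⟩
    rw [Subgroup.closure_le]
    rintro _ (rfl | rfl)
    · exact a.2
    · exact b.2
  · rintro ⟨a, b⟩ - ⟨a', b'⟩ - h
    obtain ⟨h1, h2⟩ := Prod.mk.inj h
    exact Prod.ext (Subtype.ext h1) (Subtype.ext h2)
  · rintro ⟨a, b⟩ h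
    simp only [Finset.mem_filter, Finset.mem_univ, true_and, trip] at h
    obtain ⟨h1, h2⟩ := h
    refine ⟨(⟨a, h2 (Subgroup.subset_closure (by simp))⟩,
      ⟨b, h2 (Subgroup.subset_closure (by simp))⟩), ?_, rfl⟩
    simpa using h1

theorem card_gen_eq (hp : Fintype.card H * Fintype.card H < p) (A B C A' B' C' : Set H)
    (hA : ∀ g h, h ∈ A → g * h * g⁻¹ ∈ A) (hA' : ∀ h, h ^ p ∈ A' ↔ h ∈ A)
    (hB : ∀ g h, h ∈ B → g * h * g⁻¹ ∈ B) (hB' : ∀ h, h ^ p ∈ B' ↔ h ∈ B)
    (hC : ∀ g h, h ∈ C → g * h * g⁻¹ ∈ C) (hC' : ∀ h, h ^ p ∈ C' ↔ h ∈ C) (S : Subgroup H) :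
    ((trip A' B' C').filter fun x => Subgroup.closure {x.1, x.2} = S).card =
      ((trip A B C).filter fun x => Subgroup.closure {x.1, x.2} = S).card := by
  have := Fintype.ofFinite (Subgroup H)
  induction S using WellFoundedLT.induction with
  | ind S ih =>
    have hsum : ∀ T : Finset (H × H), (T.filter fun x => Subgroup.closure {x.1, x.2} ≤ S).card =
        (T.filter fun x => Subgroup.closure {x.1, x.2} = S).card +
          ∑ S' ∈ Finset.univ.filter (· < S),
            (T.filter fun x => Subgroup.closure {x.1, x.2} = S').card := by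
      intro T
      have e1 : ∑ S' ∈ Finset.univ.filter (· < S),
          (T.filter fun x => Subgroup.closure {x.1, x.2} = S').card =
          (T.filter fun x => Subgroup.closure {x.1, x.2} < S).card := by
        rw [Finset.card_eq_sum_card_fiberwise (s := T.filter fun x => Subgroup.closure {x.1, x.2} < S)
          (t := Finset.univ.filter (· < S)) (f := fun x => Subgroup.closure {x.1, x.2})
          (fun x hx => by simpa using (Finset.mem_filter.1 hx).2)]
        refine Finset.sum_congr rfl fun S' hS' => ?_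
        congr 1
        ext x
        simp only [Finset.mem_filter]
        exact ⟨fun h => ⟨⟨h.1, h.2 ▸ (Finset.mem_filter.1 hS').2⟩, h.2⟩, fun h => ⟨h.1.1, h.2⟩⟩
      rw [e1, ← Finset.card_union_of_disjoint]
      · congr 1
        ext x
        simp only [Finset.mem_filter, Finset.mem_union, le_iff_eq_or_lt]
        tauto
      · rw [Finset.disjoint_filter]
        intro x _ h
        simp [h]
    have h1 := card_trip_sub A B C S
    have h2 := card_trip_sub A' B' C' S
    have hc : Fintype.card S ≤ Fintype.card H := Fintype.card_subtype_le _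
    have h3 := cnt_eq (H := S) (p := p) (lt_of_le_of_lt (Nat.mul_le_mul hc hc) hp)
      (Subtype.val ⁻¹' A) (Subtype.val ⁻¹' B) (Subtype.val ⁻¹' C)
      (Subtype.val ⁻¹' A') (Subtype.val ⁻¹' B') (Subtype.val ⁻¹' C')
      (fun g h hh => hA g h hh) (fun h => hA' h) (fun g h hh => hB g h hh) (fun h => hB' h)
      (fun g h hh => hC g h hh) (fun h => hC' h)
    rw [← h1, ← h2, hsum, hsum, Finset.sum_congr rfl
      (fun S' hS' => ih S' (Finset.mem_filter.1 hS').2)] at h3
    omega

theorem exists_twist (hp : Fintype.card H * Fintype.card H < p) (a b : H) :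
    ∃ a' b' : H, IsConj (a ^ p) a' ∧ IsConj (b ^ p) b' ∧ IsConj ((a * b) ^ p) (a' * b') ∧
      Subgroup.closure {a', b'} = Subgroup.closure {a, b} := by
  have hp' : Fintype.card H < p := lt_of_le_of_lt (Nat.le_mul_self _) hp
  have h1 : ∀ a g h : H, h ∈ {x | IsConj a x} → g * h * g⁻¹ ∈ {x | IsConj a x} :=
    fun a g h hh => IsConj.trans hh (isConj_iff.2 ⟨g, rfl⟩)
  have h2 : ∀ a h : H, h ^ p ∈ {x | IsConj (a ^ p) x} ↔ h ∈ {x | IsConj a x} := by
    intro a h
    refine ⟨fun hh => ?_, fun hh => IsConj.pow p hh⟩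
    obtain ⟨g, hg⟩ := isConj_iff.1 hh
    rw [← conj_pow] at hg
    exact isConj_iff.2 ⟨g, (pow_bijective hp').1 hg⟩
  have h3 := card_gen_eq hp _ _ _ _ _ _ (h1 a) (h2 a) (h1 b) (h2 b) (h1 (a * b)⁻¹) (h2 (a * b)⁻¹)
    (Subgroup.closure {a, b})
  have h4 : 0 < ((trip {x | IsConj a x} {x | IsConj b x} {x | IsConj (a * b)⁻¹ x}).filter
      fun x => Subgroup.closure {x.1, x.2} = Subgroup.closure {a, b}).card :=
    Finset.card_pos.2 ⟨(a, b), by simp [trip, -isConj_iff, IsConj.refl]⟩
  rw [← h3] at h4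
  obtain ⟨⟨a', b'⟩, h5⟩ := Finset.card_pos.1 h4
  simp only [trip, Finset.mem_filter, Finset.mem_univ, true_and, Set.mem_ofPred_eq] at h5
  obtain ⟨⟨h5, h6, h7⟩, h8⟩ := h5
  refine ⟨a', b', h5, h6, ?_, h8⟩
  obtain ⟨g, hg⟩ := isConj_iff.1 h7
  refine isConj_iff.2 ⟨g, ?_⟩
  rw [← inv_inj, ← hg, inv_pow]
  group

end

end Pool.Agent.Work.MP_f81df4_al.H80
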