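import Mathlib.GroupTheory.PresentedGroup
import Mathlib.NumberTheory.LSeries.PrimesInAP
import Pool.Agent.Work.MP_f81df4_al.H80Twist
import Pool.Agent.Work.MP_f81df4_al.H80Orth
import Pool.Agent.Work.MP_f81df4_al.Defs

/-! The groups `Λ_u = ℤ/11 ⋊ D`, where `D` is the double cover of the triangle group `(2,5,5)`. -/

set_option autoImplicit false

namespace Pool.Agent.Work.MP_f81df4_al.H80

section rel

variable {H : Type} [Group H] {k : ℕ} {m y z : H}

theorem rel_c2 (h : LamRel k m y z) : ((y * z) ^ 2) ^ 2 = 1 := by rw [← pow_mul]; exact h.hw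

theorem rel_ym_pow (h : LamRel k m y z) (n : ℕ) : y ^ n * m * (y ^ n)⁻¹ = m ^ (3 ^ (k * n)) := by
  induction n with
  | zero => simp
  | succ n ih =>
    rw [pow_succ' y, mul_add, mul_one, add_comm, pow_add, pow_mul, ← h.ay, conj_pow, ← ih]
    group

theorem rel_zm_pow (h : LamRel k m y z) (n : ℕ) : (z ^ n)⁻¹ * m * z ^ n = m ^ (3 ^ (k * n)) := by
  induction n with
  | zero => simp
  | succ n ih =>
    have := conj_pow (a := z⁻¹) (b := m) (i := 3 ^ (k * n))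
    rw [inv_inv] at this
    rw [pow_succ z, mul_add, mul_one, add_comm, pow_add, pow_mul, ← h.az, this, ← ih]
    group

theorem pow_three_pow (hm : m ^ 11 = 1) {a b : ℕ} (h : a ≡ b [MOD 5]) :
    m ^ (3 ^ a) = m ^ (3 ^ b) := by
  have : ∀ n, m ^ (3 ^ n) = m ^ (3 ^ (n % 5)) := fun n => by
    rw [pow_eq_pow_mod _ hm, pow_eq_pow_mod (3 ^ (n % 5)) hm]
    congr 1
    conv_lhs => rw [← Nat.mod_add_div n 5, pow_add, pow_mul]
    have := (Nat.ModEq.refl (3 ^ (n % 5))).mul ((by decide : 3 ^ 5 ≡ 1 [MOD 11]).pow (n / 5))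
    rw [one_pow, mul_one] at this
    exact this
  rw [this a, this b, h]

theorem rel_yzm (h : LamRel k m y z) : Commute (y * z) m := by
  have h1 : z * m ^ 3 ^ k * z⁻¹ = m := by rw [← h.az]; group
  have h2 : (y * z) * m ^ 3 ^ k * (y * z)⁻¹ = m ^ 3 ^ k := by
    conv_rhs => rw [← h.ay, ← h1]
    group
  have h3 : Commute (y * z) (m ^ 3 ^ k) := by
    rw [Commute, SemiconjBy, ← mul_inv_eq_iff_eq_mul, h2]
  have h4 : m = (m ^ 3 ^ k) ^ 3 ^ (k * 4) := by
    rw [← pow_mul, ← pow_add, pow_three_pow h.hf (b := 0) (by unfold Nat.ModEq; omega)]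
    simp
  rw [h4]
  exact h3.pow_right _

theorem rel_cm (h : LamRel k m y z) : Commute ((y * z) ^ 2) m := (rel_yzm h).pow_left 2

theorem rel_swap (h : LamRel k m y z) {v : ℕ} (hv : k * 4 ≡ v [MOD 5]) : LamRel v m z y := by
  have e : (z * y) ^ 2 = (y * z) ^ 2 := by
    rw [show z * y = y⁻¹ * (y * z) * y⁻¹⁻¹ by group, conj_pow, ← h.cy.inv_right.eq]; group
  refine ⟨h.hf, h.hz, h.hy, ?_, e ▸ h.cz, e ▸ h.cy, ?_, ?_⟩
  · rw [show 4 = 2 * 2 by rfl, pow_mul, e, rel_c2 h]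
  · have h1 := rel_zm_pow h 4
    have h2 : z ^ 4 = z⁻¹ := by rw [eq_inv_iff_mul_eq_one, ← pow_succ, h.hz]
    rw [h2, inv_inv] at h1
    rw [h1, pow_three_pow h.hf hv]
  · have h1 := rel_ym_pow h 4
    have h2 : y ^ 4 = y⁻¹ := by rw [eq_inv_iff_mul_eq_one, ← pow_succ, h.hy]
    rw [h2, inv_inv] at h1
    rw [h1, pow_three_pow h.hf hv]

end rel

theorem exists_lamData (k : ℕ) : ∃ (Λ : Type) (_ : Group Λ), Nonempty (LamData Λ k) := by
  let m : FreeGroup (Fin 3) := FreeGroup.of 0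
  let y : FreeGroup (Fin 3) := FreeGroup.of 1
  let z : FreeGroup (Fin 3) := FreeGroup.of 2
  let rels : Set (FreeGroup (Fin 3)) := {m ^ 11, y ^ 5, z ^ 5, (y * z) ^ 4,
    (y * z) ^ 2 * y * (y * (y * z) ^ 2)⁻¹, (y * z) ^ 2 * z * (z * (y * z) ^ 2)⁻¹,
    y * m * y⁻¹ * (m ^ 3 ^ k)⁻¹, z⁻¹ * m * z * (m ^ 3 ^ k)⁻¹}
  have h1 : ∀ r ∈ rels, PresentedGroup.mk rels r = 1 := fun r hr => PresentedGroup.one_of_mem hr
  refine ⟨PresentedGroup rels, inferInstance, ⟨⟨PresentedGroup.of 0, PresentedGroup.of 1,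
    PresentedGroup.of 2, ⟨?_, ?_, ?_, ?_, ?_, ?_, ?_, ?_⟩, ?_, ?_⟩⟩⟩
  · exact h1 (m ^ 11) (by simp [rels])
  · exact h1 (y ^ 5) (by simp [rels])
  · exact h1 (z ^ 5) (by simp [rels])
  · exact h1 ((y * z) ^ 4) (by simp [rels])
  · exact mul_inv_eq_one.1 (h1 ((y * z) ^ 2 * y * (y * (y * z) ^ 2)⁻¹) (by simp [rels]))
  · exact mul_inv_eq_one.1 (h1 ((y * z) ^ 2 * z * (z * (y * z) ^ 2)⁻¹) (by simp [rels]))
  · exact mul_inv_eq_one.1 (h1 (y * m * y⁻¹ * (m ^ 3 ^ k)⁻¹) (by simp [rels]))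
  · exact mul_inv_eq_one.1 (h1 (z⁻¹ * m * z * (m ^ 3 ^ k)⁻¹) (by simp [rels]))
  · rw [← PresentedGroup.closure_range_of rels]
    congr 1
    ext x
    simp only [Set.mem_insert_iff, Set.mem_singleton_iff, Set.mem_range, Fin.exists_fin_succ,
      IsEmpty.exists_iff, or_false, eq_comm (a := x)]
    rfl
  · intro H _ a b c h
    have hr : ∀ r ∈ rels, FreeGroup.lift ![a, b, c] r = 1 := by
      rintro r (rfl | rfl | rfl | rfl | rfl | rfl | rfl | rfl)
      · simpa [m] using h.hf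
      · simpa [y] using h.hy
      · simpa [z] using h.hz
      · simpa [y, z] using h.hw
      · rw [map_mul, map_inv, mul_inv_eq_one]
        simpa [y, z] using h.cy.eq
      · rw [map_mul, map_inv, mul_inv_eq_one]
        simpa [y, z] using h.cz.eq
      · rw [map_mul, map_inv, mul_inv_eq_one]
        simpa [y, m] using h.ay
      · rw [map_mul, map_inv, mul_inv_eq_one]
        simpa [z, m] using h.az
    exact ⟨PresentedGroup.toGroup hr, PresentedGroup.toGroup.of hr, PresentedGroup.toGroup.of hr,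
      PresentedGroup.toGroup.of hr⟩

theorem exists_triData : ∃ (Δ : Type) (_ : Group Δ) (T : TriData Δ),
    T.p 0 = 2 ∧ T.p 1 = 5 ∧ T.p 2 = 5 := by
  let x : FreeGroup (Fin 3) := FreeGroup.of 0
  let y : FreeGroup (Fin 3) := FreeGroup.of 1
  let z : FreeGroup (Fin 3) := FreeGroup.of 2
  let rels : Set (FreeGroup (Fin 3)) := {x ^ 2, y ^ 5, z ^ 5, x * y * z}
  have h1 : ∀ r ∈ rels, PresentedGroup.mk rels r = 1 := fun r hr => PresentedGroup.one_of_mem hr
  refine ⟨PresentedGroup rels, inferInstance, ⟨PresentedGroup.of, ![2, 5, 5], ?_, ?_, ?_,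
    PresentedGroup.closure_range_of rels, ?_⟩, rfl, rfl, rfl⟩
  · intro j
    fin_cases j
    · exact Nat.prime_two
    · exact Nat.prime_five
    · exact Nat.prime_five
  · intro j
    fin_cases j
    · exact h1 (x ^ 2) (by simp [rels])
    · exact h1 (y ^ 5) (by simp [rels])
    · exact h1 (z ^ 5) (by simp [rels])
  · exact h1 (x * y * z) (by simp [rels])
  · intro H _ a h2 h3
    have hr : ∀ r ∈ rels, FreeGroup.lift a r = 1 := by
      rintro r (rfl | rfl | rfl | rfl)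
      · simpa [x] using h2 0
      · simpa [y] using h2 1
      · simpa [z] using h2 2
      · simpa [x, y, z] using h3
    exact ⟨PresentedGroup.toGroup hr, fun j => PresentedGroup.toGroup.of hr⟩

section lam

variable {Λ : Type} [Group Λ] {u : ℕ} (D : LamData Λ u)

include D in
theorem lam_fg : Group.FG Λ := Group.fg_iff.2 ⟨_, D.gen, Set.toFinite _⟩

theorem lam_c_comm (x : Λ) : Commute ((D.y * D.z) ^ 2) x :=
  ((D.mem_of (Subgroup.centralizer {(D.y * D.z) ^ 2})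
    (Subgroup.mem_centralizer_singleton_iff.2 (rel_cm D.rel).symm)
    (Subgroup.mem_centralizer_singleton_iff.2 D.rel.cy.symm)
    (Subgroup.mem_centralizer_singleton_iff.2 D.rel.cz.symm) x) _ rfl)

theorem lam_normal_zpowers : (Subgroup.zpowers D.f).Normal := by
  rw [← Subgroup.normalizer_eq_top_iff, eq_top_iff]
  intro x _
  have hfin : Finite (Subgroup.zpowers D.f) :=
    (isOfFinOrder_iff_pow_eq_one.2 ⟨11, by norm_num, D.rel.hf⟩).finite_zpowers
  have key : ∀ g : Λ, g * D.f * g⁻¹ ∈ Subgroup.zpowers D.f →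
      g ∈ Subgroup.normalizer (Subgroup.zpowers D.f : Set Λ) := by
    intro g hg
    refine Subgroup.mem_normalizer_fintype ?_
    rintro _ ⟨k, rfl⟩
    show g * D.f ^ k * g⁻¹ ∈ Subgroup.zpowers D.f
    rw [← conj_zpow]
    exact Subgroup.zpow_mem _ hg k
  refine D.mem_of _ (key _ (by simp)) (key _ ?_) (Subgroup.inv_mem_iff _ |>.1 (key _ ?_)) x
  · rw [D.rel.ay]
    exact Subgroup.npow_mem_zpowers _ _
  · rw [inv_inv, D.rel.az]
    exact Subgroup.npow_mem_zpowers _ _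

include D in
/-- Every finite quotient of `Λ_u` is a quotient of `Λ_v` when `v = u * k` modulo five. -/
theorem lam_quot_twist {Λ' : Type} [Group Λ'] {v k : ℕ} (D' : LamData Λ' v) (hk : k.Coprime 5)
    (hv : u * k ≡ v [MOD 5]) (Q : Type) [Group Q] [Finite Q]
    (f : Λ →* Q) (hf : Function.Surjective f) : ∃ g : Λ' →* Q, Function.Surjective g := by
  have := Fintype.ofFinite Q
  obtain ⟨p, hp1, hp2, hp3⟩ := Nat.forall_exists_prime_gt_and_modEq
    (Fintype.card Q * Fintype.card Q) (by norm_num : 5 ≠ 0) hk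
  have := Fact.mk hp2
  obtain ⟨a, b, ha, hb, hab, hcl⟩ := exists_twist hp1 (f D.y) (f D.z)
  obtain ⟨ga, rfl⟩ := isConj_iff.1 ha
  obtain ⟨gb, rfl⟩ := isConj_iff.1 hb
  obtain ⟨gc, hc⟩ := isConj_iff.1 hab
  have R := D.rel.map f
  have hmv : f D.f ^ (3 ^ (u * p)) = f D.f ^ 3 ^ v :=
    pow_three_pow R.hf ((hp3.mul_left u).trans hv)
  have hcen : ∀ q : Q, Commute ((f D.y * f D.z) ^ 2) q := fun q => by
    obtain ⟨x, rfl⟩ := hf q
    simpa using (lam_c_comm D x).map f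
  have hconj : ∀ g w : Q, w * f D.f * w⁻¹ = f D.f ^ 3 ^ v →
      (g * w * g⁻¹) * f D.f * (g * w * g⁻¹)⁻¹ = f D.f ^ 3 ^ v := by
    intro g w hw
    obtain ⟨x, rfl⟩ := hf g
    obtain ⟨k, hk⟩ := (lam_normal_zpowers D).conj_mem _ (Subgroup.mem_zpowers D.f) x⁻¹
    have hk' : f D.f ^ k = (f x)⁻¹ * f D.f * f x := by simpa using congrArg f hk
    calc _ = f x * (w * ((f x)⁻¹ * f D.f * f x) * w⁻¹) * (f x)⁻¹ := by group
      _ = f x * (f D.f ^ k) ^ 3 ^ v * (f x)⁻¹ := by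
          rw [← hk', ← conj_zpow, hw, ← zpow_natCast, ← zpow_mul, ← zpow_natCast, ← zpow_mul,
            mul_comm k]
      _ = _ := by rw [hk', ← conj_pow]; group
  have hc2 : ((ga * f D.y ^ p * ga⁻¹) * (gb * f D.z ^ p * gb⁻¹)) ^ 2 =
      ((f D.y * f D.z) ^ 2) ^ p := by
    rw [← hc, conj_pow, ← pow_mul, mul_comm p, pow_mul, ← ((hcen gc).pow_left p).eq]
    group
  obtain ⟨g, h1, h2, h3⟩ := D'.lift Q (f D.f) (ga * f D.y ^ p * ga⁻¹) (gb * f D.z ^ p * gb⁻¹)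
    { hf := R.hf
      hy := by rw [conj_pow, ← pow_mul, mul_comm p, pow_mul, R.hy]; simp
      hz := by rw [conj_pow, ← pow_mul, mul_comm p, pow_mul, R.hz]; simp
      hw := by
        rw [show 4 = 2 * 2 by rfl, pow_mul, hc2, ← pow_mul, mul_comm p, pow_mul, rel_c2 R, one_pow]
      cy := by rw [hc2]; exact (hcen _).pow_left p
      cz := by rw [hc2]; exact (hcen _).pow_left p
      ay := hconj _ _ (by rw [rel_ym_pow R, hmv])
      az := by
        have := hconj gb (f D.z ^ p)⁻¹ (by rw [inv_inv, rel_zm_pow R, hmv])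
        rw [← this]
        group }
  refine ⟨g, fun q => ?_⟩
  obtain ⟨x, rfl⟩ := hf q
  have h4 : Subgroup.closure {f D.y, f D.z} ≤ g.range := by
    rw [← hcl, Subgroup.closure_le]
    rintro _ (rfl | rfl)
    · exact ⟨_, h2⟩
    · exact ⟨_, h3⟩
  exact D.mem_of (g.range.comap f) ⟨_, h1⟩ (h4 (Subgroup.subset_closure (by simp)))
    (h4 (Subgroup.subset_closure (by simp))) x

variable {Δ : Type} [Group Δ] (T : TriData Δ) (hp0 : T.p 0 = 2) (hp1 : T.p 1 = 5)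
  (hp2 : T.p 2 = 5)

theorem tri_g0 : T.g 0 = (T.g 1 * T.g 2)⁻¹ := by
  rw [eq_inv_iff_mul_eq_one, ← mul_assoc, T.prod]

include hp0 in
theorem tri_sq : (T.g 1 * T.g 2) ^ 2 = 1 := by
  have := T.pow 0
  rwa [hp0, tri_g0, inv_pow, inv_eq_one] at this

include hp0 hp1 hp2 in
theorem lam_exists_proj : ∃ π : Λ →* Δ, π D.f = 1 ∧ π D.y = T.g 1 ∧ π D.z = T.g 2 := by
  have h2 := tri_sq T hp0
  exact D.lift Δ 1 (T.g 1) (T.g 2) (LamRel.of_one u (hp1 ▸ T.pow 1) (hp2 ▸ T.pow 2)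
    (by rw [show 4 = 2 * 2 by rfl, pow_mul, h2, one_pow]) (by simp [h2]) (by simp [h2]))

include hp0 hp1 hp2 in
theorem lam_exists_factor {π : Λ →* Δ} (h1 : π D.f = 1) (h2 : π D.y = T.g 1)
    (h3 : π D.z = T.g 2) {H : Type} [Group H] (φ : Λ →* H) (hm : φ D.f = 1)
    (hc : φ ((D.y * D.z) ^ 2) = 1) : ∃ ψ : Δ →* H, ψ.comp π = φ := by
  obtain ⟨ψ, hψ⟩ := T.lift H ![(φ D.y * φ D.z)⁻¹, φ D.y, φ D.z]
    (by
      intro j
      fin_cases j
      · simpa [hp0, -mul_inv_rev] using hc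
      · simpa [hp1] using (D.rel.map φ).hy
      · simpa [hp2] using (D.rel.map φ).hz)
    (by simp [mul_assoc])
  exact ⟨ψ, D.hom_ext (by simp [h1, hm]) (by simpa [h2] using hψ 1) (by simpa [h3] using hψ 2)⟩

include hp0 hp1 hp2 in
theorem lam_ker_proj {π : Λ →* Δ} (h1 : π D.f = 1) (h2 : π D.y = T.g 1) (h3 : π D.z = T.g 2)
    (x : Λ) (hx : π x = 1) : ∃ a b : ℤ, x = D.f ^ a * ((D.y * D.z) ^ 2) ^ b := by
  let E : Subgroup Λ := Subgroup.zpowers D.f ⊔ Subgroup.zpowers ((D.y * D.z) ^ 2)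
  have := lam_normal_zpowers D
  have : (Subgroup.zpowers ((D.y * D.z) ^ 2)).Normal := ⟨by
    rintro _ ⟨k, rfl⟩ g
    rw [← ((lam_c_comm D g).zpow_left k).eq, mul_inv_cancel_right]
    exact ⟨k, rfl⟩⟩
  obtain ⟨ψ, hψ⟩ := lam_exists_factor D T hp0 hp1 hp2 h1 h2 h3 (QuotientGroup.mk' E)
    ((QuotientGroup.eq_one_iff _).2 (Subgroup.mem_sup_left (Subgroup.mem_zpowers _)))
    ((QuotientGroup.eq_one_iff _).2 (Subgroup.mem_sup_right (Subgroup.mem_zpowers _)))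
  have h4 := DFunLike.congr_fun hψ x
  rw [MonoidHom.comp_apply, hx, map_one] at h4
  have h5 : x ∈ E := (QuotientGroup.eq_one_iff _).1 h4.symm
  obtain ⟨_, ⟨a, rfl⟩, _, ⟨b, rfl⟩, h⟩ := Subgroup.mem_sup_of_normal_left.1 h5
  exact ⟨a, b, h.symm⟩

theorem lam_proj_surjective {π : Λ →* Δ} (h2 : π D.y = T.g 1) (h3 : π D.z = T.g 2) :
    Function.Surjective π := by
  rw [← MonoidHom.range_eq_top, eq_top_iff, ← T.gen, Subgroup.closure_le]
  rintro _ ⟨j, rfl⟩
  fin_cases j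
  · exact ⟨(D.y * D.z)⁻¹, by simp [h2, h3, tri_g0]⟩
  · exact ⟨_, h2⟩
  · exact ⟨_, h3⟩

end lam

end Pool.Agent.Work.MP_f81df4_al.H80
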