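import Mathlib.Analysis.Real.Pi.Bounds
import Mathlib.RingTheory.RootsOfUnity.Complex

/-! Cotangents of multiples of `π / 25`. -/

set_option autoImplicit false

namespace Pool.Agent.Work.MP_f81df4_al

open Complex

/-- the root of unity `exp (2 π i / 25)` -/
noncomputable def eta : ℂ := exp (2 * Real.pi * I / 25)

/-- the cotangent of `k π / 25` -/
noncomputable def Kc (k : ℕ) : ℝ := Real.cos (k * (Real.pi / 25)) / Real.sin (k * (Real.pi / 25))

lemma eta_prim : IsPrimitiveRoot eta 25 := by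
  simpa [eta] using Complex.isPrimitiveRoot_exp 25 (by norm_num)

lemma eta_pow25 : eta ^ 25 = 1 := eta_prim.pow_eq_one

lemma eta_ne : eta ≠ 0 := exp_ne_zero _

lemma star_eta : star eta * eta = 1 := by
  have : ‖eta‖ = 1 := eta_prim.norm'_eq_one (by norm_num)
  rw [RCLike.star_def, conj_mul', this]; simp

lemma zeta_prim : IsPrimitiveRoot (eta ^ 5) 5 := eta_prim.pow (by norm_num) (by norm_num)

lemma sin_pos25 {k : ℕ} (h0 : 0 < k) (h : k < 25) : 0 < Real.sin (k * (Real.pi / 25)) := by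
  have h1 : (0 : ℝ) < k := by exact_mod_cast h0
  have h2 : (k : ℝ) < 25 := by exact_mod_cast h
  have := Real.pi_pos
  apply Real.sin_pos_of_pos_of_lt_pi
  · positivity
  · nlinarith

lemma eta_cot {k : ℕ} (h0 : 0 < k) (h : k < 25) :
    eta ^ k + 1 = -I * Kc k * (eta ^ k - 1) := by
  have hs := (sin_pos25 h0 h).ne'
  set x : ℝ := k * (Real.pi / 25) with hx
  have h1 : eta ^ k = (Real.cos x + Real.sin x * I) ^ 2 := by
    rw [ofReal_cos, ofReal_sin, ← exp_mul_I, eta, ← exp_nat_mul, ← exp_nat_mul, hx]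
    congr 1; push_cast; ring
  have h2 : (Real.cos x : ℂ) ^ 2 + (Real.sin x : ℂ) ^ 2 = 1 := by
    exact_mod_cast Real.cos_sq_add_sin_sq x
  have hs' : (Real.sin x : ℂ) ≠ 0 := by exact_mod_cast hs
  rw [h1, Kc, ← hx, ofReal_div]
  generalize (Real.cos x : ℂ) = c at *
  generalize (Real.sin x : ℂ) = s at *
  field_simp
  linear_combination (-s + I * c) * h2 + (s ^ 3 + 2 * c ^ 2 * s + c * s ^ 2 * I + c * s ^ 2 * I) * I_sq
    - c * s ^ 2 * I * I_sq

lemma eta_pow_ne_one {k : ℕ} (h0 : 0 < k) (h : k < 25) : eta ^ k ≠ 1 :=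
  eta_prim.pow_ne_one_of_pos_of_lt h0.ne' h

lemma Kc_add {j k : ℕ} (hj : 0 < j) (hk : 0 < k) (h : j + k < 25) :
    Kc (j + k) * (Kc j + Kc k) = Kc j * Kc k - 1 := by
  have h1 := (sin_pos25 hj (by omega)).ne'
  have h2 := (sin_pos25 hk (by omega)).ne'
  have h3 := (sin_pos25 (k := j + k) (by omega) h).ne'
  simp only [Kc]
  rw [Nat.cast_add, add_mul] at h3 ⊢
  rw [Real.cos_add]
  generalize (j : ℝ) * (Real.pi / 25) = a at *
  generalize (k : ℝ) * (Real.pi / 25) = b at *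
  field_simp
  rw [Real.sin_add]; ring

lemma Kc_neg {j k : ℕ} (h : j + k = 25) : Kc j = -Kc k := by
  have : (j : ℝ) * (Real.pi / 25) = Real.pi - k * (Real.pi / 25) := by
    have : (j : ℝ) = 25 - k := by rw [eq_sub_iff_add_eq]; exact_mod_cast h
    rw [this]; ring
  simp only [Kc]
  rw [this, Real.cos_pi_sub, Real.sin_pi_sub, neg_div]

lemma step {A B X a a' b b' lo hi : ℝ} (hA : a ≤ A ∧ A ≤ a') (hB : b ≤ B ∧ B ≤ b')
    (h : X * (A + B) = A * B - 1) (h0 : 0 < a + b) (h1 : hi ≤ a) (h2 : hi ≤ b) (h3 : lo ≤ hi)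
    (hl : lo * (a + b) ≤ a * b - 1) (hh : a' * b' - 1 ≤ hi * (a' + b')) : lo ≤ X ∧ X ≤ hi := by
  have hp : 0 < A + B := by linarith [hA.1, hB.1]
  constructor
  · refine le_of_mul_le_mul_right ?_ hp
    have := mul_le_mul (sub_le_sub_right hA.1 lo) (sub_le_sub_right hB.1 lo) (by linarith)
      (by linarith [hA.1])
    nlinarith
  · refine le_of_mul_le_mul_right ?_ hp
    have := mul_le_mul (sub_le_sub_right hA.2 hi) (sub_le_sub_right hB.2 hi) (by linarith [hB.1])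
      (by linarith [hA.1, hA.2])
    nlinarith

lemma K1 : 7.9155 ≤ Kc 1 ∧ Kc 1 ≤ 7.9160 := by
  have h1 := Real.pi_gt_d6
  have h2 := Real.pi_lt_d6
  have hs := sin_pos25 (k := 1) one_pos (by norm_num)
  simp only [Kc, Nat.cast_one, one_mul] at hs ⊢
  set x := Real.pi / 25 with hx
  have x1 : 0.12566368 ≤ x := by linarith
  have x2 : x ≤ 0.12566372 := by linarith
  have x0 : 0 ≤ x := by linarith
  have ha : |x| = x := abs_of_nonneg x0
  have hc := abs_le.1 (Real.cos_bound (x := x) (by rw [ha]; linarith))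
  have hsn := abs_le.1 (Real.sin_bound (x := x) (by rw [ha]; linarith))
  rw [ha] at hc hsn
  have p2 := pow_le_pow_left₀ x0 x2 2
  have p2' := pow_le_pow_left₀ (by norm_num) x1 2
  have p3 := pow_le_pow_left₀ x0 x2 3
  have p3' := pow_le_pow_left₀ (by norm_num) x1 3
  have p4 := pow_le_pow_left₀ x0 x2 4
  have p5 := pow_le_pow_left₀ x0 x2 5
  rw [le_div_iff₀ hs, div_le_iff₀ hs]
  norm_num at *
  constructor <;> linarith [hc.1, hc.2, hsn.1, hsn.2]

lemma K2 : 3.8945 ≤ Kc 2 ∧ Kc 2 ≤ 3.8949 :=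
  step K1 K1 (Kc_add (j := 1) (k := 1) one_pos one_pos (by norm_num)) (by norm_num) (by norm_num)
    (by norm_num) (by norm_num) (by norm_num) (by norm_num)
lemma K3 : 2.5255 ≤ Kc 3 ∧ Kc 3 ≤ 2.5259 :=
  step K2 K1 (Kc_add (j := 2) (k := 1) two_pos one_pos (by norm_num)) (by norm_num) (by norm_num)
    (by norm_num) (by norm_num) (by norm_num) (by norm_num)
lemma K4 : 1.8188 ≤ Kc 4 ∧ Kc 4 ≤ 1.8191 :=
  step K2 K2 (Kc_add (j := 2) (k := 2) two_pos two_pos (by norm_num)) (by norm_num) (by norm_num)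
    (by norm_num) (by norm_num) (by norm_num) (by norm_num)
lemma K6 : 1.0647 ≤ Kc 6 ∧ Kc 6 ≤ 1.0651 :=
  step K3 K3 (Kc_add (j := 3) (k := 3) three_pos three_pos (by norm_num)) (by norm_num)
    (by norm_num) (by norm_num) (by norm_num) (by norm_num) (by norm_num)
lemma K7 : 0.8271 ≤ Kc 7 ∧ Kc 7 ≤ 0.8274 :=
  step K4 K3 (Kc_add (j := 4) (k := 3) four_pos three_pos (by norm_num)) (by norm_num)
    (by norm_num) (by norm_num) (by norm_num) (by norm_num) (by norm_num)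
lemma K8 : 0.6344 ≤ Kc 8 ∧ Kc 8 ≤ 0.6347 :=
  step K4 K4 (Kc_add (j := 4) (k := 4) four_pos four_pos (by norm_num)) (by norm_num)
    (by norm_num) (by norm_num) (by norm_num) (by norm_num) (by norm_num)
lemma K9 : 0.4704 ≤ Kc 9 ∧ Kc 9 ≤ 0.4708 :=
  step K6 K3 (Kc_add (j := 6) (k := 3) (by norm_num) three_pos (by norm_num)) (by norm_num)
    (by norm_num) (by norm_num) (by norm_num) (by norm_num) (by norm_num)
lemma K11 : 0.1906 ≤ Kc 11 ∧ Kc 11 ≤ 0.1909 :=
  step K7 K4 (Kc_add (j := 7) (k := 4) (by norm_num) four_pos (by norm_num)) (by norm_num)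
    (by norm_num) (by norm_num) (by norm_num) (by norm_num) (by norm_num)
lemma K12 : 0.0627 ≤ Kc 12 ∧ Kc 12 ≤ 0.0632 :=
  step K6 K6 (Kc_add (j := 6) (k := 6) (by norm_num) (by norm_num) (by norm_num)) (by norm_num)
    (by norm_num) (by norm_num) (by norm_num) (by norm_num) (by norm_num)

/-- powers of the fifth root of unity -/
noncomputable def ep (t : Fin 5) : ℂ := (eta ^ 5) ^ t.val

lemma ep_add (s t : Fin 5) : ep (s + t) = ep s * ep t := by
  simp only [ep, Fin.val_add]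
  rw [← pow_add, ← pow_eq_pow_mod _ zeta_prim.pow_eq_one]

lemma ep_zero : ep 0 = 1 := by simp [ep]

lemma ep_inj : Function.Injective ep := fun s t h =>
  Fin.ext (zeta_prim.pow_inj s.2 t.2 h)

lemma ep_pow5 (t : Fin 5) : ep t ^ 5 = 1 := by
  rw [ep, ← pow_mul, mul_comm, pow_mul, zeta_prim.pow_eq_one, one_pow]

lemma ep_ne (t : Fin 5) : ep t ≠ 0 := pow_ne_zero _ (pow_ne_zero _ eta_ne)

lemma star_ep (t : Fin 5) : star (ep t) * ep t = 1 := by
  rw [ep, star_pow, star_pow, ← mul_pow, ← mul_pow, star_eta]; simp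

lemma exists_ep {w : ℂ} (h : w ^ 5 = 1) : ∃ t, w = ep t := by
  obtain ⟨i, hi, rfl⟩ := zeta_prim.eq_pow_of_pow_eq_one h
  exact ⟨⟨i, hi⟩, rfl⟩

lemma ep_sum (k : Fin 5 → Fin 5) : ep (∑ i, k i) = ∏ i, ep (k i) := by
  simp only [Fin.sum_univ_five, Fin.prod_univ_five, ep_add]

/-- the cotangent relation between an eigenvalue `y` and a number `μ` -/
lemma cot_rel {a : ℕ} (h0 : 0 < a) (h : a < 5) (t : Fin 5) {y μ : ℂ} (hμ : μ ≠ 0)
    (hy : y = μ * (eta ^ a * ep t)) :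
    y + μ = -I * Kc (a + 5 * t.val) * (y - μ) ∧ y - μ ≠ 0 := by
  have ht := t.2
  have e : eta ^ a * ep t = eta ^ (a + 5 * t.val) := by rw [ep, ← pow_mul, ← pow_add]
  rw [hy, e]
  constructor
  · linear_combination μ * eta_cot (k := a + 5 * t.val) (by omega) (by omega)
  · rw [← mul_sub_one]
    exact mul_ne_zero hμ (sub_ne_zero.2 (eta_pow_ne_one (by omega) (by omega)))

end Pool.Agent.Work.MP_f81df4_al
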