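import Pool.Agent.Work.MP_f81df4_al.TUniq

/-! Two inequivalent projective representations in the class one. -/

set_option autoImplicit false

namespace Pool.Agent.Work.MP_f81df4_al

open Matrix Module Complex

lemma exists_V {c0 c1 c2 c3 d12 d13 d23 : ℝ} (h0 : c0 ≠ 0) (h12 : 0 < d12) (h13 : 0 < d13)
    (h23 : 0 < d23) (hA : 0 < -c0 * (c1 * d12 + c3 * d23))
    (hD : 0 < c1 * c2 * d12 + c1 * c3 * d13 + c2 * c3 * d23) :
    ∃ V : Matrix (Fin 5) (Fin 2) ℝ, V 2 = ![1, 0] ∧ V 3 0 = 0 ∧ V 3 1 ≠ 0 ∧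
      Vᵀ * diagonal ![c0, c0, c1, c2, c3] * V = 0 ∧
      ∀ w0 w1 w2 w3 : ℝ, (c0 * w1 - c1 * w0) * (c0 * w2 - c2 * w0) * d12 +
        (c0 * w1 - c1 * w0) * (c0 * w3 - c3 * w0) * d13 +
        (c0 * w2 - c2 * w0) * (c0 * w3 - c3 * w0) * d23 = 0 →
        (Vᵀ * diagonal ![w0, w0, w1, w2, w3] * V).det = 0 := by
  obtain ⟨s, hs0, hs⟩ : ∃ s : ℝ, s ≠ 0 ∧ s * s = d12 :=
    ⟨√d12, (Real.sqrt_pos.2 h12).ne', Real.mul_self_sqrt h12.le⟩
  obtain ⟨q, hq⟩ : ∃ q : ℝ, q * q = d13 := ⟨√d13, Real.mul_self_sqrt h13.le⟩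
  obtain ⟨p, hp⟩ : ∃ p : ℝ, p * p * d12 = d23 :=
    ⟨√(d23 / d12), by rw [Real.mul_self_sqrt (by positivity)]; field_simp⟩
  obtain ⟨t1, rfl⟩ : ∃ t, c1 = -c0 * t := ⟨-c1 / c0, by field_simp⟩
  obtain ⟨t2, rfl⟩ : ∃ t, c2 = -c0 * t := ⟨-c2 / c0, by field_simp⟩
  obtain ⟨t3, rfl⟩ : ∃ t, c3 = -c0 * t := ⟨-c3 / c0, by field_simp⟩
  have hc : 0 < c0 * c0 := mul_self_pos.2 h0
  have h11 : 0 < t1 + t3 * (p * p) := by
    have : 0 < c0 * c0 * d12 * (t1 + t3 * (p * p)) := by rw [← hp] at hA; linarith only [hA]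
    exact (mul_pos_iff_of_pos_left (mul_pos hc h12)).1 this
  have hdet : 0 < t1 * t2 * d12 + t1 * t3 * d13 + t2 * t3 * d23 :=
    (mul_pos_iff_of_pos_left hc).1 (by linarith only [hD])
  obtain ⟨a, ha0, ha⟩ : ∃ a : ℝ, a ≠ 0 ∧ a * a = t1 + t3 * (p * p) :=
    ⟨√_, (Real.sqrt_pos.2 h11).ne', Real.mul_self_sqrt h11.le⟩
  obtain ⟨b, hb⟩ : ∃ b : ℝ, a * b = t3 * (p * q) := ⟨t3 * (p * q) / a, by field_simp⟩
  obtain ⟨g, hg⟩ : ∃ g : ℝ, b * b + g * g = t2 * (s * s) + t3 * (q * q) := by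
    refine ⟨√((t1 * t2 * d12 + t1 * t3 * d13 + t2 * t3 * d23) / (a * a)), ?_⟩
    rw [Real.mul_self_sqrt (div_nonneg hdet.le (mul_self_nonneg a))]
    field_simp
    rw [← hp, ← hs, ← hq]
    linear_combination (a * b + t3 * (p * q)) * hb - (t2 * (s * s) + t3 * (q * q)) * ha
  have key : ∀ w0 w1 w2 w3 : ℝ, (!![a, b; 0, g; 1, 0; 0, s; p, q])ᵀ *
      diagonal ![w0, w0, w1, w2, w3] * !![a, b; 0, g; 1, 0; 0, s; p, q] =
      !![w1 + w0 * t1 + (w3 + w0 * t3) * (p * p), (w3 + w0 * t3) * (p * q);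
        (w3 + w0 * t3) * (p * q), (w2 + w0 * t2) * (s * s) + (w3 + w0 * t3) * (q * q)] := by
    intro w0 w1 w2 w3
    ext i j
    fin_cases i <;> fin_cases j <;>
      simp [Matrix.mul_apply, Fin.sum_univ_five, diagonal]
    · linear_combination w0 * ha
    · linear_combination w0 * hb
    · linear_combination w0 * hb
    · linear_combination w0 * hg
  refine ⟨!![a, b; 0, g; 1, 0; 0, s; p, q], rfl, rfl, hs0, ?_, fun w0 w1 w2 w3 h => ?_⟩
  · rw [key]; ext i j; fin_cases i <;> fin_cases j <;> simp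
  · rw [key, det_fin_two_of]
    apply (mul_eq_zero.1 (_ : c0 * c0 * _ = 0)).resolve_left hc.ne'
    rw [← hp, ← hs, ← hq] at h
    linear_combination h

open ComplexOrder in
lemma exists_refl (V : Matrix (Fin 5) (Fin 2) ℂ) (hV : ∀ ω, V *ᵥ ω = 0 → ω = 0) :
    ∃ x : Mat, xᴴ = x ∧ x * x = 1 ∧ x.det = 1 ∧ ∀ (a b : Fin 5 → ℂ) (ω : Fin 2 → ℂ),
      a - b = V *ᵥ ω → Vᴴ *ᵥ (a + b) = 0 → x *ᵥ a = b := by
  have hG : IsUnit (Vᴴ * V).det := by
    rw [← Matrix.isUnit_iff_isUnit_det, ← Matrix.mulVec_injective_iff_isUnit]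
    intro v w h
    rw [← sub_eq_zero, ← mulVec_sub, conjTranspose_mul_self_mulVec_eq_zero] at h
    exact sub_eq_zero.1 (hV _ h)
  have h1 : (Vᴴ * V)⁻¹ * (Vᴴ * V) = 1 := Matrix.nonsing_inv_mul _ hG
  refine ⟨1 - ((2 : ℂ) • V) * ((Vᴴ * V)⁻¹ * Vᴴ), ?_, ?_, ?_, ?_⟩
  · simp [conjTranspose_nonsing_inv, Matrix.mul_assoc]
  · have : V * ((Vᴴ * V)⁻¹ * Vᴴ) * (V * ((Vᴴ * V)⁻¹ * Vᴴ)) = V * ((Vᴴ * V)⁻¹ * Vᴴ) := by
      rw [Matrix.mul_assoc, Matrix.mul_assoc, ← Matrix.mul_assoc Vᴴ, ← Matrix.mul_assoc _ (Vᴴ * V),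
        h1, Matrix.one_mul]
    simp only [Matrix.smul_mul, mul_sub, sub_mul, one_mul, mul_one, mul_smul_comm, smul_mul_assoc,
      this]
    module
  · rw [det_one_sub_mul_comm, Matrix.mul_smul, Matrix.mul_assoc, h1, det_fin_two]
    simp; norm_num
  · intro a b ω h h'
    have h2 : (2 : ℂ) • Vᴴ *ᵥ a = (Vᴴ * V) *ᵥ ω := by
      rw [← mulVec_mulVec, ← h, mulVec_sub]
      rw [mulVec_add] at h'
      linear_combination (norm := module) h'
    rw [sub_mulVec, one_mulVec, Matrix.smul_mul, smul_mulVec, ← mulVec_mulVec, ← mulVec_mulVec,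
      ← mulVec_smul, ← mulVec_smul, h2, mulVec_mulVec, mulVec_mulVec, Matrix.mul_assoc, h1,
      Matrix.mul_one, ← h, sub_sub_cancel]

/-- exponents of the diagonal matrix -/
def k1 : Fin 5 → Fin 5 := ![0, 0, 2, 3, 4]

/-- the diagonal matrix -/
noncomputable def Y1 : Mat := diagonal fun i => eta * ep (k1 i)

/-- cotangent weights -/
noncomputable def wt (j : Fin 5) (i : Fin 5) : ℝ := Kc (2 + 5 * (k1 i + j).val)

lemma star_eta_ep (j : Fin 5) : star (eta * ep j) * (eta * ep j) = 1 := by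
  rw [star_mul', mul_mul_mul_comm, star_eta, star_ep, one_mul]

lemma g1_inj : Function.Injective fun j => eta * ep j := fun _ _ h =>
  ep_inj (mul_left_cancel₀ eta_ne h)

lemma Y1_unit : Y1ᴴ * Y1 = 1 := by
  rw [Y1, diagonal_conjTranspose, diagonal_mul_diagonal, ← diagonal_one]
  congr 1; ext i; exact star_eta_ep _

lemma prod_g1 {l : Fin 5 → Fin 5} (h : ∑ i, l i = 4) : ∏ i, eta * ep (l i) = 1 := by
  rw [Finset.prod_mul_distrib, ← ep_sum, h]
  simp only [Finset.prod_const, Finset.card_univ, Fintype.card_fin, ep]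
  rw [← pow_succ']; exact zeta_prim.pow_eq_one

lemma Y1_det : Y1.det = 1 := by rw [Y1, det_diagonal]; exact prod_g1 (by decide)

lemma build (V : Matrix (Fin 5) (Fin 2) ℝ) (h2 : V 2 = ![1, 0]) (h30 : V 3 0 = 0) (h31 : V 3 1 ≠ 0)
    (a b c r : Fin 5) (hab : a ≠ b) (hac : a ≠ c) (hbc : b ≠ c) (hr : r + a + a + b + c = 4)
    (ha : Vᵀ * diagonal (wt a) * V = 0) (hb : (Vᵀ * diagonal (wt b) * V).det = 0)
    (hc : (Vᵀ * diagonal (wt c) * V).det = 0) :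
    ∃ (Z : Mat) (l : Fin 5 → Fin 5), Trip 1 Y1 Z ∧ Dg Z (fun i => eta * ep (l i)) ∧
      (∀ i, l i = r ∨ l i = a ∨ l i = b ∨ l i = c) ∧ ∃ i, l i = c := by
  set W : Matrix (Fin 5) (Fin 2) ℂ := V.map ofRealHom with hW
  have hV : ∀ ω, W *ᵥ ω = 0 → ω = 0 := by
    intro ω h
    have e2 := congrFun h 2
    have e3 := congrFun h 3
    simp [hW, mulVec, dotProduct, h2, h30, h31] at e2 e3
    ext i; fin_cases i
    exacts [e2, e3]
  have hF : ∀ w : Fin 5 → ℝ, Wᴴ * diagonal (fun i => (w i : ℂ)) * W =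
      (Vᵀ * diagonal w * V).map ofRealHom := by
    intro w
    rw [Matrix.map_mul, Matrix.map_mul, diagonal_map (map_zero _)]
    congr 2
    ext i j; simp [hW]
  obtain ⟨x, hx, hxx, dx, hrefl⟩ := exists_refl W hV
  have hne : ∀ j, star (eta * ep j) ≠ 0 := fun j => star_ne_zero.2 (mul_ne_zero eta_ne (ep_ne j))
  have rel : ∀ j i, eta * ep (k1 i) + star (eta * ep j) =
      -I * wt j i * (eta * ep (k1 i) - star (eta * ep j)) ∧
      eta * ep (k1 i) - star (eta * ep j) ≠ 0 := fun j i =>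
    cot_rel (a := 2) (by norm_num) (by norm_num) _ (hne j) (by
      rw [ep_add]; linear_combination (-(eta * ep (k1 i))) * star_eta_ep j)
  let L : Fin 5 → (Fin 2 → ℂ) →ₗ[ℂ] (Fin 5 → ℂ) := fun j =>
    Matrix.toLin' (diagonal (fun i => (eta * ep (k1 i) - star (eta * ep j))⁻¹) * W)
  have hL : ∀ j ω i, L j ω i * (eta * ep (k1 i) - star (eta * ep j)) = (W *ᵥ ω) i := by
    intro j ω i
    have := (rel j i).2
    simp only [L, toLin'_apply, ← mulVec_mulVec, mulVec_diagonal]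
    field_simp
  have Linj : ∀ j, Function.Injective (L j) := fun j => by
    rw [injective_iff_map_eq_zero]
    intro ω h
    apply hV
    ext i; rw [← hL j, h]; simp
  have Leig : ∀ j ω, (Wᴴ * diagonal (fun i => (wt j i : ℂ)) * W) *ᵥ ω = 0 →
      L j ω ∈ Eig (x * Y1) (star (eta * ep j)) := by
    intro j ω h
    rw [mem_Eig, ← mulVec_mulVec]
    apply hrefl _ _ ω
    · ext i
      rw [← hL j]
      simp only [Y1, Pi.sub_apply, mulVec_diagonal, Pi.smul_apply, smul_eq_mul]; ring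
    · have : Y1 *ᵥ L j ω + star (eta * ep j) • L j ω =
          (-I) • (diagonal (fun i => (wt j i : ℂ)) *ᵥ (W *ᵥ ω)) := by
        ext i
        simp only [Y1, Pi.add_apply, mulVec_diagonal, Pi.smul_apply, smul_eq_mul, ← hL j]
        linear_combination L j ω i * (rel j i).1
      rw [this, mulVec_smul, mulVec_mulVec, mulVec_mulVec, h, smul_zero]
  have uu : (x * Y1)ᴴ * (x * Y1) = 1 := by
    rw [conjTranspose_mul, hx, Matrix.mul_assoc, ← Matrix.mul_assoc x, hxx, one_mul, Y1_unit]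
  obtain ⟨d, hd⟩ := exists_Dg uu
  have simple : ∀ j, (Vᵀ * diagonal (wt j) * V).det = 0 → ∃ i, d i = star (eta * ep j) := by
    intro j hj
    have : (Wᴴ * diagonal (fun i => (wt j i : ℂ)) * W).det = 0 := by
      rw [hF, ← RingHom.mapMatrix_apply, ← RingHom.map_det, hj, map_zero]
    obtain ⟨ω, h0, h⟩ := Matrix.exists_mulVec_eq_zero_iff.2 this
    by_contra hcon
    exact h0 (Linj j ((hd.eq_zero (fun i hi => hcon ⟨i, hi⟩) (mem_Eig.1 (Leig j ω h))).trans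
      (map_zero _).symm))
  obtain ⟨i1, e1⟩ := simple b hb
  obtain ⟨i2, e2⟩ := simple c hc
  obtain ⟨i0, i0', e0, e0', hne0⟩ : ∃ i i', d i = star (eta * ep a) ∧ d i' = star (eta * ep a) ∧
      i ≠ i' := by
    classical
    have h1 : LinearMap.range (L a) ≤ Eig (x * Y1) (star (eta * ep a)) := by
      rintro _ ⟨ω, rfl⟩
      apply Leig
      rw [hF, ha]; simp
    have h3 := Submodule.finrank_mono h1
    rw [LinearMap.finrank_range_of_inj (Linj a), hd.eig] at h3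
    obtain ⟨i, hi, i', hi', h⟩ := Finset.one_lt_card.1 (lt_of_lt_of_le (by simp) h3)
    exact ⟨i, i', (Finset.mem_filter.1 hi).2, (Finset.mem_filter.1 hi').2, h⟩
  have ginj : Function.Injective fun j => star (eta * ep j) := star_injective.comp g1_inj
  have n1 : i0 ≠ i1 := fun h => hab (ginj (e0.symm.trans (h ▸ e1)))
  have n2 : i0 ≠ i2 := fun h => hac (ginj (e0.symm.trans (h ▸ e2)))
  have n3 : i0' ≠ i1 := fun h => hab (ginj (e0'.symm.trans (h ▸ e1)))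
  have n4 : i0' ≠ i2 := fun h => hac (ginj (e0'.symm.trans (h ▸ e2)))
  have n5 : i1 ≠ i2 := fun h => hbc (ginj (e1.symm.trans (h ▸ e2)))
  have du : (x * Y1).det = 1 := by rw [det_mul, dx, Y1_det, one_mul]
  have all : ∀ i, ∃ t, d i = star (eta * ep t) ∧ (t = r ∨ t = a ∨ t = b ∨ t = c) := by
    intro i
    by_cases hi : i ∈ ({i0, i0', i1, i2} : Finset (Fin 5))
    · simp only [Finset.mem_insert, Finset.mem_singleton] at hi
      rcases hi with rfl | rfl | rfl | rfl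
      exacts [⟨a, e0, by simp⟩, ⟨a, e0', by simp⟩, ⟨b, e1, by simp⟩, ⟨c, e2, by simp⟩]
    · refine ⟨r, ?_, by simp⟩
      have hu : (insert i {i0, i0', i1, i2} : Finset (Fin 5)) = Finset.univ := by
        apply Finset.eq_univ_of_card
        rw [Finset.card_insert_of_notMem hi, Finset.card_insert_of_notMem (by simp [hne0, n1, n2]),
          Finset.card_insert_of_notMem (by simp [n3, n4]), Finset.card_pair n5]
        rfl
      have h3 := hd.det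
      rw [du, ← hu, Finset.prod_insert hi, Finset.prod_insert (by simp [hne0, n1, n2]),
        Finset.prod_insert (by simp [n3, n4]), Finset.prod_pair n5, e0, e0', e1, e2] at h3
      have h4 := congrArg star (prod_g1 (l := ![r, a, a, b, c]) (by
        rw [Fin.sum_univ_five]; exact hr))
      rw [star_prod, Fin.prod_univ_five, star_one] at h4
      apply mul_right_cancel₀ (mul_ne_zero (hne a) (mul_ne_zero (hne a)
        (mul_ne_zero (hne b) (hne c))))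
      rw [← h3, ← h4]
      simp only [mul_assoc]; rfl
  choose l hl hl' using all
  have hZ : Dg (x * Y1)ᴴ fun i => eta * ep (l i) := by simpa [hl] using hd.adj
  have YZ : Y1 * (x * Y1)ᴴ = x := by
    rw [conjTranspose_mul, ← Matrix.mul_assoc, mul_eq_one_comm.1 Y1_unit, one_mul, hx]
  have p5 : ∀ t, (eta * ep t) ^ 5 = (eta ^ 5) ^ 1 := fun t => by rw [mul_pow, ep_pow5]; simp
  refine ⟨(x * Y1)ᴴ, l, ⟨Y1_unit, ?_, Y1_det, ?_, ?_, ?_, ?_⟩, hZ, hl', i2,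
    ginj ((hl i2).symm.trans e2)⟩
  · rw [conjTranspose_conjTranspose]; exact mul_eq_one_comm.1 uu
  · rw [det_conjTranspose, du, star_one]
  · exact (((Dg_diagonal _).pow 5).eq_smul_iff _).2 fun i => p5 _
  · exact ((hZ.pow 5).eq_smul_iff _).2 fun i => p5 _
  · rw [YZ, hxx]

lemma mul_bd {x y a a' b b' : ℝ} (hx : a ≤ x ∧ x ≤ a') (hy : b ≤ y ∧ y ≤ b') (ha : 0 ≤ a)
    (hb : 0 ≤ b) : a * b ≤ x * y ∧ x * y ≤ a' * b' :=
  ⟨mul_le_mul hx.1 hy.1 hb (ha.trans hx.1), mul_le_mul hx.2 hy.2 (hb.trans hy.1)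
    (ha.trans (hx.1.trans hx.2))⟩

lemma wt_eq : wt 0 = ![Kc 2, Kc 2, Kc 12, -Kc 8, -Kc 3] ∧ wt 1 = ![Kc 7, Kc 7, -Kc 8, -Kc 3, Kc 2] ∧
    wt 2 = ![Kc 12, Kc 12, -Kc 3, Kc 2, Kc 7] ∧ wt 3 = ![-Kc 8, -Kc 8, Kc 2, Kc 7, Kc 12] := by
  have e17 : Kc 17 = -Kc 8 := Kc_neg rfl
  have e22 : Kc 22 = -Kc 3 := Kc_neg rfl
  rw [← e17, ← e22]
  refine ⟨?_, ?_, ?_, ?_⟩ <;> ext i <;> fin_cases i <;> rfl

lemma numE : ∃ A B C D E F G : ℝ, A = Kc 2 * Kc 3 + Kc 12 * Kc 12 ∧ B = Kc 2 * Kc 2 + Kc 8 * Kc 12 ∧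
    C = Kc 2 * Kc 7 + Kc 3 * Kc 12 ∧ D = Kc 2 * Kc 7 - Kc 8 * Kc 8 ∧
    E = Kc 3 * Kc 8 - Kc 2 * Kc 12 ∧ F = Kc 3 * Kc 8 - Kc 7 * Kc 7 ∧
    G = Kc 2 * Kc 8 + Kc 7 * Kc 12 ∧ (9.8 ≤ A ∧ A ≤ 9.9) ∧ (15.2 ≤ B ∧ B ≤ 15.3) ∧
    (3.3 ≤ C ∧ C ≤ 3.4) ∧ (2.8 ≤ D ∧ D ≤ 2.9) ∧ (1.3 ≤ E ∧ E ≤ 1.4) ∧ (0.9 ≤ F ∧ F ≤ 1) ∧
    (2.5 ≤ G ∧ G ≤ 2.6) := by
  have a1 := mul_bd K2 K3 (by norm_num) (by norm_num)
  have a2 := mul_bd K12 K12 (by norm_num) (by norm_num)
  have a3 := mul_bd K2 K2 (by norm_num) (by norm_num)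
  have a4 := mul_bd K8 K12 (by norm_num) (by norm_num)
  have a5 := mul_bd K2 K7 (by norm_num) (by norm_num)
  have a6 := mul_bd K3 K12 (by norm_num) (by norm_num)
  have a7 := mul_bd K8 K8 (by norm_num) (by norm_num)
  have a8 := mul_bd K3 K8 (by norm_num) (by norm_num)
  have a9 := mul_bd K2 K12 (by norm_num) (by norm_num)
  have a10 := mul_bd K7 K7 (by norm_num) (by norm_num)
  have a11 := mul_bd K2 K8 (by norm_num) (by norm_num)
  have a12 := mul_bd K7 K12 (by norm_num) (by norm_num)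
  refine ⟨_, _, _, _, _, _, _, rfl, rfl, rfl, rfl, rfl, rfl, rfl, ?_⟩
  norm_num at *
  refine ⟨⟨?_, ?_⟩, ⟨?_, ?_⟩, ⟨?_, ?_⟩, ⟨?_, ?_⟩, ⟨?_, ?_⟩, ⟨?_, ?_⟩, ⟨?_, ?_⟩⟩ <;> linarith only [a1, a2, a3, a4, a5, a6, a7, a8, a9, a10, a11, a12]

lemma exists_Z1 : ∃ (Z : Mat) (l : Fin 5 → Fin 5), Trip 1 Y1 Z ∧ Dg Z (fun i => eta * ep (l i)) ∧
    ∀ i, l i ≠ 1 := by
  obtain ⟨A, B, C, D, E, F, G, hA, hB, hC, hD, hE, -, -, bA, bB, bC, bD, bE, -, -⟩ := numE
  have b1 := mul_bd bA bD (by norm_num) (by norm_num)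
  have b2 := mul_bd bB bB (by norm_num) (by norm_num)
  have b3 := mul_bd bC bE (by norm_num) (by norm_num)
  have b4 := mul_bd bB bD (by norm_num) (by norm_num)
  have b5 := mul_bd bC bB (by norm_num) (by norm_num)
  have b6 := mul_bd bA bE (by norm_num) (by norm_num)
  have b7 := mul_bd bA bB (by norm_num) (by norm_num)
  have b8 := mul_bd bB bE (by norm_num) (by norm_num)
  have b9 := mul_bd bC bD (by norm_num) (by norm_num)
  have d12 := mul_bd b3 (x := C * E) (y := A * D + B * B) (b := 200) (b' := 300)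
    ⟨by linarith only [b1, b2], by linarith only [b1, b2]⟩ (by norm_num) (by norm_num)
  have d13 := mul_bd b4 (x := B * D) (y := C * B - A * E) (b := 30) (b' := 50)
    ⟨by linarith only [b5, b6], by linarith only [b5, b6]⟩ (by norm_num) (by norm_num)
  have d23 := mul_bd b7 (x := A * B) (y := B * E + C * D) (b := 20) (b' := 40)
    ⟨by linarith only [b8, b9], by linarith only [b8, b9]⟩ (by norm_num) (by norm_num)
  have c1 := mul_bd K12 d12 (by norm_num) (by norm_num)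
  have c2 := mul_bd K3 d23 (by norm_num) (by norm_num)
  have c3 := mul_bd K8 c1 (by norm_num) (by norm_num)
  have c4 := mul_bd K8 c2 (by norm_num) (by norm_num)
  have c5 := mul_bd K3 (mul_bd K12 d13 (by norm_num) (by norm_num)) (by norm_num) (by norm_num)
  have k2 := K2
  obtain ⟨V, h2, h30, h31, ha, hV⟩ := exists_V (c0 := Kc 2) (c1 := Kc 12) (c2 := -Kc 8)
    (c3 := -Kc 3) (d12 := C * E * (A * D + B * B)) (d13 := B * D * (C * B - A * E))
    (d23 := A * B * (B * E + C * D)) (by linarith only [k2]) (by linarith only [d12]) (by linarith only [d13]) (by linarith only [d23])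
    (by rw [neg_mul, ← mul_neg]; exact mul_pos (by linarith only [k2]) (by linarith only [c1, c2])) (by linarith only [c3, c4, c5])
  obtain ⟨w0, -, w2, w3⟩ := wt_eq
  obtain ⟨Z, l, T, hZ, hl, -⟩ := build V h2 h30 h31 0 2 3 4 (by decide) (by decide) (by decide)
    (by decide) (w0 ▸ ha) (w2 ▸ hV _ _ _ _ (by rw [hA, hB, hC, hD, hE]; ring))
    (w3 ▸ hV _ _ _ _ (by rw [hA, hB, hC, hD, hE]; ring))
  refine ⟨Z, l, T, hZ, fun i hi => ?_⟩
  have := hl i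
  rw [hi] at this
  revert this; decide

lemma exists_Z2 : ∃ (Z : Mat) (l : Fin 5 → Fin 5), Trip 1 Y1 Z ∧ Dg Z (fun i => eta * ep (l i)) ∧
    ∃ i, l i = 1 := by
  obtain ⟨A, B, C, D, E, F, G, -, hB, -, hD, hE, hF, hG, -, bB, -, bD, bE, bF, bG⟩ := numE
  have b1 := mul_bd bD bG (by norm_num) (by norm_num)
  have b2 := mul_bd bE bF (by norm_num) (by norm_num)
  have pB : 0 < B := by linarith only [bB]
  have pD : 0 < D := by linarith only [bD]
  have pE : 0 < E := by linarith only [bE]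
  have pF : 0 < F := by linarith only [bF]
  have pG : 0 < G := by linarith only [bG]
  have pH : 0 < D * G - E * F := by linarith only [b1, b2]
  have k2 : 0 < Kc 2 := by linarith only [K2]
  have k7 : 0 < Kc 7 := by linarith only [K7]
  have k8 : 0 < Kc 8 := by linarith only [K8]
  have k12 : 0 < Kc 12 := by linarith only [K12]
  obtain ⟨V, h2, h30, h31, ha, hV⟩ := exists_V (c0 := -Kc 8) (c1 := Kc 2) (c2 := Kc 7)
    (c3 := Kc 12) (d12 := E * G * (B * F + D * D)) (d13 := D * F * (E * D + B * G))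
    (d23 := B * D * (D * G - E * F)) (by linarith only [k8]) (by positivity) (by positivity) (by positivity)
    (by rw [neg_neg]; positivity) (by positivity)
  obtain ⟨w0, w1, -, w3⟩ := wt_eq
  obtain ⟨Z, l, T, hZ, -, hl⟩ := build V h2 h30 h31 3 0 1 2 (by decide) (by decide) (by decide)
    (by decide) (w3 ▸ ha) (w0 ▸ hV _ _ _ _ (by rw [hB, hD, hE, hF, hG]; ring))
    (w1 ▸ hV _ _ _ _ (by rw [hB, hD, hE, hF, hG]; ring))
  exact ⟨Z, l, T, hZ, hl⟩

theorem exists_pair : ∃ Y Z1 Z2 : Mat, Trip 1 Y Z1 ∧ Trip 1 Y Z2 ∧ ∀ (n : Fin 5) (M : Mat),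
    Y * M = ep n • (M * Y) → ep n • (Z1 * M) = M * Z2 → M = 0 := by
  obtain ⟨Z1, l1, T1, h1, hl1⟩ := exists_Z1
  obtain ⟨Z2, l2, T2, h2, i2, hl2⟩ := exists_Z2
  refine ⟨Y1, Z1, Z2, T1, T2, fun n M hY hZ => ?_⟩
  have hD : Dg Y1 fun i => eta * ep (k1 i) := Dg_diagonal _
  have a1 : ∀ v ∈ Eig M 0, Y1 *ᵥ v ∈ Eig M 0 := by
    intro v hv
    rw [mem_Eig, zero_smul] at hv ⊢
    have : ep n • (M *ᵥ (Y1 *ᵥ v)) = 0 := by
      rw [mulVec_mulVec, ← smul_mulVec, ← hY, ← mulVec_mulVec, hv, mulVec_zero]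
    exact (smul_eq_zero.1 this).resolve_left (ep_ne n)
  have a2 : ∀ v ∈ Eig M 0, Z2 *ᵥ v ∈ Eig M 0 := by
    intro v hv
    rw [mem_Eig, zero_smul] at hv ⊢
    rw [mulVec_mulVec, ← hZ, smul_mulVec, ← mulVec_mulVec, hv, mulVec_zero, smul_zero]
  rcases T2.irr (by decide) (Eig M 0) a1 a2 with h | h
  · exfalso
    have inj : ∀ v, M *ᵥ v = 0 → v = 0 := fun v hv => by
      have : v ∈ Eig M 0 := mem_Eig.2 (by rw [hv, zero_smul])
      rwa [h] at this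
    by_cases hn : n = 0
    · obtain ⟨f, hf0, hf⟩ := h2.exists_eigvec i2
      rw [hn, ep_zero, one_smul] at hZ
      refine hf0 (inj f (h1.eq_zero (μ := eta * ep 1) (fun i hi => hl1 i (g1_inj hi)) ?_))
      rw [mulVec_mulVec, hZ, ← mulVec_mulVec, hf, hl2, mulVec_smul]
    · obtain ⟨i, hi⟩ : ∃ i, n + k1 i = 1 := by clear hY hZ; revert n; decide
      obtain ⟨f, hf0, hf⟩ := hD.exists_eigvec i
      refine hf0 (inj f (hD.eq_zero (μ := eta * ep 1) (fun i hi => ?_) ?_))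
      · exact (by decide : ∀ i, k1 i ≠ 1) i (g1_inj hi)
      · rw [mulVec_mulVec, hY, smul_mulVec, ← mulVec_mulVec, hf, mulVec_smul, smul_smul, ← hi,
          ep_add, mul_left_comm]
  · simpa using Eig_top h

end Pool.Agent.Work.MP_f81df4_al
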