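import Mathlib.Analysis.Matrix.Spectrum
import Mathlib.LinearAlgebra.Eigenspace.Minpoly
import Mathlib.LinearAlgebra.Eigenspace.Triangularizable
import Mathlib.LinearAlgebra.Dual.Lemmas
import Mathlib.LinearAlgebra.Determinant
import Mathlib.Analysis.Complex.Polynomial.Basic
import Mathlib.RingTheory.RootsOfUnity.PrimitiveRoots

/-! Linear algebra: diagonalisation of unitary matrices, Scott's inequality, irreducibility. -/

set_option autoImplicit false

namespace Pool.Agent.Work.MP_f81df4_al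

open Matrix Module Complex

/-- five by five complex matrices -/
abbrev Mat := Matrix (Fin 5) (Fin 5) ℂ

lemma exists_unit_notMem {S : Set ℂ} (hS : S.Finite) : ∃ c : ℂ, star c * c = 1 ∧ c ∉ S := by
  have hne : ∀ t : ℕ, ((t : ℂ) - I) ≠ 0 := fun t h => by simpa using congrArg Complex.im h
  have hne' : ∀ t : ℕ, ((t : ℂ) + I) ≠ 0 := fun t h => by simpa using congrArg Complex.im h
  have hinj : Function.Injective fun t : ℕ => ((t : ℂ) + I) / ((t : ℂ) - I) := by
    intro s t h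
    simp only at h
    rw [div_eq_div_iff (hne s) (hne t)] at h
    have h2 : (2 * I) * ((s : ℂ) - t) = 0 := by linear_combination -h
    have h3 : (s : ℂ) - t = 0 := (mul_eq_zero.1 h2).resolve_left (by simp)
    exact_mod_cast sub_eq_zero.1 h3
  obtain ⟨_, ⟨t, rfl⟩, h⟩ := (Set.infinite_range_of_injective hinj).exists_notMem_finite hS
  refine ⟨_, ?_, h⟩
  simp only [star_div₀, star_add, star_sub, star_natCast, RCLike.star_def, conj_I]
  have := hne t
  have := hne' t
  rw [sub_neg_eq_add, ← sub_eq_add_neg]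
  field_simp

lemma unitary_diag {U : Mat} (hU : Uᴴ * U = 1) :
    ∃ (P : Mat) (d : Fin 5 → ℂ), Pᴴ * P = 1 ∧ U * P = P * diagonal d := by
  obtain ⟨c, hc, hcs⟩ := exists_unit_notMem (Matrix.finite_spectrum U)
  have hW : IsUnit (c • (1 : Mat) - U) := by
    rw [spectrum.notMem_iff, Algebra.algebraMap_eq_smul_one] at hcs
    exact hcs
  set W := c • (1 : Mat) - U with hWdef
  have hU' : U * Uᴴ = 1 := mul_eq_one_comm.1 hU
  have hdet : IsUnit W.det := (Matrix.isUnit_iff_isUnit_det W).1 hW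
  have hH0 : (I • (star c • U - c • Uᴴ)).IsHermitian := by
    unfold Matrix.IsHermitian
    simp only [conjTranspose_smul, conjTranspose_sub, conjTranspose_conjTranspose,
      RCLike.star_def, conj_I, conj_conj]
    module
  have hA := isHermitian_conjTranspose_mul_mul W⁻¹ hH0
  set A := (W⁻¹)ᴴ * (I • (star c • U - c • Uᴴ)) * W⁻¹ with hAdef
  have h1 : I • (star c • U - c • Uᴴ) = Wᴴ * (I • (c • (1 : Mat) + U)) := by
    simp only [hWdef, conjTranspose_sub, conjTranspose_smul, conjTranspose_one, mul_smul_comm,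
      mul_add, sub_mul, smul_mul_assoc, one_mul, mul_one, hU]
    have : c • star c • (1 : Mat) = 1 := by rw [smul_smul, mul_comm, hc, one_smul]
    rw [smul_sub c, this]
    module
  have h2 : A = (I • (c • (1 : Mat) + U)) * W⁻¹ := by
    rw [hAdef, h1, ← Matrix.mul_assoc, ← conjTranspose_mul, Matrix.mul_nonsing_inv _ hdet]
    simp
  have h3 : W * A = I • (c • (1 : Mat) + U) := by
    have hcomm : W * (I • (c • (1 : Mat) + U)) = (I • (c • (1 : Mat) + U)) * W := by
      simp only [hWdef, mul_smul_comm, smul_mul_assoc, mul_add, add_mul, sub_mul, mul_sub, one_mul,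
        mul_one]
      module
    rw [h2, ← Matrix.mul_assoc, hcomm, Matrix.mul_assoc, Matrix.mul_nonsing_inv _ hdet, mul_one]
  set P : Mat := hA.eigenvectorUnitary.1 with hP
  have hPu : Pᴴ * P = 1 := (Matrix.mem_unitaryGroup_iff'.1 hA.eigenvectorUnitary.2)
  set h : Fin 5 → ℂ := RCLike.ofReal ∘ hA.eigenvalues with hh
  have h4 : A * P = P * diagonal h := by
    have := hA.spectral_theorem
    rw [Unitary.conjStarAlgAut_apply] at this
    conv_lhs => rw [this]
    change P * diagonal h * Pᴴ * P = _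
    rw [Matrix.mul_assoc, hPu, mul_one]
  have h5 : U * P * diagonal (fun i => h i + I) = P * diagonal (fun i => c * (h i - I)) := by
    have e1 : W * (P * diagonal h) = I • (c • (1 : Mat) + U) * P := by
      rw [← h4, ← Matrix.mul_assoc, h3]
    have e2 : diagonal (fun i => h i + I) = diagonal h + I • (1 : Mat) := by
      ext i j; by_cases hij : i = j <;> simp [hij, diagonal, one_apply]
    have e3 : diagonal (fun i => c * (h i - I)) = c • (diagonal h - I • (1 : Mat)) := by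
      ext i j; by_cases hij : i = j <;> simp [hij, diagonal, one_apply]
    rw [e2, e3]
    simp only [hWdef, sub_mul, smul_mul_assoc, add_mul, one_mul, mul_add, mul_smul_comm, mul_sub,
      mul_one, ← Matrix.mul_assoc] at e1 ⊢
    linear_combination (norm := module) -e1
  have hne : ∀ i, h i + I ≠ 0 := fun i hi => by simpa [hh] using congrArg Complex.im hi
  refine ⟨P, fun i => c * (h i - I) * (h i + I)⁻¹, hPu, ?_⟩
  have e4 : diagonal (fun i => h i + I) * diagonal (fun i => (h i + I)⁻¹) = (1 : Mat) := by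
    rw [diagonal_mul_diagonal, ← diagonal_one]
    congr 1; ext i; exact mul_inv_cancel₀ (hne i)
  calc U * P = U * P * (diagonal (fun i => h i + I) * diagonal (fun i => (h i + I)⁻¹)) := by
        rw [e4, mul_one]
    _ = _ := by rw [← Matrix.mul_assoc, h5, Matrix.mul_assoc, diagonal_mul_diagonal]

lemma finrank_ker_pointwise {ι : Type} [Fintype ι] [DecidableEq ι] (c : ι → ℂ)
    [DecidablePred fun i => c i = 0] (f : (ι → ℂ) →ₗ[ℂ] (ι → ℂ)) (hf : ∀ v i, f v i = c i * v i) :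
    finrank ℂ (LinearMap.ker f) = (Finset.univ.filter fun i => c i = 0).card := by
  have e : LinearMap.ker f ≃ₗ[ℂ] ({i // c i = 0} → ℂ) :=
    { toFun := fun v i => v.1 i.1
      map_add' := fun _ _ => rfl
      map_smul' := fun _ _ => rfl
      invFun := fun w => ⟨fun i => if h : c i = 0 then w ⟨i, h⟩ else 0, by
        rw [LinearMap.mem_ker]; ext i; rw [hf]; by_cases h : c i = 0 <;> simp [h]⟩
      left_inv := fun v => by
        ext i
        by_cases h : c i = 0
        · simp [h]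
        · have := congrFun (LinearMap.mem_ker.1 v.2) i
          rw [hf] at this
          simp only [h, dite_false]
          exact ((mul_eq_zero.1 this).resolve_left h).symm
      right_inv := fun w => by ext i; simp [i.2] }
  rw [e.finrank_eq, Module.finrank_fintype_fun_eq_card, Fintype.card_subtype]

lemma finrank_ker_conj {V W : Type} [AddCommGroup V] [Module ℂ V] [AddCommGroup W] [Module ℂ W]
    (e : V ≃ₗ[ℂ] W) (f : W →ₗ[ℂ] W) (g : V →ₗ[ℂ] V) (h : ∀ v, f (e v) = e (g v)) :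
    finrank ℂ (LinearMap.ker f) = finrank ℂ (LinearMap.ker g) := by
  have : LinearMap.ker f = (LinearMap.ker g).map (e : V →ₗ[ℂ] W) := by
    ext w
    obtain ⟨v, rfl⟩ := e.surjective w
    simp [h]
  rw [this, LinearEquiv.finrank_map_eq]

/-- eigenspace of a matrix -/
noncomputable def Eig (A : Mat) (μ : ℂ) : Submodule ℂ (Fin 5 → ℂ) :=
  LinearMap.ker (Matrix.toLin' (A - μ • 1))

lemma mem_Eig {A : Mat} {μ : ℂ} {v : Fin 5 → ℂ} : v ∈ Eig A μ ↔ A *ᵥ v = μ • v := by
  simp [Eig, sub_eq_zero]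

open Classical in
lemma finrank_Eig {A P : Mat} {d : Fin 5 → ℂ} (hP : Pᴴ * P = 1) (h : A * P = P * diagonal d)
    (μ : ℂ) : finrank ℂ (Eig A μ) = (Finset.univ.filter fun i => d i = μ).card := by
  have hP' : P * Pᴴ = 1 := mul_eq_one_comm.1 hP
  rw [Eig, finrank_ker_conj (Matrix.toLin'OfInv hP hP') _ (Matrix.toLin' (diagonal d - μ • 1)),
    finrank_ker_pointwise (fun i => d i - μ)]
  · simp [sub_eq_zero]
  · intro v i
    simp [mulVec_diagonal, sub_mul]
  · intro v
    change (A - μ • 1) *ᵥ (P *ᵥ v) = P *ᵥ ((diagonal d - μ • 1) *ᵥ v)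
    rw [mulVec_mulVec, mulVec_mulVec, sub_mul, h, mul_sub]; simp

/-- intertwiners -/
noncomputable def Itw (A B : Mat) : Submodule ℂ Mat :=
  LinearMap.ker (LinearMap.mulLeft ℂ A - LinearMap.mulRight ℂ B)

lemma mem_Itw {A B M : Mat} : M ∈ Itw A B ↔ A * M = M * B := by
  simp [Itw, sub_eq_zero]

open Classical in
lemma finrank_Itw {A P B Q : Mat} {d e : Fin 5 → ℂ} (hP : Pᴴ * P = 1) (h : A * P = P * diagonal d)
    (hQ : Qᴴ * Q = 1) (h' : B * Q = Q * diagonal e) :
    finrank ℂ (Itw A B) = (Finset.univ.filter fun p : Fin 5 × Fin 5 => d p.1 = e p.2).card := by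
  have hP' : P * Pᴴ = 1 := mul_eq_one_comm.1 hP
  have hQ' : Q * Qᴴ = 1 := mul_eq_one_comm.1 hQ
  have hB : Qᴴ * B = diagonal e * Qᴴ := by
    calc Qᴴ * B = Qᴴ * (B * Q) * Qᴴ := by
          rw [Matrix.mul_assoc, Matrix.mul_assoc, hQ', mul_one]
      _ = _ := by rw [h', ← Matrix.mul_assoc, hQ, one_mul]
  let E : (Fin 5 × Fin 5 → ℂ) ≃ₗ[ℂ] Mat :=
    { toFun := fun v => P * (Matrix.of fun i j => v (i, j)) * Qᴴ
      map_add' := fun v w => by
        rw [← add_mul, ← mul_add]; rfl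
      map_smul' := fun c v => by
        rw [RingHom.id_apply, ← smul_mul_assoc, ← mul_smul_comm]; rfl
      invFun := fun M p => (Pᴴ * M * Q) p.1 p.2
      left_inv := fun v => by
        ext p
        simp only [← Matrix.mul_assoc, hP, one_mul]
        rw [Matrix.mul_assoc, hQ, mul_one]; rfl
      right_inv := fun M => by
        change P * (Pᴴ * M * Q) * Qᴴ = M
        simp only [← Matrix.mul_assoc, hP', one_mul]
        rw [Matrix.mul_assoc, hQ', mul_one] }
  let g : (Fin 5 × Fin 5 → ℂ) →ₗ[ℂ] (Fin 5 × Fin 5 → ℂ) :=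
    { toFun := fun v p => (d p.1 - e p.2) * v p
      map_add' := fun v w => by ext; simp [mul_add]
      map_smul' := fun c v => by ext; simp; ring }
  rw [Itw, finrank_ker_conj E _ g, finrank_ker_pointwise (fun p => d p.1 - e p.2) g (fun _ _ => rfl)]
  · simp [sub_eq_zero]
  · intro v
    change A * (P * (Matrix.of fun i j => v (i, j)) * Qᴴ) - P * (Matrix.of fun i j => v (i, j)) * Qᴴ * B
      = P * (Matrix.of fun i j => (d i - e j) * v (i, j)) * Qᴴ
    have : (Matrix.of fun i j => (d i - e j) * v (i, j)) =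
        diagonal d * (Matrix.of fun i j => v (i, j)) - (Matrix.of fun i j => v (i, j)) * diagonal e := by
      ext i j; simp [diagonal_mul, mul_diagonal]; ring
    rw [this, ← Matrix.mul_assoc, ← Matrix.mul_assoc, h, Matrix.mul_assoc _ Qᴴ, hB, mul_sub, sub_mul]
    simp only [Matrix.mul_assoc]

lemma scott {V : Type} [AddCommGroup V] [Module ℂ V] [FiniteDimensional ℂ V] (Y Z : V →ₗ[ℂ] V) :
    finrank ℂ (LinearMap.ker (Y - 1)) + finrank ℂ (LinearMap.ker (Z - 1))
      + finrank ℂ (LinearMap.ker (Y * Z - 1))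
      + finrank ℂ (LinearMap.range (Y - 1) ⊔ LinearMap.range (Z - 1) : Submodule ℂ V) ≤
    2 * finrank ℂ V
      + finrank ℂ (LinearMap.ker (Y - 1) ⊓ LinearMap.ker (Z - 1) : Submodule ℂ V) := by
  let d2 : V →ₗ[ℂ] LinearMap.range (Y - 1) × LinearMap.range (Z - 1) × LinearMap.range (Y * Z - 1) :=
    ((Y - 1).rangeRestrict ∘ₗ Z).prod ((Z - 1).rangeRestrict.prod (Y * Z - 1).rangeRestrict)
  let d1 : LinearMap.range (Y - 1) × LinearMap.range (Z - 1) × LinearMap.range (Y * Z - 1) →ₗ[ℂ] V :=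
    (Submodule.subtype _).coprod ((Submodule.subtype _).coprod (-Submodule.subtype _))
  have h1 : LinearMap.range d2 ≤ LinearMap.ker d1 := by
    rintro _ ⟨m, rfl⟩
    simp [d1, d2]
  have h2 : LinearMap.ker d2 ≤ LinearMap.ker (Y - 1) ⊓ LinearMap.ker (Z - 1) := by
    intro m hm
    simp only [d2, LinearMap.mem_ker, LinearMap.prod_apply, Function.prod_apply, Prod.mk_eq_zero,
      LinearMap.comp_apply, Subtype.ext_iff, LinearMap.codRestrict_apply,
      ZeroMemClass.coe_zero] at hm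
    have hz : Z m = m := by simpa [sub_eq_zero] using hm.2.1
    refine ⟨?_, hm.2.1⟩
    have := hm.1
    rwa [hz] at this
  have h3 : LinearMap.range (Y - 1) ⊔ LinearMap.range (Z - 1) ≤ LinearMap.range d1 := by
    apply sup_le
    · intro v hv
      exact ⟨(⟨v, hv⟩, 0, 0), by simp [d1]⟩
    · intro v hv
      exact ⟨(0, ⟨v, hv⟩, 0), by simp [d1]⟩
  have a1 := Submodule.finrank_mono h1
  have a2 := Submodule.finrank_mono h2
  have a3 := Submodule.finrank_mono h3
  have a4 := LinearMap.finrank_range_add_finrank_ker d1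
  have a5 := LinearMap.finrank_range_add_finrank_ker d2
  have a6 := LinearMap.finrank_range_add_finrank_ker (Y - 1)
  have a7 := LinearMap.finrank_range_add_finrank_ker (Z - 1)
  have a8 := LinearMap.finrank_range_add_finrank_ker (Y * Z - 1)
  rw [finrank_prod, finrank_prod] at a4
  omega

lemma finrank_Mat : finrank ℂ Mat = 25 := by simp [Module.finrank_matrix]

lemma scott_mat {Y1 Z1 Y2 Z2 : Mat} (hY : Y2ᴴ * Y2 = 1) (hZ : Z2ᴴ * Z2 = 1) :
    finrank ℂ (Itw Y1 Y2) + finrank ℂ (Itw Z1 Z2) + finrank ℂ (Itw (Y1 * Z1) (Y2 * Z2)) ≤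
      25 + finrank ℂ (Itw Y1 Y2 ⊓ Itw Z1 Z2 : Submodule ℂ Mat)
        + finrank ℂ (Itw Y2 Y1 ⊓ Itw Z2 Z1 : Submodule ℂ Mat) := by
  have key : ∀ A B : Mat, Bᴴ * B = 1 →
      LinearMap.ker (LinearMap.mulLeft ℂ A * LinearMap.mulRight ℂ Bᴴ - 1) = Itw A B := by
    intro A B hB
    have hB' : B * Bᴴ = 1 := mul_eq_one_comm.1 hB
    ext M
    simp only [LinearMap.mem_ker, LinearMap.sub_apply, Module.End.mul_apply, LinearMap.mulLeft_apply,
      LinearMap.mulRight_apply, Module.End.one_apply, sub_eq_zero, mem_Itw]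
    constructor
    · intro h
      conv_rhs => rw [← h]
      rw [Matrix.mul_assoc, Matrix.mul_assoc, hB, mul_one]
    · intro h
      rw [← Matrix.mul_assoc, h, Matrix.mul_assoc, hB', mul_one]
  have h := scott (LinearMap.mulLeft ℂ Y1 * LinearMap.mulRight ℂ Y2ᴴ)
    (LinearMap.mulLeft ℂ Z1 * LinearMap.mulRight ℂ Z2ᴴ)
  have e : (LinearMap.mulLeft ℂ Y1 * LinearMap.mulRight ℂ Y2ᴴ) *
      (LinearMap.mulLeft ℂ Z1 * LinearMap.mulRight ℂ Z2ᴴ) =
      LinearMap.mulLeft ℂ (Y1 * Z1) * LinearMap.mulRight ℂ (Y2 * Z2)ᴴ := by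
    ext1 M
    simp [Matrix.mul_assoc]
  have hYZ : (Y2 * Z2)ᴴ * (Y2 * Z2) = 1 := by
    rw [conjTranspose_mul, Matrix.mul_assoc, ← Matrix.mul_assoc Y2ᴴ, hY, one_mul, hZ]
  rw [e, key _ _ hY, key _ _ hZ, key _ _ hYZ, finrank_Mat] at h
  set S := LinearMap.range (LinearMap.mulLeft ℂ Y1 * LinearMap.mulRight ℂ Y2ᴴ - 1) ⊔
    LinearMap.range (LinearMap.mulLeft ℂ Z1 * LinearMap.mulRight ℂ Z2ᴴ - 1) with hS
  have h2 := Subspace.finrank_add_finrank_dualAnnihilator_eq S
  let Φ : Mat →ₗ[ℂ] Dual ℂ Mat := (LinearMap.mul ℂ Mat).compr₂ (Matrix.traceLinearMap _ ℂ ℂ)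
  have hΦ : ∀ N M : Mat, Φ N M = (N * M).trace := fun _ _ => rfl
  have hinj : ∀ N : Mat, (∀ M, (N * M).trace = 0) → N = 0 := by
    intro N hN
    ext i j
    simpa [Matrix.trace_mul_single] using hN (Matrix.single j i 1)
  have hsurj : Function.Surjective Φ := by
    rw [← LinearMap.injective_iff_surjective_of_finrank_eq_finrank (by simp)]
    rw [injective_iff_map_eq_zero]
    intro N hN
    exact hinj N fun M => by rw [← hΦ, hN]; rfl
  have h3 : S.dualAnnihilator ≤ (Itw Y2 Y1 ⊓ Itw Z2 Z1).map Φ := by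
    intro μ hμ
    obtain ⟨N, rfl⟩ := hsurj μ
    rw [Submodule.mem_dualAnnihilator] at hμ
    have k2 : ∀ A B : Mat, Bᴴ * B = 1 →
        (∀ M, Φ N ((LinearMap.mulLeft ℂ A * LinearMap.mulRight ℂ Bᴴ - 1 : Mat →ₗ[ℂ] Mat) M) = 0) →
        N ∈ Itw B A := by
      intro A B hB hM
      have hB' : B * Bᴴ = 1 := mul_eq_one_comm.1 hB
      have : Bᴴ * N * A - N = 0 := hinj _ fun M => by
        rw [← hM M, hΦ]
        simp only [LinearMap.sub_apply, Module.End.mul_apply, LinearMap.mulLeft_apply,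
          LinearMap.mulRight_apply, Module.End.one_apply, sub_mul, mul_sub, trace_sub]
        rw [← Matrix.mul_assoc N, ← Matrix.mul_assoc (N * A), trace_mul_comm _ Bᴴ]
        simp only [Matrix.mul_assoc]
      rw [mem_Itw]
      conv_lhs => rw [← sub_eq_zero.1 this]
      rw [← Matrix.mul_assoc, ← Matrix.mul_assoc, hB', one_mul]
    exact ⟨N, ⟨k2 _ _ hY fun M => hμ _ (Submodule.mem_sup_left ⟨M, rfl⟩),
      k2 _ _ hZ fun M => hμ _ (Submodule.mem_sup_right ⟨M, rfl⟩)⟩, rfl⟩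
  have a1 := Submodule.finrank_mono h3
  have a2 := Submodule.finrank_map_le Φ (Itw Y2 Y1 ⊓ Itw Z2 Z1)
  rw [finrank_Mat] at h2
  omega

lemma irred {ζ : ℂ} (hζ : IsPrimitiveRoot ζ 5) {Y Z : Mat} {a b : ℕ} (hY : Y ^ 5 = ζ ^ a • 1)
    (hZ : Z ^ 5 = ζ ^ b • 1) (hW : (Y * Z) ^ 20 = 1) (hab : ¬ 5 ∣ a + b)
    (U : Submodule ℂ (Fin 5 → ℂ)) (h1 : ∀ v ∈ U, Y *ᵥ v ∈ U) (h2 : ∀ v ∈ U, Z *ᵥ v ∈ U) :
    U = ⊥ ∨ U = ⊤ := by
  let y : U →ₗ[ℂ] U := (Matrix.toLin' Y).restrict h1
  let z : U →ₗ[ℂ] U := (Matrix.toLin' Z).restrict h2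
  have hp : ∀ (A : Mat) (g : U →ₗ[ℂ] U), (∀ v, (g v : Fin 5 → ℂ) = A *ᵥ v) → ∀ (n : ℕ) (v : U),
      ((g ^ n) v : Fin 5 → ℂ) = (A ^ n) *ᵥ v := by
    intro A g hg n
    induction n with
    | zero => simp
    | succ n ih => intro v; rw [pow_succ', pow_succ', Module.End.mul_apply, hg, ih, mulVec_mulVec]
  have e1 : y ^ 5 = ζ ^ a • 1 := by
    ext1 v; apply Subtype.ext
    rw [hp Y y (fun _ => rfl), hY]; simp [smul_mulVec]
  have e2 : z ^ 5 = ζ ^ b • 1 := by
    ext1 v; apply Subtype.ext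
    rw [hp Z z (fun _ => rfl), hZ]; simp [smul_mulVec]
  have e3 : (y * z) ^ 20 = 1 := by
    ext1 v; apply Subtype.ext
    rw [hp (Y * Z) (y * z) (fun v => by rw [← mulVec_mulVec]; rfl), hW]; simp
  have d1 := congrArg LinearMap.det e1
  have d2 := congrArg LinearMap.det e2
  have d3 := congrArg LinearMap.det e3
  rw [map_pow, LinearMap.det_smul, map_one, mul_one] at d1 d2
  rw [map_pow, map_mul, map_one, mul_pow, show 20 = 5 * 4 from rfl, pow_mul, pow_mul, d1, d2,
    ← mul_pow, ← mul_pow, ← pow_add, ← pow_mul, ← pow_mul] at d3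
  have h5 := (hζ.pow_eq_one_iff_dvd _).1 d3
  have h6 : 5 ∣ finrank ℂ U := by
    rcases (Nat.Prime.dvd_mul Nat.prime_five).1 h5 with h | h
    · exact absurd h hab
    · rcases (Nat.Prime.dvd_mul Nat.prime_five).1 h with h | h
      · exact h
      · omega
  have h7 : finrank ℂ U ≤ 5 := by simpa using Submodule.finrank_le U
  rcases (by omega : finrank ℂ U = 0 ∨ finrank ℂ U = 5) with h | h
  · exact Or.inl (Submodule.finrank_eq_zero.1 h)
  · exact Or.inr (Submodule.eq_top_of_finrank_eq (by simpa using h))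

lemma Eig_top {A : Mat} {μ : ℂ} (h : Eig A μ = ⊤) : A = μ • 1 := by
  have : Matrix.toLin' (A - μ • 1) = 0 := LinearMap.ker_eq_top.1 h
  exact sub_eq_zero.1 ((LinearEquiv.map_eq_zero_iff _).1 this)

lemma schur {Y Z : Mat}
    (hirr : ∀ U : Submodule ℂ (Fin 5 → ℂ), (∀ v ∈ U, Y *ᵥ v ∈ U) → (∀ v ∈ U, Z *ᵥ v ∈ U) →
      U = ⊥ ∨ U = ⊤) : finrank ℂ (Itw Y Y ⊓ Itw Z Z : Submodule ℂ Mat) ≤ 1 := by
  have : Itw Y Y ⊓ Itw Z Z ≤ Submodule.span ℂ {(1 : Mat)} := by
    rintro M ⟨h1, h2⟩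
    obtain ⟨μ, hμ⟩ := Module.End.exists_eigenvalue (Matrix.toLin' M)
    obtain ⟨v, hv⟩ := hμ.exists_hasEigenvector
    have inv : ∀ A : Mat, M ∈ Itw A A → ∀ v ∈ Eig M μ, A *ᵥ v ∈ Eig M μ := by
      intro A hA v hv
      rw [mem_Eig] at hv ⊢
      rw [mulVec_mulVec, ← mem_Itw.1 hA, ← mulVec_mulVec, hv, mulVec_smul]
    rcases hirr (Eig M μ) (inv Y h1) (inv Z h2) with h | h
    · exfalso
      have : v ∈ Eig M μ := mem_Eig.2 (by simpa using hv.apply_eq_smul)
      rw [h] at this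
      exact hv.2 this
    · exact Submodule.mem_span_singleton.2 ⟨μ, (Eig_top h).symm⟩
  exact (Submodule.finrank_mono this).trans ((finrank_span_le_card _).trans (by simp))

end Pool.Agent.Work.MP_f81df4_al
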