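import Pool.Agent.Work.MP_f81df4_al.TLin
import Pool.Agent.Work.MP_f81df4_al.TCot

/-! Spectral data of unitary matrices and the cotangent form. -/

set_option autoImplicit false

namespace Pool.Agent.Work.MP_f81df4_al

open Matrix Module Complex

/-- `A` is unitarily conjugate to the diagonal matrix `d` -/
def Dg (A : Mat) (d : Fin 5 → ℂ) : Prop := ∃ P : Mat, Pᴴ * P = 1 ∧ A * P = P * diagonal d

lemma exists_Dg {U : Mat} (hU : Uᴴ * U = 1) : ∃ d, Dg U d := by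
  obtain ⟨P, d, h⟩ := unitary_diag hU
  exact ⟨d, P, h⟩

lemma Dg_diagonal (d : Fin 5 → ℂ) : Dg (diagonal d) d := ⟨1, by simp, by simp⟩

namespace Dg

variable {A B : Mat} {d e : Fin 5 → ℂ}

open Classical in
lemma eig (h : Dg A d) (μ : ℂ) :
    finrank ℂ (Eig A μ) = (Finset.univ.filter fun i => d i = μ).card := by
  obtain ⟨P, hP, h⟩ := h
  exact finrank_Eig hP h μ

open Classical in
lemma itw (h : Dg A d) (h' : Dg B e) :
    finrank ℂ (Itw A B) = (Finset.univ.filter fun p : Fin 5 × Fin 5 => d p.1 = e p.2).card := by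
  obtain ⟨P, hP, h⟩ := h
  obtain ⟨Q, hQ, h'⟩ := h'
  exact finrank_Itw hP h hQ h'

lemma det (h : Dg A d) : A.det = ∏ i, d i := by
  obtain ⟨P, hP, h⟩ := h
  have h1 := congrArg Matrix.det h
  have h2 := congrArg Matrix.det hP
  rw [det_mul, det_mul, det_diagonal] at h1
  rw [det_mul, det_one] at h2
  linear_combination (Pᴴ).det * h1 + (∏ i, d i - A.det) * h2

lemma pow (h : Dg A d) (n : ℕ) : Dg (A ^ n) (fun i => d i ^ n) := by
  obtain ⟨P, hP, h⟩ := h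
  refine ⟨P, hP, ?_⟩
  induction n with
  | zero => simp
  | succ n ih =>
    rw [pow_succ', Matrix.mul_assoc, ih, ← Matrix.mul_assoc, h, Matrix.mul_assoc,
      diagonal_mul_diagonal]
    simp [pow_succ']

lemma eq_smul_iff (h : Dg A d) (c : ℂ) : A = c • (1 : Mat) ↔ ∀ i, d i = c := by
  obtain ⟨P, hP, h⟩ := h
  have hP' : P * Pᴴ = 1 := mul_eq_one_comm.1 hP
  constructor
  · rintro rfl i
    have : Pᴴ * (c • (1 : Mat) * P) = Pᴴ * (P * diagonal d) := by rw [h]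
    rw [← Matrix.mul_assoc Pᴴ P, hP, smul_mul_assoc, mul_smul_comm, one_mul, hP, one_mul] at this
    simpa using (congrFun (congrFun this i) i).symm
  · intro hd
    have : d = fun _ => c := funext hd
    calc A = A * P * Pᴴ := by rw [Matrix.mul_assoc, hP', mul_one]
      _ = _ := by
        rw [h, this, ← smul_one_eq_diagonal, mul_smul_comm, mul_one, smul_mul_assoc, hP']

lemma smul (h : Dg A d) (c : ℂ) : Dg (c • A) (fun i => c * d i) := by
  obtain ⟨P, hP, h⟩ := h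
  refine ⟨P, hP, ?_⟩
  rw [smul_mul_assoc, h, ← mul_smul_comm, ← diagonal_smul]; rfl

lemma adj (h : Dg A d) : Dg Aᴴ (fun i => star (d i)) := by
  obtain ⟨P, hP, h⟩ := h
  have hP' : P * Pᴴ = 1 := mul_eq_one_comm.1 hP
  refine ⟨P, hP, ?_⟩
  have := congrArg conjTranspose h
  rw [conjTranspose_mul, conjTranspose_mul, diagonal_conjTranspose] at this
  calc Aᴴ * P = P * (Pᴴ * Aᴴ) * P := by rw [← Matrix.mul_assoc, hP', one_mul]
    _ = _ := by rw [this, Matrix.mul_assoc, Matrix.mul_assoc, hP, mul_one]; rfl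

lemma eq_zero (h : Dg A d) {μ : ℂ} (hμ : ∀ i, d i ≠ μ) {f : Fin 5 → ℂ} (hf : A *ᵥ f = μ • f) :
    f = 0 := by
  have h1 := h.eig μ
  rw [Finset.filter_false_of_mem (fun i _ => hμ i), Finset.card_empty,
    Submodule.finrank_eq_zero] at h1
  have : f ∈ Eig A μ := mem_Eig.2 hf
  rwa [h1] at this

lemma exists_eigvec (h : Dg A d) (i : Fin 5) : ∃ f : Fin 5 → ℂ, f ≠ 0 ∧ A *ᵥ f = d i • f := by
  classical
  have h1 := h.eig (d i)
  have : Eig A (d i) ≠ ⊥ := by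
    intro h2
    rw [h2, finrank_bot, eq_comm, Finset.card_eq_zero, Finset.filter_eq_empty_iff] at h1
    exact h1 (Finset.mem_univ i) rfl
  obtain ⟨f, hf, hf0⟩ := Submodule.exists_mem_ne_zero_of_ne_bot this
  exact ⟨f, hf0, mem_Eig.1 hf⟩

end Dg

lemma cot_form {x Y P : Mat} {d : Fin 5 → ℂ} (hx : xᴴ = x) (hxx : x * x = 1) (hP : Pᴴ * P = 1)
    (hY : Y * P = P * diagonal d) {μ : ℂ} {c : Fin 5 → ℝ}
    (hc : ∀ i, d i + μ = -I * c i * (d i - μ)) {f : Fin 5 → ℂ} (hf : (x * Y) *ᵥ f = μ • f) :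
    x *ᵥ (Y *ᵥ f - μ • f) = -(Y *ᵥ f - μ • f) ∧
      ∑ i, c i * ‖(Pᴴ *ᵥ (Y *ᵥ f - μ • f)) i‖ ^ 2 = 0 := by
  have hP' : P * Pᴴ = 1 := mul_eq_one_comm.1 hP
  have h1 : x *ᵥ (Y *ᵥ f) = μ • f := by rw [mulVec_mulVec, hf]
  have h2 : x *ᵥ (μ • f) = Y *ᵥ f := by rw [← h1, mulVec_mulVec, hxx, one_mulVec]
  have h3 : x *ᵥ (Y *ᵥ f - μ • f) = -(Y *ᵥ f - μ • f) := by rw [mulVec_sub, h1, h2, neg_sub]
  have h4 : x *ᵥ (Y *ᵥ f + μ • f) = Y *ᵥ f + μ • f := by rw [mulVec_add, h1, h2, add_comm]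
  refine ⟨h3, ?_⟩
  set w := Y *ᵥ f - μ • f with hw
  set w' := Y *ᵥ f + μ • f with hw'
  have h5 : star w ⬝ᵥ w' = 0 := by
    have : star w ⬝ᵥ w' = -(star w ⬝ᵥ w') := by
      conv_lhs => rw [← h4, dotProduct_mulVec, ← hx, ← star_mulVec, h3, star_neg, neg_dotProduct]
    linear_combination this / 2
  have h6 : star (Pᴴ *ᵥ w) ⬝ᵥ (Pᴴ *ᵥ w') = 0 := by
    rw [star_mulVec, conjTranspose_conjTranspose, ← dotProduct_mulVec, mulVec_mulVec, hP',
      one_mulVec, h5]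
  have h7 : Pᴴ *ᵥ (Y *ᵥ f) = diagonal d *ᵥ (Pᴴ *ᵥ f) := by
    rw [mulVec_mulVec, mulVec_mulVec]
    congr 1
    calc Pᴴ * Y = Pᴴ * (Y * P) * Pᴴ := by rw [Matrix.mul_assoc, Matrix.mul_assoc, hP', mul_one]
      _ = _ := by rw [hY, ← Matrix.mul_assoc, hP, one_mul]
  have h8 : ∀ i, (Pᴴ *ᵥ w') i = -I * c i * (Pᴴ *ᵥ w) i := by
    intro i
    simp only [hw, hw', mulVec_add, mulVec_sub, h7, mulVec_smul, Pi.add_apply, Pi.sub_apply,
      mulVec_diagonal, Pi.smul_apply, smul_eq_mul]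
    linear_combination (Pᴴ *ᵥ f) i * hc i
  have h9 : -I * ((∑ i, c i * ‖(Pᴴ *ᵥ w) i‖ ^ 2 : ℝ) : ℂ) = 0 := by
    rw [← h6, dotProduct, ofReal_sum, Finset.mul_sum]
    refine Finset.sum_congr rfl fun i _ => ?_
    rw [h8, Pi.star_apply, RCLike.star_def]
    push_cast
    rw [← conj_mul']; ring
  exact_mod_cast (mul_eq_zero.1 h9).resolve_left (by simp)

lemma cot_excl {x Y : Mat} {d : Fin 5 → ℂ} (hx : xᴴ = x) (hxx : x * x = 1) (hY : Dg Y d)
    {μ ν : ℂ} {c c' : Fin 5 → ℝ} (hc : ∀ i, d i + μ = -I * c i * (d i - μ) ∧ d i - μ ≠ 0)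
    (hc' : ∀ i, d i + ν = -I * c' i * (d i - ν) ∧ d i - ν ≠ 0)
    (h1 : finrank ℂ (Eig x (-1)) ≤ finrank ℂ (Eig (x * Y) μ)) {f : Fin 5 → ℂ} (hf0 : f ≠ 0)
    (hf : (x * Y) *ᵥ f = ν • f) (s t : ℝ) (hpos : ∀ i, 0 < s * c i + t * c' i) : False := by
  obtain ⟨P, hP, hYP⟩ := id hY
  have hP' : P * Pᴴ = 1 := mul_eq_one_comm.1 hP
  obtain ⟨a1, a2⟩ := cot_form hx hxx hP hYP (fun i => (hc' i).1) hf
  have hinj : Function.Injective (Matrix.toLin' (Y - μ • (1 : Mat))) := by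
    rw [injective_iff_map_eq_zero]
    intro v hv
    exact hY.eq_zero (fun i => sub_ne_zero.1 (hc i).2) (mem_Eig.1 hv)
  have hL : ∀ v, Matrix.toLin' (Y - μ • (1 : Mat)) v = Y *ᵥ v - μ • v := by
    intro v; simp
  have hle : (Eig (x * Y) μ).map (Matrix.toLin' (Y - μ • (1 : Mat))) ≤ Eig x (-1) := by
    rintro _ ⟨v, hv, rfl⟩
    rw [mem_Eig, hL, (cot_form hx hxx hP hYP (fun i => (hc i).1) (mem_Eig.1 hv)).1, neg_one_smul]
  have heq := Submodule.eq_of_le_of_finrank_le hle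
    (by rwa [(Submodule.equivMapOfInjective _ hinj _).finrank_eq.symm])
  have hw : Y *ᵥ f - ν • f ∈ Eig x (-1) := by rw [mem_Eig, a1, neg_one_smul]
  rw [← heq] at hw
  obtain ⟨v, hv, hvw⟩ := hw
  have a3 := (cot_form hx hxx hP hYP (fun i => (hc i).1) (mem_Eig.1 hv)).2
  rw [← hL, hvw] at a3
  have a4 : ∑ i, (s * c i + t * c' i) * ‖(Pᴴ *ᵥ (Y *ᵥ f - ν • f)) i‖ ^ 2 = 0 := by
    simp only [add_mul, Finset.sum_add_distrib, mul_assoc, ← Finset.mul_sum, a2, a3]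
    simp
  rw [Finset.sum_eq_zero_iff_of_nonneg fun i _ => mul_nonneg (hpos i).le (by positivity)] at a4
  have a5 : Pᴴ *ᵥ (Y *ᵥ f - ν • f) = 0 := by
    ext i
    simpa using (mul_eq_zero.1 (a4 i (Finset.mem_univ i))).resolve_left (hpos i).ne'
  have a6 : Y *ᵥ f - ν • f = 0 := by
    rw [← one_mulVec (Y *ᵥ f - ν • f), ← hP', ← mulVec_mulVec, a5, mulVec_zero]
  exact hf0 (hY.eq_zero (fun i => sub_ne_zero.1 (hc' i).2) (sub_eq_zero.1 a6))

/-- multiplicities -/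
def cnt {κ : Type} [DecidableEq κ] (k : Fin 5 → κ) (j : κ) : ℕ :=
  (Finset.univ.filter fun i => k i = j).card

lemma card_pairs {κ : Type} [DecidableEq κ] [Fintype κ] (k l : Fin 5 → κ) :
    (Finset.univ.filter fun p : Fin 5 × Fin 5 => k p.1 = l p.2).card = ∑ j, cnt k j * cnt l j := by
  rw [Finset.card_eq_sum_card_fiberwise (f := fun p => k p.1) (t := Finset.univ) (by simp)]
  refine Finset.sum_congr rfl fun j _ => ?_
  rw [cnt, cnt, ← Finset.card_product]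
  congr 1
  ext p
  simp only [Finset.mem_filter, Finset.mem_univ, true_and, Finset.mem_product]
  constructor
  · rintro ⟨h, rfl⟩; exact ⟨rfl, h.symm⟩
  · rintro ⟨h, h'⟩; exact ⟨h.trans h'.symm, h⟩

lemma Dg.itw_cnt {κ : Type} [DecidableEq κ] [Fintype κ] {g : κ → ℂ} (hg : Function.Injective g)
    {A B : Mat} {k l : Fin 5 → κ} (hA : Dg A fun i => g (k i)) (hB : Dg B fun i => g (l i)) :
    finrank ℂ (Itw A B) = ∑ j, cnt k j * cnt l j := by
  rw [hA.itw hB, ← card_pairs]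
  congr 1
  ext p
  simp [hg.eq_iff]

lemma Dg.eig_cnt {κ : Type} [DecidableEq κ] {g : κ → ℂ} (hg : Function.Injective g)
    {A : Mat} {k : Fin 5 → κ} (hA : Dg A fun i => g (k i)) (j : κ) :
    finrank ℂ (Eig A (g j)) = cnt k j := by
  rw [hA.eig, cnt]
  congr 1
  ext p
  simp [hg.eq_iff]

end Pool.Agent.Work.MP_f81df4_al
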