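import Pool.Agent.Work.MP_f81df4_al.TSpec

/-! Uniqueness of the projective representation in the class two. -/

set_option autoImplicit false

namespace Pool.Agent.Work.MP_f81df4_al

open Matrix Module Complex

/-- pairs of special unitary matrices with prescribed fifth powers and involutive product -/
structure Trip (m : ℕ) (Y Z : Mat) : Prop where
  uY : Yᴴ * Y = 1
  uZ : Zᴴ * Z = 1
  dY : Y.det = 1
  dZ : Z.det = 1
  pY : Y ^ 5 = (eta ^ 5) ^ m • (1 : Mat)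
  pZ : Z ^ 5 = (eta ^ 5) ^ m • (1 : Mat)
  sq : Y * Z * (Y * Z) = 1

lemma Trip.irr {m : ℕ} {Y Z : Mat} (T : Trip m Y Z) (hm : ¬ 5 ∣ m + m)
    (U : Submodule ℂ (Fin 5 → ℂ)) (h1 : ∀ v ∈ U, Y *ᵥ v ∈ U) (h2 : ∀ v ∈ U, Z *ᵥ v ∈ U) :
    U = ⊥ ∨ U = ⊤ :=
  irred zeta_prim T.pY T.pZ (by rw [show 20 = 2 * 10 from rfl, pow_mul, pow_two, T.sq, one_pow])
    hm U h1 h2

lemma Trip.ux {m : ℕ} {Y Z : Mat} (T : Trip m Y Z) : (Y * Z)ᴴ * (Y * Z) = 1 := by
  rw [conjTranspose_mul, Matrix.mul_assoc, ← Matrix.mul_assoc Yᴴ, T.uY, one_mul, T.uZ]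

lemma Trip.herm {m : ℕ} {Y Z : Mat} (T : Trip m Y Z) : (Y * Z)ᴴ = Y * Z := by
  calc (Y * Z)ᴴ = (Y * Z)ᴴ * (Y * Z * (Y * Z)) := by rw [T.sq, mul_one]
    _ = _ := by rw [← Matrix.mul_assoc, T.ux, one_mul]

lemma Trip.xY {m : ℕ} {Y Z : Mat} (T : Trip m Y Z) : Y * Z * Y = Zᴴ := by
  rw [← T.herm, conjTranspose_mul, Matrix.mul_assoc, T.uY, mul_one]

lemma ep_two : ep 2 = eta ^ 10 := by rw [ep, ← pow_mul]; rfl

lemma spec2 {Y : Mat} (uY : Yᴴ * Y = 1) (dY : Y.det = 1) (pY : Y ^ 5 = (eta ^ 5) ^ 2 • (1 : Mat)) :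
    ∃ k : Fin 5 → Fin 5, Dg Y (fun i => eta ^ 2 * ep (k i)) ∧ ∑ i, k i = 3 := by
  obtain ⟨d, hd⟩ := exists_Dg uY
  have h1 := ((hd.pow 5).eq_smul_iff _).1 pY
  have h0 : eta ^ 2 ≠ 0 := pow_ne_zero _ eta_ne
  have h2 : ∀ i, ∃ t, d i / eta ^ 2 = ep t := fun i => exists_ep (by
    rw [div_pow, h1, ← pow_mul, ← pow_mul, div_self (pow_ne_zero _ eta_ne)])
  choose k hk using h2
  have h3 : d = fun i => eta ^ 2 * ep (k i) := by
    ext i; rw [← hk, mul_div_cancel₀ _ h0]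
  subst h3
  refine ⟨k, hd, ?_⟩
  have h4 := hd.det
  rw [dY, Finset.prod_mul_distrib, ← ep_sum] at h4
  have h5 : ep (2 + ∑ i, k i) = ep 0 := by
    rw [ep_add, ep_zero, h4, ep_two]; simp [← pow_mul]
  have h6 := ep_inj h5
  generalize ∑ i, k i = s at h6
  revert s; decide

/-- signs -/
def sg : Fin 2 → ℂ := ![1, -1]

lemma sg_inj : Function.Injective sg := by
  intro a b h
  fin_cases a <;> fin_cases b <;> simp [sg] at h ⊢ <;> norm_num at h

lemma specx {x : Mat} (ux : xᴴ * x = 1) (hx : x * x = 1) (dx : x.det = 1) :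
    ∃ b : Fin 5 → Fin 2, Dg x (fun i => sg (b i)) ∧ ∑ i, b i = 0 := by
  obtain ⟨d, hd⟩ := exists_Dg ux
  have h1 := ((hd.pow 2).eq_smul_iff 1).1 (by rw [pow_two, hx, one_smul])
  have h2 : ∀ i, ∃ t, d i = sg t := fun i => by
    rcases sq_eq_one_iff.1 (h1 i) with h | h
    exacts [⟨0, h⟩, ⟨1, h⟩]
  choose b hb using h2
  obtain rfl : d = fun i => sg (b i) := funext hb
  refine ⟨b, hd, sg_inj ?_⟩
  have h3 : ∀ s t, sg (s + t) = sg s * sg t := by
    intro s t; fin_cases s <;> fin_cases t <;> simp [sg]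
  have h4 := hd.det
  rw [dx] at h4
  simp only [Fin.sum_univ_five, Fin.prod_univ_five, h3] at h4 ⊢
  exact h4.symm

/-- the multiplicity type -/
def Typ (k : Fin 5 → Fin 5) (a : Fin 5) : Prop := ∀ j, cnt k (a + j) = ![2, 1, 0, 1, 1] j

instance (k : Fin 5 → Fin 5) (a : Fin 5) : Decidable (Typ k a) := by unfold Typ; infer_instance

lemma typ_dec : ∀ a b c d e : Fin 5, a + b + c + d + e = 3 →
    7 ≤ ∑ j, cnt ![a, b, c, d, e] j * cnt ![a, b, c, d, e] j ∧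
    (∑ j, cnt ![a, b, c, d, e] j * cnt ![a, b, c, d, e] j ≤ 7 → ∃ α, Typ ![a, b, c, d, e] α) := by
  decide +kernel

lemma sg_dec : ∀ a b c d e : Fin 2, a + b + c + d + e = 0 →
    13 ≤ ∑ j, cnt ![a, b, c, d, e] j * cnt ![a, b, c, d, e] j ∧
    (∑ j, cnt ![a, b, c, d, e] j * cnt ![a, b, c, d, e] j ≤ 13 →
      cnt ![a, b, c, d, e] 0 = 3 ∧ cnt ![a, b, c, d, e] 1 = 2) := by
  decide +kernel

lemma vec5 {κ : Type} (k : Fin 5 → κ) : k = ![k 0, k 1, k 2, k 3, k 4] := by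
  ext i; fin_cases i <;> rfl

lemma g2_inj : Function.Injective fun j => eta ^ 2 * ep j := fun _ _ h =>
  ep_inj (mul_left_cancel₀ (pow_ne_zero _ eta_ne) h)

lemma numC : ∀ s : Fin 5, s ≠ 1 → ∃ j : Fin 5, j ≠ 2 ∧ ∃ σ τ : ℝ, ∀ r : Fin 5, r ≠ 2 →
    0 < σ * Kc (4 + 5 * (s + r).val) + τ * Kc (4 + 5 * (s + r + j).val) := by
  have h4 := K4; have h9 := K9; have h11 := K11; have h6 := K6; have h1 := K1
  have e14 : Kc 14 = -Kc 11 := Kc_neg rfl
  have e19 : Kc 19 = -Kc 6 := Kc_neg rfl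
  have e24 : Kc 24 = -Kc 1 := Kc_neg rfl
  intro s hs
  fin_cases s
  · refine ⟨3, by decide, -1, -2, fun r hr => ?_⟩
    fin_cases r
    · change 0 < _ * Kc 4 + _ * Kc 19; linarith
    · change 0 < _ * Kc 9 + _ * Kc 24; linarith
    · exact absurd rfl hr
    · change 0 < _ * Kc 19 + _ * Kc 9; linarith
    · change 0 < _ * Kc 24 + _ * Kc 14; linarith
  · exact absurd rfl hs
  · refine ⟨1, by decide, 2, -1, fun r hr => ?_⟩
    fin_cases r
    · change 0 < _ * Kc 14 + _ * Kc 19; linarith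
    · change 0 < _ * Kc 19 + _ * Kc 24; linarith
    · exact absurd rfl hr
    · change 0 < _ * Kc 4 + _ * Kc 9; linarith
    · change 0 < _ * Kc 9 + _ * Kc 14; linarith
  · refine ⟨4, by decide, -2, 1, fun r hr => ?_⟩
    fin_cases r
    · change 0 < _ * Kc 19 + _ * Kc 14; linarith
    · change 0 < _ * Kc 24 + _ * Kc 19; linarith
    · exact absurd rfl hr
    · change 0 < _ * Kc 9 + _ * Kc 4; linarith
    · change 0 < _ * Kc 14 + _ * Kc 9; linarith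
  · refine ⟨4, by decide, -4, -1, fun r hr => ?_⟩
    fin_cases r
    · change 0 < _ * Kc 24 + _ * Kc 19; linarith
    · change 0 < _ * Kc 4 + _ * Kc 24; linarith
    · exact absurd rfl hr
    · change 0 < _ * Kc 14 + _ * Kc 9; linarith
    · change 0 < _ * Kc 19 + _ * Kc 14; linarith

lemma Trip.shape {Y Z : Mat} (T : Trip 2 Y Z) : ∃ (k l : Fin 5 → Fin 5) (b : Fin 5 → Fin 2)
    (α β : Fin 5), Dg Y (fun i => eta ^ 2 * ep (k i)) ∧ Dg Z (fun i => eta ^ 2 * ep (l i)) ∧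
      Dg (Y * Z) (fun i => sg (b i)) ∧ Typ k α ∧ Typ l β ∧ cnt b 0 = 3 ∧ cnt b 1 = 2 ∧
      α + β = 1 := by
  obtain ⟨k, hk, sk⟩ := spec2 T.uY T.dY T.pY
  obtain ⟨l, hl, sl⟩ := spec2 T.uZ T.dZ T.pZ
  obtain ⟨b, hb, sb⟩ := specx T.ux T.sq (by rw [det_mul, T.dY, T.dZ, mul_one])
  rw [Fin.sum_univ_five] at sk sl sb
  have a1 := typ_dec _ _ _ _ _ sk
  have a2 := typ_dec _ _ _ _ _ sl
  have a3 := sg_dec _ _ _ _ _ sb
  rw [← vec5] at a1 a2 a3
  have h := scott_mat (Y1 := Y) (Z1 := Z) T.uY T.uZ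
  have h' := schur (T.irr (by decide))
  rw [hk.itw_cnt g2_inj hk, hl.itw_cnt g2_inj hl, hb.itw_cnt sg_inj hb] at h
  obtain ⟨α, hα⟩ := a1.2 (by omega)
  obtain ⟨β, hβ⟩ := a2.2 (by omega)
  obtain ⟨b0, b1⟩ := a3.2 (by omega)
  refine ⟨k, l, b, α, β, hk, hl, hb, hα, hβ, b0, b1, ?_⟩
  by_contra hs
  obtain ⟨j, hj, σ, τ, hpos⟩ := numC _ hs
  have hu := hl.adj
  rw [← T.xY] at hu
  have ginj : Function.Injective fun j => star (eta ^ 2 * ep j) := star_injective.comp g2_inj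
  have rel : ∀ (j i : Fin 5), eta ^ 2 * ep (k i) =
      star (eta ^ 2 * ep j) * (eta ^ 4 * ep (k i + j)) := by
    intro j i
    rw [ep_add, star_mul', star_pow]
    linear_combination (-(eta ^ 2 * ep (k i)) * (star eta * eta + 1)) * star_eta
      - (star eta ^ 2 * eta ^ 4 * ep (k i)) * star_ep j
  have hne : ∀ j, star (eta ^ 2 * ep j) ≠ 0 := fun j =>
    star_ne_zero.2 (mul_ne_zero (pow_ne_zero _ eta_ne) (ep_ne j))
  have c1 : 0 < cnt l (β + j) := by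
    rw [hβ]; clear hpos; revert j; decide
  obtain ⟨i0, hi0⟩ := Finset.card_pos.1 c1
  obtain ⟨f, hf0, hf⟩ := hu.exists_eigvec i0
  rw [(Finset.mem_filter.1 hi0).2] at hf
  refine cot_excl T.herm T.sq hk
    (fun i => cot_rel (a := 4) (by norm_num) (by norm_num) _ (hne β) (rel β i))
    (fun i => cot_rel (a := 4) (by norm_num) (by norm_num) _ (hne (β + j)) (rel (β + j) i))
    ?_ hf0 hf σ τ fun i => ?_
  · have e1 := hu.eig_cnt ginj β
    have e2 := hb.eig_cnt sg_inj 1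
    have e3 := hβ 0
    rw [add_zero] at e3
    change finrank ℂ (Eig (Y * Z) (-1)) = _ at e2
    rw [e1, e2, e3, b1]; rfl
  · have hr : k i - α ≠ 2 := by
      intro h2
      have e := hα 2
      rw [← h2, add_sub_cancel, h2] at e
      change cnt k (k i) = 0 at e
      rw [cnt, Finset.card_eq_zero, Finset.filter_eq_empty_iff] at e
      exact e (Finset.mem_univ i) rfl
    have := hpos _ hr
    rwa [show α + β + (k i - α) = k i + β by abel, add_assoc] at this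

theorem uniq2 {Y1 Z1 Y2 Z2 : Mat} (T1 : Trip 2 Y1 Z1) (T2 : Trip 2 Y2 Z2) :
    ∃ (n : Fin 5) (M : Mat), M ≠ 0 ∧ Y1 * M = ep n • (M * Y2) ∧ ep n • (Z1 * M) = M * Z2 := by
  obtain ⟨k, l, b, α, β, hk, hl, hb, hα, hβ, b0, b1, hs⟩ := T1.shape
  obtain ⟨k', l', b', α', β', hk', hl', hb', hα', hβ', b0', b1', hs'⟩ := T2.shape
  set n := α - α' with hn
  have hY : Dg (ep n • Y2) fun i => eta ^ 2 * ep (n + k' i) := by
    have := hk'.smul (ep n)
    simp only [ep_add]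
    simpa only [mul_left_comm] using this
  have hZ : Dg (ep (-n) • Z2) fun i => eta ^ 2 * ep (-n + l' i) := by
    have := hl'.smul (ep (-n))
    simp only [ep_add]
    simpa only [mul_left_comm] using this
  have hnn : ep n * ep (-n) = 1 := by rw [← ep_add, add_neg_cancel, ep_zero]
  have un : ∀ (t : Fin 5) (A : Mat), Aᴴ * A = 1 → (ep t • A)ᴴ * (ep t • A) = 1 := by
    intro t A hA
    rw [conjTranspose_smul, smul_mul_smul_comm, star_ep, hA, one_smul]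
  have h := scott_mat (Y1 := Y1) (Z1 := Z1) (un n _ T2.uY) (un (-n) _ T2.uZ)
  rw [smul_mul_smul_comm, hnn, one_smul, hk.itw_cnt g2_inj hY, hl.itw_cnt g2_inj hZ,
    hb.itw_cnt sg_inj hb', Fin.sum_univ_two, b0, b1, b0', b1'] at h
  have sh : ∀ (k k' : Fin 5 → Fin 5) (α α' n : Fin 5), Typ k α → Typ k' α' → α = n + α' →
      ∑ j, cnt k j * cnt (fun i => n + k' i) j = 7 := by
    intro k k' α α' n h h' e
    rw [← Equiv.sum_comp (Equiv.addLeft α)]
    have : ∀ j, cnt (fun i => n + k' i) (α + j) = cnt k' (α' + j) := by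
      intro j; simp [cnt, e, add_assoc]
    simp only [Equiv.coe_addLeft, this, h _, h' _]
    decide
  rw [sh k k' α α' n hα hα' (by rw [hn]; abel), sh l l' β β' (-n) hβ hβ'
    (by rw [hn, eq_sub_of_add_eq' hs, eq_sub_of_add_eq' hs']; abel)] at h
  have key : ∃ M : Mat, M ≠ 0 ∧ M ∈ Itw Y1 (ep n • Y2) ∧ M ∈ Itw Z1 (ep (-n) • Z2) := by
    by_cases h1 : Itw Y1 (ep n • Y2) ⊓ Itw Z1 (ep (-n) • Z2) = ⊥
    · have h2 : Itw (ep n • Y2) Y1 ⊓ Itw (ep (-n) • Z2) Z1 ≠ ⊥ := by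
        intro h2
        rw [h1, h2, finrank_bot] at h
        omega
      obtain ⟨M, hM, hM0⟩ := Submodule.exists_mem_ne_zero_of_ne_bot h2
      have fl : ∀ A B : Mat, Aᴴ * A = 1 → Bᴴ * B = 1 → M ∈ Itw A B → Mᴴ ∈ Itw B A := by
        intro A B hA hB h
        rw [mem_Itw] at h ⊢
        have := congrArg conjTranspose h
        rw [conjTranspose_mul, conjTranspose_mul] at this
        calc B * Mᴴ = B * (Mᴴ * Aᴴ) * A := by
              rw [Matrix.mul_assoc, Matrix.mul_assoc, hA, mul_one]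
          _ = _ := by rw [this, ← Matrix.mul_assoc, mul_eq_one_comm.1 hB, one_mul]
      exact ⟨Mᴴ, by simpa using hM0, fl _ _ (un n _ T2.uY) T1.uY hM.1,
        fl _ _ (un (-n) _ T2.uZ) T1.uZ hM.2⟩
    · obtain ⟨M, hM, hM0⟩ := Submodule.exists_mem_ne_zero_of_ne_bot h1
      exact ⟨M, hM0, hM.1, hM.2⟩
  obtain ⟨M, hM0, h1, h2⟩ := key
  refine ⟨n, M, hM0, ?_, ?_⟩
  · rw [mem_Itw.1 h1, mul_smul_comm]
  · rw [mem_Itw.1 h2, mul_smul_comm, smul_smul, hnn, one_smul]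

lemma Trip.flip {Y Z : Mat} (T : Trip 3 Y Z) : Trip 2 Zᴴ Yᴴ := by
  have e : star ((eta ^ 5) ^ 3) = (eta ^ 5) ^ 2 := by
    have h := star_ep 3
    have h2 : ep 2 * ep 3 = 1 := by rw [← ep_add]; exact ep_zero
    exact mul_right_cancel₀ (ep_ne 3) (h.trans h2.symm)
  refine ⟨?_, ?_, ?_, ?_, ?_, ?_, ?_⟩
  · rw [conjTranspose_conjTranspose]; exact mul_eq_one_comm.1 T.uZ
  · rw [conjTranspose_conjTranspose]; exact mul_eq_one_comm.1 T.uY
  · rw [det_conjTranspose, T.dZ, star_one]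
  · rw [det_conjTranspose, T.dY, star_one]
  · rw [← conjTranspose_pow, T.pZ, conjTranspose_smul, e, conjTranspose_one]
  · rw [← conjTranspose_pow, T.pY, conjTranspose_smul, e, conjTranspose_one]
  · rw [← conjTranspose_mul, T.herm, T.sq]

theorem uniq {m : ℕ} (hm : m = 2 ∨ m = 3) {Y1 Z1 Y2 Z2 : Mat} (T1 : Trip m Y1 Z1)
    (T2 : Trip m Y2 Z2) :
    ∃ (n : Fin 5) (M : Mat), M ≠ 0 ∧ Y1 * M = ep n • (M * Y2) ∧ ep n • (Z1 * M) = M * Z2 := by
  rcases hm with rfl | rfl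
  · exact uniq2 T1 T2
  · obtain ⟨n, M, h0, h1, h2⟩ := uniq2 T1.flip T2.flip
    refine ⟨n, M, h0, ?_, ?_⟩
    · calc Y1 * M = Y1 * (M * Y2ᴴ) * Y2 := by
            rw [Matrix.mul_assoc, Matrix.mul_assoc, T2.uY, mul_one]
        _ = _ := by
            rw [← h2, mul_smul_comm, ← Matrix.mul_assoc, mul_eq_one_comm.1 T1.uY, one_mul,
              smul_mul_assoc]
    · calc ep n • (Z1 * M) = Z1 * (ep n • (M * Z2ᴴ)) * Z2 := by
            rw [mul_smul_comm, smul_mul_assoc, Matrix.mul_assoc, Matrix.mul_assoc, T2.uZ, mul_one]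
        _ = _ := by rw [← h1, ← Matrix.mul_assoc, mul_eq_one_comm.1 T1.uZ, one_mul]

end Pool.Agent.Work.MP_f81df4_al
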